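import Pool.Agent.Helper58.SF.StP

/-!
# Module ACC of project TW (crosscuts exist)
-/

set_option autoImplicit false

namespace Pool.Agent.Helper58.SFP

open Set Topology Pool.Agent.Helper13.TR Pool.Agent.Helper58.SF
open Pool.Agent.Helper13.TW (IsArc Spl IsSCC dch Chn Splt GT CSy MP Val LR MCell StARB StARX StSCL StUAR StINF StLIN StAC1 StSDM)

private lemma arc_ends {S : Type} [TopologicalSpace S] {D : Set S} {p q : S} (h : IsArc D p q) :
    p ∈ D ∧ q ∈ D := by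
  obtain ⟨γ, -, rfl⟩ := h
  exact ⟨⟨0, γ.source⟩, ⟨1, γ.target⟩⟩

private lemma access (hULC : StULC) (hINF : StINF) (hCLS : StCLS) (S : Type) [MetricSpace S]
    [LocallyPathConnectedSpace S] [PathConnectedSpace S] (ω : Ch S 1 → S → ℤ) (V : Set S)
    (hG : WN S ω V) (J : Set S) (hJ : Ess ω V J) (p : S) (hp : p ∈ J) :
    ∃ x ∈ Ins ω J, JoinedIn (Ins ω J ∪ {p}) x p := by
  have step : ∀ (n : ℕ) (O : {O : Set S // IsOpen O ∧ p ∈ O}), ∃ O' : {O : Set S // IsOpen O ∧ p ∈ O},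
      O'.1 ⊆ O.1 ∧ ∀ x ∈ O'.1 ∩ Ins ω J, ∀ y ∈ O'.1 ∩ Ins ω J,
        JoinedIn (Metric.ball p (1 / ((n : ℝ) + 1)) ∩ Ins ω J) x y := by
    intro n O
    obtain ⟨O', h1, h2, h3, h4⟩ := hULC S ω V hG J hJ p hp (Metric.ball p (1 / ((n : ℝ) + 1)) ∩ O.1)
      (Metric.isOpen_ball.inter O.2.1) ⟨Metric.mem_ball_self (by positivity), O.2.2⟩
    refine ⟨⟨O', h1, h2⟩, fun z hz => (h3 hz).2, fun x hx y hy => ?_⟩
    exact (h4 x hx y hy).mono fun z hz => ⟨hz.1.1, hz.2⟩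
  choose F hF1 hF2 using step
  let G : ℕ → {O : Set S // IsOpen O ∧ p ∈ O} := fun n =>
    Nat.rec ⟨univ, isOpen_univ, mem_univ p⟩ (fun n O => F n O) n
  have hGs : ∀ n, G (n + 1) = F n (G n) := fun n => rfl
  have hne : ∀ n, ∃ x, x ∈ (G (n + 1)).1 ∩ Ins ω J := by
    intro n
    have hcl : p ∈ closure (Ins ω J) := (hCLS S ω V hG J hJ).1 hp
    obtain ⟨x, hx⟩ := mem_closure_iff.mp hcl (G (n + 1)).1 (G (n + 1)).2.1 (G (n + 1)).2.2
    exact ⟨x, hx⟩
  choose x hx using hne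
  have hjoin : ∀ n : ℕ, JoinedIn (Metric.ball p (1 / ((n : ℝ) + 1)) ∩ Ins ω J) (x n) (x (n + 1)) := by
    intro n
    refine hF2 n (G n) (x n) (hx n) (x (n + 1)) ⟨?_, (hx (n + 1)).2⟩
    have h1 := (hx (n + 1)).1
    rw [hGs (n + 1)] at h1
    exact hF1 (n + 1) (G (n + 1)) h1
  have hfin := hINF S p (fun n : ℕ => Metric.ball p (1 / ((n : ℝ) + 1)) ∩ Ins ω J) x hjoin (by
    intro O hO hpO
    obtain ⟨ε, hε, hb⟩ := Metric.isOpen_iff.mp hO p hpO
    obtain ⟨n₀, hn₀⟩ := exists_nat_one_div_lt hε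
    refine ⟨n₀, fun n hn z hz => hb ?_⟩
    refine Metric.ball_subset_ball ?_ hz.1
    refine le_trans ?_ hn₀.le
    apply one_div_le_one_div_of_le (by positivity)
    have : (n₀ : ℝ) ≤ n := by exact_mod_cast hn
    linarith)
  refine ⟨x 0, (hx 0).2, hfin.mono ?_⟩
  rintro z (hz | hz)
  · obtain ⟨n, hn⟩ := mem_iUnion.mp hz
    exact Or.inl hn.2
  · exact Or.inr hz

theorem hACC (hULC : StULC) (hINF : StINF) (hARX : StARX) (hTWO : StTWO) (hCLS : StCLS) : StACC := by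
  intro S _ _ _ ω V hG J hJ p hp q hq hpq
  obtain ⟨x, hx, hxp⟩ := access hULC hINF hCLS S ω V hG J hJ p hp
  obtain ⟨y, hy, hyq⟩ := access hULC hINF hCLS S ω V hG J hJ q hq
  have hxy : JoinedIn (Ins ω J) x y := (hTWO S ω V hG J hJ).1.2.joinedIn x hx y hy
  have h1 : JoinedIn (Ins ω J ∪ {p, q}) p q := by
    have a1 : JoinedIn (Ins ω J ∪ {p, q}) p x := hxp.symm.mono (by
      rintro z (hz | hz)
      · exact Or.inl hz
      · exact Or.inr (Or.inl hz))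
    have a2 : JoinedIn (Ins ω J ∪ {p, q}) x y := hxy.mono subset_union_left
    have a3 : JoinedIn (Ins ω J ∪ {p, q}) y q := hyq.mono (by
      rintro z (hz | hz)
      · exact Or.inl hz
      · exact Or.inr (Or.inr hz))
    exact (a1.trans a2).trans a3
  obtain ⟨D, hD, hA⟩ := hARX S (Ins ω J ∪ {p, q}) p q h1 hpq
  refine ⟨D, hA, ?_, ?_⟩
  · apply Subset.antisymm
    · rintro z ⟨hzD, hzJ⟩
      rcases hD hzD with h | h
      · exact absurd hzJ h.1
      · exact h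
    · rintro z (rfl | hz)
      · exact ⟨(arc_ends hA).1, hp⟩
      · rw [mem_singleton_iff] at hz
        rw [hz]
        exact ⟨(arc_ends hA).2, hq⟩
  · rintro z ⟨hzD, hz⟩
    rcases hD hzD with h | h
    · exact h
    · exact absurd h hz

end Pool.Agent.Helper58.SFP
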