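import Pool.Agent.Helper58.SF.StP

set_option autoImplicit false

namespace Pool.Agent.Helper58.SFP

open Set Topology Pool.Agent.Helper13.TR Pool.Agent.Helper58.SF
open Pool.Agent.Helper13.TW (IsArc Spl IsSCC dch Chn Splt GT CSy MP Val LR MCell StARB StARX StSCL StUAR StINF StLIN StAC1 StSDM)

/-- if `H_1(S, S ∖ D) = 0` then `D` does not separate -/
private lemma arn_join (hJOI : StJOI) (hSDA : StSDA) {X : Type} [TopologicalSpace X]
    {D : Set X} (hP : PP D 1) {x y : X} (hx : x ∉ D) (hy : y ∉ D) (hj : Joined x y) :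
    JoinedIn Dᶜ x y := by
  obtain ⟨j1, -, -, -, -⟩ := hJOI X univ
  obtain ⟨-, j2, j3, -, j5⟩ := hJOI X Dᶜ
  obtain ⟨r, -, hr⟩ := j1 x y (joinedIn_univ.2 hj)
  have hcyc : r ∈ Cyc D 1 := by
    show bd 0 r ∈ cin Dᶜ 0
    rw [hr]
    exact Submodule.sub_mem _ (j5 y hy) (j5 x hx)
  have hnul := hP hcyc
  obtain ⟨ρ, hρ, u, ⟨β, rfl⟩, hsum⟩ := Submodule.mem_sup.1 hnul
  have hbd : bd 0 ρ = Finsupp.single (pt y) 1 - Finsupp.single (pt x) 1 := by
    have h1 : bd 0 (ρ + bd 1 β) = bd 0 ρ := by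
      rw [map_add, (hSDA X).1 0 β, add_zero]
    rw [← h1, hsum, hr]
  have h0 : ev {z | JoinedIn Dᶜ x z} (bd 0 ρ) = 0 := by
    refine j2 {z | JoinedIn Dᶜ x z} (fun a b hab => ?_) ρ hρ
    exact ⟨fun h => JoinedIn.trans h hab, fun h => JoinedIn.trans h hab.symm⟩
  rw [hbd, map_sub] at h0
  have hxT : x ∈ {z | JoinedIn Dᶜ x z} := JoinedIn.refl hx
  rw [(j3 _ x).1 hxT] at h0
  by_contra hyT
  have hyT' : y ∉ {z | JoinedIn Dᶜ x z} := hyT
  rw [(j3 _ y).2 hyT'] at h0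
  norm_num at h0

/-- joined in the complement of a preimage -/
private lemma arn_map {X : Type} [TopologicalSpace X] {U F : Set X} {x y : ↥U}
    (h : JoinedIn (Subtype.val ⁻¹' F : Set ↥U) x y) : JoinedIn F (x : X) (y : X) := by
  obtain ⟨γ, hγ⟩ := h
  exact ⟨γ.map continuous_subtype_val, fun t => hγ t⟩

theorem hARN (_hARB : StARB)
    (hSCL : StSCL) (hLIN : StLIN) : StARN := by
  intro S _ _ _ _ ω V hG
  have h1 := hG.arn
  refine ⟨h1, ?_⟩
  intro J hJ a b c ha hb hc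
  obtain ⟨-, -, -, -, -, hJp, -⟩ := hSCL S J hJ
  obtain ⟨p, hp⟩ := hJp.nonempty
  have hpc : IsPathConnected ({p}ᶜ : Set S) := h1 {p} (Or.inr ⟨p, rfl⟩)
  have hop : IsOpen ({p}ᶜ : Set S) := isOpen_compl_singleton
  have : PathConnectedSpace ↥({p}ᶜ : Set S) := isPathConnected_iff_pathConnectedSpace.1 hpc
  have : LocallyPathConnectedSpace ↥({p}ᶜ : Set S) := hop.locallyPathConnectedSpace
  obtain ⟨ψ, hψ, hrψ⟩ := hLIN.2.1 S J p hJ hp
  have hmem : ∀ z : S, z ∉ J → z ∈ ({p}ᶜ : Set S) := fun z hz h => hz (by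
    rw [mem_singleton_iff] at h; rw [h]; exact hp)
  have hkey : ∀ x y : ↥({p}ᶜ : Set S), JoinedIn (range ψ)ᶜ x y → JoinedIn Jᶜ (x : S) (y : S) := by
    intro x y h
    rw [hrψ] at h
    exact arn_map h
  have hnr : ∀ (z : S) (hz : z ∉ J), (⟨z, hmem z hz⟩ : ↥({p}ᶜ : Set S)) ∉ range ψ := by
    intro z hz
    rw [hrψ]
    exact hz
  by_cases hab : JoinedIn Jᶜ a b
  · exact Or.inl hab
  by_cases hac : JoinedIn Jᶜ a c
  · exact Or.inr (Or.inr hac)
  refine Or.inr (Or.inl ?_)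
  have := hG.lco ({p}ᶜ : Set S) hop ψ hψ {z | JoinedIn Jᶜ a (z : S)} ?_
    ⟨⟨a, hmem a ha⟩, ⟨b, hmem b hb⟩, hnr a ha, hnr b hb, JoinedIn.refl ha, hab,
      PathConnectedSpace.joined _ _⟩
    ⟨b, hmem b hb⟩ ⟨c, hmem c hc⟩ (hnr b hb) (hnr c hc) (PathConnectedSpace.joined _ _)
    (by
      constructor
      · intro h
        exact absurd h hab
      · intro h
        exact absurd h hac)
  · exact hkey _ _ this
  · intro x y hxy
    have h := hkey x y hxy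
    exact ⟨fun hx => JoinedIn.trans hx h, fun hy => JoinedIn.trans hy h.symm⟩

end Pool.Agent.Helper58.SFP
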