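import Pool.Agent.Helper58.SF.StP

/-!
# Project TW, module CHN: closed chains of small arcs
-/

set_option autoImplicit false

namespace Pool.Agent.Helper58.SFP

open Set Topology Pool.Agent.Helper13.TR Pool.Agent.Helper58.SF
open Pool.Agent.Helper13.TW (IsArc Spl IsSCC dch Chn Splt GT CSy MP Val LR MCell StARB StARX StSCL StUAR StINF StLIN StAC1 StSDM)

section simp

variable {X : Type} [TopologicalSpace X]

/-- a singular `0`-simplex is the constant map at its value -/
private theorem sx0 (σ : Sx X 0) : σ = pt (σ (stdSimplex.vertex 0)) := by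
  ext t
  have h : t = stdSimplex.vertex 0 := Subsingleton.elim _ _
  rw [h]
  rfl

private theorem face_pt (σ : Sx X 1) (i : Fin 2) :
    σ.comp (face 0 i) = pt (σ (stdSimplex.vertex (i.succAbove 0))) := by
  rw [sx0 (σ.comp (face 0 i))]
  congr 1
  show σ (stdSimplex.map i.succAbove (stdSimplex.vertex 0)) = _
  rw [stdSimplex.map_vertex]

private theorem bd_single (σ : Sx X 1) :
    bd 0 (Finsupp.single σ (1 : ℤ)) =
      Finsupp.single (pt (σ (stdSimplex.vertex 1))) 1 -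
        Finsupp.single (pt (σ (stdSimplex.vertex 0))) 1 := by
  have h : bd 0 (Finsupp.single σ (1 : ℤ)) =
      ∑ i : Fin 2, ((-1 : ℤ) ^ (i : ℕ)) • Finsupp.single (σ.comp (face 0 i)) (1 : ℤ) := by
    simp [bd, Finsupp.linearCombination_single]
  rw [h, Fin.sum_univ_two, face_pt, face_pt]
  have e0 : (0 : Fin 2).succAbove (0 : Fin 1) = 1 := rfl
  have e1 : (1 : Fin 2).succAbove (0 : Fin 1) = 0 := rfl
  rw [e0, e1]
  simp [sub_eq_add_neg]

private theorem single_mem {S : Set X} {n : ℕ} {σ : Sx X n} (h : range σ ⊆ S) :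
    Finsupp.single σ (1 : ℤ) ∈ cin S n :=
  Finsupp.single_mem_supported ℤ _ h

/-- the end points of a `1`-simplex are joined in its image -/
private theorem joined (σ : Sx X 1) :
    JoinedIn (range σ) (σ (stdSimplex.vertex 0)) (σ (stdSimplex.vertex 1)) := by
  have e0 : stdSimplexHomeomorphUnitInterval.symm 0 = (stdSimplex.vertex 0 : Dl 1) := by
    rw [← stdSimplexHomeomorphUnitInterval_zero, Homeomorph.symm_apply_apply]
  have e1 : stdSimplexHomeomorphUnitInterval.symm 1 = (stdSimplex.vertex 1 : Dl 1) := by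
    rw [← stdSimplexHomeomorphUnitInterval_one, Homeomorph.symm_apply_apply]
  refine ⟨⟨⟨fun t => σ (stdSimplexHomeomorphUnitInterval.symm t),
    σ.continuous.comp stdSimplexHomeomorphUnitInterval.symm.continuous⟩, ?_, ?_⟩, ?_⟩
  · show σ (stdSimplexHomeomorphUnitInterval.symm 0) = _
    rw [e0]
  · show σ (stdSimplexHomeomorphUnitInterval.symm 1) = _
    rw [e1]
  · intro t
    exact ⟨_, rfl⟩

private theorem pt_inj {x y : X} (h : (pt x : Sx X 0) = pt y) : x = y := by
  have := congrArg (fun f : Sx X 0 => f (stdSimplex.vertex 0)) h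
  exact this

end simp

section main

variable {S : Type} [MetricSpace S]

/-- arcs in `Q` of diameter less than `ρ` -/
private structure Tr (Q : Set S) (ρ : ℝ) where
  D : Set S
  p : S
  q : S
  arc : IsArc D p q
  sub : D ⊆ Q
  dm : Metric.diam D < ρ

private noncomputable def Tr.d {Q : Set S} {ρ : ℝ} (t : Tr Q ρ) : Ch S 1 := dch t.D t.p t.q

/-- `u` is a cycle in `Q` -/
private def ZQ (Q : Set S) (u : Ch S 1) : Prop := u ∈ cin Q 1 ∧ bd 0 u = 0

private theorem ZQ.add {Q : Set S} {u v : Ch S 1} (hu : ZQ Q u) (hv : ZQ Q v) : ZQ Q (u + v) :=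
  ⟨Submodule.add_mem _ hu.1 hv.1, by rw [map_add, hu.2, hv.2, add_zero]⟩

private theorem ZQ.sub {Q : Set S} {u v : Ch S 1} (hu : ZQ Q u) (hv : ZQ Q v) : ZQ Q (u - v) :=
  ⟨Submodule.sub_mem _ hu.1 hv.1, by rw [map_sub, hu.2, hv.2, sub_zero]⟩

/-- everything about the winding number that is needed -/
private structure Wn (w : Ch S 1 → ℤ) (Q : Set S) (ρ : ℝ) : Prop where
  add : ∀ u v, ZQ Q u → ZQ Q v → w (u + v) = w u + w v
  sub : ∀ u v, ZQ Q u → ZQ Q v → w (u - v) = w u - w v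
  tame : ∀ C : Set S, C ⊆ Q → Metric.diam C < 4 * ρ → ∀ u ∈ cin C 1, bd 0 u = 0 → w u = 0

/-- the arcs have good chains -/
private def Ad (Q : Set S) : Prop := ∀ (D : Set S) (p q : S), IsArc D p q → D ⊆ Q →
  dch D p q ∈ cin D 1 ∧ bd 0 (dch D p q) = Finsupp.single (pt q) 1 - Finsupp.single (pt p) 1

private theorem arc_symm {D : Set S} {p q : S} (h : IsArc D p q) : IsArc D q p := by
  obtain ⟨γ, h1, h2⟩ := h
  refine ⟨γ.symm, ?_, ?_⟩
  · intro s t hst
    have : γ (unitInterval.symm s) = γ (unitInterval.symm t) := hst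
    have h3 := h1 this
    have h4 := congrArg unitInterval.symm h3
    rwa [unitInterval.symm_symm, unitInterval.symm_symm] at h4
  · rw [Path.symm_range, h2]

/-- a chain which is, up to cycles of winding number zero, a sum of small arcs -/
private def Pr (w : Ch S 1 → ℤ) (Q : Set S) (ρ : ℝ) (u : Ch S 1) : Prop :=
  ∃ M : Multiset (Tr Q ρ), ZQ Q (u - (M.map Tr.d).sum) ∧ w (u - (M.map Tr.d).sum) = 0

private theorem Pr.add {w : Ch S 1 → ℤ} {Q : Set S} {ρ : ℝ} (hw : Wn w Q ρ) {u v : Ch S 1}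
    (hu : Pr w Q ρ u) (hv : Pr w Q ρ v) : Pr w Q ρ (u + v) := by
  obtain ⟨M, h1, h2⟩ := hu
  obtain ⟨N, h3, h4⟩ := hv
  refine ⟨M + N, ?_⟩
  have h5 : u + v - ((M + N).map Tr.d).sum =
      (u - (M.map Tr.d).sum) + (v - (N.map Tr.d).sum) := by
    rw [Multiset.map_add, Multiset.sum_add]
    abel
  rw [h5]
  refine ⟨h1.add h3, ?_⟩
  rw [hw.add _ _ h1 h3, h2, h4, add_zero]

private theorem w_zero {w : Ch S 1 → ℤ} {Q : Set S} {ρ : ℝ} (hw : Wn w Q ρ) : w 0 = 0 := by
  have h0 : ZQ Q 0 := ⟨Submodule.zero_mem _, map_zero _⟩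
  have := hw.sub 0 0 h0 h0
  rwa [sub_self, sub_self] at this

private theorem Pr.zero {w : Ch S 1 → ℤ} {Q : Set S} {ρ : ℝ} (hw : Wn w Q ρ) : Pr w Q ρ 0 := by
  refine ⟨0, ?_⟩
  rw [Multiset.map_zero, Multiset.sum_zero, sub_zero]
  exact ⟨⟨Submodule.zero_mem _, map_zero _⟩, w_zero hw⟩

/-- one simplex -/
private theorem Pr.single {w : Ch S 1 → ℤ} {Q : Set S} {ρ : ℝ} (hρ : 0 < ρ) (hw : Wn w Q ρ)
    (hMON : StMON) (hARX : StARX) (hA : Ad Q) (σ : Sx S 1) (hσ : range σ ⊆ Q)
    (hd : Metric.diam (range σ) < ρ) :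
    Pr w Q ρ (Finsupp.single σ 1) ∧ Pr w Q ρ (-Finsupp.single σ 1) := by
  have hM := (hMON S).1
  have h4 : Metric.diam (range σ) < 4 * ρ := by linarith
  have hbd : Bornology.IsBounded (range σ) := (isCompact_range σ.continuous).isBounded
  by_cases hpq : σ (stdSimplex.vertex 0) = σ (stdSimplex.vertex 1)
  · have hc : Finsupp.single σ (1 : ℤ) ∈ cin (range σ) 1 := single_mem subset_rfl
    have hb : bd 0 (Finsupp.single σ (1 : ℤ)) = 0 := by
      rw [bd_single, hpq, sub_self]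
    constructor
    · refine ⟨0, ?_⟩
      rw [Multiset.map_zero, Multiset.sum_zero, sub_zero]
      exact ⟨⟨hM _ _ 1 hσ hc, hb⟩, hw.tame _ hσ h4 _ hc hb⟩
    · refine ⟨0, ?_⟩
      rw [Multiset.map_zero, Multiset.sum_zero, sub_zero]
      have hc' : -Finsupp.single σ (1 : ℤ) ∈ cin (range σ) 1 := Submodule.neg_mem _ hc
      have hb' : bd 0 (-Finsupp.single σ (1 : ℤ)) = 0 := by rw [map_neg, hb, neg_zero]
      exact ⟨⟨hM _ _ 1 hσ hc', hb'⟩, hw.tame _ hσ h4 _ hc' hb'⟩
  · obtain ⟨D, hD, hDa⟩ := hARX S (range σ) _ _ (joined σ) hpq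
    have hDd : Metric.diam D < ρ := lt_of_le_of_lt (Metric.diam_mono hD hbd) hd
    have hc : Finsupp.single σ (1 : ℤ) ∈ cin (range σ) 1 := single_mem subset_rfl
    constructor
    · obtain ⟨h1, h2⟩ := hA D _ _ hDa (hD.trans hσ)
      refine ⟨{⟨D, _, _, hDa, hD.trans hσ, hDd⟩}, ?_⟩
      rw [Multiset.map_singleton, Multiset.sum_singleton]
      have hc' : Finsupp.single σ (1 : ℤ) -
          dch D (σ (stdSimplex.vertex 0)) (σ (stdSimplex.vertex 1)) ∈ cin (range σ) 1 :=
        Submodule.sub_mem _ hc (hM _ _ 1 hD h1)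
      have hb' : bd 0 (Finsupp.single σ (1 : ℤ) -
          dch D (σ (stdSimplex.vertex 0)) (σ (stdSimplex.vertex 1))) = 0 := by
        rw [map_sub, bd_single, h2, sub_self]
      exact ⟨⟨hM _ _ 1 hσ hc', hb'⟩, hw.tame _ hσ h4 _ hc' hb'⟩
    · have hDs := arc_symm hDa
      obtain ⟨h1, h2⟩ := hA D _ _ hDs (hD.trans hσ)
      refine ⟨{⟨D, _, _, hDs, hD.trans hσ, hDd⟩}, ?_⟩
      rw [Multiset.map_singleton, Multiset.sum_singleton]
      have hc' : -Finsupp.single σ (1 : ℤ) -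
          dch D (σ (stdSimplex.vertex 1)) (σ (stdSimplex.vertex 0)) ∈ cin (range σ) 1 :=
        Submodule.sub_mem _ (Submodule.neg_mem _ hc) (hM _ _ 1 hD h1)
      have hb' : bd 0 (-Finsupp.single σ (1 : ℤ) -
          dch D (σ (stdSimplex.vertex 1)) (σ (stdSimplex.vertex 0))) = 0 := by
        rw [map_sub, map_neg, bd_single, h2]
        abel
      exact ⟨⟨hM _ _ 1 hσ hc', hb'⟩, hw.tame _ hσ h4 _ hc' hb'⟩

/-- multiples of one simplex -/
private theorem Pr.smul {w : Ch S 1 → ℤ} {Q : Set S} {ρ : ℝ} (hw : Wn w Q ρ) {u : Ch S 1}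
    (h1 : Pr w Q ρ u) (h2 : Pr w Q ρ (-u)) (n : ℤ) : Pr w Q ρ (n • u) := by
  induction n using Int.induction_on with
  | zero => rw [zero_smul]; exact Pr.zero hw
  | succ n ih => rw [add_smul, one_smul]; exact Pr.add hw ih h1
  | pred n ih => rw [sub_smul, one_smul, sub_eq_add_neg]; exact Pr.add hw ih h2

/-- all chains of small simplices -/
private theorem Pr.all {w : Ch S 1 → ℤ} {Q : Set S} {ρ : ℝ} (hρ : 0 < ρ) (hw : Wn w Q ρ)
    (hMON : StMON) (hARX : StARX) (hA : Ad Q) (z : Ch S 1) (hz : z ∈ cin Q 1)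
    (hd : ∀ σ ∈ z.support, Metric.diam (range σ) < ρ) : Pr w Q ρ z := by
  rw [← Finsupp.sum_single z]
  refine Finset.sum_induction _ (Pr w Q ρ) (fun a b ha hb => Pr.add hw ha hb) (Pr.zero hw) ?_
  intro σ hσ
  have hσQ : range σ ⊆ Q := (Finsupp.mem_supported ℤ z).1 hz hσ
  have h := Pr.single hρ hw hMON hARX hA σ hσQ (hd σ hσ)
  have h2 := Pr.smul hw h.1 h.2 (z σ)
  rwa [Finsupp.smul_single, smul_eq_mul, mul_one] at h2

/-- the boundary of a sum of arcs -/
private theorem bd_sum {Q : Set S} {ρ : ℝ} (hA : Ad Q) (M : Multiset (Tr Q ρ)) :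
    bd 0 (M.map Tr.d).sum =
      (M.map fun t : Tr Q ρ => (Finsupp.single (pt t.q) 1 - Finsupp.single (pt t.p) 1 : Ch S 0)).sum := by
  induction M using Multiset.induction_on with
  | empty => simp
  | cons t M ih =>
    rw [Multiset.map_cons, Multiset.sum_cons, map_add, ih, Multiset.map_cons, Multiset.sum_cons]
    congr 1
    exact (hA t.D t.p t.q t.arc t.sub).2

/-- the next arc -/
private theorem next {Q : Set S} {ρ : ℝ} (hA : Ad Q) (M : Multiset (Tr Q ρ))
    (hM : bd 0 (M.map Tr.d).sum = 0) (t : Tr Q ρ) (ht : t ∈ M) : ∃ t' ∈ M, t'.p = t.q := by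
  classical
  by_contra hcon
  push Not at hcon
  rw [bd_sum hA] at hM
  have key : ∀ N : Multiset (Tr Q ρ), (∀ t' ∈ N, t'.p ≠ t.q) →
      0 ≤ ((N.map fun t : Tr Q ρ =>
        (Finsupp.single (pt t.q) 1 - Finsupp.single (pt t.p) 1 : Ch S 0)).sum) (pt t.q) := by
    intro N
    induction N using Multiset.induction_on with
    | empty => intro _; simp
    | cons s N ih =>
      intro hN
      rw [Multiset.map_cons, Multiset.sum_cons, Finsupp.add_apply, Finsupp.sub_apply]
      have h1 := ih (fun t' ht' => hN t' (Multiset.mem_cons_of_mem ht'))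
      have h2 : (Finsupp.single (pt s.p) (1 : ℤ) : Ch S 0) (pt t.q) = 0 := by
        rw [Finsupp.single_apply, if_neg]
        intro h
        exact hN s (Multiset.mem_cons_self s N) (pt_inj h)
      have h3 : 0 ≤ (Finsupp.single (pt s.q) (1 : ℤ) : Ch S 0) (pt t.q) := by
        rw [Finsupp.single_apply]
        split_ifs <;> norm_num
      rw [h2, sub_zero]
      exact add_nonneg h3 h1
  obtain ⟨N, rfl⟩ := Multiset.exists_cons_of_mem ht
  have h1 := key N (fun t' ht' => hcon t' (Multiset.mem_cons_of_mem ht'))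
  have h2 := congrArg (fun f : Ch S 0 => f (pt t.q)) hM
  simp only [Multiset.map_cons, Multiset.sum_cons, Finsupp.add_apply, Finsupp.sub_apply,
    Finsupp.coe_zero, Pi.zero_apply] at h2
  have h3 : (Finsupp.single (pt t.p) (1 : ℤ) : Ch S 0) (pt t.q) = 0 := by
    rw [Finsupp.single_apply, if_neg]
    intro h
    exact hcon t (Multiset.mem_cons_self t N) (pt_inj h)
  have h4 : (Finsupp.single (pt t.q) (1 : ℤ) : Ch S 0) (pt t.q) = 1 := by
    rw [Finsupp.single_apply, if_pos rfl]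
  rw [h3, h4] at h2
  linarith

/-- a closed chain of arcs inside a cycle of arcs -/
private theorem exists_loop {Q : Set S} {ρ : ℝ} (hA : Ad Q) (M : Multiset (Tr Q ρ))
    (hM : bd 0 (M.map Tr.d).sum = 0) (hne : M ≠ 0) :
    ∃ (k : ℕ) (f : ℕ → Tr Q ρ), 1 ≤ k ∧ f k = f 0 ∧ (∀ i, (f (i + 1)).p = (f i).q) ∧
      (Multiset.range k).map f ≤ M := by
  classical
  obtain ⟨t₀, ht₀⟩ := Multiset.exists_mem_of_ne_zero hne
  choose! nx hnx using fun (t : Tr Q ρ) (ht : t ∈ M) => next hA M hM t ht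
  -- iterates stay in `M`
  have hit : ∀ (i : ℕ) (t : Tr Q ρ), t ∈ M → nx^[i] t ∈ M := by
    intro i
    induction i with
    | zero => intro t ht; exact ht
    | succ i ih => intro t ht; exact ih _ (hnx t ht).1
  -- a periodic point
  obtain ⟨a, b, hab, he⟩ : ∃ a b : ℕ, a ≠ b ∧ nx^[a] t₀ = nx^[b] t₀ := by
    have hmaps : Set.MapsTo (fun i : ℕ => nx^[i] t₀) Set.univ (M.toFinset : Set (Tr Q ρ)) := by
      intro i _
      simpa using hit i t₀ ht₀
    obtain ⟨a, -, b, -, hab, he⟩ := Set.infinite_univ.exists_ne_map_eq_of_mapsTo hmaps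
      (Finset.finite_toSet _)
    exact ⟨a, b, hab, he⟩
  obtain ⟨y, hyM, hyp⟩ : ∃ y ∈ M, y ∈ Function.periodicPts nx := by
    rcases lt_or_gt_of_ne hab with h | h
    · refine ⟨nx^[a] t₀, hit a t₀ ht₀, b - a, by omega, ?_⟩
      show nx^[b - a] (nx^[a] t₀) = nx^[a] t₀
      rw [← Function.iterate_add_apply, Nat.sub_add_cancel h.le]
      exact he.symm
    · refine ⟨nx^[b] t₀, hit b t₀ ht₀, a - b, by omega, ?_⟩
      show nx^[a - b] (nx^[b] t₀) = nx^[b] t₀
      rw [← Function.iterate_add_apply, Nat.sub_add_cancel h.le]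
      exact he
  refine ⟨Function.minimalPeriod nx y, fun i => nx^[i] y, ?_, ?_, ?_, ?_⟩
  · exact Function.minimalPeriod_pos_of_mem_periodicPts hyp
  · show nx^[Function.minimalPeriod nx y] y = y
    exact Function.iterate_minimalPeriod
  · intro i
    show (nx^[i + 1] y).p = (nx^[i] y).q
    rw [Function.iterate_succ_apply']
    exact (hnx _ (hit i y hyM)).2
  · rw [Multiset.le_iff_subset]
    · intro t ht
      obtain ⟨i, -, rfl⟩ := Multiset.mem_map.1 ht
      exact hit i y hyM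
    · refine Multiset.Nodup.map_on ?_ (Multiset.nodup_range _)
      intro i hi j hj hij
      exact Function.iterate_injOn_Iio_minimalPeriod (Multiset.mem_range.1 hi)
        (Multiset.mem_range.1 hj) hij

/-- the induction on the number of arcs -/
private theorem loops {w : Ch S 1 → ℤ} {Q : Set S} {ρ : ℝ} (hw : Wn w Q ρ) (hMON : StMON)
    (hA : Ad Q) : ∀ (c : ℕ) (M : Multiset (Tr Q ρ)), Multiset.card M ≤ c →
      bd 0 (M.map Tr.d).sum = 0 → w (M.map Tr.d).sum ≠ 0 →
      ∃ (k : ℕ) (f : ℕ → Tr Q ρ), 1 ≤ k ∧ f k = f 0 ∧ (∀ i, (f (i + 1)).p = (f i).q) ∧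
        w (∑ i ∈ Finset.range k, (f i).d) ≠ 0 := by
  classical
  have hcQ : ∀ N : Multiset (Tr Q ρ), (N.map Tr.d).sum ∈ cin Q 1 := by
    intro N
    refine multiset_sum_mem _ ?_
    intro u hu
    obtain ⟨t, -, rfl⟩ := Multiset.mem_map.1 hu
    exact (hMON S).1 _ _ 1 t.sub (hA t.D t.p t.q t.arc t.sub).1
  intro c
  induction c with
  | zero =>
    intro M hc hb hne
    have hM0 : M = 0 := Multiset.card_eq_zero.1 (Nat.le_zero.1 hc)
    rw [hM0, Multiset.map_zero, Multiset.sum_zero] at hne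
    exact absurd (w_zero hw) hne
  | succ c ih =>
    intro M hc hb hne
    by_cases hM0 : M = 0
    · rw [hM0, Multiset.map_zero, Multiset.sum_zero] at hne
      exact absurd (w_zero hw) hne
    obtain ⟨k, f, hk, hf, hfq, hle⟩ := exists_loop hA M hb hM0
    have hsum : ((((Multiset.range k).map f)).map Tr.d).sum = ∑ i ∈ Finset.range k, (f i).d := by
      rw [Multiset.map_map]
      rfl
    by_cases hwk : w (∑ i ∈ Finset.range k, (f i).d) = 0
    · -- remove the loop
      have hbN : bd 0 (∑ i ∈ Finset.range k, (f i).d) = 0 := by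
        rw [map_sum]
        have h1 : ∀ i ∈ Finset.range k, bd 0 (f i).d =
            (Finsupp.single (pt (f (i + 1)).p) 1 - Finsupp.single (pt (f i).p) 1 : Ch S 0) := by
          intro i _
          rw [hfq i]
          exact (hA (f i).D (f i).p (f i).q (f i).arc (f i).sub).2
        rw [Finset.sum_congr rfl h1,
          Finset.sum_range_sub (fun i => (Finsupp.single (pt (f i).p) 1 : Ch S 0)) k, hf, sub_self]
      have hM : M - (Multiset.range k).map f + (Multiset.range k).map f = M :=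
        Multiset.sub_add_cancel hle
      have hsplit : (M.map Tr.d).sum =
          ((M - (Multiset.range k).map f).map Tr.d).sum + ∑ i ∈ Finset.range k, (f i).d := by
        conv_lhs => rw [← hM]
        rw [Multiset.map_add, Multiset.sum_add, hsum]
      have hz1 : ZQ Q (M.map Tr.d).sum := ⟨hcQ M, hb⟩
      have hz2 : ZQ Q (∑ i ∈ Finset.range k, (f i).d) := ⟨hsum ▸ hcQ _, hbN⟩
      have hrest : ((M - (Multiset.range k).map f).map Tr.d).sum =
          (M.map Tr.d).sum - ∑ i ∈ Finset.range k, (f i).d := by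
        rw [hsplit]; abel
      refine ih (M - (Multiset.range k).map f) ?_ ?_ ?_
      · rw [Multiset.card_sub hle, Multiset.card_map, Multiset.card_range]
        omega
      · rw [hrest]
        exact (hz1.sub hz2).2
      · rw [hrest, hw.sub _ _ hz1 hz2, hwk, sub_zero]
        exact hne
    · exact ⟨k, f, hk, hf, hfq, hwk⟩

end main

theorem hCHN (hSDM : StSDM) (hARX : StARX) (hWIN : StWIN) (hAC1 : StAC1) (_hARB : StARB)
    (hMON : StMON) (hSDA : StSDA) : StCHN := by
  intro S _ _ _ ω V hGR Q a ρ hQ hQV haQ hρ hTame z hz hbz hWz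
  obtain ⟨-, hW2, -, -, hW5⟩ := hWIN S ω V hGR
  have hM := (hMON S).1
  have hQa : Q ⊆ ({a} : Set S)ᶜ := by
    intro x hx hxa
    rw [mem_singleton_iff] at hxa
    exact haQ (hxa ▸ hx)
  have hbound : ∀ u, ZQ Q u → Bz V u := fun u hu =>
    hGR.bv u (hM _ _ 1 hQV hu.1) hu.2
  have hw : Wn (fun u => W ω u a) Q ρ := by
    refine ⟨?_, ?_, ?_⟩
    · intro u v hu hv
      exact (hW2 u v a (hbound u hu) (hbound v hv) (hM _ _ 1 hQa hu.1) (hM _ _ 1 hQa hv.1)).1
    · intro u v hu hv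
      exact (hW2 u v a (hbound u hu) (hbound v hv) (hM _ _ 1 hQa hu.1) (hM _ _ 1 hQa hv.1)).2.2
    · exact hTame
  have hA : Ad Q := fun D p q hD _ => (hAC1 S D p q hD).2
  obtain ⟨z', hz', f, hf, hzf, hsm⟩ := hSDM S Q ρ hρ z hz hbz
  have hzz : ZQ Q z := ⟨hz, hbz⟩
  have hz1 : ZQ Q (bd 1 f) := by
    refine ⟨?_, (hSDA S).1 0 f⟩
    rw [← hzf]
    exact Submodule.sub_mem _ hz hz'
  have hz'e : z' = z - bd 1 f := by rw [← hzf]; abel
  have hzz' : ZQ Q z' := by rw [hz'e]; exact hzz.sub hz1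
  have hWz' : W ω z' a ≠ 0 := by
    have h1 : W ω (z - bd 1 f) a = W ω z a - W ω (bd 1 f) a := hw.sub z (bd 1 f) hzz hz1
    rw [hz'e, h1, hW5 f Q hf (hM _ _ 1 hQV hz1.1) a haQ, sub_zero]
    exact hWz
  obtain ⟨M, hM1, hM2⟩ := Pr.all hρ hw hMON hARX hA z' hz' hsm
  have hMs : (M.map Tr.d).sum = z' - (z' - (M.map Tr.d).sum) := by abel
  have hMz : ZQ Q (M.map Tr.d).sum := by rw [hMs]; exact hzz'.sub hM1
  have hMw : W ω (M.map Tr.d).sum a ≠ 0 := by
    have h1 : W ω (z' - (z' - (M.map Tr.d).sum)) a =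
        W ω z' a - W ω (z' - (M.map Tr.d).sum) a := hw.sub _ _ hzz' hM1
    have h2 : W ω (z' - (M.map Tr.d).sum) a = 0 := hM2
    rw [hMs, h1, h2, sub_zero]
    exact hWz'
  obtain ⟨k, g, hk, hg, hgq, hgw⟩ := loops hw hMON hA (Multiset.card M) M le_rfl hMz.2 hMw
  refine ⟨k, fun i => (g i).p, fun i => (g i).D, hk, ⟨congrArg Tr.p hg, ?_⟩, ?_⟩
  · intro i _
    refine ⟨?_, (g i).sub, (g i).dm⟩
    show IsArc (g i).D (g i).p (g (i + 1)).p
    rw [hgq i]
    exact (g i).arc
  · unfold wch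
    have h1 : ∑ i ∈ Finset.range k, dch ((g i).D) ((g i).p) ((g (i + 1)).p) =
        ∑ i ∈ Finset.range k, (g i).d := by
      refine Finset.sum_congr rfl ?_
      intro i _
      rw [hgq i]
      rfl
    rw [h1]
    exact hgw

end Pool.Agent.Helper58.SFP
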