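import Pool.Agent.Helper58.SF.StP

/-!
# Project TW (MP_a45945_gt), module CLS: closures of the sides of a curve
-/

set_option autoImplicit false

namespace Pool.Agent.Helper58.SFP

open Set Topology Pool.Agent.Helper13.TR Pool.Agent.Helper58.SF
open Pool.Agent.Helper13.TW (IsArc Spl IsSCC dch Chn Splt GT CSy MP Val LR MCell StARB StARX StSCL StUAR StINF StLIN StAC1 StSDM)

private theorem side {S : Type} [MetricSpace S] {J A B : Set S} (hA : IsOpen A) (hB : IsOpen B)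
    (nA : A.Nonempty) (nB : B.Nonempty) (dA : ∀ x ∈ A, x ∉ J) (dB : ∀ x ∈ B, x ∉ J) (dAB : ∀ x ∈ A, x ∉ B)
    (hc : ∀ x, x ∈ A ∨ x ∈ B ∨ x ∈ J)
    (hs : ∀ p ∈ J, ∀ O : Set S, IsOpen O → p ∈ O → ∃ D₁ D₂ : Set S, D₁ ∪ D₂ = J ∧ D₂ ⊆ O ∧ IsPathConnected D₁ᶜ) :
    J ⊆ closure A := by
  intro p hp
  rw [mem_closure_iff]
  intro O hO hpO
  by_contra hne
  rw [not_nonempty_iff_eq_empty] at hne
  obtain ⟨D₁, D₂, hJ, hD, hpc⟩ := hs p hp O hO hpO
  have hpre := hpc.isConnected.isPreconnected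
  have h1 : D₁ᶜ ⊆ A ∪ (B ∪ O) := by
    intro x hx
    rcases hc x with h | h | h
    · exact Or.inl h
    · exact Or.inr (Or.inl h)
    · rw [← hJ] at h
      rcases h with h | h
      · exact absurd h hx
      · exact Or.inr (Or.inr (hD h))
  have h2 : (D₁ᶜ ∩ A).Nonempty := by
    obtain ⟨x, hx⟩ := nA
    exact ⟨x, fun h => dA x hx (hJ ▸ Or.inl h), hx⟩
  have h3 : (D₁ᶜ ∩ (B ∪ O)).Nonempty := by
    obtain ⟨x, hx⟩ := nB
    exact ⟨x, fun h => dB x hx (hJ ▸ Or.inl h), Or.inl hx⟩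
  obtain ⟨x, _, hxA, hxBO⟩ := hpre A (B ∪ O) hA (hB.union hO) h1 h2 h3
  rcases hxBO with h | h
  · exact dAB x hxA h
  · have : x ∈ O ∩ A := ⟨h, hxA⟩
    rw [hne] at this
    exact this

theorem hCLS (hTWO : StTWO) (hARN : StARN) (hSCL : StSCL) (_hARB : StARB) : StCLS := by
  intro S _ _ _ ω V hG J hJ
  obtain ⟨⟨oI, cI⟩, ⟨oO, cO⟩, hK, -, -⟩ := hTWO S ω V hG J hJ
  have hs : ∀ p ∈ J, ∀ O : Set S, IsOpen O → p ∈ O →
      ∃ D₁ D₂ : Set S, D₁ ∪ D₂ = J ∧ D₂ ⊆ O ∧ IsPathConnected D₁ᶜ := by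
    intro p hp O hO hpO
    obtain ⟨a, b, D₁, D₂, hSpl, hD, -⟩ := (hSCL S J hJ.1).2.2.1 p hp O hO hpO
    refine ⟨D₁, D₂, hSpl.2.2.2, hD, ?_⟩
    exact (hARN S ω V hG).1 D₁ (Or.inl ⟨a, b, hSpl.1⟩)
  have dI : ∀ x ∈ Ins ω J, x ∉ J := fun x hx => hx.1
  have dO : ∀ x ∈ Out ω J, x ∉ J := fun x hx h => hx (Or.inl h)
  have dIO : ∀ x ∈ Ins ω J, x ∉ Out ω J := fun x hx h => h (Or.inr hx)
  have h1 : J ⊆ closure (Ins ω J) := by
    refine side oI oO cI.nonempty cO.nonempty dI dO dIO ?_ hs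
    intro x
    by_cases h : x ∈ cl ω J
    · rcases h with h | h
      · exact Or.inr (Or.inr h)
      · exact Or.inl h
    · exact Or.inr (Or.inl h)
  have h2 : J ⊆ closure (Out ω J) := by
    refine side oO oI cO.nonempty cI.nonempty dO dI (fun x hx h => dIO x h hx) ?_ hs
    intro x
    by_cases h : x ∈ cl ω J
    · rcases h with h | h
      · exact Or.inr (Or.inr h)
      · exact Or.inr (Or.inl h)
    · exact Or.inl h
  refine ⟨h1, h2, ?_⟩
  apply Subset.antisymm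
  · exact closure_minimal subset_union_right hK.isClosed
  · exact union_subset h1 subset_closure

end Pool.Agent.Helper58.SFP
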