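import Pool.Agent.Helper58.SF.StP

/-!
# Project TW, module CMP: components of a simple closed curve in an open set
-/

set_option autoImplicit false

namespace Pool.Agent.Helper58.SFP

open Set Topology Pool.Agent.Helper13.TR Pool.Agent.Helper58.SF
open Pool.Agent.Helper13.TW (IsArc Spl IsSCC dch Chn Splt GT CSy MP Val LR MCell StARB StARX StSCL StUAR StINF StLIN StAC1 StSDM)

/-- The data of a closed curve, parametrized by `[0,1]`. -/
private structure Cur {S : Type} [MetricSpace S] (K : Set S) (g : ℝ → S) : Prop where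
  cont : Continuous g
  img : g '' Icc (0 : ℝ) 1 = K
  inj : ∀ s ∈ Icc (0 : ℝ) 1, ∀ t ∈ Icc (0 : ℝ) 1, g s = g t → s = t ∨ (s = 0 ∧ t = 1) ∨ (s = 1 ∧ t = 0)

private theorem cur_of_spl {S : Type} [MetricSpace S] {K : Set S} {p q : S} {D₁ D₂ : Set S}
    (h : Spl K p q D₁ D₂) : ∃ g : ℝ → S, Cur K g ∧ g 0 = p ∧ g 1 = p ∧ g (1 / 2) = q := by
  obtain ⟨⟨γ₁, i₁, e₁⟩, ⟨γ₂, i₂, e₂⟩, hint, hun⟩ := h
  classical
  have E1 : ∀ t : ℝ, ∀ ht : t ∈ Icc (0 : ℝ) 1, γ₁.extend t = γ₁ ⟨t, ht⟩ := fun t ht => γ₁.extend_apply ht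
  have E2 : ∀ t : ℝ, ∀ ht : t ∈ Icc (0 : ℝ) 1, γ₂.extend t = γ₂ ⟨t, ht⟩ := fun t ht => γ₂.extend_apply ht
  have hpq : ∀ t : ℝ, t ∈ Icc (0 : ℝ) 1 → γ₁.extend t = p → t = 0 := by
    intro t ht h
    rw [E1 t ht] at h
    have h' : γ₁ ⟨t, ht⟩ = γ₁ 0 := by rw [h, γ₁.source]
    have := i₁ h'
    exact congrArg Subtype.val this
  have hpq' : ∀ t : ℝ, t ∈ Icc (0 : ℝ) 1 → γ₁.extend t = q → t = 1 := by
    intro t ht h
    rw [E1 t ht] at h
    have h' : γ₁ ⟨t, ht⟩ = γ₁ 1 := by rw [h, γ₁.target]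
    have := i₁ h'
    exact congrArg Subtype.val this
  have hpr : ∀ t : ℝ, t ∈ Icc (0 : ℝ) 1 → γ₂.extend t = p → t = 0 := by
    intro t ht h
    rw [E2 t ht] at h
    have h' : γ₂ ⟨t, ht⟩ = γ₂ 0 := by rw [h, γ₂.source]
    have := i₂ h'
    exact congrArg Subtype.val this
  have hpr' : ∀ t : ℝ, t ∈ Icc (0 : ℝ) 1 → γ₂.extend t = q → t = 1 := by
    intro t ht h
    rw [E2 t ht] at h
    have h' : γ₂ ⟨t, ht⟩ = γ₂ 1 := by rw [h, γ₂.target]
    have := i₂ h'
    exact congrArg Subtype.val this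
  have inj1 : ∀ s ∈ Icc (0 : ℝ) 1, ∀ t ∈ Icc (0 : ℝ) 1, γ₁.extend s = γ₁.extend t → s = t := by
    intro s hs t ht h
    rw [E1 s hs, E1 t ht] at h
    exact congrArg Subtype.val (i₁ h)
  have inj2 : ∀ s ∈ Icc (0 : ℝ) 1, ∀ t ∈ Icc (0 : ℝ) 1, γ₂.extend s = γ₂.extend t → s = t := by
    intro s hs t ht h
    rw [E2 s hs, E2 t ht] at h
    exact congrArg Subtype.val (i₂ h)
  have mem1 : ∀ t ∈ Icc (0 : ℝ) 1, γ₁.extend t ∈ D₁ := by
    intro t ht
    rw [E1 t ht, ← e₁]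
    exact mem_range_self _
  have mem2 : ∀ t ∈ Icc (0 : ℝ) 1, γ₂.extend t ∈ D₂ := by
    intro t ht
    rw [E2 t ht, ← e₂]
    exact mem_range_self _
  set g : ℝ → S := fun t => if t ≤ 1 / 2 then γ₁.extend (2 * t) else γ₂.extend (2 - 2 * t) with hgdef
  have g1 : ∀ t : ℝ, t ≤ 1 / 2 → g t = γ₁.extend (2 * t) := fun t ht => if_pos ht
  have g2 : ∀ t : ℝ, ¬ t ≤ 1 / 2 → g t = γ₂.extend (2 - 2 * t) := fun t ht => if_neg ht
  have hc : Continuous g := by
    refine Continuous.if_le (γ₁.continuous_extend.comp (by fun_prop)) (γ₂.continuous_extend.comp (by fun_prop))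
      continuous_id continuous_const ?_
    intro t ht
    have ht' : t = 1 / 2 := ht
    have a1 : 2 * t = 1 := by rw [ht']; norm_num
    have a2 : 2 - 2 * t = 1 := by rw [ht']; norm_num
    show γ₁.extend (2 * t) = γ₂.extend (2 - 2 * t)
    rw [a2, a1, γ₁.extend_one, γ₂.extend_one]
  refine ⟨g, ⟨hc, ?_, ?_⟩, ?_, ?_, ?_⟩
  · rw [← hun]
    ext x
    constructor
    · rintro ⟨t, ht, rfl⟩
      by_cases h : t ≤ 1 / 2
      · left
        rw [g1 t h]
        exact mem1 _ ⟨by linarith [ht.1], by linarith⟩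
      · right
        rw [g2 t h]
        push Not at h
        exact mem2 _ ⟨by linarith [ht.2], by linarith⟩
    · rintro (hx | hx)
      · rw [← e₁] at hx
        obtain ⟨u, rfl⟩ := hx
        refine ⟨(u : ℝ) / 2, ⟨by linarith [u.2.1], by linarith [u.2.2]⟩, ?_⟩
        rw [g1 _ (by linarith [u.2.2])]
        have : (2 * ((u : ℝ) / 2)) = (u : ℝ) := by ring
        rw [this, E1 _ u.2]
      · rw [← e₂] at hx
        obtain ⟨u, rfl⟩ := hx
        by_cases hu : (u : ℝ) = 1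
        · have hu' : u = 1 := Subtype.ext hu
          refine ⟨1 / 2, ⟨by norm_num, by norm_num⟩, ?_⟩
          rw [g1 _ le_rfl]
          have : (2 * (1 / 2) : ℝ) = 1 := by norm_num
          rw [this, γ₁.extend_one, hu', γ₂.target]
        · have hu1 : (u : ℝ) < 1 := lt_of_le_of_ne u.2.2 hu
          refine ⟨1 - (u : ℝ) / 2, ⟨by linarith [u.2.2], by linarith [u.2.1]⟩, ?_⟩
          rw [g2 _ (by push Not; linarith)]
          have : (2 - 2 * (1 - (u : ℝ) / 2)) = (u : ℝ) := by ring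
          rw [this, E2 _ u.2]
  · intro s hs t ht hst
    have key : ∀ s ∈ Icc (0 : ℝ) 1, ∀ t ∈ Icc (0 : ℝ) 1, s ≤ 1 / 2 → ¬ t ≤ 1 / 2 → g s = g t → s = 0 ∧ t = 1 := by
      intro s hs t ht h1 h2 hst
      rw [g1 s h1, g2 t h2] at hst
      push Not at h2
      have ms : 2 * s ∈ Icc (0 : ℝ) 1 := ⟨by linarith [hs.1], by linarith⟩
      have mt : 2 - 2 * t ∈ Icc (0 : ℝ) 1 := ⟨by linarith [ht.2], by linarith⟩
      have hm : γ₁.extend (2 * s) ∈ D₁ ∩ D₂ := ⟨mem1 _ ms, by rw [hst]; exact mem2 _ mt⟩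
      rw [hint] at hm
      rcases hm with hm | hm
      · have a1 := hpq _ ms hm
        have a2 := hpr _ mt (by rw [← hst]; exact hm)
        exact ⟨by linarith, by linarith⟩
      · have hm' : γ₁.extend (2 * s) = q := hm
        have a2 := hpr' _ mt (by rw [← hst]; exact hm')
        exfalso
        linarith
    by_cases h1 : s ≤ 1 / 2
    · by_cases h2 : t ≤ 1 / 2
      · left
        rw [g1 s h1, g1 t h2] at hst
        have := inj1 _ ⟨by linarith [hs.1], by linarith⟩ _ ⟨by linarith [ht.1], by linarith⟩ hst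
        linarith
      · exact Or.inr (Or.inl (key s hs t ht h1 h2 hst))
    · by_cases h2 : t ≤ 1 / 2
      · have := key t ht s hs h2 h1 hst.symm
        exact Or.inr (Or.inr ⟨this.2, this.1⟩)
      · left
        rw [g2 s h1, g2 t h2] at hst
        push Not at h1 h2
        have := inj2 _ ⟨by linarith [hs.2], by linarith⟩ _ ⟨by linarith [ht.2], by linarith⟩ hst
        linarith
  · rw [g1 0 (by norm_num), mul_zero, γ₁.extend_zero]
  · rw [g2 1 (by norm_num)]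
    have : (2 - 2 * 1 : ℝ) = 0 := by norm_num
    rw [this, γ₂.extend_zero]
  · rw [g1 _ le_rfl]
    have : (2 * (1 / 2) : ℝ) = 1 := by norm_num
    rw [this, γ₁.extend_one]

/-- the left end of the interval -/
private theorem left_end {S : Type} [MetricSpace S] {g : ℝ → S} (hg : Continuous g) {U : Set S} (hU : IsOpen U)
    {c t : ℝ} (hct : c ≤ t) (hc : g c ∉ U) (ht : g t ∈ U) :
    ∃ a, c ≤ a ∧ a < t ∧ g a ∉ U ∧ ∀ s, a < s → s ≤ t → g s ∈ U := by
  have hcl : IsClosed (Icc c t ∩ g ⁻¹' Uᶜ) := isClosed_Icc.inter (hU.isClosed_compl.preimage hg)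
  have hcp : IsCompact (Icc c t ∩ g ⁻¹' Uᶜ) := isCompact_Icc.inter_right (hU.isClosed_compl.preimage hg)
  have hne : (Icc c t ∩ g ⁻¹' Uᶜ).Nonempty := ⟨c, ⟨le_rfl, hct⟩, hc⟩
  obtain ⟨a, ha⟩ := hcp.exists_isGreatest hne
  have ham := ha.1
  refine ⟨a, ham.1.1, lt_of_le_of_ne ham.1.2 ?_, ham.2, ?_⟩
  · intro h
    exact ham.2 (by rw [h]; exact ht)
  · intro s h1 h2
    by_contra h3
    exact absurd (ha.2 ⟨⟨le_trans ham.1.1 h1.le, h2⟩, h3⟩) (not_le.2 h1)

/-- the right end of the interval -/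
private theorem right_end {S : Type} [MetricSpace S] {g : ℝ → S} (hg : Continuous g) {U : Set S} (hU : IsOpen U)
    {c t : ℝ} (hct : t ≤ c) (hc : g c ∉ U) (ht : g t ∈ U) :
    ∃ b, b ≤ c ∧ t < b ∧ g b ∉ U ∧ ∀ s, t ≤ s → s < b → g s ∈ U := by
  obtain ⟨a, h1, h2, h3, h4⟩ := left_end (g := fun x => g (-x)) (hg.comp continuous_neg) hU (c := -c) (t := -t)
    (by linarith) (by simpa using hc) (by simpa using ht)
  refine ⟨-a, by linarith, by linarith, h3, ?_⟩
  intro s h5 h6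
  have := h4 (-s) (by linarith) (by linarith)
  simpa using this

/-- the interval around a parameter -/
private theorem interval {S : Type} [MetricSpace S] {K : Set S} {g : ℝ → S} (C : Cur K g) {U : Set S} (hU : IsOpen U)
    (h0 : g 0 ∉ U) (h1 : g 1 ∉ U) (hh : g (1 / 2) ∉ U) {t : ℝ} (ht : t ∈ Icc (0 : ℝ) 1) (htU : g t ∈ U) :
    ∃ a b, 0 ≤ a ∧ a < t ∧ t < b ∧ b ≤ 1 ∧ g a ∉ U ∧ g b ∉ U ∧ (∀ s ∈ Ioo a b, g s ∈ U) ∧ ¬ (a = 0 ∧ b = 1) := by
  obtain ⟨a, a1, a2, a3, a4⟩ := left_end C.cont hU ht.1 h0 htU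
  obtain ⟨b, b1, b2, b3, b4⟩ := right_end C.cont hU ht.2 h1 htU
  have hin : ∀ s ∈ Ioo a b, g s ∈ U := by
    intro s hs
    rcases le_total s t with h | h
    · exact a4 s hs.1 h
    · exact b4 s h hs.2
  refine ⟨a, b, a1, a2, b2, b1, a3, b3, hin, ?_⟩
  rintro ⟨rfl, rfl⟩
  exact hh (hin _ ⟨by norm_num, by norm_num⟩)

/-- all facts on one component -/
private theorem comp_facts {S : Type} [MetricSpace S] {K : Set S} {g : ℝ → S} (C : Cur K g) {U : Set S}
    {a b : ℝ} (ha : 0 ≤ a) (hab : a < b) (hb : b ≤ 1) (hga : g a ∉ U) (hgb : g b ∉ U)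
    (hin : ∀ s ∈ Ioo a b, g s ∈ U) (hn : ¬ (a = 0 ∧ b = 1)) :
    IsArc (g '' Icc a b) (g a) (g b) ∧ (g '' Icc a b) \ {g a, g b} = g '' Ioo a b ∧
      IsClosed (K \ (g '' Ioo a b)) ∧ g '' Ioo a b ⊆ K ∩ U ∧
      ∀ z ∈ g '' Ioo a b, connectedComponentIn (K ∩ U) z = g '' Ioo a b := by
  have sub : ∀ s ∈ Icc a b, s ∈ Icc (0 : ℝ) 1 := fun s hs => ⟨le_trans ha hs.1, le_trans hs.2 hb⟩
  have injab : ∀ s ∈ Icc a b, ∀ t ∈ Icc a b, g s = g t → s = t := by
    intro s hs t ht h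
    rcases C.inj s (sub s hs) t (sub t ht) h with h1 | ⟨h1, h2⟩ | ⟨h1, h2⟩
    · exact h1
    · exfalso
      apply hn
      constructor
      · have := hs.1
        linarith
      · have := ht.2
        linarith
    · exfalso
      apply hn
      constructor
      · have := ht.1
        linarith
      · have := hs.2
        linarith
  have hdiff : (g '' Icc a b) \ {g a, g b} = g '' Ioo a b := by
    ext x
    constructor
    · rintro ⟨⟨t, ht, rfl⟩, hx⟩
      refine ⟨t, ⟨lt_of_le_of_ne ht.1 ?_, lt_of_le_of_ne ht.2 ?_⟩, rfl⟩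
      · intro h
        exact hx (by rw [h]; exact Or.inl rfl)
      · intro h
        exact hx (by rw [h]; exact Or.inr rfl)
    · rintro ⟨t, ht, rfl⟩
      refine ⟨⟨t, ⟨ht.1.le, ht.2.le⟩, rfl⟩, ?_⟩
      rintro (h | h)
      · exact absurd (injab t ⟨ht.1.le, ht.2.le⟩ a ⟨le_rfl, hab.le⟩ h) (ne_of_gt ht.1)
      · exact absurd (injab t ⟨ht.1.le, ht.2.le⟩ b ⟨hab.le, le_rfl⟩ h) (ne_of_lt ht.2)
  have hKR : K \ (g '' Ioo a b) = g '' (Icc 0 a ∪ Icc b 1) := by
    rw [← C.img]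
    ext x
    constructor
    · rintro ⟨⟨t, ht, rfl⟩, hx⟩
      refine ⟨t, ?_, rfl⟩
      by_contra hc
      simp only [mem_union, mem_Icc, not_or, not_and, not_le] at hc
      exact hx ⟨t, ⟨hc.1 ht.1, by
        by_contra h
        push Not at h
        exact absurd (hc.2 h) (not_lt.2 ht.2)⟩, rfl⟩
    · rintro ⟨t, ht, rfl⟩
      have ht01 : t ∈ Icc (0 : ℝ) 1 := by
        rcases ht with ht | ht
        · exact ⟨ht.1, by linarith [ht.2]⟩
        · exact ⟨by linarith [ht.1], ht.2⟩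
      refine ⟨⟨t, ht01, rfl⟩, ?_⟩
      rintro ⟨s, hs, hst⟩
      rcases C.inj s (sub s ⟨hs.1.le, hs.2.le⟩) t ht01 hst with h1 | ⟨h1, h2⟩ | ⟨h1, h2⟩
      · subst h1
        rcases ht with ht | ht
        · exact absurd ht.2 (not_le.2 hs.1)
        · exact absurd ht.1 (not_le.2 hs.2)
      · have := hs.1
        linarith
      · have := hs.2
        linarith
  have hRcl : IsClosed (g '' (Icc 0 a ∪ Icc b 1)) :=
    ((isCompact_Icc.union isCompact_Icc).image C.cont).isClosed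
  have hPcl : IsClosed (g '' Icc a b) := (isCompact_Icc.image C.cont).isClosed
  have hsubKU : g '' Ioo a b ⊆ K ∩ U := by
    rintro x ⟨t, ht, rfl⟩
    refine ⟨?_, hin t ht⟩
    rw [← C.img]
    exact ⟨t, sub t ⟨ht.1.le, ht.2.le⟩, rfl⟩
  refine ⟨?_, hdiff, ?_, hsubKU, ?_⟩
  · refine ⟨⟨⟨fun s => g (a + (s : ℝ) * (b - a)), by
        have := C.cont
        fun_prop⟩, by simp, by simp⟩, ?_, ?_⟩
    · intro s t h
      have h' : g (a + (s : ℝ) * (b - a)) = g (a + (t : ℝ) * (b - a)) := h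
      have hb0 : 0 < b - a := by linarith
      have m : ∀ u : unitInterval, a + (u : ℝ) * (b - a) ∈ Icc a b := by
        intro u
        have h1 := u.2.1
        have h2 := u.2.2
        constructor
        · nlinarith
        · nlinarith
      have := injab _ (m s) _ (m t) h'
      have h3 : ((s : ℝ) - t) * (b - a) = 0 := by linarith
      rcases mul_eq_zero.1 h3 with h4 | h4
      · exact Subtype.ext (by linarith)
      · linarith
    · ext x
      constructor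
      · rintro ⟨s, rfl⟩
        have h1 := s.2.1
        have h2 := s.2.2
        refine ⟨a + (s : ℝ) * (b - a), ⟨by nlinarith, by nlinarith⟩, rfl⟩
      · rintro ⟨t, ht, rfl⟩
        have hb0 : 0 < b - a := by linarith
        refine ⟨⟨(t - a) / (b - a), ⟨div_nonneg (by linarith [ht.1]) hb0.le, (div_le_one hb0).2 (by linarith [ht.2])⟩⟩, ?_⟩
        show g (a + ((t - a) / (b - a)) * (b - a)) = g t
        rw [div_mul_cancel₀ _ hb0.ne']
        congr 1
        ring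
  · rw [hKR]
    exact hRcl
  · intro z hz
    apply Subset.antisymm
    · have hpc : IsPreconnected (connectedComponentIn (K ∩ U) z) := isPreconnected_connectedComponentIn
      have hsub : connectedComponentIn (K ∩ U) z ⊆ K ∩ U := connectedComponentIn_subset _ _
      intro x hx
      by_contra hxn
      have hxK := (hsub hx).1
      have hxR : x ∈ g '' (Icc 0 a ∪ Icc b 1) := by
        rw [← hKR]
        exact ⟨hxK, hxn⟩
      have hcov : connectedComponentIn (K ∩ U) z ⊆ g '' Icc a b ∪ g '' (Icc 0 a ∪ Icc b 1) := by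
        intro y hy
        by_cases h : y ∈ g '' Ioo a b
        · left
          exact image_mono Ioo_subset_Icc_self h
        · right
          rw [← hKR]
          exact ⟨(hsub hy).1, h⟩
      obtain ⟨y, hy, hy1, hy2⟩ := isPreconnected_closed_iff.1 hpc _ _ hPcl hRcl hcov
        ⟨z, mem_connectedComponentIn (hsubKU hz), image_mono Ioo_subset_Icc_self hz⟩ ⟨x, hx, hxR⟩
      have hyU : y ∈ U := (hsub hy).2
      rw [← hKR] at hy2
      have : y ∈ (g '' Icc a b) \ {g a, g b} := by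
        refine ⟨hy1, ?_⟩
        rintro (h | h)
        · exact hga (by rw [← h]; exact hyU)
        · have h' : y = g b := h
          exact hgb (by rw [← h']; exact hyU)
      rw [hdiff] at this
      exact hy2.2 this
    · exact IsPreconnected.subset_connectedComponentIn (isPreconnected_Ioo.image _ C.cont.continuousOn) hz hsubKU

/-- the general topology part -/
private theorem core {S : Type} [MetricSpace S] {K : Set S} {g : ℝ → S} (C : Cur K g) {U : Set S} (hU : IsOpen U)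
    (h0 : g 0 ∉ U) (h1 : g 1 ∉ U) (hh : g (1 / 2) ∉ U) :
    ∀ z ∈ K ∩ U, ∃ a b, 0 ≤ a ∧ a < b ∧ b ≤ 1 ∧ g a ∉ U ∧ g b ∉ U ∧ IsArc (g '' Icc a b) (g a) (g b) ∧
      (g '' Icc a b) \ {g a, g b} = g '' Ioo a b ∧
      IsClosed (K \ (g '' Ioo a b)) ∧ g '' Ioo a b ⊆ K ∩ U ∧ z ∈ g '' Ioo a b ∧
      ∀ y ∈ g '' Ioo a b, connectedComponentIn (K ∩ U) y = g '' Ioo a b := by
  rintro z ⟨hzK, hzU⟩
  rw [← C.img] at hzK
  obtain ⟨t, ht, rfl⟩ := hzK
  obtain ⟨a, b, e1, e2, e3, e4, e5, e6, e7, e8⟩ := interval C hU h0 h1 hh ht hzU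
  obtain ⟨f1, f2, f3, f4, f5⟩ := comp_facts C e1 (e2.trans e3) e4 e5 e6 e7 e8
  exact ⟨a, b, e1, e2.trans e3, e4, e5, e6, f1, f2, f3, f4, ⟨t, ⟨e2, e3⟩, rfl⟩, f5⟩

theorem hCMP (_hARB : StARB) (hSCL : StSCL) (hTWO : StTWO) (hCLS : StCLS) : StCMP := by
  intro S _ _ _ ω V hGR J hJ K hK hr
  obtain ⟨r₁, r₂, hne, hr₁, hr₂⟩ := hr
  obtain ⟨⟨hUo, -⟩, -, -, -, -⟩ := hTWO S ω V hGR J hJ
  obtain ⟨-, -, hclo⟩ := hCLS S ω V hGR J hJ
  set U : Set S := Ins ω J with hUdef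
  have hJU : ∀ x ∈ J, x ∉ U := fun x hx hxU => hxU.1 hx
  have hcl : ∀ x ∈ closure U, x ∉ U → x ∈ J := by
    intro x hx hxU
    rw [hclo] at hx
    rcases hx with hx | hx
    · exact hx
    · exact absurd hx hxU
  obtain ⟨D₁, D₂, hspl⟩ := (hSCL S K hK).1 r₁ hr₁.1 r₂ hr₂.1 hne
  obtain ⟨g, C, g0, g1, gh⟩ := cur_of_spl hspl
  have h0 : g 0 ∉ U := by rw [g0]; exact hr₁.2
  have h1 : g 1 ∉ U := by rw [g1]; exact hr₁.2
  have hh : g (1 / 2) ∉ U := by rw [gh]; exact hr₂.2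
  have hcore := core C hUo h0 h1 hh
  refine ⟨?_, ?_, ?_⟩
  · intro z hz
    obtain ⟨a, b, ha, hab, hb, hga, hgb, harc, hdiff, hclosed, hsub, hzin, hcomp⟩ := hcore z hz
    have hgaJ : g a ∈ J := by
      refine hcl _ ?_ hga
      have h : a ∈ closure (Ioo a b) := by
        rw [closure_Ioo hab.ne]
        exact ⟨le_rfl, hab.le⟩
      have h' := map_mem_closure C.cont h (t := U) (fun s hs => (hsub ⟨s, hs, rfl⟩).2)
      exact h'
    have hgbJ : g b ∈ J := by
      refine hcl _ ?_ hgb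
      have h : b ∈ closure (Ioo a b) := by
        rw [closure_Ioo hab.ne]
        exact ⟨hab.le, le_rfl⟩
      have h' := map_mem_closure C.cont h (t := U) (fun s hs => (hsub ⟨s, hs, rfl⟩).2)
      exact h'
    refine ⟨g a, g b, g '' Icc a b, ⟨harc, ?_, ?_⟩, image_mono Ioo_subset_Icc_self hzin, ?_, ?_, ?_⟩
    · apply Subset.antisymm
      · rintro x ⟨hx1, hx2⟩
        by_contra hxn
        have : x ∈ (g '' Icc a b) \ {g a, g b} := ⟨hx1, hxn⟩
        rw [hdiff] at this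
        exact hJU x hx2 (hsub this).2
      · rintro x (rfl | hx)
        · exact ⟨⟨a, ⟨le_rfl, hab.le⟩, rfl⟩, hgaJ⟩
        · have hx' : x = g b := hx
          rw [hx']
          exact ⟨⟨b, ⟨hab.le, le_rfl⟩, rfl⟩, hgbJ⟩
    · rw [hdiff]
      exact fun x hx => (hsub hx).2
    · rintro x ⟨t, ht, rfl⟩
      rw [← C.img]
      exact ⟨t, ⟨le_trans ha ht.1, le_trans ht.2 hb⟩, rfl⟩
    · rw [hdiff]
      exact hclosed
    · rw [hdiff]
      exact hcomp z hzin
  · intro α hα hαU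
    -- the parameters of `K ∩ α`
    have hT : IsCompact (Icc (0 : ℝ) 1 ∩ g ⁻¹' α) := isCompact_Icc.inter_right (hα.isClosed.preimage C.cont)
    have hex : ∀ t : ℝ, ∃ O : Set ℝ, IsOpen O ∧ (t ∈ Icc (0 : ℝ) 1 ∩ g ⁻¹' α → t ∈ O) ∧
        ∀ s ∈ O, connectedComponentIn (K ∩ U) (g s) = connectedComponentIn (K ∩ U) (g t) := by
      intro t
      by_cases ht : t ∈ Icc (0 : ℝ) 1 ∩ g ⁻¹' α
      · have htU : g t ∈ U := hαU ht.2
        obtain ⟨a, b, e1, e2, e3, e4, e5, e6, e7, e8⟩ := interval C hUo h0 h1 hh ht.1 htU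
        obtain ⟨-, -, -, -, f5⟩ := comp_facts C e1 (e2.trans e3) e4 e5 e6 e7 e8
        refine ⟨Ioo a b, isOpen_Ioo, fun _ => ⟨e2, e3⟩, fun s hs => ?_⟩
        rw [f5 _ ⟨s, hs, rfl⟩, f5 _ ⟨t, ⟨e2, e3⟩, rfl⟩]
      · exact ⟨∅, isOpen_empty, fun h => absurd h ht, fun s hs => absurd hs (notMem_empty s)⟩
    choose O hO hO1 hO2 using hex
    obtain ⟨F, hF⟩ := hT.elim_finite_subcover O hO (fun t ht => mem_iUnion.2 ⟨t, hO1 t ht⟩)
    refine Set.Finite.subset (F.finite_toSet.image fun t => connectedComponentIn (K ∩ U) (g t)) ?_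
    rintro D ⟨z, ⟨hzK, hzα⟩, rfl⟩
    rw [← C.img] at hzK
    obtain ⟨t, ht, rfl⟩ := hzK
    obtain ⟨i, hi, hti⟩ : ∃ i ∈ F, t ∈ O i := by
      have := hF ⟨ht, hzα⟩
      simpa using this
    exact ⟨i, hi, (hO2 i t hti).symm⟩
  · intro δ hδ
    have huc := isCompact_Icc.uniformContinuousOn_of_continuous (C.cont.continuousOn (s := Icc (0 : ℝ) 1))
    obtain ⟨η, hη, huc'⟩ := Metric.uniformContinuousOn_iff.1 huc (δ / 2) (by linarith)
    have hη2 : 0 < η / 2 := by linarith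
    refine Set.Finite.subset ((Finset.range (⌊1 / (η / 2)⌋₊ + 2)).finite_toSet.image
      fun j : ℕ => connectedComponentIn (K ∩ U) (g ((j : ℝ) * (η / 2)))) ?_
    rintro D ⟨⟨z, hz, rfl⟩, hdiam⟩
    obtain ⟨a, b, ha, hab, hb, hga, hgb, harc, hdiff, hclosed, hsub, hzin, hcomp⟩ := hcore z hz
    rw [hcomp z hzin] at hdiam
    have hlen : η ≤ b - a := by
      by_contra hlt
      push Not at hlt
      have hle : Metric.diam (g '' Ioo a b) ≤ δ / 2 := by
        refine Metric.diam_le_of_forall_dist_le (by linarith) ?_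
        rintro x ⟨s, hs, rfl⟩ y ⟨t, ht, rfl⟩
        refine (huc' s ⟨by linarith [hs.1], by linarith [hs.2]⟩ t ⟨by linarith [ht.1], by linarith [ht.2]⟩ ?_).le
        rw [Real.dist_eq, abs_lt]
        constructor
        · linarith [hs.1, ht.2]
        · linarith [hs.2, ht.1]
      linarith
    have ha' : 0 ≤ a / (η / 2) := div_nonneg ha hη2.le
    have hj1 : a < ((⌊a / (η / 2)⌋₊ + 1 : ℕ) : ℝ) * (η / 2) := by
      have := Nat.lt_floor_add_one (a / (η / 2))
      rw [div_lt_iff₀ hη2] at this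
      push_cast
      exact this
    have hj2 : ((⌊a / (η / 2)⌋₊ + 1 : ℕ) : ℝ) * (η / 2) < b := by
      have := Nat.floor_le ha'
      rw [le_div_iff₀ hη2] at this
      push_cast
      nlinarith
    refine ⟨⌊a / (η / 2)⌋₊ + 1, ?_, ?_⟩
    · have h1 : ⌊a / (η / 2)⌋₊ ≤ ⌊1 / (η / 2)⌋₊ := by
        apply Nat.floor_le_floor
        apply div_le_div_of_nonneg_right _ hη2.le
        linarith
      simp only [Finset.coe_range, mem_Iio]
      omega
    · show connectedComponentIn (K ∩ U) (g (((⌊a / (η / 2)⌋₊ + 1 : ℕ) : ℝ) * (η / 2))) = _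
      rw [hcomp z hzin, hcomp _ ⟨_, ⟨hj1, hj2⟩, rfl⟩]

end Pool.Agent.Helper58.SFP
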