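import Pool.Agent.Helper58.SF.StP

/-!
# Project TW, module CSS: the cells of a 2-manifold are a cell system
-/

set_option autoImplicit false

namespace Pool.Agent.Helper58.SFP

open Set Topology Pool.Agent.Helper13.TR Pool.Agent.Helper58.SF
open Pool.Agent.Helper13.TW (IsArc Spl IsSCC dch Chn Splt GT CSy MP Val LR MCell StARB StARX StSCL StUAR StINF StLIN StAC1 StSDM)

namespace CSS

variable {S : Type} [MetricSpace S] [LocallyPathConnectedSpace S] [PathConnectedSpace S]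

/-- One cut of a cell. -/
private theorem cut (hTHE : StTHE) {ω : Ch S 1 → S → ℤ} {V : Set S} (hg : WN S ω V) {J : Set S}
    (hJ : Cel ω V J) {p q : S} {D₁ D₂ P : Set S} (hs : Spl J p q D₁ D₂) (hP : Crs ω J p q P) :
    Splt (cl ω J) J p q D₁ D₂ P (cl ω (D₁ ∪ P)) (cl ω (D₂ ∪ P)) ∧ Cel ω V (D₁ ∪ P) ∧
      Cel ω V (D₂ ∪ P) := by
  obtain ⟨h1, h2, -, -, h5, h6, h7, h8⟩ := hTHE S ω V hg J hJ p q D₁ D₂ P hs hP
  exact ⟨⟨hs, hP.1, hP.2.1, h5, h6, h7, h8⟩, h1, h2⟩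

private theorem fin_aux (hTHE : StTHE) {ω : Ch S 1 → S → ℤ} {V : Set S} (hg : WN S ω V) {ε : ℝ}
    {J : Set S} (h : GS ω (fun J' => Metric.diam (cl ω J') < ε) J) : Cel ω V J →
    GT (fun E J => Cel ω V J ∧ E = cl ω J) ε (cl ω J) J := by
  induction h with
  | leaf J hΦ => exact fun _ => GT.leaf _ _ hΦ
  | node J p q D₁ D₂ P hs hP _ _ ih1 ih2 =>
    intro hJ
    obtain ⟨h1, h2, h3⟩ := cut hTHE hg hJ hs hP
    exact GT.node _ _ p q D₁ D₂ P _ _ h1 ⟨h2, rfl⟩ ⟨h3, rfl⟩ (ih1 h2) (ih2 h3)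

end CSS

open CSS in
/-- CSS. -/
theorem hCSS (hTWO : StTWO) (hTHE : StTHE) (hACC : StACC) (hS3B : StS3B) (_hSCL : StSCL)
    (hARB : StARB) : StCSS := by
  intro S _ _ _ ω V hg
  refine ⟨?_, ?_, ?_⟩
  · rintro E J ⟨hJ, rfl⟩
    exact ⟨(hTWO S ω V hg J hJ.1).2.2.1, subset_union_left, hJ.1.1⟩
  · rintro E J p q D₁ D₂ ⟨hJ, rfl⟩ hs
    have hA := hARB.1 S D₁ p q hs.1
    have hDJ : D₁ ⊆ J := by rw [← hs.2.2.2]; exact subset_union_left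
    obtain ⟨P, hP⟩ := hACC S ω V hg J hJ.1 p (hDJ hA.2.2.1) q (hDJ hA.2.2.2.1) hA.2.2.2.2.1
    obtain ⟨h1, h2, h3⟩ := cut hTHE hg hJ hs hP
    exact ⟨P, _, _, h1, ⟨h2, rfl⟩, ⟨h3, rfl⟩⟩
  · rintro ε hε E J ⟨hJ, rfl⟩
    exact fin_aux hTHE hg (hS3B S ω V hg J hJ ε hε) hJ

end Pool.Agent.Helper58.SFP
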