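import Pool.Agent.Helper58.SF.StG

/-!
# Project SF, module INS: the interior of a curve in a surface, in terms of the ambient space
-/

set_option autoImplicit false

namespace Pool.Agent.Helper58.SF

open Set Topology Pool.Agent.Helper13.TR
open Pool.Agent.Helper13.TW (IsArc Spl IsSCC)

theorem arc_lift {P : Type} [TopologicalSpace P] {S D : Set P} {p q : P} (hDS : D ⊆ S) (hp : p ∈ S) (hq : q ∈ S)
    (h : IsArc D p q) : IsArc (Subtype.val ⁻¹' D : Set ↥S) ⟨p, hp⟩ ⟨q, hq⟩ := by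
  obtain ⟨γ, hγi, hγr⟩ := h
  have hm : ∀ t, γ t ∈ S := fun t => hDS (hγr ▸ mem_range_self t)
  refine ⟨⟨⟨fun t => ⟨γ t, hm t⟩, Continuous.subtype_mk γ.continuous hm⟩, ?_, ?_⟩, ?_, ?_⟩
  · exact Subtype.ext γ.source
  · exact Subtype.ext γ.target
  · intro s t hst
    exact hγi (congrArg Subtype.val hst)
  · ext y
    constructor
    · rintro ⟨t, rfl⟩
      show γ t ∈ D
      exact hγr ▸ mem_range_self t
    · intro hy
      have h1 : (y : P) ∈ range γ := by rw [hγr]; exact hy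
      obtain ⟨t, ht⟩ := h1
      exact ⟨t, Subtype.ext ht⟩

theorem push_pt_ins {X Y : Type} [TopologicalSpace X] [TopologicalSpace Y] (f : C(X, Y)) (x : X) :
    push f 0 (Finsupp.single (pt x) 1) = Finsupp.single (pt (f x)) 1 := by
  show Finsupp.mapDomain _ _ = _
  rw [Finsupp.mapDomain_single]
  rfl

theorem hINS (hWD : StWD) (hPSH : StPSH) : StINS := by
  intro P _ _ r R dg S V0 hpc hWN Jp p q D₁ D₂ hspl_d₁ d₂ hspl hJS hJV hd₁ hd₂ hb₁ hb₂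
  have := hpc
  obtain ⟨hA1, hA2, hint, huni⟩ := hspl
  have hD1J : D₁ ⊆ Jp := huni ▸ subset_union_left
  have hD2J : D₂ ⊆ Jp := huni ▸ subset_union_right
  have hp : p ∈ S := by
    have : p ∈ D₁ ∩ D₂ := by rw [hint]; exact Or.inl rfl
    exact hJS (hD1J this.1)
  have hq : q ∈ S := by
    have : q ∈ D₁ ∩ D₂ := by rw [hint]; exact Or.inr rfl
    exact hJS (hD1J this.1)
  set d₁ := hspl_d₁
  let i : C(↥S, P) := ⟨Subtype.val, continuous_subtype_val⟩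
  have hi : IsEmbedding i := IsEmbedding.subtypeVal
  obtain ⟨P1, _, _, P4, P5, P6⟩ := hPSH ↥S P P i (ContinuousMap.id P)
  have P4' := P4 hi.injective
  have hB1 := arc_lift (hD1J.trans hJS) hp hq hA1
  have hB2 := arc_lift (hD2J.trans hJS) hp hq hA2
  have hspl' : Spl (Subtype.val ⁻¹' Jp : Set ↥S) ⟨p, hp⟩ ⟨q, hq⟩ (Subtype.val ⁻¹' D₁) (Subtype.val ⁻¹' D₂) := by
    refine ⟨hB1, hB2, ?_, ?_⟩
    · rw [← preimage_inter, hint]
      ext y
      simp only [mem_preimage, mem_insert_iff, mem_singleton_iff, Subtype.ext_iff]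
    · rw [← preimage_union, huni]
  have himg : ∀ D : Set P, D ⊆ S → (i '' (Subtype.val ⁻¹' D : Set ↥S)) = D := by
    intro D hD
    show Subtype.val '' (Subtype.val ⁻¹' D : Set ↥S) = D
    rw [Subtype.image_preimage_coe, inter_eq_right.mpr hD]
  have hch : ∀ D : Set P, D ⊆ S → ∀ d ∈ cin D 1, bd 0 d = Finsupp.single (pt q) 1 - Finsupp.single (pt p) 1 →
      ∃ d' ∈ cin (Subtype.val ⁻¹' D : Set ↥S) 1, push i 1 d' = d ∧
        bd 0 d' = Finsupp.single (pt (⟨q, hq⟩ : ↥S)) 1 - Finsupp.single (pt (⟨p, hp⟩ : ↥S)) 1 := by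
    intro D hD d hd hbd
    obtain ⟨d', h1, h2⟩ := P5 hi (Subtype.val ⁻¹' D) 1 d (by rw [himg D hD]; exact hd)
    refine ⟨d', h1, h2, ?_⟩
    apply P4' 0
    rw [← P1, h2, hbd, map_sub, push_pt_ins, push_pt_ins]
    rfl
  obtain ⟨d₁', h11, h12, h13⟩ := hch D₁ (hD1J.trans hJS) d₁ hd₁ hb₁
  obtain ⟨d₂', h21, h22, h23⟩ := hch D₂ (hD2J.trans hJS) d₂ hd₂ hb₂
  obtain ⟨W1, _, W3, _⟩ := hWD ↥S (wS r R dg S) (Subtype.val ⁻¹' V0) hWN
  refine ⟨⟨_, _, _, _, hspl'⟩, ?_⟩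
  intro x
  have key : (x : P) ∉ Jp → wd (wS r R dg S) (Subtype.val ⁻¹' D₁) (Subtype.val ⁻¹' D₂) ⟨p, hp⟩ ⟨q, hq⟩ x =
      Wd (Up r R) (Dn r R) dg (d₁ - d₂) x := by
    intro hx
    rw [← W1 (Subtype.val ⁻¹' D₁) (Subtype.val ⁻¹' D₂) ⟨p, hp⟩ ⟨q, hq⟩ hB1 hB2
      (preimage_mono (hD1J.trans hJV)) (preimage_mono (hD2J.trans hJV)) d₁' h11 d₂' h21 h13 h23 x
      (fun h => hx (hD1J h)) (fun h => hx (hD2J h))]
    show Wd (Up r R) (Dn r R) dg (push i 1 (d₁' - d₂')) (x : P) = _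
    rw [map_sub, h12, h22]
  constructor
  · rintro ⟨hx, p', q', E₁, E₂, hs, hne⟩
    have hx' : (x : P) ∉ Jp := hx
    refine ⟨hx', ?_⟩
    rw [← key hx']
    rcases W3 (Subtype.val ⁻¹' Jp) ⟨p, hp⟩ ⟨q, hq⟩ p' q' (Subtype.val ⁻¹' D₁) (Subtype.val ⁻¹' D₂) E₁ E₂ hspl' hs
      (preimage_mono hJV) with h | h
    · rw [← h x hx]; exact hne
    · intro h0
      apply hne
      rw [h x hx, h0, neg_zero]
  · rintro ⟨hx, hne⟩
    refine ⟨hx, _, _, _, _, hspl', ?_⟩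
    rw [key hx]
    exact hne

end Pool.Agent.Helper58.SF
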