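import Pool.Agent.Helper58.SF.StP

/-!
# Project TW, module JIN: points not separated by one component
-/

set_option autoImplicit false

namespace Pool.Agent.Helper58.SFP

open Set Topology Pool.Agent.Helper13.TR Pool.Agent.Helper58.SF
open Pool.Agent.Helper13.TW (IsArc Spl IsSCC dch Chn Splt GT CSy MP Val LR MCell StARB StARX StSCL StUAR StINF StLIN StAC1 StSDM)

private theorem joined_seg {S : Type} [TopologicalSpace S] {F : Set S} {g : ℝ → S} (hg : Continuous g)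
    {a b : ℝ} (hab : a ≤ b) (h : ∀ t ∈ Icc a b, g t ∈ F) : JoinedIn F (g a) (g b) := by
  apply JoinedIn.ofLine (f := fun t => g (a + t * (b - a)))
  · exact (hg.comp (by fun_prop)).continuousOn
  · simp
  · simp
  · rintro _ ⟨t, ht, rfl⟩
    apply h
    have h1 := ht.1
    have h2 := ht.2
    constructor
    · nlinarith
    · nlinarith

private theorem not_mem_of_ins {S : Type} [TopologicalSpace S] {ω : Ch S 1 → S → ℤ} {J : Set S} {x : S}
    (h : x ∈ Ins ω J) : x ∉ J := h.1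

/-- one step: two points joined in `Ins J ∖ (K ∖ C)` on the same side of the crosscut `P`, `C = P ∖ {p, q}`,
are joined in `Ins J ∖ P` and in `Ins J ∖ (K ∖ C)`. -/
private theorem step (hTWO : StTWO) (hCLS : StCLS) (hTHE : StTHE) (hLIN : StLIN)
    (hARB : StARB) (S : Type) [MetricSpace S] [LocallyPathConnectedSpace S]
    [PathConnectedSpace S] (ω : Ch S 1 → S → ℤ) (V : Set S) (hG : WN S ω V) (J : Set S) (hJ : Cel ω V J)
    (p q : S) (D₁ D₂ P : Set S) (hs : Spl J p q D₁ D₂) (hc : Crs ω J p q P) (W₁ : Set S)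
    (hW : IsOpen W₁) (hWJ : W₁ ⊆ Ins ω J) (hPW : P \ {p, q} ⊆ W₁) (x x' : S) (hx : x ∉ P) (hx' : x' ∉ P)
    (hj : JoinedIn W₁ x x') (hss : x ∈ Ins ω (D₁ ∪ P) ↔ x' ∈ Ins ω (D₁ ∪ P)) :
    JoinedIn (W₁ \ P) x x' := by
  obtain ⟨hC1, hC2, hdis, hun, -⟩ := hTHE S ω V hG J hJ p q D₁ D₂ P hs hc
  obtain ⟨hPa, hPJ, hPI⟩ := hc
  have hpJ : p ∈ J := by
    have : p ∈ P ∩ J := by rw [hPJ]; simp
    exact this.2
  have hqJ : q ∈ J := by
    have : q ∈ P ∩ J := by rw [hPJ]; simp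
    exact this.2
  have hpW : p ∉ W₁ := fun h => not_mem_of_ins (hWJ h) hpJ
  have hqW : q ∉ W₁ := fun h => not_mem_of_ins (hWJ h) hqJ
  obtain ⟨ψ, hψ, hψr⟩ := hLIN.1 S P W₁ p q hPa hPW hpW hqW
  have hlpc : LocallyPathConnectedSpace ↥W₁ := hW.locallyPathConnectedSpace
  have hd1J : D₁ ⊆ J := by
    rw [← hs.2.2.2]
    exact subset_union_left
  have hav : W₁ \ P ⊆ (D₁ ∪ P)ᶜ := by
    rintro z ⟨hz1, hz2⟩ (hz3 | hz3)
    · exact not_mem_of_ins (hWJ hz1) (hd1J hz3)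
    · exact hz2 hz3
  have hT4 := (hTWO S ω V hG (D₁ ∪ P) hC1.1).2.2.2.1
  have hmap : ∀ a b : ↥W₁, JoinedIn (range ψ)ᶜ a b → JoinedIn (W₁ \ P) (a : S) (b : S) := by
    intro a b hab
    have h1 := hab.map (f := (Subtype.val : ↥W₁ → S)) continuous_subtype_val
    refine h1.mono ?_
    rintro _ ⟨z, hz, rfl⟩
    refine ⟨z.2, fun h => hz ?_⟩
    rw [hψr]
    exact h
  have hsat : ∀ a b : ↥W₁, JoinedIn (range ψ)ᶜ a b →
      (a ∈ (Subtype.val ⁻¹' Ins ω (D₁ ∪ P) : Set ↥W₁) ↔ b ∈ (Subtype.val ⁻¹' Ins ω (D₁ ∪ P) : Set ↥W₁)) :=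
    fun a b hab => hT4 _ _ ((hmap a b hab).mono hav)
  -- both sides near a point of the crosscut
  have hex : ∃ a b : ↥W₁, a ∉ range ψ ∧ b ∉ range ψ ∧ a ∈ (Subtype.val ⁻¹' Ins ω (D₁ ∪ P) : Set ↥W₁) ∧
      b ∉ (Subtype.val ⁻¹' Ins ω (D₁ ∪ P) : Set ↥W₁) ∧ Joined a b := by
    obtain ⟨c, hc⟩ := (hARB.1 S P p q hPa).2.2.2.2.2.2.2.2.1.nonempty
    obtain ⟨U, hU, hUW⟩ := (path_connected_basis c).mem_iff.1 (hW.mem_nhds (hPW hc))
    obtain ⟨hUn, hUp⟩ := hU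
    simp only [id] at hUW
    have c1 := (hCLS S ω V hG (D₁ ∪ P) hC1.1).1 (Or.inr hc.1)
    have c2 := (hCLS S ω V hG (D₂ ∪ P) hC2.1).1 (Or.inr hc.1)
    obtain ⟨a, ha1, ha2⟩ := mem_closure_iff_nhds.1 c1 U hUn
    obtain ⟨b, hb1, hb2⟩ := mem_closure_iff_nhds.1 c2 U hUn
    refine ⟨⟨a, hUW ha1⟩, ⟨b, hUW hb1⟩, ?_, ?_, ha2, ?_, ?_⟩
    · rw [hψr]
      exact fun h => not_mem_of_ins ha2 (Or.inr h)
    · rw [hψr]
      exact fun h => not_mem_of_ins hb2 (Or.inr h)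
    · intro h
      have : b ∈ Ins ω (D₁ ∪ P) ∩ Ins ω (D₂ ∪ P) := ⟨h, hb2⟩
      rw [hdis] at this
      exact this
    · exact ((hUp.joinedIn a ha1 b hb1).mono hUW).joined_subtype
  have hfin := hG.lco W₁ hW ψ hψ _ hsat hex ⟨x, hj.source_mem⟩ ⟨x', hj.target_mem⟩
    (by rw [hψr]; exact hx) (by rw [hψr]; exact hx') hj.joined_subtype hss
  exact hmap _ _ hfin

theorem hJIN (hCMP : StCMP) (hTWO : StTWO) (hCLS : StCLS) (hTHE : StTHE) (hLIN : StLIN)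
    (hSCL : StSCL) (hARB : StARB) : StJIN := by
  intro S _ _ _ ω V hG J hJ K hK hr x hx y hy hside
  obtain ⟨⟨hIo, hIp⟩, -, -, -⟩ := hTWO S ω V hG J hJ.1
  obtain ⟨hcm1, hcm2, -⟩ := hCMP S ω V hG J hJ.1 K hK hr
  obtain ⟨γ, hγ⟩ := hIp.joinedIn x hx.1 y hy.1
  obtain ⟨g, hgdef⟩ : ∃ g : ℝ → S, g = fun t => γ.extend t := ⟨_, rfl⟩
  have hg : Continuous g := by
    rw [hgdef]
    exact γ.extend.continuous
  have hgI : ∀ t, g t ∈ Ins ω J := by
    intro t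
    have : g t ∈ range γ := by
      rw [← γ.extend_range, hgdef]
      exact ⟨t, rfl⟩
    obtain ⟨s, hs⟩ := this
    rw [← hs]
    exact hγ s
  have hg0 : g 0 = x := by rw [hgdef]; exact γ.extend_zero
  have hg1 : g 1 = y := by rw [hgdef]; exact γ.extend_one
  let cc : S → Set S := fun z => connectedComponentIn (K ∩ Ins ω J) z
  have hfin : ∀ a : ℝ, {C : Set S | ∃ z ∈ K ∩ g '' Icc a 1, C = cc z}.Finite := by
    intro a
    apply hcm2
    · exact isCompact_Icc.image hg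
    · rintro _ ⟨t, -, rfl⟩
      exact hgI t
  suffices h : ∀ n : ℕ, ∀ a : ℝ, a ≤ 1 → g a ∉ K → {C : Set S | ∃ z ∈ K ∩ g '' Icc a 1, C = cc z}.ncard ≤ n →
      (∀ (p q : S) (D₁ D₂ P : Set S), Spl J p q D₁ D₂ → Crs ω J p q P → P ⊆ K →
        (g a ∈ Ins ω (D₁ ∪ P) ↔ y ∈ Ins ω (D₁ ∪ P))) → JoinedIn (Ins ω J \ K) (g a) y by
    have := h _ 0 zero_le_one (by rw [hg0]; exact hx.2) le_rfl (by rw [hg0]; exact hside)
    rwa [hg0] at this
  intro n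
  induction n with
  | zero =>
    intro a ha haK hn _
    have h0 := (Set.ncard_eq_zero (hfin a)).1 (Nat.le_zero.1 hn)
    rw [← hg1]
    apply joined_seg hg ha
    intro t ht
    refine ⟨hgI t, fun hK' => ?_⟩
    have : cc (g t) ∈ {C : Set S | ∃ z ∈ K ∩ g '' Icc a 1, C = cc z} := ⟨g t, ⟨hK', t, ht, rfl⟩, rfl⟩
    rw [h0] at this
    exact this
  | succ n ih =>
    intro a ha haK hn hsd
    have hKc : IsCompact K := (hSCL S K hK).2.2.2.2.1
    by_cases hA : (Icc a 1 ∩ g ⁻¹' K).Nonempty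
    swap
    · rw [← hg1]
      apply joined_seg hg ha
      intro t ht
      exact ⟨hgI t, fun hK' => hA ⟨t, ht, hK'⟩⟩
    have hAc : IsCompact (Icc a 1 ∩ g ⁻¹' K) := isCompact_Icc.inter_right (hKc.isClosed.preimage hg)
    obtain ⟨t₀, ⟨ht₀, ht₀K⟩, ht₀m⟩ := hAc.exists_isLeast hA
    have ht₀K : g t₀ ∈ K := ht₀K
    obtain ⟨p, q, P, hcrs, hzP, hPK, hPcl, hcomp⟩ := hcm1 (g t₀) ⟨ht₀K, hgI t₀⟩
    have hPa := hcrs.1
    have hPJ := hcrs.2.1
    have hPI := hcrs.2.2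
    obtain ⟨-, hPc, -, -, hpq, -, -, -, hPpc, -⟩ := hARB.1 S P p q hPa
    have hpJ : p ∈ J := by
      have : p ∈ P ∩ J := by rw [hPJ]; simp
      exact this.2
    have hqJ : q ∈ J := by
      have : q ∈ P ∩ J := by rw [hPJ]; simp
      exact this.2
    have hgP : ∀ t, g t ∈ P → g t ∈ P \ {p, q} := by
      intro t ht
      refine ⟨ht, ?_⟩
      rintro (h | h)
      · exact not_mem_of_ins (hgI t) (h ▸ hpJ)
      · have h : g t = q := h
        exact not_mem_of_ins (hgI t) (h ▸ hqJ)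
    have hBc : IsCompact (Icc a 1 ∩ g ⁻¹' P) := isCompact_Icc.inter_right (hPc.isClosed.preimage hg)
    obtain ⟨t₁, ⟨ht₁, ht₁P⟩, ht₁m⟩ := hBc.exists_isGreatest ⟨t₀, ht₀, hzP⟩
    have ht₁P : g t₁ ∈ P := ht₁P
    have ht01 : t₀ ≤ t₁ := ht₁m ⟨ht₀, hzP⟩
    have ht11 : t₁ < 1 := by
      rcases lt_or_eq_of_le ht₁.2 with h | h
      · exact h
      · exfalso
        rw [h, hg1] at ht₁P
        exact hy.2 (hPK ht₁P)
    have haft : ∀ t, t₁ < t → t ≤ 1 → g t ∉ P := by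
      intro t h1 h2 h3
      exact absurd (ht₁m ⟨⟨ht₁.1.trans h1.le, h2⟩, h3⟩) (not_le.2 h1)
    -- a short piece after `t₁`
    have hop : IsOpen (g ⁻¹' (K \ (P \ {p, q}))ᶜ) := hPcl.isOpen_compl.preimage hg
    have hmem : t₁ ∈ g ⁻¹' (K \ (P \ {p, q}))ᶜ := fun h => h.2 (hgP t₁ ht₁P)
    obtain ⟨ε, hε, hball⟩ := Metric.isOpen_iff.1 hop t₁ hmem
    set a' : ℝ := min 1 (t₁ + ε / 2) with ha'
    have ha'1 : a' ≤ 1 := min_le_left _ _
    have ha't : t₁ < a' := lt_min ht11 (by linarith)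
    have hshort : ∀ t ∈ Icc t₁ a', g t ∉ K \ (P \ {p, q}) := by
      intro t ht
      apply hball
      rw [Metric.mem_ball, Real.dist_eq, abs_lt]
      have h1 := ht.1
      have h2 := ht.2.trans (min_le_right _ _)
      constructor <;> linarith
    have ha'K : g a' ∉ K := by
      intro h
      exact hshort a' ⟨ha't.le, le_rfl⟩ ⟨h, fun h' => haft a' ha't ha'1 h'.1⟩
    set W₁ : Set S := Ins ω J \ (K \ (P \ {p, q})) with hW₁
    have hWo : IsOpen W₁ := hIo.sdiff hPcl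
    have hj : JoinedIn W₁ (g a) (g a') := by
      refine (joined_seg hg ht₀.1 ?_).trans ((JoinedIn.mono (hPpc.joinedIn _ (hgP t₀ hzP) _ (hgP t₁ ht₁P))
        ?_).trans (joined_seg hg ha't.le ?_))
      · intro t ht
        refine ⟨hgI t, fun h => ?_⟩
        have h1 : t₀ ≤ t := ht₀m ⟨⟨ht.1, ht.2.trans ht₀.2⟩, h.1⟩
        have h2 : t = t₀ := le_antisymm ht.2 h1
        rw [h2] at h
        exact h.2 (hgP t₀ hzP)
      · intro z hz
        exact ⟨hPI hz, fun h => h.2 hz⟩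
      · intro t ht
        exact ⟨hgI t, hshort t ht⟩
    obtain ⟨D₁, D₂, hspl⟩ := (hSCL S J hJ.1.1).1 p hpJ q hqJ hpq
    have hd1J : ∀ (p q : S) (D₁ D₂ : Set S), Spl J p q D₁ D₂ → D₁ ⊆ J := by
      intro p q D₁ D₂ h
      rw [← h.2.2.2]
      exact subset_union_left
    have hT4 : ∀ (p q : S) (D₁ D₂ P : Set S), Spl J p q D₁ D₂ → Crs ω J p q P → ∀ b c : S,
        JoinedIn (D₁ ∪ P)ᶜ b c → (b ∈ Ins ω (D₁ ∪ P) ↔ c ∈ Ins ω (D₁ ∪ P)) := by
      intro p q D₁ D₂ P h1 h2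
      exact (hTWO S ω V hG (D₁ ∪ P) (hTHE S ω V hG J hJ p q D₁ D₂ P h1 h2).1.1).2.2.2.1
    by_cases hss : g a ∈ Ins ω (D₁ ∪ P) ↔ g a' ∈ Ins ω (D₁ ∪ P)
    · have h1 := step hTWO hCLS hTHE hLIN hARB S ω V hG J hJ p q D₁ D₂ P hspl hcrs W₁ hWo
        sdiff_subset (fun z hz => ⟨hPI hz, fun h => h.2 hz⟩) (g a) (g a') (fun h => haK (hPK h))
        (fun h => ha'K (hPK h)) hj hss
      have h2 : JoinedIn (Ins ω J \ K) (g a) (g a') := by
        refine h1.mono ?_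
        rintro z ⟨⟨hz1, hz2⟩, hz3⟩
        exact ⟨hz1, fun h => hz2 ⟨h, fun h' => hz3 h'.1⟩⟩
      refine h2.trans (ih a' ha'1 ha'K ?_ ?_)
      · have hsub : {C : Set S | ∃ z ∈ K ∩ g '' Icc a' 1, C = cc z} ⊂
            {C : Set S | ∃ z ∈ K ∩ g '' Icc a 1, C = cc z} := by
          refine ⟨?_, fun hcon => ?_⟩
          · rintro C ⟨z, ⟨hz1, t, ht, rfl⟩, rfl⟩
            exact ⟨g t, ⟨hz1, t, ⟨(ht₁.1.trans ha't.le).trans ht.1, ht.2⟩, rfl⟩, rfl⟩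
          · have hin : cc (g t₀) ∈ {C : Set S | ∃ z ∈ K ∩ g '' Icc a 1, C = cc z} :=
              ⟨g t₀, ⟨ht₀K, t₀, ht₀, rfl⟩, rfl⟩
            obtain ⟨z, ⟨hz1, t, ht, rfl⟩, hz2⟩ := hcon hin
            have hz3 : g t ∈ cc (g t) := mem_connectedComponentIn ⟨hz1, hgI t⟩
            rw [← hz2] at hz3
            have hz4 : g t ∈ P \ {p, q} := by
              rw [← hcomp]
              exact hz3
            exact haft t (ha't.trans_le ht.1) ht.2 hz4.1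
        have := Set.ncard_lt_ncard hsub (hfin a)
        omega
      · intro p' q' D₁' D₂' P' h3 h4 h5
        rw [← hsd p' q' D₁' D₂' P' h3 h4 h5]
        refine (hT4 p' q' D₁' D₂' P' h3 h4 _ _ (h2.mono ?_)).symm
        rintro z ⟨hz1, hz2⟩ (hz3 | hz3)
        · exact not_mem_of_ins hz1 (hd1J _ _ _ _ h3 hz3)
        · exact hz2 (h5 hz3)
    · exfalso
      apply hss
      rw [hsd p q D₁ D₂ P hspl hcrs hPK, ← hg1]
      refine (hT4 p q D₁ D₂ P hspl hcrs _ _ (joined_seg hg ha'1 ?_)).symm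
      rintro t ht (h | h)
      · exact not_mem_of_ins (hgI t) (hd1J _ _ _ _ hspl h)
      · exact haft t (ha't.trans_le ht.1) ht.2 h

end Pool.Agent.Helper58.SFP
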