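import Pool.Agent.Helper58.SF.StP

/-!
# Project TW, module PRE: a crosscut through two points of a curve
-/

set_option autoImplicit false

namespace Pool.Agent.Helper58.SFP

open Set Topology Pool.Agent.Helper13.TR Pool.Agent.Helper58.SF
open Pool.Agent.Helper13.TW (IsArc Spl IsSCC dch Chn Splt GT CSy MP Val LR MCell StARB StARX StSCL StUAR StINF StLIN StAC1 StSDM)

section gen

variable {S : Type} [TopologicalSpace S]

/-- a simple closed curve contains two different points -/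
private lemma two_pts [T2Space S] (hARB : StARB) {J : Set S} (hJ : IsSCC J) :
    ∃ a ∈ J, ∃ b ∈ J, a ≠ b := by
  obtain ⟨p, q, D₁, D₂, h1, h2, h3, h4⟩ := hJ
  obtain ⟨-, -, hp, hq, hpq, -⟩ := hARB.1 S D₁ p q h1
  exact ⟨p, h4 ▸ Or.inl hp, q, h4 ▸ Or.inl hq, hpq⟩

/-- a simple closed curve contains a point different from a given one -/
private lemma other_pt [T2Space S] (hARB : StARB) {J : Set S} (hJ : IsSCC J) (z : S) :
    ∃ a ∈ J, a ≠ z := by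
  obtain ⟨a, ha, b, hb, hab⟩ := two_pts hARB hJ
  by_cases h : a = z
  · exact ⟨b, hb, fun h' => hab (h.trans h'.symm)⟩
  · exact ⟨a, ha, h⟩

/-- the general step -/
private lemma step [T2Space S] (hARB : StARB) (hSCL : StSCL) (hARX : StARX) {J K R : Set S}
    (hJ : IsSCC J) (hK : IsSCC K) (hR : IsPathConnected Rᶜ) (hd : ∀ x ∈ K, x ∉ R → x ∉ J)
    (hj : ∃ j ∈ K, j ∉ R) (hq : ∃ q ∈ J, q ∉ R) :
    ∃ (β : Set S) (p z : S), IsArc β p z ∧ p ∈ J ∧ z ∈ K ∧ β ⊆ Rᶜ ∧ β ∩ J = {p} ∧ β ∩ K = {z} := by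
  obtain ⟨j, hjK, hjR⟩ := hj
  obtain ⟨q, hqJ, hqR⟩ := hq
  have hJc : IsClosed J := (hSCL S J hJ).2.2.2.2.1.isClosed
  have hKc : IsClosed K := (hSCL S K hK).2.2.2.2.1.isClosed
  have hjJ : j ∉ J := hd j hjK hjR
  have hjq : j ≠ q := fun h => hjJ (h ▸ hqJ)
  obtain ⟨D, hDR, hD⟩ := hARX S Rᶜ j q (hR.joinedIn j hjR q hqR) hjq
  have hqD : q ∈ D := (hARB.1 S D j q hD).2.2.2.1
  obtain ⟨p, hpJ, D₁, hD₁, hA₁, hF₁⟩ := hARB.2.2.2.1 S D J j q hD hJc hjJ ⟨q, hqD, hqJ⟩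
  have hA₁' : IsArc D₁ p j := (hARB.1 S D₁ j p hA₁).1
  have hpD₁ : p ∈ D₁ := (hARB.1 S D₁ j p hA₁).2.2.2.1
  have hjD₁ : j ∈ D₁ := (hARB.1 S D₁ j p hA₁).2.2.1
  have hpK : p ∉ K := fun h => hd p h (hDR (hD₁ hpD₁)) hpJ
  obtain ⟨z, hzK, D₂, hD₂, hA₂, hF₂⟩ := hARB.2.2.2.1 S D₁ K p j hA₁' hKc hpK ⟨j, hjD₁, hjK⟩
  have hpD₂ : p ∈ D₂ := (hARB.1 S D₂ p z hA₂).2.2.1
  refine ⟨D₂, p, z, hA₂, hpJ, hzK, fun x hx => hDR (hD₁ (hD₂ hx)), ?_, hF₂⟩
  apply Subset.antisymm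
  · intro x hx
    rw [← hF₁]
    exact ⟨hD₂ hx.1, hx.2⟩
  · intro x hx
    rw [mem_singleton_iff] at hx
    rw [hx]
    exact ⟨hpD₂, hpJ⟩

/-- an arc which meets the curve only in its starting point and whose end point is inside -/
private lemma inside [T2Space S] (hARB : StARB) {J I γ : Set S} {p z : S}
    (hI : ∀ a b : S, JoinedIn Jᶜ a b → (a ∈ I ↔ b ∈ I)) (hγ : IsArc γ p z) (hJ : γ ∩ J = {p})
    (hz : z ∈ I) : ∀ x ∈ γ, x ≠ p → x ∈ I := by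
  intro x hx hxp
  obtain ⟨-, -, hpγ, hzγ, hpz, -, hpc, -⟩ := hARB.1 S γ p z hγ
  have h1 : JoinedIn (γ \ {p}) z x := hpc.joinedIn z ⟨hzγ, fun h => hpz h.symm⟩ x ⟨hx, hxp⟩
  have h2 : γ \ {p} ⊆ Jᶜ := by
    intro y hy hyJ
    apply hy.2
    rw [← hJ]
    exact ⟨hy.1, hyJ⟩
  exact (hI z x (h1.mono h2)).1 hz

end gen

theorem hPRE (hARN : StARN) (hARB : StARB) (hSCL : StSCL) (hARX : StARX) (hTWO : StTWO)
    (hCLS : StCLS) : StPRE := by
  intro S _ _ _ ω V hG J hE K hK hr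
  have hJ : IsSCC J := hE.1
  obtain ⟨-, -, -, hI, -⟩ := hTWO S ω V hG J hE
  obtain ⟨-, -, hcl⟩ := hCLS S ω V hG J hE
  have hARN1 := (hARN S ω V hG).1
  have hIJ : ∀ x ∈ Ins ω J, x ∉ J := fun x hx => hx.1
  by_cases hKI : K ⊆ Ins ω J
  · -- first case
    have hKJ : ∀ x ∈ K, x ∉ J := fun x hx => hIJ x (hKI hx)
    obtain ⟨a₀, ha₀, -⟩ := other_pt hARB hJ (Classical.arbitrary S)
    obtain ⟨b₀, hb₀, -⟩ := other_pt hARB hK (Classical.arbitrary S)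
    obtain ⟨α, p, z, hα, hpJ, hzK, -, hαJ, hαK⟩ := step hARB hSCL hARX (R := ∅) hJ hK
      (by rw [compl_empty]; exact isPathConnected_univ) (fun x hx _ => hKJ x hx)
      ⟨b₀, hb₀, fun h => h⟩ ⟨a₀, ha₀, fun h => h⟩
    obtain ⟨-, -, hpα, hzα, hpz, -⟩ := hARB.1 S α p z hα
    obtain ⟨a, ha, hap⟩ := other_pt hARB hJ p
    obtain ⟨b, hb, hbz⟩ := other_pt hARB hK z
    obtain ⟨β, p', z', hβ, hpJ', hzK', hβα, hβJ, hβK⟩ := step hARB hSCL hARX (R := α) hJ hK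
      (hARN1 α (Or.inl ⟨p, z, hα⟩)) (fun x hx _ => hKJ x hx)
      ⟨b, hb, fun h => hbz (by rw [← mem_singleton_iff, ← hαK]; exact ⟨h, hb⟩)⟩
      ⟨a, ha, fun h => hap (by rw [← mem_singleton_iff, ← hαJ]; exact ⟨h, ha⟩)⟩
    obtain ⟨hβ', -, hpβ, hzβ, hpz', -⟩ := hARB.1 S β p' z' hβ
    have hzz : z ≠ z' := fun h => hβα hzβ (h ▸ hzα)
    obtain ⟨K₁, K₂, hK₁, -, -, hK₁₂⟩ := (hSCL S K hK).1 z hzK z' hzK' hzz
    have hK₁K : K₁ ⊆ K := fun x hx => hK₁₂ ▸ Or.inl hx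
    obtain ⟨-, -, hzK₁, hzK₁', -⟩ := hARB.1 S K₁ z z' hK₁
    have h1 : IsArc (α ∪ K₁) p z' := by
      refine hARB.2.2.1 S α K₁ p z' z hα hK₁ ?_
      apply Subset.antisymm
      · rw [← hαK]
        exact fun x hx => ⟨hx.1, hK₁K hx.2⟩
      · intro x hx
        rw [mem_singleton_iff] at hx
        rw [hx]
        exact ⟨hzα, hzK₁⟩
    have h2 : IsArc ((α ∪ K₁) ∪ β) p p' := by
      refine hARB.2.2.1 S (α ∪ K₁) β p p' z' h1 hβ' ?_
      apply Subset.antisymm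
      · rintro x ⟨hx | hx, hx'⟩
        · exact absurd hx (hβα hx')
        · rw [← hβK]
          exact ⟨hx', hK₁K hx⟩
      · intro x hx
        rw [mem_singleton_iff] at hx
        rw [hx]
        exact ⟨Or.inr hzK₁', hzβ⟩
    refine ⟨p, p', (α ∪ K₁) ∪ β, ⟨h2, ?_, ?_⟩, z, ⟨Or.inl (Or.inl hzα), hzK⟩, z',
      ⟨Or.inr hzβ, hzK'⟩, hzz⟩
    · apply Subset.antisymm
      · rintro x ⟨(hx | hx) | hx, hx'⟩
        · left
          rw [← mem_singleton_iff, ← hαJ]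
          exact ⟨hx, hx'⟩
        · exact absurd hx' (hKJ x (hK₁K hx))
        · right
          rw [← hβJ]
          exact ⟨hx, hx'⟩
      · rintro x (hx | hx)
        · rw [hx]
          exact ⟨Or.inl (Or.inl hpα), hpJ⟩
        · rw [mem_singleton_iff] at hx
          rw [hx]
          exact ⟨Or.inr hpβ, hpJ'⟩
    · rintro x ⟨(hx | hx) | hx, hx'⟩
      · exact inside hARB hI hα hαJ (hKI hzK) x hx fun h => hx' (Or.inl h)
      · exact hKI (hK₁K hx)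
      · exact inside hARB hI hβ hβJ (hKI hzK') x hx fun h => hx' (Or.inr h)
  · -- second case
    obtain ⟨r, hrK, hrI⟩ := not_subset.1 hKI
    have hKr : ∀ x ∈ K, x ≠ r → x ∈ Ins ω J := by
      intro x hx hxr
      by_contra h
      exact hxr (hr x ⟨hx, h⟩ r ⟨hrK, hrI⟩)
    obtain ⟨c, hcK, hcr⟩ := other_pt hARB hK r
    obtain ⟨A, B, hA, -, -, hAB⟩ := (hSCL S K hK).1 r hrK c hcK hcr.symm
    have hAK : A ⊆ K := fun x hx => hAB ▸ Or.inl hx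
    obtain ⟨-, -, -, -, -, -, -, -, -, hrc, -⟩ := hARB.1 S A r c hA
    have hrJ : r ∈ J := by
      have h1 : r ∈ closure (Ins ω J) := by
        refine closure_mono ?_ hrc
        rintro x ⟨hx, hx'⟩
        exact hKr x (hAK hx) fun h => hx' (Or.inl h)
      rw [hcl] at h1
      rcases h1 with h1 | h1
      · exact h1
      · exact absurd h1 hrI
    obtain ⟨a, ha, har⟩ := other_pt hARB hJ r
    obtain ⟨β, p', z', hβ, hpJ', hzK', hβr, hβJ, hβK⟩ := step hARB hSCL hARX (R := {r}) hJ hK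
      (hARN1 {r} (Or.inr ⟨r, rfl⟩)) (fun x hx hx' => hIJ x (hKr x hx hx'))
      ⟨c, hcK, hcr⟩ ⟨a, ha, har⟩
    obtain ⟨hβ', -, hpβ, hzβ, hpz', -⟩ := hARB.1 S β p' z' hβ
    have hzr : z' ≠ r := fun h => hβr hzβ h
    obtain ⟨K₁, K₂, hK₁, -, -, hK₁₂⟩ := (hSCL S K hK).1 r hrK z' hzK' hzr.symm
    have hK₁K : K₁ ⊆ K := fun x hx => hK₁₂ ▸ Or.inl hx
    obtain ⟨-, -, hrK₁, hzK₁', -⟩ := hARB.1 S K₁ r z' hK₁
    have h2 : IsArc (K₁ ∪ β) r p' := by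
      refine hARB.2.2.1 S K₁ β r p' z' hK₁ hβ' ?_
      apply Subset.antisymm
      · rw [← hβK]
        exact fun x hx => ⟨hx.2, hK₁K hx.1⟩
      · intro x hx
        rw [mem_singleton_iff] at hx
        rw [hx]
        exact ⟨hzK₁', hzβ⟩
    refine ⟨r, p', K₁ ∪ β, ⟨h2, ?_, ?_⟩, r, ⟨Or.inl hrK₁, hrK⟩, z', ⟨Or.inr hzβ, hzK'⟩, hzr.symm⟩
    · apply Subset.antisymm
      · rintro x ⟨hx | hx, hx'⟩
        · left
          by_contra h
          exact hIJ x (hKr x (hK₁K hx) h) hx'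
        · right
          rw [← hβJ]
          exact ⟨hx, hx'⟩
      · rintro x (hx | hx)
        · rw [hx]
          exact ⟨Or.inl hrK₁, hrJ⟩
        · rw [mem_singleton_iff] at hx
          rw [hx]
          exact ⟨Or.inr hpβ, hpJ'⟩
    · rintro x ⟨hx | hx, hx'⟩
      · exact hKr x (hK₁K hx) fun h => hx' (Or.inl h)
      · exact inside hARB hI hβ hβJ (hKr z' hzK' hzr) x hx fun h => hx' (Or.inr h)

end Pool.Agent.Helper58.SFP
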