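import Pool.Agent.Helper58.SF.StP

/-!
# Project TW: module S3A (subdivision along one curve)
-/

set_option autoImplicit false

namespace Pool.Agent.Helper58.SFP

open Set Topology Pool.Agent.Helper13.TR Pool.Agent.Helper58.SF
open Pool.Agent.Helper13.TW (IsArc Spl IsSCC dch Chn Splt GT CSy MP Val LR MCell StARB StARX StSCL StUAR StINF StLIN StAC1 StSDM)

section

variable {S : Type} [MetricSpace S]

/-- an arc is irreducible between its end points -/
private lemma arc_irr (hARB : StARB) {P P' : Set S} {p q : S} (hP' : IsArc P' p q) (hP : IsPreconnected P)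
    (hsub : P ⊆ P') (hp : p ∈ P) (hq : q ∈ P) : P = P' := by
  refine hsub.antisymm fun c hc => ?_
  by_contra hcP
  have hcp : c ≠ p := fun h => hcP (h ▸ hp)
  have hcq : c ≠ q := fun h => hcP (h ▸ hq)
  obtain ⟨D₁, D₂, h1, h2, hu, hi⟩ := hARB.2.1 S P' p q c hP' hc hcp hcq
  have k1 := hARB.1 S D₁ p c h1
  have k2 := hARB.1 S D₂ c q h2
  have c1 : IsClosed D₁ := k1.2.1.isClosed
  have c2 : IsClosed D₂ := k2.2.1.isClosed
  obtain ⟨w, hw, hw'⟩ := isPreconnected_closed_iff.1 hP D₁ D₂ c1 c2 (by rw [hu]; exact hsub)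
    ⟨p, hp, k1.2.2.1⟩ ⟨q, hq, k2.2.2.2.1⟩
  rw [hi, mem_singleton_iff] at hw'
  exact hcP (hw' ▸ hw)

private lemma clo_arc (hARB : StARB) {P : Set S} {p q : S} (h : IsArc P p q) : closure (P \ {p, q}) = P := by
  obtain ⟨-, hc, hp, hq, -, -, -, -, -, hp', hq', -⟩ := hARB.1 S P p q h
  refine (closure_minimal diff_subset hc.isClosed).antisymm fun c hcP => ?_
  by_cases h1 : c = p
  · rw [h1]; exact hp'
  · by_cases h2 : c = q
    · rw [h2]; exact hq'
    · exact subset_closure ⟨hcP, by simp [h1, h2]⟩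

private lemma arc_eq (hARB : StARB) {P P' : Set S} {p q p' q' : S} (h : IsArc P p q) (h' : IsArc P' p' q')
    (hs : P \ {p, q} ⊆ P' \ {p', q'}) (hp : p ∉ P' \ {p', q'}) (hq : q ∉ P' \ {p', q'}) : P = P' := by
  have hPP : P ⊆ P' := by
    rw [← clo_arc hARB h]
    exact closure_minimal (hs.trans diff_subset) (hARB.1 S P' p' q' h').2.1.isClosed
  obtain ⟨-, -, hpP, hqP, hne, hcon, -⟩ := hARB.1 S P p q h
  have hpp : p = p' ∨ p = q' := by
    by_contra hc
    exact hp ⟨hPP hpP, by simpa using hc⟩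
  have hqq : q = p' ∨ q = q' := by
    by_contra hc
    exact hq ⟨hPP hqP, by simpa using hc⟩
  have hconn : IsPreconnected P := hcon.isConnected.isPreconnected
  rcases hpp with rfl | rfl
  · rcases hqq with rfl | rfl
    · exact absurd rfl hne
    · exact arc_irr hARB h' hconn hPP hpP hqP
  · rcases hqq with rfl | rfl
    · exact arc_irr hARB h' hconn hPP hqP hpP
    · exact absurd rfl hne

/-- a preconnected set in the union of two disjoint open sets -/
private lemma side {A U₁ U₂ : Set S} (hA : IsPreconnected A) (h1 : IsOpen U₁) (h2 : IsOpen U₂)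
    (hd : U₁ ∩ U₂ = ∅) (hs : A ⊆ U₁ ∪ U₂) {x : S} (hx : x ∈ A) (hx1 : x ∈ U₁) : A ⊆ U₁ := by
  intro y hy
  rcases hs hy with h | h
  · exact h
  · exfalso
    obtain ⟨w, hw, hw1, hw2⟩ := hA U₁ U₂ h1 h2 hs ⟨x, hx, hx1⟩ ⟨y, hy, h⟩
    have : w ∈ U₁ ∩ U₂ := ⟨hw1, hw2⟩
    rw [hd] at this
    exact this

end

theorem hS3A (hPRE : StPRE) (hCMP : StCMP) (hJIN : StJIN) (hSMC : StSMC) (hTHE : StTHE) (hTWO : StTWO)
    (hCLS : StCLS) (hSCL : StSCL) (hARB : StARB) : StS3A := by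
  intro S _ _ _ ω V hGR J K hJ hK η F G hη hF hG
  have insJ : ∀ (J' : Set S) (x : S), x ∈ Ins ω J' → x ∉ J' := fun J' x h => h.1
  -- Step B
  have stepB : ∀ J : Set S, Cel ω V J → (∃ r₁ r₂ : S, r₁ ≠ r₂ ∧ r₁ ∈ K \ Ins ω J ∧ r₂ ∈ K \ Ins ω J) →
      GS ω (fun J' => ¬((cl ω J' ∩ F).Nonempty ∧ (cl ω J' ∩ G).Nonempty)) J := by
    intro J hJ hr
    obtain ⟨δ, hδ, hsmc⟩ := hSMC S ω V hGR J hJ (η / 2) (half_pos hη)
    have claim : ∀ (n : ℕ) (J' : Set S), Cel ω V J' → Ins ω J' ⊆ Ins ω J →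
        (∀ z ∈ K ∩ Ins ω J', connectedComponentIn (K ∩ Ins ω J') z = connectedComponentIn (K ∩ Ins ω J) z) →
        {C : Set S | (∃ z ∈ K ∩ Ins ω J', C = connectedComponentIn (K ∩ Ins ω J') z) ∧
          δ ≤ Metric.diam C}.ncard ≤ n →
        GS ω (fun J' => ¬((cl ω J' ∩ F).Nonempty ∧ (cl ω J' ∩ G).Nonempty)) J' := by
      intro n
      induction n with
      | zero =>
        intro J' hJ' hsub hcc hn
        have hr' : ∃ r₁ r₂ : S, r₁ ≠ r₂ ∧ r₁ ∈ K \ Ins ω J' ∧ r₂ ∈ K \ Ins ω J' := by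
          obtain ⟨r₁, r₂, h, h1, h2⟩ := hr
          exact ⟨r₁, r₂, h, ⟨h1.1, fun k => h1.2 (hsub k)⟩, ⟨h2.1, fun k => h2.2 (hsub k)⟩⟩
        obtain ⟨cmp1, -, cmp3⟩ := hCMP S ω V hGR J' hJ'.1 K hK.1.1 hr'
        have hfin := cmp3 δ hδ
        have hempty : {C : Set S | (∃ z ∈ K ∩ Ins ω J', C = connectedComponentIn (K ∩ Ins ω J') z) ∧
          δ ≤ Metric.diam C} = ∅ := by
          rw [← Set.ncard_eq_zero hfin]
          omega
        apply GS.leaf
        rintro ⟨⟨x₀, hx₀, hxF⟩, ⟨y₀, hy₀, hyG⟩⟩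
        have hcl := (hCLS S ω V hGR J' hJ'.1).2.2
        obtain ⟨⟨oK, -⟩, ⟨oK', -⟩, -, sepK, -⟩ := hTWO S ω V hGR K hK.1
        -- the point x
        have ex : ∃ x ∈ Ins ω J', x ∈ Ins ω K ∧ ∀ k ∈ K, η / 2 < dist x k := by
          have h1 : x₀ ∈ closure (Ins ω J') := by rw [hcl]; exact hx₀
          obtain ⟨hxK, hxd⟩ := hF x₀ hxF
          have h2 : Ins ω K ∩ Metric.ball x₀ (η / 2) ∈ 𝓝 x₀ :=
            Filter.inter_mem (oK.mem_nhds hxK) (Metric.ball_mem_nhds _ (half_pos hη))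
          obtain ⟨x, ⟨hx1, hx2⟩, hx3⟩ := mem_closure_iff_nhds.1 h1 _ h2
          refine ⟨x, hx3, hx1, fun k hk => ?_⟩
          have h3 := hxd k hk
          have h4 := dist_triangle x₀ x k
          rw [Metric.mem_ball, dist_comm] at hx2
          linarith
        have ey : ∃ y ∈ Ins ω J', y ∉ Ins ω K ∧ ∀ k ∈ K, η / 2 < dist y k := by
          have h1 : y₀ ∈ closure (Ins ω J') := by rw [hcl]; exact hy₀
          obtain ⟨hyK, hyd⟩ := hG y₀ hyG
          have h2 : Out ω K ∩ Metric.ball y₀ (η / 2) ∈ 𝓝 y₀ :=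
            Filter.inter_mem (oK'.mem_nhds hyK) (Metric.ball_mem_nhds _ (half_pos hη))
          obtain ⟨y, ⟨hy1, hy2⟩, hy3⟩ := mem_closure_iff_nhds.1 h1 _ h2
          refine ⟨y, hy3, fun h => hy1 (Or.inr h), fun k hk => ?_⟩
          have h3 := hyd k hk
          have h4 := dist_triangle y₀ y k
          rw [Metric.mem_ball, dist_comm] at hy2
          linarith
        obtain ⟨x, xJ, xK, xd⟩ := ex
        obtain ⟨y, yJ, yK, yd⟩ := ey
        have hnk : ∀ w : S, (∀ k ∈ K, η / 2 < dist w k) → w ∉ K := by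
          intro w hw hwK
          have := hw w hwK
          rw [dist_self] at this
          linarith
        have nj : ¬ JoinedIn (Ins ω J' \ K) x y := by
          intro hj
          exact yK ((sepK x y (hj.mono fun w hw => hw.2)).1 xK)
        have nj2 : ∃ (p q : S) (D₁ D₂ P : Set S), Spl J' p q D₁ D₂ ∧ Crs ω J' p q P ∧ P ⊆ K ∧
            ¬ (x ∈ Ins ω (D₁ ∪ P) ↔ y ∈ Ins ω (D₁ ∪ P)) := by
          by_contra hc
          push Not at hc
          refine nj (hJIN S ω V hGR J' hJ' K hK.1.1 hr' x ⟨xJ, hnk x xd⟩ y ⟨yJ, hnk y yd⟩ ?_)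
          intro p q D₁ D₂ P h1 h2 h3
          have := hc p q D₁ D₂ P h1 h2 h3
          tauto
        obtain ⟨p, q, D₁', D₂', P, hspl', hcrs', hPK, hdiff⟩ := nj2
        -- a point of the open arc
        obtain ⟨z, hz⟩ : (P \ {p, q}).Nonempty := (hARB.1 S P p q hcrs'.1).2.2.2.2.2.2.2.2.1.nonempty
        have hzJ' : z ∈ Ins ω J' := hcrs'.2.2 hz
        have hzK : z ∈ K := hPK hz.1
        obtain ⟨p', q', P', hcrs1, -, -, -, hcomp1⟩ := cmp1 z ⟨hzK, hzJ'⟩
        have hPp : P = P' := by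
          refine arc_eq hARB hcrs'.1 hcrs1.1 ?_ ?_ ?_
          · rw [← hcomp1]
            exact ((hARB.1 S P p q hcrs'.1).2.2.2.2.2.2.2.2.1.isConnected.isPreconnected).subset_connectedComponentIn
              hz (fun w hw => ⟨hPK hw.1, hcrs'.2.2 hw⟩)
          · intro h
            have : p ∈ P ∩ J' := by rw [hcrs'.2.1]; simp
            exact insJ J' p (hcrs1.2.2 h) this.2
          · intro h
            have : q ∈ P ∩ J' := by rw [hcrs'.2.1]; simp
            exact insJ J' q (hcrs1.2.2 h) this.2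
        have hclo : closure (connectedComponentIn (K ∩ Ins ω J') z) = P := by
          rw [hcomp1, clo_arc hARB hcrs1.1, hPp]
        have hdiam : Metric.diam P < δ := by
          by_contra hc
          push Not at hc
          have : connectedComponentIn (K ∩ Ins ω J') z ∈ {C : Set S | (∃ z ∈ K ∩ Ins ω J',
              C = connectedComponentIn (K ∩ Ins ω J') z) ∧ δ ≤ Metric.diam C} := by
            refine ⟨⟨z, ⟨hzK, hzJ'⟩, rfl⟩, ?_⟩
            rw [← Metric.diam_closure, hclo]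
            exact hc
          rw [hempty] at this
          exact this
        -- the same arc as a crosscut of J
        obtain ⟨cmpJ, -, -⟩ := hCMP S ω V hGR J hJ.1 K hK.1.1 hr
        obtain ⟨p₂, q₂, P₂, hcrs2, -, -, -, hcomp2⟩ := cmpJ z ⟨hzK, hsub hzJ'⟩
        have hPp2 : P₂ = P := by
          rw [← clo_arc hARB hcrs2.1, ← hcomp2, ← hcc z ⟨hzK, hzJ'⟩, hclo]
        subst hPp2
        have hpJ : p₂ ∈ J := by
          have : p₂ ∈ P₂ ∩ J := by rw [hcrs2.2.1]; simp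
          exact this.2
        have hqJ : q₂ ∈ J := by
          have : q₂ ∈ P₂ ∩ J := by rw [hcrs2.2.1]; simp
          exact this.2
        obtain ⟨D₁, D₂, hspl⟩ := (hSCL S J hJ.1.1).1 p₂ hpJ q₂ hqJ (hARB.1 S P₂ p₂ q₂ hcrs2.1).2.2.2.2.1
        obtain ⟨ce1, ce2, idis, iun, -⟩ := hTHE S ω V hGR J hJ p₂ q₂ D₁ D₂ P₂ hspl hcrs2
        obtain ⟨ce1', ce2', idis', iun', -⟩ := hTHE S ω V hGR J' hJ' p q D₁' D₂' P₂ hspl' hcrs'
        obtain ⟨⟨o1, -⟩, -, cpt1, -⟩ := hTWO S ω V hGR _ ce1.1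
        obtain ⟨⟨o2, -⟩, -, cpt2, -⟩ := hTWO S ω V hGR _ ce2.1
        obtain ⟨⟨o1', pc1'⟩, -⟩ := hTWO S ω V hGR _ ce1'.1
        obtain ⟨⟨o2', pc2'⟩, -⟩ := hTWO S ω V hGR _ ce2'.1
        obtain ⟨⟨oJ', -⟩, -⟩ := hTWO S ω V hGR J' hJ'.1
        -- x, y are in different pieces of J'
        have inP : ∀ w ∈ Ins ω J', w ∉ P₂ → w ∈ Ins ω (D₁' ∪ P₂) ∪ Ins ω (D₂' ∪ P₂) := by
          intro w hw hwP
          rw [iun']
          exact ⟨hw, hwP⟩
        have sub1 : Ins ω (D₁' ∪ P₂) ⊆ Ins ω (D₁ ∪ P₂) ∪ Ins ω (D₂ ∪ P₂) := by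
          rw [iun]
          intro w hw
          have : w ∈ Ins ω J' \ P₂ := by rw [← iun']; exact Or.inl hw
          exact ⟨hsub this.1, this.2⟩
        have sub2 : Ins ω (D₂' ∪ P₂) ⊆ Ins ω (D₁ ∪ P₂) ∪ Ins ω (D₂ ∪ P₂) := by
          rw [iun]
          intro w hw
          have : w ∈ Ins ω J' \ P₂ := by rw [← iun']; exact Or.inr hw
          exact ⟨hsub this.1, this.2⟩
        -- points near z on both sides of P in J
        have near1 : ∃ u ∈ Ins ω (D₁ ∪ P₂), u ∈ Ins ω J' := by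
          have h1 : z ∈ closure (Ins ω (D₁ ∪ P₂)) := (hCLS S ω V hGR _ ce1.1).1 (Or.inr hz.1)
          obtain ⟨u, hu1, hu2⟩ := mem_closure_iff_nhds.1 h1 _ (oJ'.mem_nhds hzJ')
          exact ⟨u, hu2, hu1⟩
        have near2 : ∃ u ∈ Ins ω (D₂ ∪ P₂), u ∈ Ins ω J' := by
          have h1 : z ∈ closure (Ins ω (D₂ ∪ P₂)) := (hCLS S ω V hGR _ ce2.1).1 (Or.inr hz.1)
          obtain ⟨u, hu1, hu2⟩ := mem_closure_iff_nhds.1 h1 _ (oJ'.mem_nhds hzJ')
          exact ⟨u, hu2, hu1⟩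
        obtain ⟨u₁, hu₁, hu₁'⟩ := near1
        obtain ⟨u₂, hu₂, hu₂'⟩ := near2
        have hu₁P : u₁ ∉ P₂ := fun h => insJ _ _ hu₁ (Or.inr h)
        have hu₂P : u₂ ∉ P₂ := fun h => insJ _ _ hu₂ (Or.inr h)
        have idis2 : Ins ω (D₂ ∪ P₂) ∩ Ins ω (D₁ ∪ P₂) = ∅ := by rw [inter_comm]; exact idis
        have dj : ∀ w, w ∈ Ins ω (D₁ ∪ P₂) → w ∈ Ins ω (D₂ ∪ P₂) → False := by
          intro w h1 h2
          have : w ∈ Ins ω (D₁ ∪ P₂) ∩ Ins ω (D₂ ∪ P₂) := ⟨h1, h2⟩
          rw [idis] at this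
          exact this
        have pre1 := pc1'.isConnected.isPreconnected
        have pre2 := pc2'.isConnected.isPreconnected
        -- each piece of J' lies in one piece of J
        have alt : ∀ A : Set S, IsPreconnected A → A ⊆ Ins ω (D₁ ∪ P₂) ∪ Ins ω (D₂ ∪ P₂) → A.Nonempty →
            A ⊆ Ins ω (D₁ ∪ P₂) ∨ A ⊆ Ins ω (D₂ ∪ P₂) := by
          rintro A hA hs ⟨w, hw⟩
          rcases hs hw with h | h
          · exact Or.inl (side hA o1 o2 idis hs hw h)
          · refine Or.inr (side hA o2 o1 idis2 (fun v hv => (hs hv).symm) hw h)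
        have sides : (Ins ω (D₁' ∪ P₂) ⊆ Ins ω (D₁ ∪ P₂) ∧ Ins ω (D₂' ∪ P₂) ⊆ Ins ω (D₂ ∪ P₂)) ∨
            (Ins ω (D₁' ∪ P₂) ⊆ Ins ω (D₂ ∪ P₂) ∧ Ins ω (D₂' ∪ P₂) ⊆ Ins ω (D₁ ∪ P₂)) := by
          rcases alt _ pre1 sub1 pc1'.nonempty with h1 | h1
          · rcases alt _ pre2 sub2 pc2'.nonempty with h2 | h2
            · exfalso
              rcases inP u₂ hu₂' hu₂P with h | h
              · exact dj u₂ (h1 h) hu₂
              · exact dj u₂ (h2 h) hu₂
            · exact Or.inl ⟨h1, h2⟩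
          · rcases alt _ pre2 sub2 pc2'.nonempty with h2 | h2
            · exact Or.inr ⟨h1, h2⟩
            · exfalso
              rcases inP u₁ hu₁' hu₁P with h | h
              · exact dj u₁ hu₁ (h1 h)
              · exact dj u₁ hu₁ (h2 h)
        have hxP : x ∉ P₂ := fun h => hnk x xd (hPK h)
        have hyP : y ∉ P₂ := fun h => hnk y yd (hPK h)
        have hxy : (x ∈ Ins ω (D₁ ∪ P₂) ∧ y ∈ Ins ω (D₂ ∪ P₂)) ∨
            (x ∈ Ins ω (D₂ ∪ P₂) ∧ y ∈ Ins ω (D₁ ∪ P₂)) := by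
          by_cases hx1 : x ∈ Ins ω (D₁' ∪ P₂)
          · have hy1 : y ∉ Ins ω (D₁' ∪ P₂) := fun h => hdiff ⟨fun _ => h, fun _ => hx1⟩
            have hy2 := (inP y yJ hyP).resolve_left hy1
            rcases sides with ⟨s1, s2⟩ | ⟨s1, s2⟩
            · exact Or.inl ⟨s1 hx1, s2 hy2⟩
            · exact Or.inr ⟨s1 hx1, s2 hy2⟩
          · have hx2 := (inP x xJ hxP).resolve_left hx1
            have hy1 : y ∈ Ins ω (D₁' ∪ P₂) := by
              by_contra h
              exact hdiff ⟨fun k => absurd k hx1, fun k => absurd k h⟩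
            rcases sides with ⟨s1, s2⟩ | ⟨s1, s2⟩
            · exact Or.inr ⟨s2 hx2, s1 hy1⟩
            · exact Or.inl ⟨s2 hx2, s1 hy1⟩
        have fin : ∀ D : Set S, IsCompact (cl ω (D ∪ P₂)) → Metric.diam (cl ω (D ∪ P₂)) < η / 2 →
            ∀ w : S, w ∈ Ins ω (D ∪ P₂) → (∀ k ∈ K, η / 2 < dist w k) → False := by
          intro D hcpt hd w hw hwd
          have h1 := Metric.dist_le_diam_of_mem hcpt.isBounded (x := w) (y := z) (Or.inr hw)
            (Or.inl (Or.inr hz.1))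
          have h2 := hwd z hzK
          linarith
        rcases hsmc p₂ q₂ D₁ D₂ P₂ hspl hcrs2 hdiam with hd | hd
        · rcases hxy with ⟨h1, h2⟩ | ⟨h1, h2⟩
          · exact fin D₁ cpt1 hd x h1 xd
          · exact fin D₁ cpt1 hd y h2 yd
        · rcases hxy with ⟨h1, h2⟩ | ⟨h1, h2⟩
          · exact fin D₂ cpt2 hd y h2 yd
          · exact fin D₂ cpt2 hd x h1 xd
      | succ n ih =>
        intro J' hJ' hsub hcc hn
        have hr' : ∃ r₁ r₂ : S, r₁ ≠ r₂ ∧ r₁ ∈ K \ Ins ω J' ∧ r₂ ∈ K \ Ins ω J' := by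
          obtain ⟨r₁, r₂, h, h1, h2⟩ := hr
          exact ⟨r₁, r₂, h, ⟨h1.1, fun k => h1.2 (hsub k)⟩, ⟨h2.1, fun k => h2.2 (hsub k)⟩⟩
        obtain ⟨cmp1, -, cmp3⟩ := hCMP S ω V hGR J' hJ'.1 K hK.1.1 hr'
        have hfin := cmp3 δ hδ
        by_cases hemp : {C : Set S | (∃ z ∈ K ∩ Ins ω J', C = connectedComponentIn (K ∩ Ins ω J') z) ∧
          δ ≤ Metric.diam C} = ∅
        · exact ih J' hJ' hsub hcc (by rw [hemp, Set.ncard_empty]; exact Nat.zero_le _)
        · obtain ⟨C, ⟨z, hz, hCz⟩, hCd⟩ := Set.nonempty_iff_ne_empty.2 hemp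
          obtain ⟨p, q, P, hcrs, hzP, hPK, -, hcomp⟩ := cmp1 z hz
          have hpJ : p ∈ J' := by
            have : p ∈ P ∩ J' := by rw [hcrs.2.1]; simp
            exact this.2
          have hqJ : q ∈ J' := by
            have : q ∈ P ∩ J' := by rw [hcrs.2.1]; simp
            exact this.2
          obtain ⟨D₁, D₂, hspl⟩ := (hSCL S J' hJ'.1.1).1 p hpJ q hqJ (hARB.1 S P p q hcrs.1).2.2.2.2.1
          obtain ⟨ce1, ce2, idis, iun, -⟩ := hTHE S ω V hGR J' hJ' p q D₁ D₂ P hspl hcrs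
          obtain ⟨⟨o1, -⟩, -⟩ := hTWO S ω V hGR _ ce1.1
          obtain ⟨⟨o2, -⟩, -⟩ := hTWO S ω V hGR _ ce2.1
          -- one piece
          have piece : ∀ (U U' : Set S), IsOpen U → IsOpen U' → U ∩ U' = ∅ → U ∪ U' = Ins ω J' \ P →
              ∀ z' ∈ K ∩ U, connectedComponentIn (K ∩ U) z' = connectedComponentIn (K ∩ Ins ω J') z' := by
            intro U U' oU oU' hd hu z' hz'
            have hUs : U ⊆ Ins ω J' \ P := by rw [← hu]; exact subset_union_left
            have hz'J : z' ∈ K ∩ Ins ω J' := ⟨hz'.1, (hUs hz'.2).1⟩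
            apply Subset.antisymm
            · exact connectedComponentIn_mono z' (fun w hw => ⟨hw.1, (hUs hw.2).1⟩)
            · refine isPreconnected_connectedComponentIn.subset_connectedComponentIn
                (mem_connectedComponentIn hz'J) ?_
              have hPd : ∀ w ∈ connectedComponentIn (K ∩ Ins ω J') z', w ∉ P := by
                intro w hw hwP
                have hwJ : w ∈ Ins ω J' := (connectedComponentIn_subset _ _ hw).2
                have hwC : w ∈ P \ {p, q} := by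
                  refine ⟨hwP, ?_⟩
                  rintro (h | h)
                  · exact insJ J' w hwJ (h ▸ hpJ)
                  · rw [mem_singleton_iff] at h
                    exact insJ J' w hwJ (h ▸ hqJ)
                rw [← hcomp] at hwC
                have e1 := connectedComponentIn_eq hw
                have e2 := connectedComponentIn_eq hwC
                have : z' ∈ connectedComponentIn (K ∩ Ins ω J') z := by
                  rw [e2, ← e1]
                  exact mem_connectedComponentIn hz'J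
                rw [hcomp] at this
                exact (hUs hz'.2).2 this.1
              have hs : connectedComponentIn (K ∩ Ins ω J') z' ⊆ U ∪ U' := by
                intro w hw
                rw [hu]
                exact ⟨(connectedComponentIn_subset _ _ hw).2, hPd w hw⟩
              have := side isPreconnected_connectedComponentIn oU oU' hd hs (mem_connectedComponentIn hz'J) hz'.2
              exact fun w hw => ⟨(connectedComponentIn_subset _ _ hw).1, this hw⟩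
          have fin : ∀ (D : Set S) (U' : Set S), Cel ω V (D ∪ P) → IsOpen (Ins ω (D ∪ P)) → IsOpen U' →
              Ins ω (D ∪ P) ∩ U' = ∅ → Ins ω (D ∪ P) ∪ U' = Ins ω J' \ P →
              GS ω (fun J' => ¬((cl ω J' ∩ F).Nonempty ∧ (cl ω J' ∩ G).Nonempty)) (D ∪ P) := by
            intro D U' hce oU oU' hd hu
            have hUs : Ins ω (D ∪ P) ⊆ Ins ω J' \ P := by rw [← hu]; exact subset_union_left
            have hpc := piece _ U' oU oU' hd hu
            refine ih (D ∪ P) hce (fun w hw => hsub (hUs hw).1) ?_ ?_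
            · intro z' hz'
              rw [hpc z' hz']
              exact hcc z' ⟨hz'.1, (hUs hz'.2).1⟩
            · have hss : {C : Set S | (∃ z ∈ K ∩ Ins ω (D ∪ P), C = connectedComponentIn (K ∩ Ins ω (D ∪ P)) z) ∧
                  δ ≤ Metric.diam C} ⊂ {C : Set S | (∃ z ∈ K ∩ Ins ω J',
                    C = connectedComponentIn (K ∩ Ins ω J') z) ∧ δ ≤ Metric.diam C} := by
                refine (Set.ssubset_iff_of_subset ?_).2 ?_
                · rintro C' ⟨⟨z', hz', hC'⟩, hd'⟩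
                  exact ⟨⟨z', ⟨hz'.1, (hUs hz'.2).1⟩, by rw [hC', hpc z' hz']⟩, hd'⟩
                · refine ⟨C, ⟨⟨z, hz, hCz⟩, hCd⟩, ?_⟩
                  rintro ⟨⟨z', hz', hC'⟩, -⟩
                  have h1 : z ∈ C := by rw [hCz]; exact mem_connectedComponentIn hz
                  rw [hC'] at h1
                  have h2 := (connectedComponentIn_subset _ _ h1).2
                  exact (hUs h2).2 hzP
              have := Set.ncard_lt_ncard hss hfin
              omega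
          refine GS.node J' p q D₁ D₂ P hspl hcrs ?_ ?_
          · exact fin D₁ (Ins ω (D₂ ∪ P)) ce1 o1 o2 idis iun
          · exact fin D₂ (Ins ω (D₁ ∪ P)) ce2 o2 o1 (by rw [inter_comm]; exact idis)
              (by rw [union_comm]; exact iun)
    exact claim _ J hJ Subset.rfl (fun z _ => rfl) le_rfl
  -- Step A
  by_cases hr : ∀ r₁ ∈ K \ Ins ω J, ∀ r₂ ∈ K \ Ins ω J, r₁ = r₂
  · obtain ⟨p, q, P, hcrs, r₁, hr₁, r₂, hr₂, hne⟩ := hPRE S ω V hGR J hJ.1 K hK.1.1 hr
    have hpJ : p ∈ J := by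
      have : p ∈ P ∩ J := by rw [hcrs.2.1]; simp
      exact this.2
    have hqJ : q ∈ J := by
      have : q ∈ P ∩ J := by rw [hcrs.2.1]; simp
      exact this.2
    obtain ⟨D₁, D₂, hspl⟩ := (hSCL S J hJ.1.1).1 p hpJ q hqJ (hARB.1 S P p q hcrs.1).2.2.2.2.1
    obtain ⟨ce1, ce2, -⟩ := hTHE S ω V hGR J hJ p q D₁ D₂ P hspl hcrs
    refine GS.node J p q D₁ D₂ P hspl hcrs ?_ ?_
    · exact stepB _ ce1 ⟨r₁, r₂, hne, ⟨hr₁.2, fun h => insJ _ _ h (Or.inr hr₁.1)⟩,
        ⟨hr₂.2, fun h => insJ _ _ h (Or.inr hr₂.1)⟩⟩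
    · exact stepB _ ce2 ⟨r₁, r₂, hne, ⟨hr₁.2, fun h => insJ _ _ h (Or.inr hr₁.1)⟩,
        ⟨hr₂.2, fun h => insJ _ _ h (Or.inr hr₂.1)⟩⟩
  · push Not at hr
    obtain ⟨r₁, h1, r₂, h2, hne⟩ := hr
    exact stepB J hJ ⟨r₁, r₂, hne, h1, h2⟩

end Pool.Agent.Helper58.SFP
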