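import Pool.Agent.Helper58.SF.StP

/-!
# Project TW, module S3B: subdivision into small cells
-/

set_option autoImplicit false

namespace Pool.Agent.Helper58.SFP

open Set Topology Pool.Agent.Helper13.TR Pool.Agent.Helper58.SF
open Pool.Agent.Helper13.TW (IsArc Spl IsSCC dch Chn Splt GT CSy MP Val LR MCell StARB StARX StSCL StUAR StINF StLIN StAC1 StSDM)

/-- composition of subdivisions -/
private theorem gs_comp (hTHE : StTHE) {S : Type} [MetricSpace S] [LocallyPathConnectedSpace S]
    [PathConnectedSpace S] {ω : Ch S 1 → S → ℤ} {V : Set S} (hG : WN S ω V) {Φ Ψ : Set S → Prop}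
    {J : Set S} (h : GS ω Φ J) : Cel ω V J →
    (∀ J' : Set S, Φ J' → Cel ω V J' → cl ω J' ⊆ cl ω J → GS ω Ψ J') → GS ω Ψ J := by
  induction h with
  | leaf J h => intro hJ hk; exact hk J h hJ (Subset.refl _)
  | node J p q D₁ D₂ P hS hC g1 g2 ih1 ih2 =>
    intro hJ hk
    obtain ⟨c1, c2, _, _, hu, _, _, _⟩ := hTHE S ω V hG J hJ p q D₁ D₂ P hS hC
    have s1 : cl ω (D₁ ∪ P) ⊆ cl ω J := by rw [← hu]; exact subset_union_left
    have s2 : cl ω (D₂ ∪ P) ⊆ cl ω J := by rw [← hu]; exact subset_union_right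
    exact GS.node J p q D₁ D₂ P hS hC
      (ih1 c1 fun J' h1 h2 h3 => hk J' h1 h2 (h3.trans s1))
      (ih2 c2 fun J' h1 h2 h3 => hk J' h1 h2 (h3.trans s2))

theorem hS3B (hS3A : StS3A) (hSCE : StSCE) (hTHE : StTHE) (hTWO : StTWO) (_hCLS : StCLS) : StS3B := by
  intro S _ _ _ ω V hG J hJ ε hε
  have hclV : cl ω J ⊆ V := by
    unfold cl
    exact union_subset hJ.1.2.1 hJ.2
  -- the data at a point
  have pick : ∀ x ∈ cl ω J, ∃ (K : Set S) (r : ℝ), 0 < r ∧ Cel ω V K ∧ cl ω K ⊆ Metric.ball x (ε / 8) ∧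
      Metric.ball x (2 * r) ⊆ Ins ω K := by
    intro x hx
    obtain ⟨K, hK, hxK, hKO⟩ := hSCE S ω V hG x (hclV hx) (Metric.ball x (ε / 8)) Metric.isOpen_ball
      (Metric.mem_ball_self (by positivity))
    have ho : IsOpen (Ins ω K) := (hTWO S ω V hG K hK.1).1.1
    obtain ⟨r, hr, hrs⟩ := Metric.isOpen_iff.1 ho x hxK
    exact ⟨K, r / 2, by positivity, hK, hKO, by rw [mul_div_cancel₀ r (by norm_num : (2 : ℝ) ≠ 0)]; exact hrs⟩
  choose! K r hr hK hKO hball using pick
  set F : S → Set S := fun x => Metric.ball x (r x) with hF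
  set G : S → Set S := fun x => {y | ∀ c ∈ cl ω (K x), ε / 8 ≤ dist y c} with hGd
  set Q : S → Set S → Prop := fun x J' => ¬((cl ω J' ∩ F x).Nonempty ∧ (cl ω J' ∩ G x).Nonempty) with hQ
  have Qmono : ∀ x J' J'', cl ω J'' ⊆ cl ω J' → Q x J' → Q x J'' := by
    intro x J' J'' hs h1 h2
    exact h1 ⟨h2.1.mono (inter_subset_inter_left _ hs), h2.2.mono (inter_subset_inter_left _ hs)⟩
  -- one step
  have step : ∀ x ∈ cl ω J, ∀ J' : Set S, Cel ω V J' → GS ω (Q x) J' := by
    intro x hx J' hJ'
    refine hS3A S ω V hG J' (K x) hJ' (hK x hx) (min (r x) (ε / 8)) (F x) (G x)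
      (lt_min (hr x hx) (by positivity)) ?_ ?_
    · intro y hy
      have hy' : dist y x < r x := hy
      refine ⟨hball x hx ?_, ?_⟩
      · rw [Metric.mem_ball]
        have := hr x hx
        linarith
      · intro k hk
        have hk2 : k ∉ Metric.ball x (2 * r x) := fun h => (hball x hx h).1 hk
        rw [Metric.mem_ball, not_lt] at hk2
        have h3 := dist_triangle k y x
        rw [dist_comm k y] at h3
        exact (min_le_left _ _).trans (by linarith)
    · intro y hy
      refine ⟨fun h => ?_, fun k hk => ?_⟩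
      · have := hy y h
        rw [dist_self] at this
        linarith
      · exact (min_le_right _ _).trans (hy k (Or.inl hk))
  -- finitely many steps
  have many : ∀ T : Finset S, (∀ x ∈ T, x ∈ cl ω J) → GS ω (fun J' => ∀ x ∈ T, Q x J') J := by
    classical
    intro T
    induction T using Finset.induction_on with
    | empty =>
      intro _
      exact GS.leaf J fun x hx => absurd hx (Finset.notMem_empty x)
    | insert a T _ ih =>
      intro hT
      have h1 := ih fun x hx => hT x (Finset.mem_insert_of_mem hx)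
      refine gs_comp hTHE hG h1 hJ fun J' hJ1 hJ2 _ => ?_
      refine gs_comp hTHE hG (step a (hT a (Finset.mem_insert_self a T)) J' hJ2) hJ2 fun J'' k1 _ k3 => ?_
      refine GS.leaf J'' fun x hx => ?_
      rcases Finset.mem_insert.1 hx with h | h
      · rw [h]; exact k1
      · exact Qmono x J' J'' k3 (hJ1 x h)
  have hcpt : IsCompact (cl ω J) := (hTWO S ω V hG J hJ.1).2.2.1
  obtain ⟨T, hT1, hT2⟩ := hcpt.elim_nhds_subcover F fun x hx => Metric.ball_mem_nhds x (hr x hx)
  refine gs_comp hTHE hG (many T hT1) hJ fun J' h1 _ h3 => GS.leaf J' ?_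
  have key : Metric.diam (cl ω J') ≤ ε / 2 := by
    refine Metric.diam_le_of_forall_dist_le (by positivity) fun u hu v hv => ?_
    obtain ⟨x, hxT, hux⟩ := mem_iUnion₂.1 (hT2 (h3 hu))
    have near : ∀ y ∈ cl ω J', dist y x < ε / 4 := by
      intro y hy
      by_contra hcon
      refine h1 x hxT ⟨⟨u, hu, hux⟩, ⟨y, hy, ?_⟩⟩
      intro c hc
      have h4 : dist c x < ε / 8 := hKO x (hT1 x hxT) hc
      have h5 := dist_triangle y c x
      rw [not_lt] at hcon
      linarith
    have h6 := dist_triangle_right u v x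
    have h7 := near u hu
    have h8 := near v hv
    linarith
  linarith

end Pool.Agent.Helper58.SFP
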