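import Pool.Agent.Helper58.SF.StP

/-!
# Project TW, module SIM: from a closed chain of small arcs to a simple closed curve
-/

set_option autoImplicit false

namespace Pool.Agent.Helper58.SFP

open Set Topology Pool.Agent.Helper13.TR Pool.Agent.Helper58.SF
open Pool.Agent.Helper13.TW (IsArc Spl IsSCC dch Chn Splt GT CSy MP Val LR MCell StARB StARX StSCL StUAR StINF StLIN StAC1 StSDM)

namespace Sim

variable {S : Type} [MetricSpace S]

/-- small arc or point with a chain -/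
structure GA (Q : Set S) (ρ : ℝ) (D : Set S) (p q : S) (d : Ch S 1) : Prop where
  arc : IsArc D p q ∨ (D = {p} ∧ p = q)
  sub : D ⊆ Q
  dia : Metric.diam D < ρ
  mem : d ∈ cin D 1
  bdy : bd 0 d = Finsupp.single (pt q) 1 - Finsupp.single (pt p) 1

/-- walks of small arcs -/
inductive Wk (Q : Set S) (ρ : ℝ) : ℕ → S → S → Ch S 1 → Prop
  | nil (p : S) : Wk Q ρ 0 p p 0
  | cons (n : ℕ) (p q r : S) (D : Set S) (d c : Ch S 1) : GA Q ρ D p q d → Wk Q ρ n q r c →
      Wk Q ρ (n + 1) p r (d + c)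

variable {Q : Set S} {ρ : ℝ}

private lemma cin_mono (hMON : StMON) {A B : Set S} (h : A ⊆ B) {c : Ch S 1} (hc : c ∈ cin A 1) :
    c ∈ cin B 1 := (hMON S).1 A B 1 h hc

private lemma Wk.one {D : Set S} {p q : S} {d : Ch S 1} (h : GA Q ρ D p q d) : Wk Q ρ 1 p q d := by
  have := Wk.cons 0 p q q D d 0 h (Wk.nil q)
  simpa using this

private lemma Wk.app {n m : ℕ} {p q r : S} {c c' : Ch S 1} (h : Wk Q ρ n p q c) (h' : Wk Q ρ m q r c') :
    Wk Q ρ (n + m) p r (c + c') := by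
  induction h with
  | nil p => simpa using h'
  | cons n p q r' D d c hg _ ih =>
    have := Wk.cons _ _ _ _ _ _ _ hg (ih h')
    rw [show n + 1 + m = n + m + 1 by omega, add_assoc d c c']
    exact this

private lemma Wk.prop (hMON : StMON) {n : ℕ} {p q : S} {c : Ch S 1} (h : Wk Q ρ n p q c) :
    c ∈ cin Q 1 ∧ bd 0 c = Finsupp.single (pt q) 1 - Finsupp.single (pt p) 1 := by
  induction h with
  | nil p => exact ⟨Submodule.zero_mem _, by simp⟩
  | cons n p q r D d c hg _ ih =>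
    refine ⟨Submodule.add_mem _ (cin_mono hMON hg.sub hg.mem) ih.1, ?_⟩
    rw [map_add, hg.bdy, ih.2]
    abel

private lemma Wk.seq {n : ℕ} {p q : S} {c : Ch S 1} (h : Wk Q ρ n p q c) :
    ∃ (x : ℕ → S) (α : ℕ → Set S) (d : ℕ → Ch S 1), x 0 = p ∧ x n = q ∧
      (∀ i < n, GA Q ρ (α i) (x i) (x (i + 1)) (d i)) ∧ c = ∑ i ∈ Finset.range n, d i := by
  induction h with
  | nil p => exact ⟨fun _ => p, fun _ => ∅, fun _ => 0, rfl, rfl, fun i hi => absurd hi (by omega), by simp⟩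
  | cons n p q r D d c hg _ ih =>
    obtain ⟨x, α, e, h0, h1, h2, h3⟩ := ih
    refine ⟨fun k => Nat.casesOn k p x, fun k => Nat.casesOn k D α, fun k => Nat.casesOn k d e, rfl, h1, ?_, ?_⟩
    · intro i hi
      cases i with
      | zero =>
        show GA Q ρ D p (x 0) d
        rw [h0]
        exact hg
      | succ i => exact h2 i (by omega)
    · rw [Finset.sum_range_succ', h3]
      exact add_comm _ _

private lemma sub_walk {n : ℕ} {x : ℕ → S} {α : ℕ → Set S} {d : ℕ → Ch S 1}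
    (h : ∀ i < n, GA Q ρ (α i) (x i) (x (i + 1)) (d i)) {i j : ℕ} (hij : i ≤ j) (hj : j ≤ n) :
    Wk Q ρ (j - i) (x i) (x j) (∑ l ∈ Finset.Ico i j, d l) := by
  induction j, hij using Nat.le_induction with
  | base => simpa using Wk.nil (Q := Q) (ρ := ρ) (x i)
  | succ j hij ih =>
    rw [Finset.sum_Ico_succ_top hij, show j + 1 - i = (j - i) + 1 by omega]
    exact (ih (by omega)).app (Wk.one (h j (by omega)))

private lemma arc_cpt (hARB : StARB) {D : Set S} {p q : S} (h : IsArc D p q ∨ (D = {p} ∧ p = q)) :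
    IsCompact D ∧ p ∈ D ∧ q ∈ D := by
  rcases h with h | ⟨rfl, rfl⟩
  · have := hARB.1 S D p q h
    exact ⟨this.2.1, this.2.2.1, this.2.2.2.1⟩
  · exact ⟨isCompact_singleton, rfl, rfl⟩

private lemma diam_sub (hARB : StARB) {D D' : Set S} {p q : S} (h : IsArc D p q ∨ (D = {p} ∧ p = q))
    (h' : D' ⊆ D) : Metric.diam D' ≤ Metric.diam D :=
  Metric.diam_mono h' (arc_cpt hARB h).1.isBounded

private lemma GA.cut (hARB : StARB) (hAC1 : StAC1) (hρ : 0 < ρ) {D : Set S} {p q v : S} {d : Ch S 1}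
    (h : GA Q ρ D p q d) (hv : v ∈ D) :
    ∃ (D₁ D₂ : Set S) (d₁ d₂ : Ch S 1), D₁ ⊆ D ∧ D₂ ⊆ D ∧ GA Q ρ D₁ p v d₁ ∧ GA Q ρ D₂ v q d₂ := by
  have hpt : ∀ u ∈ D, GA Q ρ {u} u u 0 := fun u hu => ⟨Or.inr ⟨rfl, rfl⟩, singleton_subset_iff.2 (h.sub hu),
    by simpa using hρ, Submodule.zero_mem _, by simp⟩
  by_cases hp : v = p
  · subst hp
    exact ⟨{v}, D, 0, d, singleton_subset_iff.2 hv, Subset.rfl, hpt v hv, h⟩
  by_cases hq : v = q
  · subst hq
    exact ⟨D, {v}, d, 0, Subset.rfl, singleton_subset_iff.2 hv, h, hpt v hv⟩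
  rcases h.arc with ha | ⟨rfl, _⟩
  · obtain ⟨D₁, D₂, h1, h2, h3, -⟩ := hARB.2.1 S D p q v ha hv hp hq
    have s1 : D₁ ⊆ D := h3 ▸ subset_union_left
    have s2 : D₂ ⊆ D := h3 ▸ subset_union_right
    obtain ⟨-, m1, b1⟩ := hAC1 S D₁ p v h1
    obtain ⟨-, m2, b2⟩ := hAC1 S D₂ v q h2
    exact ⟨D₁, D₂, dch D₁ p v, dch D₂ v q, s1, s2,
      ⟨Or.inl h1, s1.trans h.sub, lt_of_le_of_lt (diam_sub hARB h.arc s1) h.dia, m1, b1⟩,
      ⟨Or.inl h2, s2.trans h.sub, lt_of_le_of_lt (diam_sub hARB h.arc s2) h.dia, m2, b2⟩⟩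
  · exact absurd hv hp

private lemma pair_adj (hARB : StARB) {A B : Set S} {p q r : S} (hA : IsArc A p q) (hB : IsArc B q r)
    (hp : p ∉ B) (hr : r ∉ A) :
    ∃ (v : S) (A' B' : Set S), A' ⊆ A ∧ B' ⊆ B ∧ IsArc A' p v ∧ IsArc B' v r ∧ A' ∩ B = {v} := by
  have h1 := hARB.1 S A p q hA
  have h2 := hARB.1 S B q r hB
  obtain ⟨v, hvB, A', hA', h3, h4⟩ := hARB.2.2.2.1 S A B p q hA h2.2.1.isClosed hp ⟨q, h1.2.2.2.1, h2.2.2.1⟩
  have hvA : v ∈ A := hA' (by have : v ∈ A' ∩ B := by rw [h4]; rfl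
                              exact this.1)
  have hvr : v ≠ r := fun h => hr (h ▸ hvA)
  by_cases hvq : v = q
  · subst hvq
    exact ⟨v, A', B, hA', Subset.rfl, h3, hB, h4⟩
  · obtain ⟨D₁, D₂, -, h6, h7, -⟩ := hARB.2.1 S B q r v hB hvB hvq hvr
    exact ⟨v, A', D₂, hA', h7 ▸ subset_union_right, h3, h6, h4⟩

/-- the minimal closed walk gives a simple closed curve -/
private lemma main (hARB : StARB) (hAC1 : StAC1) (hWD : StWD) (hMON : StMON)
    [LocallyPathConnectedSpace S] [PathConnectedSpace S] (ω : Ch S 1 → S → ℤ) (V : Set S) (hG : WN S ω V)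
    (a : S) (hQV : Q ⊆ V) (ha : a ∉ Q) (hρ : 0 < ρ) (hT : Tame ω Q a ρ)
    (hadd : ∀ z ∈ cin Q 1, ∀ z' ∈ cin Q 1, bd 0 z = 0 → bd 0 z' = 0 → W ω (z + z') a = W ω z a + W ω z' a)
    (n : ℕ) (p₀ : S) (c₀ : Ch S 1) (hw : Wk Q ρ n p₀ p₀ c₀) (hw0 : W ω c₀ a ≠ 0)
    (hmin : ∀ m < n, ∀ (p : S) (c : Ch S 1), Wk Q ρ m p p c → W ω c a = 0) :
    ∃ J ⊆ Q, IsSCC J ∧ a ∈ Ins ω J := by
  classical
  obtain ⟨x, α, d, hx0, hxn, hga, hc0⟩ := hw.seq
  have hx : x n = x 0 := by rw [hx0, hxn]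
  -- total
  have hcyc : c₀ ∈ cin Q 1 ∧ bd 0 c₀ = 0 := by
    have := hw.prop hMON
    exact ⟨this.1, by rw [this.2]; simp⟩
  -- change by a small cycle
  have hZ : ∀ z z' u : Ch S 1, ∀ C : Set S, z ∈ cin Q 1 → bd 0 z = 0 → u ∈ cin C 1 → bd 0 u = 0 → C ⊆ Q →
      Metric.diam C < 4 * ρ → z' = z + u → z' ∈ cin Q 1 ∧ bd 0 z' = 0 ∧ W ω z' a = W ω z a := by
    intro z z' u C hz hz0 hu hu0 hC hd he
    have huQ : u ∈ cin Q 1 := cin_mono hMON hC hu
    refine ⟨he ▸ Submodule.add_mem _ hz huQ, by rw [he, map_add, hz0, hu0, add_zero], ?_⟩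
    rw [he, hadd z hz u huQ hz0 hu0, hT C hC hd u hu hu0, add_zero]
  have hcp : ∀ i < n, IsCompact (α i) ∧ x i ∈ α i ∧ x (i + 1) ∈ α i := fun i hi => arc_cpt hARB (hga i hi).arc
  -- n ≥ 4
  have hn4 : 4 ≤ n := by
    by_contra hlt
    have hU : ∀ m ≤ n, (⋃ i ∈ Finset.range m, α i) ⊆ Q ∧ (∑ i ∈ Finset.range m, d i) ∈ cin (⋃ i ∈ Finset.range m, α i) 1 ∧
        Metric.diam (⋃ i ∈ Finset.range m, α i) ≤ m * ρ := by
      intro m
      induction m with
      | zero => intro _; simp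
      | succ m ih =>
        intro hm
        obtain ⟨i1, i2, i3⟩ := ih (by omega)
        have hg := hga m (by omega)
        have hse : (⋃ i ∈ Finset.range (m + 1), α i) = (⋃ i ∈ Finset.range m, α i) ∪ α m := by
          rw [Finset.range_add_one, Finset.set_biUnion_insert, union_comm]
        rw [hse]
        refine ⟨union_subset i1 hg.sub, ?_, ?_⟩
        · rw [Finset.sum_range_succ]
          exact Submodule.add_mem _ (cin_mono hMON subset_union_left i2) (cin_mono hMON subset_union_right hg.mem)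
        · rcases Nat.eq_zero_or_pos m with h0 | h0
          · subst h0
            simpa using hg.dia.le
          · have hne : ((⋃ i ∈ Finset.range m, α i) ∩ α m).Nonempty := by
              refine ⟨x m, ?_, (hcp m (by omega)).2.1⟩
              rw [mem_iUnion₂]
              refine ⟨m - 1, Finset.mem_range.2 (by omega), ?_⟩
              have := (hcp (m - 1) (by omega)).2.2
              rwa [show m - 1 + 1 = m by omega] at this
            have h1 := Metric.diam_union' hne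
            have h2 := hg.dia
            push_cast
            linarith
    obtain ⟨h1, h2, h3⟩ := hU n le_rfl
    apply hw0
    rw [hc0]
    refine hT _ h1 (lt_of_le_of_lt h3 ?_) _ h2 (hc0 ▸ hcyc.2)
    have : (n : ℝ) ≤ 3 := by exact_mod_cast (by omega : n ≤ 3)
    nlinarith
  -- non-neighbours are disjoint
  have hdis : ∀ i j, i + 2 ≤ j → j < n → j + 2 ≤ n + i → ∀ v, v ∈ α i → v ∉ α j := by
    intro i j hij hj hjn v hvi hvj
    obtain ⟨P₁, P₂, p₁, p₂, hP1, hP2, gP1, gP2⟩ := (hga i (by omega)).cut hARB hAC1 hρ hvi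
    obtain ⟨R₁, R₂, r₁, r₂, hR1, hR2, gR1, gR2⟩ := (hga j (by omega)).cut hARB hAC1 hρ hvj
    have w1 := ((Wk.one gP2).app (sub_walk hga (show i + 1 ≤ j by omega) (by omega))).app (Wk.one gR1)
    have w2 := (((sub_walk hga (Nat.zero_le i) (by omega)).app (Wk.one gP1)).app (Wk.one gR2)).app
      (sub_walk hga (show j + 1 ≤ n by omega) le_rfl)
    rw [hx] at w2
    have z1 := hmin _ (by omega) _ _ w1
    have z2 := hmin _ (by omega) _ _ w2
    have c1 := w1.prop hMON
    have c2 := w2.prop hMON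
    have gi := hga i (by omega)
    have gj := hga j (by omega)
    have s1 : ∑ l ∈ Finset.range n, d l = ∑ l ∈ Finset.Ico 0 i, d l + d i + ∑ l ∈ Finset.Ico (i + 1) j, d l + d j
        + ∑ l ∈ Finset.Ico (j + 1) n, d l := by
      rw [Finset.range_eq_Ico, ← Finset.sum_Ico_consecutive _ (Nat.zero_le i) (show i ≤ n by omega),
        Finset.sum_eq_sum_Ico_succ_bot (show i < n by omega),
        ← Finset.sum_Ico_consecutive _ (show i + 1 ≤ j by omega) (show j ≤ n by omega),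
        Finset.sum_eq_sum_Ico_succ_bot (show j < n by omega)]
      abel
    set c1' := p₂ + ∑ l ∈ Finset.Ico (i + 1) j, d l + r₁ with hc1'
    set c2' := ∑ l ∈ Finset.Ico 0 i, d l + p₁ + r₂ + ∑ l ∈ Finset.Ico (j + 1) n, d l with hc2'
    have b1 : bd 0 c1' = 0 := by rw [c1.2]; simp
    have b2 : bd 0 c2' = 0 := by rw [c2.2]; simp
    have hs : W ω (c1' + c2') a = 0 := by rw [hadd _ c1.1 _ c2.1 b1 b2, z1, z2]; rfl
    have k1 := hZ (c1' + c2') (c1' + c2' + (d i - p₁ - p₂)) (d i - p₁ - p₂) (α i)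
      (Submodule.add_mem _ c1.1 c2.1) (by rw [map_add, b1, b2, add_zero])
      (Submodule.sub_mem _ (Submodule.sub_mem _ gi.mem (cin_mono hMON hP1 gP1.mem)) (cin_mono hMON hP2 gP2.mem))
      (by rw [map_sub, map_sub, gi.bdy, gP1.bdy, gP2.bdy]; abel) gi.sub (by linarith [gi.dia]) rfl
    have k2 := hZ (c1' + c2' + (d i - p₁ - p₂)) c₀ (d j - r₁ - r₂) (α j) k1.1 k1.2.1
      (Submodule.sub_mem _ (Submodule.sub_mem _ gj.mem (cin_mono hMON hR1 gR1.mem)) (cin_mono hMON hR2 gR2.mem))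
      (by rw [map_sub, map_sub, gj.bdy, gR1.bdy, gR2.bdy]; abel) gj.sub (by linarith [gj.dia])
      (by rw [hc0, s1, hc1', hc2']; abel)
    exact hw0 (by rw [k2.2.2, k1.2.2, hs])
  -- no degenerate arcs
  have harc : ∀ i < n, IsArc (α i) (x i) (x (i + 1)) := by
    intro i hi
    rcases (hga i hi).arc with h | ⟨h1, h2⟩
    · exact h
    exfalso
    have w1 := sub_walk hga (Nat.zero_le i) (by omega)
    have w2 := sub_walk hga (show i + 1 ≤ n by omega) le_rfl
    rw [← h2, hx] at w2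
    have w := w1.app w2
    have z := hmin _ (by omega) _ _ w
    have c := w.prop hMON
    have gi := hga i hi
    have k := hZ _ c₀ (d i) (α i) c.1 (by rw [c.2]; simp) gi.mem (by rw [gi.bdy, ← h2, sub_self]) gi.sub
      (by linarith [gi.dia]) (by
        rw [hc0, Finset.range_eq_Ico, ← Finset.sum_Ico_consecutive _ (Nat.zero_le i) (show i ≤ n by omega),
          Finset.sum_eq_sum_Ico_succ_bot (show i < n by omega)]
        abel)
    exact hw0 (by rw [k.2.2, z])
  have hdch : ∀ (D : Set S) (p q : S), IsArc D p q → dch D p q ∈ cin D 1 ∧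
      bd 0 (dch D p q) = Finsupp.single (pt q) 1 - Finsupp.single (pt p) 1 := fun D p q h => (hAC1 S D p q h).2
  have hdd : ∀ i < n, ∀ j < n, (α i ∩ α j).Nonempty → Metric.diam (α i ∪ α j) < 4 * ρ := by
    intro i hi j hj hne
    have := Metric.diam_union' hne
    have h1 := (hga i hi).dia
    have h2 := (hga j hj).dia
    linarith
  -- the state
  have hst : ∀ k, 1 ≤ k → k < n → ∃ (v y : S) (A B R : Set S) (dA dB dR : Ch S 1),
      IsArc A (x 0) v ∧ A ⊆ α 0 ∧ A ∩ α 1 = {v} ∧ (IsArc B v y ∨ (B = {y} ∧ v = y)) ∧ B ∩ α k = {y} ∧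
      (∀ u ∈ B, u = v ∨ ∃ l, 1 ≤ l ∧ l < k ∧ u ∈ α l) ∧ B ⊆ Q ∧ IsArc R y (x (k + 1)) ∧ R ⊆ α k ∧
      dA ∈ cin A 1 ∧ bd 0 dA = Finsupp.single (pt v) 1 - Finsupp.single (pt (x 0)) 1 ∧
      dB ∈ cin B 1 ∧ bd 0 dB = Finsupp.single (pt y) 1 - Finsupp.single (pt v) 1 ∧
      dR ∈ cin R 1 ∧ bd 0 dR = Finsupp.single (pt (x (k + 1))) 1 - Finsupp.single (pt y) 1 ∧
      dA + dB + dR + ∑ l ∈ Finset.Ico (k + 1) n, d l ∈ cin Q 1 ∧
      bd 0 (dA + dB + dR + ∑ l ∈ Finset.Ico (k + 1) n, d l) = 0 ∧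
      W ω (dA + dB + dR + ∑ l ∈ Finset.Ico (k + 1) n, d l) a = W ω c₀ a := by
    intro k hk
    induction k, hk using Nat.le_induction with
    | base =>
      intro _
      have h01 : x 0 ∉ α 1 := by
        have h1 := (hcp (n - 1) (by omega)).2.2
        rw [show n - 1 + 1 = n by omega, hx] at h1
        intro h2
        exact hdis 1 (n - 1) (by omega) (by omega) (by omega) _ h2 h1
      have h02 : x (1 + 1) ∉ α 0 := fun h2 => hdis 0 2 (by omega) (by omega) (by omega) _ h2 (hcp 2 (by omega)).2.1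
      obtain ⟨v, A, R, hA, hR, aA, aR, hAR⟩ := pair_adj hARB (harc 0 (by omega)) (harc 1 (by omega)) h01 h02
      have hv : v ∈ α 1 := by
        have : v ∈ A ∩ α 1 := by rw [hAR]; rfl
        exact this.2
      have hv0 : v ∈ α 0 := by
        have : v ∈ A ∩ α 1 := by rw [hAR]; rfl
        exact hA this.1
      have e1 := hdch _ _ _ aA
      have e2 := hdch _ _ _ aR
      have g0 := hga 0 (by omega)
      have g1 := hga 1 (by omega)
      refine ⟨v, v, A, {v}, R, dch A (x 0) v, 0, dch R v (x (1 + 1)), aA, hA, hAR, Or.inr ⟨rfl, rfl⟩,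
        inter_eq_left.2 (singleton_subset_iff.2 hv), fun u hu => Or.inl hu, singleton_subset_iff.2 (g1.sub hv), aR, hR, e1.1, e1.2,
        Submodule.zero_mem _, by simp, e2.1, e2.2, ?_⟩
      refine hZ c₀ _ (dch A (x 0) v + dch R v (x (1 + 1)) - d 0 - d 1) (α 0 ∪ α 1) hcyc.1 hcyc.2 ?_ ?_
        (union_subset g0.sub g1.sub) (hdd 0 (by omega) 1 (by omega) ⟨v, hv0, hv⟩) ?_
      · exact Submodule.sub_mem _ (Submodule.sub_mem _ (Submodule.add_mem _
          (cin_mono hMON (hA.trans subset_union_left) e1.1) (cin_mono hMON (hR.trans subset_union_right) e2.1))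
          (cin_mono hMON subset_union_left g0.mem)) (cin_mono hMON subset_union_right g1.mem)
      · rw [map_sub, map_sub, map_add, e1.2, e2.2, g0.bdy, g1.bdy]
        abel
      · rw [hc0, Finset.range_eq_Ico, Finset.sum_eq_sum_Ico_succ_bot (show 0 < n by omega),
          Finset.sum_eq_sum_Ico_succ_bot (show 0 + 1 < n by omega)]
        abel
    | succ k hk ih =>
      intro hkn
      obtain ⟨v, y, A, B, R, dA, dB, dR, aA, hA, hA1, aB, hBk, hBl, hBQ, aR, hR, mA, bA, mB, bB, mR, bR, tQ, tb, tW⟩ :=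
        ih (by omega)
      have hvA : v ∈ A ∩ α 1 := by rw [hA1]; rfl
      have hyB : y ∈ B ∩ α k := by rw [hBk]; rfl
      have hBe : ∀ u ∈ B, u ∉ α (k + 1) := by
        intro u hu h1
        rcases hBl u hu with rfl | ⟨l, l1, l2, l3⟩
        · by_cases hc : k + 1 + 2 ≤ n
          · exact hdis 0 (k + 1) (by omega) (by omega) (by omega) _ (hA hvA.1) h1
          · exact hdis 1 (k + 1) (by omega) (by omega) (by omega) _ hvA.2 h1
        · exact hdis l (k + 1) (by omega) (by omega) (by omega) _ l3 h1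
      have hxk : x (k + 1 + 1) ∉ R := by
        intro h1
        by_cases hc : k + 2 = n
        · rw [show k + 1 + 1 = n by omega, hx] at h1
          exact hdis 0 k (by omega) (by omega) (by omega) _ (hcp 0 (by omega)).2.1 (hR h1)
        · exact hdis k (k + 2) (by omega) (by omega) (by omega) _ (hR h1) (hcp (k + 2) (by omega)).2.1
      obtain ⟨y', R₁, R', hR1, hR', aR1, aR', hi⟩ := pair_adj hARB aR (harc (k + 1) (by omega)) (hBe y hyB.1) hxk
      have hy' : y' ∈ R₁ ∩ α (k + 1) := by rw [hi]; rfl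
      have hBR : B ∩ R₁ = {y} := by
        apply Subset.antisymm
        · rw [← hBk]
          exact inter_subset_inter_right _ (hR1.trans hR)
        · rw [singleton_subset_iff]
          exact ⟨hyB.1, (hARB.1 S R₁ y y' aR1).2.2.1⟩
      have aB' : IsArc (B ∪ R₁) v y' := by
        rcases aB with aB | ⟨h1, h2⟩
        · exact hARB.2.2.1 S B R₁ v y' y aB aR1 hBR
        · have : B ∪ R₁ = R₁ := by
            rw [h1]
            exact union_eq_self_of_subset_left (singleton_subset_iff.2 (hARB.1 S R₁ y y' aR1).2.2.1)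
          rw [this, h2]
          exact aR1
      have e1 := hdch _ _ _ aR1
      have e2 := hdch _ _ _ aR'
      have g0 := hga k (by omega)
      have g1 := hga (k + 1) (by omega)
      refine ⟨v, y', A, B ∪ R₁, R', dA, dB + dch R₁ y y', dch R' y' (x (k + 1 + 1)), aA, hA, hA1, Or.inl aB', ?_, ?_,
        union_subset hBQ ((hR1.trans hR).trans g0.sub), aR', hR', mA, bA,
        Submodule.add_mem _ (cin_mono hMON subset_union_left mB) (cin_mono hMON subset_union_right e1.1), ?_, e2.1, e2.2, ?_⟩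
      · rw [union_inter_distrib_right, hi]
        apply Subset.antisymm
        · rintro u (⟨h1, h2⟩ | h1)
          · exact absurd h2 (hBe u h1)
          · exact h1
        · exact subset_union_right
      · rintro u (hu | hu)
        · rcases hBl u hu with h | ⟨l, l1, l2, l3⟩
          · exact Or.inl h
          · exact Or.inr ⟨l, l1, by omega, l3⟩
        · exact Or.inr ⟨k, by omega, by omega, hR (hR1 hu)⟩
      · rw [map_add, bB, e1.2]
        abel
      · have key := hZ (dA + dB + dR + ∑ l ∈ Finset.Ico (k + 1) n, d l)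
          (dA + (dB + dch R₁ y y') + dch R' y' (x (k + 1 + 1)) + ∑ l ∈ Finset.Ico (k + 1 + 1) n, d l)
          (dch R₁ y y' + dch R' y' (x (k + 1 + 1)) - dR - d (k + 1)) (α k ∪ α (k + 1)) tQ tb
          (Submodule.sub_mem _ (Submodule.sub_mem _ (Submodule.add_mem _
            (cin_mono hMON ((hR1.trans hR).trans subset_union_left) e1.1)
            (cin_mono hMON (hR'.trans subset_union_right) e2.1))
            (cin_mono hMON (hR.trans subset_union_left) mR)) (cin_mono hMON subset_union_right g1.mem))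
          (by rw [map_sub, map_sub, map_add, e1.2, e2.2, bR, g1.bdy]; abel)
          (union_subset g0.sub g1.sub)
          (hdd k (by omega) (k + 1) (by omega) ⟨x (k + 1), (hcp k (by omega)).2.2, (hcp (k + 1) (by omega)).2.1⟩)
          (by rw [Finset.sum_eq_sum_Ico_succ_bot (show k + 1 < n by omega)]; abel)
        exact ⟨key.1, key.2.1, key.2.2.trans tW⟩
  -- the last step
  obtain ⟨v, y, A, B, R, dA, dB, dR, aA, hA, hA1, aB, hBk, hBl, hBQ, aR, hR, mA, bA, mB, bB, mR, bR, tQ, tb, tW⟩ :=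
    hst (n - 1) (by omega) (by omega)
  rw [show n - 1 + 1 = n by omega] at aR bR tQ tb tW
  rw [Finset.Ico_self, Finset.sum_empty, add_zero] at tQ tb tW
  rw [hx] at aR bR
  have hvA : v ∈ A ∩ α 1 := by rw [hA1]; rfl
  have hyB : y ∈ B ∩ α (n - 1) := by rw [hBk]; rfl
  have hvn : v ∉ α (n - 1) := hdis 1 (n - 1) (by omega) (by omega) (by omega) _ hvA.2
  have hvy : v ≠ y := fun h => hvn (h ▸ hyB.2)
  have aB' : IsArc B v y := by
    rcases aB with h | ⟨-, h⟩
    · exact h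
    · exact absurd h hvy
  have hAB : A ∩ B = {v} := by
    apply Subset.antisymm
    · rintro u ⟨h1, h2⟩
      rcases hBl u h2 with h | ⟨l, l1, l2, l3⟩
      · exact h
      · by_cases hl : l = 1
        · subst hl
          rw [← hA1]
          exact ⟨h1, l3⟩
        · exact absurd l3 (hdis 0 l (by omega) (by omega) (by omega) _ (hA h1))
    · rw [singleton_subset_iff]
      exact ⟨hvA.1, (hARB.1 S B v y aB').2.2.1⟩
  have hyA : y ∉ A := fun h => hvy (by
    have : y ∈ A ∩ B := ⟨h, hyB.1⟩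
    rw [hAB] at this
    exact this.symm)
  obtain ⟨z, R₁, A', hR1, hA', aR1, aA', hi⟩ := pair_adj hARB aR aA hyA (fun h => hvn (hR h))
  have hz : z ∈ R₁ ∩ A := by rw [hi]; rfl
  have e1 := hdch _ _ _ aR1
  have e2 := hdch _ _ _ aA'
  have g0 := hga 0 (by omega)
  have g1 := hga (n - 1) (by omega)
  have hBR : B ∩ R₁ = {y} := by
    apply Subset.antisymm
    · rw [← hBk]
      exact inter_subset_inter_right _ (hR1.trans hR)
    · rw [singleton_subset_iff]
      exact ⟨hyB.1, (hARB.1 S R₁ y z aR1).2.2.1⟩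
  have aD : IsArc (B ∪ R₁) v z := hARB.2.2.1 S B R₁ v z y aB' aR1 hBR
  have aD' : IsArc (B ∪ R₁) z v := (hARB.1 S (B ∪ R₁) v z aD).1
  have hA'Q : A' ⊆ Q := (hA'.trans hA).trans g0.sub
  have hDQ : B ∪ R₁ ⊆ Q := union_subset hBQ ((hR1.trans hR).trans g1.sub)
  have hsp : Spl (A' ∪ (B ∪ R₁)) z v A' (B ∪ R₁) := by
    refine ⟨aA', aD', ?_, rfl⟩
    apply Subset.antisymm
    · rintro u ⟨h1, h2 | h2⟩
      · have : u ∈ A ∩ B := ⟨hA' h1, h2⟩
        rw [hAB] at this
        exact Or.inr this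
      · have : u ∈ R₁ ∩ A := ⟨h2, hA' h1⟩
        rw [hi] at this
        exact Or.inl this
    · rintro u (rfl | rfl)
      · exact ⟨(hARB.1 S A' u v aA').2.2.1, Or.inr hz.1⟩
      · exact ⟨(hARB.1 S A' z u aA').2.2.2.1, Or.inl (hARB.1 S B u y aB').2.2.1⟩
  have key := hZ (dA + dB + dR) (dch A' z v + dB + dch R₁ y z) (dch A' z v + dch R₁ y z - dA - dR)
    (α 0 ∪ α (n - 1)) tQ tb
    (Submodule.sub_mem _ (Submodule.sub_mem _ (Submodule.add_mem _
      (cin_mono hMON ((hA'.trans hA).trans subset_union_left) e2.1)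
      (cin_mono hMON ((hR1.trans hR).trans subset_union_right) e1.1))
      (cin_mono hMON (hA.trans subset_union_left) mA)) (cin_mono hMON (hR.trans subset_union_right) mR))
    (by rw [map_sub, map_sub, map_add, e1.2, e2.2, bA, bR]; abel)
    (union_subset g0.sub g1.sub)
    (hdd 0 (by omega) (n - 1) (by omega) ⟨x 0, (hcp 0 (by omega)).2.1, by
      have := (hcp (n - 1) (by omega)).2.2
      rwa [show n - 1 + 1 = n by omega, hx] at this⟩)
    (by abel)
  have hwd := (hWD S ω V hG).1 A' (B ∪ R₁) z v aA' aD' (hA'Q.trans hQV) (hDQ.trans hQV) (dch A' z v) e2.1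
    (-(dB + dch R₁ y z)) (Submodule.neg_mem _ (Submodule.add_mem _ (cin_mono hMON subset_union_left mB)
      (cin_mono hMON subset_union_right e1.1))) e2.2 (by rw [map_neg, map_add, bB, e1.2]; abel) a
    (fun h => ha (hA'Q h)) (fun h => ha (hDQ h))
  rw [sub_neg_eq_add, ← add_assoc, key.2.2, tW] at hwd
  refine ⟨A' ∪ (B ∪ R₁), union_subset hA'Q hDQ, ⟨z, v, A', B ∪ R₁, hsp⟩, ?_, z, v, A', B ∪ R₁, hsp, ?_⟩
  · rintro (h | h)
    · exact ha (hA'Q h)
    · exact ha (hDQ h)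
  · rw [← hwd]
    exact hw0

end Sim

/-- MODULE SIM -/
theorem hSIM (hARB : StARB) (hWIN : StWIN) (hAC1 : StAC1) (hWD : StWD) (hMON : StMON) (_hSDA : StSDA) : StSIM := by
  classical
  intro S _ _ _ ω V hG Q a ρ hQ hQV ha hρ hT n x α hn hch hw0
  have hadd : ∀ z ∈ cin Q 1, ∀ z' ∈ cin Q 1, bd 0 z = 0 → bd 0 z' = 0 → W ω (z + z') a = W ω z a + W ω z' a := by
    intro z hz z' hz' h0 h0'
    have hQa : Q ⊆ ({a} : Set S)ᶜ := fun u hu h => ha (by rw [← (mem_singleton_iff.1 h)]; exact hu)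
    exact ((hWIN S ω V hG).2.1 z z' a (hG.bv z ((hMON S).1 Q V 1 hQV hz) h0)
      (hG.bv z' ((hMON S).1 Q V 1 hQV hz') h0') ((hMON S).1 Q _ 1 hQa hz) ((hMON S).1 Q _ 1 hQa hz')).1
  have hga : ∀ i < n, Sim.GA Q ρ (α i) (x i) (x (i + 1)) (dch (α i) (x i) (x (i + 1))) := by
    intro i hi
    obtain ⟨h1, h2, h3⟩ := hch.2 i hi
    have := hAC1 S (α i) (x i) (x (i + 1)) h1
    exact ⟨Or.inl h1, h2, h3, this.2.1, this.2.2⟩
  have hex : ∃ m : ℕ, ∃ (p : S) (c : Ch S 1), Sim.Wk Q ρ m p p c ∧ W ω c a ≠ 0 := by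
    have := Sim.sub_walk hga (Nat.zero_le n) le_rfl
    rw [hch.1] at this
    refine ⟨_, _, _, this, ?_⟩
    rw [← Finset.range_eq_Ico]
    exact hw0
  obtain ⟨p, c, h1, h2⟩ := Nat.find_spec hex
  refine Sim.main hARB hAC1 hWD hMON ω V hG a hQV ha hρ hT hadd (Nat.find hex) p c h1 h2 ?_
  intro m hm q c' hc'
  by_contra h
  exact Nat.find_min hex hm ⟨q, c', hc', h⟩

end Pool.Agent.Helper58.SFP
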