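import Pool.Agent.Helper58.SF.StP

/-!
Project TW (MP_a45945_gt), module SMC: small crosscuts cut off small pieces.
-/

set_option autoImplicit false

namespace Pool.Agent.Helper58.SFP

open Set Topology Pool.Agent.Helper13.TR Pool.Agent.Helper58.SF
open Pool.Agent.Helper13.TW (IsArc Spl IsSCC dch Chn Splt GT CSy MP Val LR MCell StARB StARX StSCL StUAR StINF StLIN StAC1 StSDM)

/-- MODULE SMC. -/
theorem hSMC (hTWO : StTWO) (hUAR : StUAR) (hWD : StWD) (hSCL : StSCL) (hARB : StARB)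
    (hTHE : StTHE) : StSMC := by
  intro S _ _ _ ω V hGR J hCel η hη
  obtain ⟨-, -, hcpt, -, -⟩ := hTWO S ω V hGR J hCel.1
  have hJ : IsSCC J := hCel.1.1
  have hη4 : 0 < η / 4 := by linarith
  choose U hUo hxU hUb hU using fun x : S => hGR.sml x (Metric.ball x (η / 4)) Metric.isOpen_ball
    (Metric.mem_ball_self hη4)
  obtain ⟨lam, hlam, hleb⟩ := lebesgue_number_lemma_of_metric (c := U) hcpt hUo
    (fun x _ => mem_iUnion.2 ⟨x, hxU x⟩)
  obtain ⟨δ, hδ, hδ2⟩ := hUAR S J hJ (lam / 2) (by linarith)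
  refine ⟨min δ (lam / 2), lt_min hδ (by linarith), ?_⟩
  intro p q D₁ D₂ P hSpl hCrs hP
  have hPδ : Metric.diam P < δ := lt_of_lt_of_le hP (min_le_left _ _)
  have hPl : Metric.diam P < lam / 2 := lt_of_lt_of_le hP (min_le_right _ _)
  have hParc := hCrs.1
  obtain ⟨-, hPc, hpP, hqP, hpq, -⟩ := hARB.1 S P p q hParc
  have hpJ : p ∈ J := by
    have : p ∈ P ∩ J := by rw [hCrs.2.1]; exact Or.inl rfl
    exact this.2
  have hqJ : q ∈ J := by
    have : q ∈ P ∩ J := by rw [hCrs.2.1]; exact Or.inr rfl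
    exact this.2
  have hd : dist p q < δ := lt_of_le_of_lt (Metric.dist_le_diam_of_mem hPc.isBounded hpP hqP) hPδ
  obtain ⟨A, B, hAB, hA⟩ := hδ2 p hpJ q hqJ hpq hd
  obtain ⟨x, hx⟩ := hleb p (Or.inl hpJ)
  have key : ∀ D : Set S, IsArc D p q → Metric.diam D < lam / 2 → Cel ω V (D ∪ P) →
      Metric.diam (cl ω (D ∪ P)) < η := by
    intro D hD hdD hc
    obtain ⟨-, hDc, hpD, -⟩ := hARB.1 S D p q hD
    have hsub : D ∪ P ⊆ U x := by
      intro y hy
      apply hx
      rw [Metric.mem_ball]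
      rcases hy with hy | hy
      · have := Metric.dist_le_diam_of_mem hDc.isBounded hy hpD
        linarith
      · have := Metric.dist_le_diam_of_mem hPc.isBounded hy hpP
        linarith
    have hIns : Ins ω (D ∪ P) ⊆ Metric.ball x (η / 4) :=
      (hWD S ω V hGR).2.2.2 (D ∪ P) (U x) (Metric.ball x (η / 4)) hc.1.1 hc.1.2.1 hsub (hU x)
    have hcl : cl ω (D ∪ P) ⊆ Metric.ball x (η / 4) :=
      union_subset (hsub.trans (hUb x)) hIns
    have h1 := Metric.diam_mono hcl Metric.isBounded_ball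
    have h2 := Metric.diam_ball (x := x) hη4.le
    linarith
  obtain ⟨hc1, hc2, -⟩ := hTHE S ω V hGR J hCel p q D₁ D₂ P hSpl hCrs
  have hAb := hARB.1 S A p q hAB.1
  have hBb := hARB.1 S B p q hAB.2.1
  rcases (hSCL S J hJ).2.1 p q D₁ D₂ A B hSpl hAb.2.1.isClosed hBb.2.1.isClosed hAB.2.2.2
    hAB.2.2.1 hAb.2.2.2.2.2.2.2.2.1.nonempty hBb.2.2.2.2.2.2.2.2.1.nonempty with h | h
  · left
    apply key D₁ hSpl.1 _ hc1
    rw [← h.1]
    exact hA
  · right
    apply key D₂ hSpl.2.1 _ hc2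
    rw [← h.1]
    exact hA

end Pool.Agent.Helper58.SFP
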