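import Pool.Agent.Helper58.SF.StP

/-!
# Project TW, module THE: the theta curve lemma
-/

set_option autoImplicit false

namespace Pool.Agent.Helper58.SFP

open Set Topology Pool.Agent.Helper13.TR Pool.Agent.Helper58.SF
open Pool.Agent.Helper13.TW (IsArc Spl IsSCC dch Chn Splt GT CSy MP Val LR MCell StARB StARX StSCL StUAR StINF StLIN StAC1 StSDM)

namespace THE

variable {S : Type} [MetricSpace S]

private theorem cin_mono' {A B : Set S} (h : A ⊆ B) (n : ℕ) : cin A n ≤ cin B n :=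
  Finsupp.supported_mono fun _ hs => hs.trans h

private theorem spl_swap {J : Set S} {p q : S} {D₁ D₂ : Set S} (h : Spl J p q D₁ D₂) :
    Spl J p q D₂ D₁ := by
  obtain ⟨h1, h2, h3, h4⟩ := h
  exact ⟨h2, h1, by rw [inter_comm]; exact h3, by rw [union_comm]; exact h4⟩

/-- The cycle of two arcs. -/
private theorem cyc (hAC1 : StAC1) {ω : Ch S 1 → S → ℤ} {V : Set S} (hg : WN S ω V)
    {D P : Set S} {p q : S} (hD : IsArc D p q) (hP : IsArc P p q) (hDV : D ⊆ V) (hPV : P ⊆ V) :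
    dch D p q - dch P p q ∈ cin (D ∪ P) 1 ∧ Bz V (dch D p q - dch P p q) := by
  have h1 := (hAC1 S D p q hD).2
  have h2 := (hAC1 S P p q hP).2
  have h3 : dch D p q - dch P p q ∈ cin (D ∪ P) 1 :=
    Submodule.sub_mem _ (cin_mono' subset_union_left 1 h1.1) (cin_mono' subset_union_right 1 h2.1)
  refine ⟨h3, hg.bv _ (cin_mono' (union_subset hDV hPV) 1 h3) ?_⟩
  rw [map_sub, h1.2, h2.2, sub_self]

/-- What is known about one of the two curves. -/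
private theorem side [LocallyPathConnectedSpace S] [PathConnectedSpace S] (hTWO : StTWO)
    (hCLS : StCLS) (hWIN : StWIN) (hARB : StARB) (hAC1 : StAC1) {ω : Ch S 1 → S → ℤ} {V : Set S}
    (hg : WN S ω V) {J : Set S} (hJ : Ess ω V J) {p q : S} {D₁ D₂ P : Set S} (hs : Spl J p q D₁ D₂)
    (hP : IsArc P p q) (hPJ : P ∩ J = {p, q}) (hPV : P ⊆ V) (hPc : P ⊆ cl ω J) :
    (∀ x ∈ Out ω J, wd ω D₁ P p q x = 0) ∧ (∀ x ∈ D₂ \ {p, q}, wd ω D₁ P p q x = 0) ∧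
    ∃ y ∈ Ins ω J, y ∉ P ∧ wd ω D₁ P p q y = 0 := by
  obtain ⟨⟨hIo, hIp⟩, ⟨hOo, hOp⟩, hcl, -, -⟩ := hTWO S ω V hg J hJ
  obtain ⟨hc1, hc2, -⟩ := hCLS S ω V hg J hJ
  obtain ⟨-, -, hW3, hW4, -⟩ := hWIN S ω V hg
  obtain ⟨hsD1, hsD2, hs3, hs4⟩ := hs
  have hD1J : D₁ ⊆ J := by rw [← hs4]; exact subset_union_left
  have hD2J : D₂ ⊆ J := by rw [← hs4]; exact subset_union_right
  have hJV : J ⊆ V := hJ.2.1
  obtain ⟨hz, hze⟩ := cyc hAC1 hg hsD1 hP (hD1J.trans hJV) hPV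
  have hA1 := hARB.1 S D₁ p q hsD1
  have hAP := hARB.1 S P p q hP
  have hA2 := hARB.1 S D₂ p q hsD2
  have hcomp : IsCompact (D₁ ∪ P) := hA1.2.1.union hAP.2.1
  have hO : IsOpen (D₁ ∪ P)ᶜ := hcomp.isClosed.isOpen_compl
  -- the winding number is constant along paths in the complement
  have hconst : ∀ x y : S, JoinedIn (D₁ ∪ P)ᶜ x y → wd ω D₁ P p q x = wd ω D₁ P p q y :=
    fun x y hxy => hW3 _ _ hze hO (by rw [compl_compl]; exact hz) x y hxy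
  have hJcl : J ⊆ cl ω J := subset_union_left
  have hOutc : Out ω J ⊆ (D₁ ∪ P)ᶜ := by
    intro x hx hx2
    rcases hx2 with hx2 | hx2
    · exact hx (hJcl (hD1J hx2))
    · exact hx (hPc hx2)
  -- (a)
  have ha : ∀ x ∈ Out ω J, wd ω D₁ P p q x = 0 := by
    obtain ⟨Q, hQ, hQ0⟩ := hW4 _ hze
    have hex : ∃ y ∈ Out ω J, y ∉ Q := by
      by_contra hne
      push Not at hne
      apply hg.nc
      have hu : (univ : Set S) = cl ω J ∪ Q := by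
        refine Subset.antisymm (fun x _ => ?_) (subset_univ _)
        by_cases hx : x ∈ cl ω J
        · exact Or.inl hx
        · exact Or.inr (hne x hx)
      exact ⟨by rw [hu]; exact hcl.union hQ⟩
    obtain ⟨y, hy, hyQ⟩ := hex
    intro x hx
    have hj : JoinedIn (D₁ ∪ P)ᶜ x y := (hOp.joinedIn x hx y hy).mono hOutc
    rw [hconst x y hj]
    exact hQ0 y hyQ
  -- near the points of the other arc
  have hnear : ∀ r ∈ D₂ \ {p, q}, r ∈ (D₁ ∪ P)ᶜ := by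
    rintro r ⟨hr, hrpq⟩ (hr2 | hr2)
    · apply hrpq
      rw [← hs3]
      exact ⟨hr2, hr⟩
    · apply hrpq
      rw [← hPJ]
      exact ⟨hr2, hD2J hr⟩
  have hb : ∀ r ∈ D₂ \ {p, q}, wd ω D₁ P p q r = 0 := by
    intro r hr
    have hop : IsOpen (pathComponentIn (D₁ ∪ P)ᶜ r) := hO.pathComponentIn r
    have hrm : r ∈ pathComponentIn (D₁ ∪ P)ᶜ r := mem_pathComponentIn_self (hnear r hr)
    obtain ⟨y, hy1, hy2⟩ := mem_closure_iff.1 (hc2 (hD2J hr.1)) _ hop hrm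
    rw [hconst r y hy1]
    exact ha y hy2
  refine ⟨ha, hb, ?_⟩
  obtain ⟨r, hr⟩ := hA2.2.2.2.2.2.2.2.2.1.nonempty
  have hop : IsOpen (pathComponentIn (D₁ ∪ P)ᶜ r) := hO.pathComponentIn r
  have hrm : r ∈ pathComponentIn (D₁ ∪ P)ᶜ r := mem_pathComponentIn_self (hnear r hr)
  obtain ⟨y, hy1, hy2⟩ := mem_closure_iff.1 (hc1 (hD2J hr.1)) _ hop hrm
  refine ⟨y, hy2, fun hyP => ?_, ?_⟩
  · exact (pathComponentIn_subset hy1) (Or.inr hyP)
  · rw [← hconst r y hy1]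
    exact hb r hr

private theorem crs_inter {ω : Ch S 1 → S → ℤ} {J : Set S} {p q : S} {D₁ D₂ P : Set S}
    (hARB : StARB) (hs : Spl J p q D₁ D₂) (hP : Crs ω J p q P) : D₁ ∩ P = {p, q} := by
  obtain ⟨hsD1, hsD2, hs3, hs4⟩ := hs
  have hA1 := hARB.1 S D₁ p q hsD1
  have hAP := hARB.1 S P p q hP.1
  refine Subset.antisymm ?_ ?_
  · rintro x ⟨hx1, hx2⟩
    rw [← hP.2.1]
    exact ⟨hx2, by rw [← hs4]; exact Or.inl hx1⟩
  · rintro x (rfl | rfl)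
    · exact ⟨hA1.2.2.1, hAP.2.2.1⟩
    · exact ⟨hA1.2.2.2.1, hAP.2.2.2.1⟩

private theorem crs_sub {ω : Ch S 1 → S → ℤ} {J : Set S} {p q : S} {D₁ D₂ P : Set S}
    (hARB : StARB) (hs : Spl J p q D₁ D₂) (hP : Crs ω J p q P) : P ⊆ cl ω J := by
  intro x hx
  by_cases hpq : x ∈ ({p, q} : Set S)
  · rw [← hP.2.1] at hpq
    exact Or.inl hpq.2
  · exact Or.inr (hP.2.2 ⟨hx, hpq⟩)

private theorem half [LocallyPathConnectedSpace S] [PathConnectedSpace S] (hTWO : StTWO)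
    (hCLS : StCLS) (hWIN : StWIN) (hWD : StWD) (hARB : StARB) (hAC1 : StAC1)
    {ω : Ch S 1 → S → ℤ} {V : Set S} (hg : WN S ω V) {J : Set S} (hJ : Cel ω V J) {p q : S}
    {D₁ D₂ P : Set S} (hs : Spl J p q D₁ D₂) (hP : Crs ω J p q P) :
    (Ins ω (D₂ ∪ P)).Nonempty ∧
    (Ess ω V (D₁ ∪ P) → Ins ω (D₁ ∪ P) ⊆ Ins ω J \ P) ∧
    ∃ m : ℤ, m ≠ 0 ∧ (∀ x ∈ Ins ω J, x ∉ P → wd ω D₁ P p q x + wd ω P D₂ p q x = m) ∧
      ∃ y ∈ Ins ω (D₂ ∪ P), wd ω P D₂ p q y = m := by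
  have hPc : P ⊆ cl ω J := crs_sub hARB hs hP
  have hPV : P ⊆ V := fun x hx => by
    rcases hPc hx with h | h
    · exact hJ.1.2.1 h
    · exact hJ.2 h
  obtain ⟨ha, hb, y, hyI, hyP, hy0⟩ := side hTWO hCLS hWIN hARB hAC1 hg hJ.1 hs hP.1 hP.2.1 hPV hPc
  obtain ⟨m, hm0, hm, -⟩ := (hTWO S ω V hg J hJ.1).2.2.2.2 p q D₁ D₂ hs
  have hD1J : D₁ ⊆ J := by rw [← hs.2.2.2]; exact subset_union_left
  have hD2J : D₂ ⊆ J := by rw [← hs.2.2.2]; exact subset_union_right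
  have hsum : ∀ x ∈ Ins ω J, x ∉ P → wd ω D₁ P p q x + wd ω P D₂ p q x = m := by
    intro x hx hxP
    rw [← hm x hx]
    exact (hWD S ω V hg).2.1 D₁ P D₂ p q hs.1 hP.1 hs.2.1 (hD1J.trans hJ.1.2.1) hPV
      (hD2J.trans hJ.1.2.1) x (fun h => hx.1 (hD1J h)) hxP (fun h => hx.1 (hD2J h))
  have hy2 : wd ω P D₂ p q y = m := by
    have h := hsum y hyI hyP
    rw [hy0, zero_add] at h
    exact h
  have hspl2 : Spl (D₂ ∪ P) p q P D₂ :=
    ⟨hP.1, hs.2.1, by rw [inter_comm]; exact crs_inter hARB (spl_swap hs) hP, union_comm _ _⟩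
  have hyIn : y ∈ Ins ω (D₂ ∪ P) := by
    refine ⟨?_, p, q, P, D₂, hspl2, by rw [hy2]; exact hm0⟩
    rintro (h | h)
    · exact hyI.1 (hD2J h)
    · exact hyP h
  refine ⟨⟨y, hyIn⟩, ?_, m, hm0, hsum, y, hyIn, hy2⟩
  intro hE x hx
  have hspl1 : Spl (D₁ ∪ P) p q D₁ P := ⟨hs.1, hP.1, crs_inter hARB hs hP, rfl⟩
  obtain ⟨m1, hm1, hm1', -⟩ := (hTWO S ω V hg (D₁ ∪ P) hE).2.2.2.2 p q D₁ P hspl1
  have hne : wd ω D₁ P p q x ≠ 0 := by
    rw [hm1' x hx]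
    exact hm1
  have hxcl : x ∈ cl ω J := by
    by_contra hcon
    exact hne (ha x hcon)
  have hxP : x ∉ P := fun h => hx.1 (Or.inr h)
  refine ⟨?_, hxP⟩
  rcases hxcl with hxJ | hxI
  · exfalso
    rw [← hs.2.2.2] at hxJ
    rcases hxJ with h | h
    · exact hx.1 (Or.inl h)
    · apply hne
      apply hb x
      refine ⟨h, fun hpq => hx.1 (Or.inl ?_)⟩
      rw [← hs.2.2.1] at hpq
      exact hpq.1
  · exact hxI

end THE

open THE in
/-- THE. -/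
theorem hTHE (hTWO : StTWO) (hCLS : StCLS) (hWIN : StWIN) (hWD : StWD) (hARB : StARB)
    (_hSCL : StSCL) (hAC1 : StAC1) : StTHE := by
  intro S _ _ _ ω V hg J hJ p q D₁ D₂ P hs hP
  have hs' := spl_swap hs
  obtain ⟨hn2, hc1, m, hm0, hsum, y, hy, hym⟩ := half hTWO hCLS hWIN hWD hARB hAC1 hg hJ hs hP
  obtain ⟨hn1, hc2, -⟩ := half hTWO hCLS hWIN hWD hARB hAC1 hg hJ hs' hP
  have hPc : P ⊆ cl ω J := crs_sub hARB hs hP
  have hPV : P ⊆ V := fun x hx => by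
    rcases hPc hx with h | h
    · exact hJ.1.2.1 h
    · exact hJ.2 h
  have hD1J : D₁ ⊆ J := by rw [← hs.2.2.2]; exact subset_union_left
  have hD2J : D₂ ⊆ J := by rw [← hs.2.2.2]; exact subset_union_right
  have hi1 := crs_inter hARB hs hP
  have hi2 := crs_inter hARB hs' hP
  have hspl1 : Spl (D₁ ∪ P) p q D₁ P := ⟨hs.1, hP.1, hi1, rfl⟩
  have hspl2 : Spl (D₂ ∪ P) p q P D₂ := ⟨hP.1, hs.2.1, by rw [inter_comm]; exact hi2, union_comm _ _⟩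
  have hE1 : Ess ω V (D₁ ∪ P) :=
    ⟨⟨p, q, D₁, P, hspl1⟩, union_subset (hD1J.trans hJ.1.2.1) hPV, hn1⟩
  have hE2 : Ess ω V (D₂ ∪ P) :=
    ⟨⟨p, q, P, D₂, hspl2⟩, union_subset (hD2J.trans hJ.1.2.1) hPV, hn2⟩
  have hI1 := hc1 hE1
  have hI2 := hc2 hE2
  obtain ⟨m1, hm1, hm1', hm1o⟩ := (hTWO S ω V hg (D₁ ∪ P) hE1).2.2.2.2 p q D₁ P hspl1
  obtain ⟨m2, hm2, hm2', hm2o⟩ := (hTWO S ω V hg (D₂ ∪ P) hE2).2.2.2.2 p q P D₂ hspl2
  have hmm : m2 = m := by rw [← hm2' y hy, hym]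
  have hdis : Ins ω (D₁ ∪ P) ∩ Ins ω (D₂ ∪ P) = ∅ := by
    rw [eq_empty_iff_forall_notMem]
    rintro x ⟨hx1, hx2⟩
    have h := hsum x (hI1 hx1).1 (hI1 hx1).2
    rw [hm1' x hx1, hm2' x hx2, hmm] at h
    omega
  have huni : Ins ω (D₁ ∪ P) ∪ Ins ω (D₂ ∪ P) = Ins ω J \ P := by
    refine Subset.antisymm (union_subset hI1 hI2) ?_
    rintro x ⟨hxI, hxP⟩
    by_contra hcon
    rw [mem_union, not_or] at hcon
    have h := hsum x hxI hxP
    have ho1 : x ∈ Out ω (D₁ ∪ P) := by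
      rintro ((h1 | h1) | h1)
      · exact hxI.1 (hD1J h1)
      · exact hxP h1
      · exact hcon.1 h1
    have ho2 : x ∈ Out ω (D₂ ∪ P) := by
      rintro ((h1 | h1) | h1)
      · exact hxI.1 (hD2J h1)
      · exact hxP h1
      · exact hcon.2 h1
    rw [hm1o x ho1, hm2o x ho2, add_zero] at h
    exact hm0 h.symm
  have hside : ∀ (D : Set S), D ⊆ J → D ∩ P = {p, q} → Ins ω (D ∪ P) ⊆ Ins ω J \ P →
      cl ω (D ∪ P) ∩ J = D := by
    intro D hD hDP hI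
    refine Subset.antisymm ?_ fun x hx => ⟨Or.inl (Or.inl hx), hD hx⟩
    rintro x ⟨(hx | hx) | hx, hxJ⟩
    · exact hx
    · have h1 : x ∈ ({p, q} : Set S) := by
        rw [← hP.2.1]
        exact ⟨hx, hxJ⟩
      rw [← hDP] at h1
      exact h1.1
    · exact absurd hxJ (hI hx).1.1
  refine ⟨⟨hE1, fun x hx => hJ.2 (hI1 hx).1⟩, ⟨hE2, fun x hx => hJ.2 (hI2 hx).1⟩, hdis, huni, ?_, ?_,
    hside D₁ hD1J hi1 hI1, hside D₂ hD2J hi2 hI2⟩
  · refine Subset.antisymm ?_ ?_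
    · rintro x (((h | h) | h) | ((h | h) | h))
      · exact Or.inl (hD1J h)
      · exact hPc h
      · exact Or.inr (hI1 h).1
      · exact Or.inl (hD2J h)
      · exact hPc h
      · exact Or.inr (hI2 h).1
    · rintro x (h | h)
      · rw [← hs.2.2.2] at h
        rcases h with h | h
        · exact Or.inl (Or.inl (Or.inl h))
        · exact Or.inr (Or.inl (Or.inl h))
      · by_cases hxP : x ∈ P
        · exact Or.inl (Or.inl (Or.inr hxP))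
        · have h1 : x ∈ Ins ω (D₁ ∪ P) ∪ Ins ω (D₂ ∪ P) := by
            rw [huni]
            exact ⟨h, hxP⟩
          rcases h1 with h1 | h1
          · exact Or.inl (Or.inr h1)
          · exact Or.inr (Or.inr h1)
  · refine Subset.antisymm ?_ fun x hx => ⟨Or.inl (Or.inr hx), Or.inl (Or.inr hx)⟩
    rintro x ⟨h1, h2⟩
    by_contra hxP
    rcases h1 with (h1 | h1) | h1
    · rcases h2 with (h2 | h2) | h2
      · have h3 : x ∈ ({p, q} : Set S) := by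
          rw [← hs.2.2.1]
          exact ⟨h1, h2⟩
        rw [← hi1] at h3
        exact hxP h3.2
      · exact hxP h2
      · exact (hI2 h2).1.1 (hD1J h1)
    · exact hxP h1
    · rcases h2 with (h2 | h2) | h2
      · exact (hI1 h1).1.1 (hD2J h2)
      · exact hxP h2
      · have h3 : x ∈ Ins ω (D₁ ∪ P) ∩ Ins ω (D₂ ∪ P) := ⟨h1, h2⟩
        rw [hdis] at h3
        exact h3

end Pool.Agent.Helper58.SFP
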