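import Pool.Agent.Helper58.SF.StP

/-!
# Project TW, module TWO: the two sides of a curve
-/

set_option autoImplicit false

namespace Pool.Agent.Helper58.SFP

open Set Topology Pool.Agent.Helper13.TR Pool.Agent.Helper58.SF
open Pool.Agent.Helper13.TW (IsArc Spl IsSCC dch Chn Splt GT CSy MP Val LR MCell StARB StARX StSCL StUAR StINF StLIN StAC1 StSDM)

section

variable {S : Type} [MetricSpace S] [LocallyPathConnectedSpace S] [PathConnectedSpace S]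
  {ω : Ch S 1 → S → ℤ} {V J : Set S}

/-- the cycle of a splitting -/
private lemma cyc_spl (hAC1 : StAC1) (hMON : StMON) (hG : WN S ω V) (hJV : J ⊆ V) {p q : S}
    {D₁ D₂ : Set S} (hs : Spl J p q D₁ D₂) :
    dch D₁ p q - dch D₂ p q ∈ cin J 1 ∧ Bz V (dch D₁ p q - dch D₂ p q) := by
  obtain ⟨h1, h2, -, h4⟩ := hs
  have hD1 : D₁ ⊆ J := by rw [← h4]; exact subset_union_left
  have hD2 : D₂ ⊆ J := by rw [← h4]; exact subset_union_right
  obtain ⟨-, a1, a2⟩ := hAC1 S D₁ p q h1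
  obtain ⟨-, b1, b2⟩ := hAC1 S D₂ p q h2
  have hz : dch D₁ p q - dch D₂ p q ∈ cin J 1 :=
    Submodule.sub_mem _ ((hMON S).1 _ _ 1 hD1 a1) ((hMON S).1 _ _ 1 hD2 b1)
  refine ⟨hz, hG.bv _ ((hMON S).1 _ _ 1 hJV hz) ?_⟩
  rw [map_sub, a2, b2, sub_self]

/-- the interior in terms of one splitting -/
private lemma ins_iff (hWD : StWD) (hG : WN S ω V) (hJV : J ⊆ V) {p q : S} {D₁ D₂ : Set S}
    (hs : Spl J p q D₁ D₂) {x : S} (hx : x ∉ J) : x ∈ Ins ω J ↔ wd ω D₁ D₂ p q x ≠ 0 := by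
  constructor
  · rintro ⟨_, p', q', D₁', D₂', hs', hne⟩
    rcases (hWD S ω V hG).2.2.1 J p q p' q' D₁ D₂ D₁' D₂' hs hs' hJV with h | h
    · rw [h x hx] at hne
      exact hne
    · rw [h x hx] at hne
      exact fun h0 => hne (by rw [h0, neg_zero])
  · intro h
    exact ⟨hx, p, q, D₁, D₂, hs, h⟩

/-- TWO -/
theorem hTWO (hARN : StARN) (hWIN : StWIN) (hWD : StWD) (hSCL : StSCL) (hAC1 : StAC1)
    (hMON : StMON) : StTWO := by
  intro S _ _ _ ω V hG J hE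
  obtain ⟨hJ, hJV, hne⟩ := hE
  obtain ⟨hJc, -, -⟩ := (hSCL S J hJ).2.2.2.2
  have hop : IsOpen Jᶜ := hJc.isClosed.isOpen_compl
  obtain ⟨-, -, win3, win4, -⟩ := hWIN S ω V hG
  -- constancy of the winding number along paths outside the curve
  have hcst : ∀ {p q : S} {D₁ D₂ : Set S}, Spl J p q D₁ D₂ → ∀ x y : S, JoinedIn Jᶜ x y →
      wd ω D₁ D₂ p q x = wd ω D₁ D₂ p q y := by
    intro p q D₁ D₂ hs x y hxy
    obtain ⟨hz, he⟩ := cyc_spl hAC1 hMON hG hJV hs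
    exact win3 _ Jᶜ he hop (by rw [compl_compl]; exact hz) x y hxy
  have hiff : ∀ a b : S, JoinedIn Jᶜ a b → (a ∈ Ins ω J ↔ b ∈ Ins ω J) := by
    intro a b hab
    obtain ⟨p, q, D₁, D₂, hs⟩ := hJ
    rw [ins_iff hWD hG hJV hs hab.source_mem, ins_iff hWD hG hJV hs hab.target_mem,
      hcst hs a b hab]
  have hInsJ : ∀ x ∈ Ins ω J, x ∈ Jᶜ := fun x hx => hx.1
  have hOutJ : ∀ x ∈ Out ω J, x ∈ Jᶜ ∧ x ∉ Ins ω J := fun x hx =>
    ⟨fun h => hx (Or.inl h), fun h => hx (Or.inr h)⟩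
  have hOutI : ∀ x, x ∈ Jᶜ → x ∉ Ins ω J → x ∈ Out ω J := by
    rintro x h1 h2 (h3 | h3)
    · exact h1 h3
    · exact h2 h3
  -- path components
  have hcI : ∀ x ∈ Ins ω J, pathComponentIn Jᶜ x ⊆ Ins ω J := by
    intro x hx y hy
    exact (hiff x y hy).1 hx
  have hcO : ∀ x ∈ Out ω J, pathComponentIn Jᶜ x ⊆ Out ω J := by
    intro x hx y hy
    exact hOutI y (JoinedIn.target_mem hy) fun h => (hOutJ x hx).2 ((hiff x y hy).2 h)
  have hopI : IsOpen (Ins ω J) := by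
    rw [isOpen_iff_forall_mem_open]
    intro x hx
    exact ⟨pathComponentIn Jᶜ x, hcI x hx, hop.pathComponentIn x,
      mem_pathComponentIn_self (hInsJ x hx)⟩
  have hopO : IsOpen (Out ω J) := by
    rw [isOpen_iff_forall_mem_open]
    intro x hx
    exact ⟨pathComponentIn Jᶜ x, hcO x hx, hop.pathComponentIn x,
      mem_pathComponentIn_self (hOutJ x hx).1⟩
  have hclc : IsClosed (cl ω J) := by
    rw [← isOpen_compl_iff]
    exact hopO
  have hcomp : IsCompact (cl ω J) := by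
    obtain ⟨p, q, D₁, D₂, hs⟩ := hJ
    obtain ⟨hz, he⟩ := cyc_spl hAC1 hMON hG hJV hs
    obtain ⟨Q, hQ, hQ0⟩ := win4 _ he
    refine (hJc.union hQ).of_isClosed_subset hclc ?_
    rintro x (hx | hx)
    · exact Or.inl hx
    · refine Or.inr ?_
      by_contra hxQ
      exact (ins_iff hWD hG hJV hs (hInsJ x hx)).1 hx (hQ0 x hxQ)
  have hOne : (Out ω J).Nonempty := by
    by_contra h
    rw [not_nonempty_iff_eq_empty] at h
    have h1 : cl ω J = univ := by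
      have h2 : (cl ω J)ᶜ = ∅ := h
      rw [compl_empty_iff] at h2
      exact h2
    rw [h1] at hcomp
    exact hG.nc (isCompact_univ_iff.1 hcomp)
  obtain ⟨x₀, hx₀⟩ := hne
  obtain ⟨y₀, hy₀⟩ := hOne
  have hthree := (hARN S ω V hG).2 J hJ
  have hmix : ∀ x ∈ Ins ω J, ∀ y ∈ Out ω J, ¬ JoinedIn Jᶜ x y := fun x hx y hy h =>
    (hOutJ y hy).2 ((hiff x y h).1 hx)
  have hII : ∀ x ∈ Ins ω J, ∀ y ∈ Ins ω J, JoinedIn Jᶜ x y := by
    intro x hx y hy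
    rcases hthree x y y₀ (hInsJ x hx) (hInsJ y hy) (hOutJ y₀ hy₀).1 with h | h | h
    · exact h
    · exact absurd h (hmix y hy y₀ hy₀)
    · exact absurd h (hmix x hx y₀ hy₀)
  have hOO : ∀ x ∈ Out ω J, ∀ y ∈ Out ω J, JoinedIn Jᶜ x y := by
    intro x hx y hy
    rcases hthree x y x₀ (hOutJ x hx).1 (hOutJ y hy).1 (hInsJ x₀ hx₀) with h | h | h
    · exact h
    · exact absurd h.symm (hmix x₀ hx₀ y hy)
    · exact absurd h.symm (hmix x₀ hx₀ x hx)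
  have hIeq : Ins ω J = pathComponentIn Jᶜ x₀ :=
    Subset.antisymm (fun y hy => hII x₀ hx₀ y hy) (hcI x₀ hx₀)
  have hOeq : Out ω J = pathComponentIn Jᶜ y₀ :=
    Subset.antisymm (fun y hy => hOO y₀ hy₀ y hy) (hcO y₀ hy₀)
  refine ⟨⟨hopI, ?_⟩, ⟨hopO, ?_⟩, hcomp, hiff, ?_⟩
  · rw [hIeq]
    exact isPathConnected_pathComponentIn (hInsJ x₀ hx₀)
  · rw [hOeq]
    exact isPathConnected_pathComponentIn (hOutJ y₀ hy₀).1
  · intro p q D₁ D₂ hs
    refine ⟨wd ω D₁ D₂ p q x₀, (ins_iff hWD hG hJV hs (hInsJ x₀ hx₀)).1 hx₀, fun x hx => ?_,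
      fun x hx => ?_⟩
    · exact hcst hs x x₀ (hII x hx x₀ hx₀)
    · by_contra h
      exact (hOutJ x hx).2 ((ins_iff hWD hG hJV hs (hOutJ x hx).1).2 h)

end

end Pool.Agent.Helper58.SFP
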