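import Pool.Agent.Helper58.SF.StP

/-! # Module ULC of the project TW: uniform local connectedness of the interior -/

set_option autoImplicit false

namespace Pool.Agent.Helper58.SFP

open Set Topology Pool.Agent.Helper13.TR Pool.Agent.Helper58.SF
open Pool.Agent.Helper13.TW (IsArc Spl IsSCC dch Chn Splt GT CSy MP Val LR MCell StARB StARX StSCL StUAR StINF StLIN StAC1 StSDM)

private theorem map_val {S : Type} [TopologicalSpace S] {V₁ : Set S} {A : Set ↥V₁} {B : Set S}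
    {x y : ↥V₁} (h : JoinedIn A x y) (hAB : ∀ z ∈ A, (z : S) ∈ B) :
    JoinedIn B (x : S) (y : S) := by
  obtain ⟨γ, hγ⟩ := h
  refine ⟨γ.map continuous_subtype_val, fun t => ?_⟩
  simp only [Path.map_coe, Function.comp_apply]
  exact hAB _ (hγ t)

private theorem lift_val {S : Type} [TopologicalSpace S] {V₁ : Set S} {x y : S}
    (hx : x ∈ V₁) (hy : y ∈ V₁) (h : JoinedIn V₁ x y) :
    Joined (⟨x, hx⟩ : ↥V₁) ⟨y, hy⟩ := h.joined_subtype

theorem hULC (_hTWO : StTWO) (_hCLS : StCLS) (_hSCL : StSCL) (_hLIN : StLIN) : StULC := by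
  intro S _ _ _ ω V hG J hE p hp O hO hpO
  obtain ⟨-, -, -, hsat, -⟩ := _hTWO S ω V hG J hE
  obtain ⟨hcI, hcO, -⟩ := _hCLS S ω V hG J hE
  obtain ⟨a, b, D₁, D₂, hspl, hD₂O, hpD₂, hpa, hpb⟩ := (_hSCL S J hE.1).2.2.1 p hp O hO hpO
  have hspl' := hspl
  obtain ⟨hA₁, hA₂, hint, hun⟩ := hspl
  -- the open set
  set V₁ : Set S := O \ D₁ with hV₁
  have hD₁c : IsClosed D₁ := by
    obtain ⟨γ, -, hγ⟩ := hA₁
    rw [← hγ]
    exact (isCompact_range γ.continuous).isClosed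
  have hV₁o : IsOpen V₁ := hO.sdiff hD₁c
  have ha : a ∈ D₁ ∩ D₂ := by rw [hint]; simp
  have hb : b ∈ D₁ ∩ D₂ := by rw [hint]; simp
  have haV : a ∉ V₁ := fun h => h.2 ha.1
  have hbV : b ∉ V₁ := fun h => h.2 hb.1
  have hsub : D₂ \ {a, b} ⊆ V₁ := by
    intro x hx
    refine ⟨hD₂O hx.1, fun h1 => hx.2 ?_⟩
    rw [← hint]; exact ⟨h1, hx.1⟩
  have hpV : p ∈ V₁ := hsub ⟨hpD₂, by simp [hpa, hpb]⟩
  -- points of V₁ in J
  have hJD : ∀ z : ↥V₁, (z : S) ∈ J ↔ (z : S) ∈ D₂ := by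
    intro z
    rw [← hun]
    constructor
    · rintro (h | h)
      · exact absurd h z.2.2
      · exact h
    · intro h; exact Or.inr h
  obtain ⟨ψ, hψ, hrange⟩ := _hLIN.1 S D₂ V₁ a b hA₂ hsub haV hbV
  have hrg : ∀ z : ↥V₁, z ∈ range ψ ↔ (z : S) ∈ J := by
    intro z
    rw [hrange, mem_preimage, hJD]
  have : LocallyPathConnectedSpace ↥V₁ := hV₁o.locallyPathConnectedSpace
  -- the saturated set
  set T : Set ↥V₁ := {z | (z : S) ∈ Ins ω J} with hT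
  have hTsat : ∀ c d : ↥V₁, JoinedIn (range ψ)ᶜ c d → (c ∈ T ↔ d ∈ T) := by
    intro c d hcd
    exact hsat _ _ (map_val hcd fun z hz hzJ => hz ((hrg z).2 hzJ))
  have hO'o : IsOpen (pathComponentIn V₁ p) := hV₁o.pathComponentIn p
  have hpO' : p ∈ pathComponentIn V₁ p := mem_pathComponentIn_self hpV
  have hO'V : pathComponentIn V₁ p ⊆ V₁ := pathComponentIn_subset
  have hjoin : ∀ x ∈ pathComponentIn V₁ p, ∀ y ∈ pathComponentIn V₁ p, JoinedIn V₁ x y := by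
    intro x hx y hy
    exact JoinedIn.trans (JoinedIn.symm hx) hy
  obtain ⟨c, hcO', hcI'⟩ := mem_closure_iff.1 (hcI hp) _ hO'o hpO'
  obtain ⟨d, hdO', hdI'⟩ := mem_closure_iff.1 (hcO hp) _ hO'o hpO'
  have hIJ : ∀ z ∈ Ins ω J, z ∉ J := fun z hz => hz.1
  have hdJ : d ∉ J := fun h => hdI' (Or.inl h)
  have hdI : d ∉ Ins ω J := fun h => hdI' (Or.inr h)
  refine ⟨pathComponentIn V₁ p, hO'o, hpO', fun z hz => (hO'V hz).1, ?_⟩
  rintro x ⟨hxO', hxI⟩ y ⟨hyO', hyI⟩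
  have hex : ∃ c d : ↥V₁, c ∉ range ψ ∧ d ∉ range ψ ∧ c ∈ T ∧ d ∉ T ∧ Joined c d :=
    ⟨⟨c, hO'V hcO'⟩, ⟨d, hO'V hdO'⟩, fun h => hIJ c hcI' ((hrg _).1 h),
      fun h => hdJ ((hrg _).1 h), hcI', hdI, lift_val _ _ (hjoin c hcO' d hdO')⟩
  have hxy := hG.lco V₁ hV₁o ψ hψ T hTsat hex ⟨x, hO'V hxO'⟩ ⟨y, hO'V hyO'⟩
    (fun h => hIJ x hxI ((hrg _).1 h)) (fun h => hIJ y hyI ((hrg _).1 h))
    (lift_val _ _ (hjoin x hxO' y hyO')) ⟨fun _ => hyI, fun _ => hxI⟩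
  obtain ⟨γ, hγ⟩ := hxy
  refine ⟨γ.map continuous_subtype_val, fun t => ?_⟩
  simp only [Path.map_coe, Function.comp_apply]
  refine ⟨(γ t).2.1, ?_⟩
  have h1 : JoinedIn (range ψ)ᶜ (⟨x, hO'V hxO'⟩ : ↥V₁) (γ t) := by
    have : PathConnectedSpace unitInterval :=
      isPathConnected_iff_pathConnectedSpace.1
        ((convex_Icc (0 : ℝ) 1).isPathConnected ⟨0, by simp⟩)
    have h2 : JoinedIn (range γ) (γ 0) (γ t) :=
      (isPathConnected_range γ.continuous).joinedIn _ (mem_range_self 0) _ (mem_range_self t)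
    rw [γ.source] at h2
    refine h2.mono ?_
    rintro _ ⟨s, rfl⟩
    exact hγ s
  exact (hTsat _ _ h1).1 hxI

end Pool.Agent.Helper58.SFP
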