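import Pool.Agent.Helper58.SF.StP

/-! # Project TW, module WD: winding numbers of simple closed curves -/

set_option autoImplicit false

namespace Pool.Agent.Helper58.SFP

open Set Topology Pool.Agent.Helper13.TR Pool.Agent.Helper58.SF
open Pool.Agent.Helper13.TW (IsArc Spl IsSCC dch Chn Splt GT CSy MP Val LR MCell StARB StARX StSCL StUAR StINF StLIN StAC1 StSDM)

/-- the four rules of winding numbers which are used -/
private structure Rul {S : Type} [TopologicalSpace S] (ω : Ch S 1 → S → ℤ) (V : Set S) : Prop where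
  mono : ∀ (A B : Set S) (n : ℕ), A ⊆ B → ∀ c ∈ cin A n, c ∈ cin B n
  arc : ∀ (D : Set S) (p q : S), IsArc D p q →
    (∀ z ∈ cin D 1, bd 0 z = 0 → ∃ f ∈ cin D 2, bd 1 f = z) ∧
    dch D p q ∈ cin D 1 ∧ bd 0 (dch D p q) = Finsupp.single (pt q) 1 - Finsupp.single (pt p) 1
  bv : ∀ z ∈ cin V 1, bd 0 z = 0 → Bz V z
  ad : ∀ (z z' : Ch S 1) (x : S), (Bz V (z)) → (Bz V (z')) →
    z ∈ cin {x}ᶜ 1 → z' ∈ cin {x}ᶜ 1 → W ω (z + z') x = W ω z x + W ω z' x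
  ng : ∀ (z : Ch S 1) (x : S), (Bz V (z)) → z ∈ cin {x}ᶜ 1 →
    W ω (-z) x = -W ω z x
  nl : ∀ (e : Ch S 2) (Q : Set S), e ∈ cin Q 2 → bd 1 e ∈ cin V 1 → ∀ x ∉ Q, W ω (bd 1 e) x = 0
  bb : ∀ e : Ch S 2, bd 0 (bd 1 e) = 0

section rules

variable {S : Type} [TopologicalSpace S] {ω : Ch S 1 → S → ℤ} {V : Set S}

omit [TopologicalSpace S] in
private theorem sub_cmp {D : Set S} {x : S} (h : x ∉ D) : D ⊆ {x}ᶜ := by
  intro y hy hxy
  rw [mem_singleton_iff] at hxy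
  rw [hxy] at hy
  exact h hy

private theorem ex_WD (R : Rul ω V) {D₁ D₂ : Set S} (hV1 : D₁ ⊆ V) (hV2 : D₂ ⊆ V)
    {d₁ d₂ : Ch S 1} (hd₁ : d₁ ∈ cin D₁ 1) (hd₂ : d₂ ∈ cin D₂ 1) (hb : bd 0 d₁ = bd 0 d₂) :
    Bz V (d₁ - d₂) :=
  R.bv _ (Submodule.sub_mem _ (R.mono _ _ _ hV1 _ hd₁) (R.mono _ _ _ hV2 _ hd₂))
    (by rw [map_sub, hb, sub_self])

private theorem cx_WD (R : Rul ω V) {D₁ D₂ : Set S} {x : S} (h1 : x ∉ D₁) (h2 : x ∉ D₂)
    {d₁ d₂ : Ch S 1} (hd₁ : d₁ ∈ cin D₁ 1) (hd₂ : d₂ ∈ cin D₂ 1) : d₁ - d₂ ∈ cin {x}ᶜ 1 :=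
  Submodule.sub_mem _ (R.mono _ _ _ (sub_cmp h1) _ hd₁) (R.mono _ _ _ (sub_cmp h2) _ hd₂)

private theorem p1_WD (R : Rul ω V) (D₁ D₂ : Set S) (p q : S) (h1 : IsArc D₁ p q)
    (h2 : IsArc D₂ p q) (hV1 : D₁ ⊆ V) (hV2 : D₂ ⊆ V) (d₁ : Ch S 1) (hd₁ : d₁ ∈ cin D₁ 1)
    (d₂ : Ch S 1) (hd₂ : d₂ ∈ cin D₂ 1)
    (hb₁ : bd 0 d₁ = Finsupp.single (pt q) 1 - Finsupp.single (pt p) 1)
    (hb₂ : bd 0 d₂ = Finsupp.single (pt q) 1 - Finsupp.single (pt p) 1)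
    (x : S) (hx1 : x ∉ D₁) (hx2 : x ∉ D₂) : W ω (d₁ - d₂) x = wd ω D₁ D₂ p q x := by
  obtain ⟨ac1, dc1, db1⟩ := R.arc D₁ p q h1
  obtain ⟨ac2, dc2, db2⟩ := R.arc D₂ p q h2
  obtain ⟨f1, hf1, e1⟩ := ac1 (d₁ - dch D₁ p q) (Submodule.sub_mem _ hd₁ dc1)
    (by rw [map_sub, hb₁, db1, sub_self])
  obtain ⟨f2, hf2, e2⟩ := ac2 (d₂ - dch D₂ p q) (Submodule.sub_mem _ hd₂ dc2)
    (by rw [map_sub, hb₂, db2, sub_self])
  have e : d₁ - d₂ = (dch D₁ p q - dch D₂ p q) + bd 1 (f1 - f2) := by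
    rw [map_sub, e1, e2]
    abel
  have hc' : bd 1 (f1 - f2) ∈ cin {x}ᶜ 1 := by
    rw [map_sub, e1, e2]
    exact Submodule.sub_mem _ (Submodule.sub_mem _ (R.mono _ _ _ (sub_cmp hx1) _ hd₁)
      (R.mono _ _ _ (sub_cmp hx1) _ dc1)) (Submodule.sub_mem _ (R.mono _ _ _ (sub_cmp hx2) _ hd₂)
      (R.mono _ _ _ (sub_cmp hx2) _ dc2))
  have hV' : bd 1 (f1 - f2) ∈ cin V 1 := by
    rw [map_sub, e1, e2]
    exact Submodule.sub_mem _ (Submodule.sub_mem _ (R.mono _ _ _ hV1 _ hd₁)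
      (R.mono _ _ _ hV1 _ dc1)) (Submodule.sub_mem _ (R.mono _ _ _ hV2 _ hd₂)
      (R.mono _ _ _ hV2 _ dc2))
  have hQ : f1 - f2 ∈ cin (D₁ ∪ D₂) 2 := Submodule.sub_mem _
    (R.mono _ _ _ subset_union_left _ hf1) (R.mono _ _ _ subset_union_right _ hf2)
  have hxQ : x ∉ D₁ ∪ D₂ := by
    rintro (h | h)
    · exact hx1 h
    · exact hx2 h
  rw [e, R.ad _ _ x (ex_WD R hV1 hV2 dc1 dc2 (by rw [db1, db2])) (R.bv _ hV' (R.bb _))
    (cx_WD R hx1 hx2 dc1 dc2) hc', R.nl _ _ hQ hV' x hxQ, add_zero]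
  rfl

private theorem p2_WD (R : Rul ω V) (D₁ D₂ D₃ : Set S) (p q : S) (h1 : IsArc D₁ p q)
    (h2 : IsArc D₂ p q) (h3 : IsArc D₃ p q) (hV1 : D₁ ⊆ V) (hV2 : D₂ ⊆ V) (hV3 : D₃ ⊆ V)
    (x : S) (hx1 : x ∉ D₁) (hx2 : x ∉ D₂) (hx3 : x ∉ D₃) :
    wd ω D₁ D₂ p q x + wd ω D₂ D₃ p q x = wd ω D₁ D₃ p q x := by
  obtain ⟨-, dc1, db1⟩ := R.arc D₁ p q h1
  obtain ⟨-, dc2, db2⟩ := R.arc D₂ p q h2
  obtain ⟨-, dc3, db3⟩ := R.arc D₃ p q h3
  unfold wd
  rw [← R.ad _ _ x (ex_WD R hV1 hV2 dc1 dc2 (by rw [db1, db2]))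
    (ex_WD R hV2 hV3 dc2 dc3 (by rw [db2, db3])) (cx_WD R hx1 hx2 dc1 dc2)
    (cx_WD R hx2 hx3 dc2 dc3), sub_add_sub_cancel]

/-- exchange of the arcs -/
private theorem xa_WD (R : Rul ω V) {D₁ D₂ : Set S} {p q : S} (h1 : IsArc D₁ p q)
    (h2 : IsArc D₂ p q) (hV1 : D₁ ⊆ V) (hV2 : D₂ ⊆ V) {x : S} (hx1 : x ∉ D₁) (hx2 : x ∉ D₂) :
    wd ω D₂ D₁ p q x = -wd ω D₁ D₂ p q x := by
  obtain ⟨-, dc1, db1⟩ := R.arc D₁ p q h1
  obtain ⟨-, dc2, db2⟩ := R.arc D₂ p q h2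
  unfold wd
  rw [← R.ng _ x (ex_WD R hV1 hV2 dc1 dc2 (by rw [db1, db2])) (cx_WD R hx1 hx2 dc1 dc2), neg_sub]

/-- exchange of the end points -/
private theorem xe_WD (R : Rul ω V) {D₁ D₂ : Set S} {p q : S} (h1 : IsArc D₁ p q)
    (h2 : IsArc D₂ p q) (h1' : IsArc D₁ q p) (h2' : IsArc D₂ q p) (hV1 : D₁ ⊆ V) (hV2 : D₂ ⊆ V)
    {x : S} (hx1 : x ∉ D₁) (hx2 : x ∉ D₂) : wd ω D₁ D₂ q p x = -wd ω D₁ D₂ p q x := by
  obtain ⟨-, dc1, db1⟩ := R.arc D₁ q p h1'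
  obtain ⟨-, dc2, db2⟩ := R.arc D₂ q p h2'
  have e := p1_WD R D₁ D₂ p q h1 h2 hV1 hV2 (-dch D₁ q p) (Submodule.neg_mem _ dc1)
    (-dch D₂ q p) (Submodule.neg_mem _ dc2) (by rw [map_neg, db1, neg_sub])
    (by rw [map_neg, db2, neg_sub]) x hx1 hx2
  have e2 : -dch D₁ q p - -dch D₂ q p = -(dch D₁ q p - dch D₂ q p) := by abel
  rw [e2, R.ng _ x (ex_WD R hV1 hV2 dc1 dc2 (by rw [db1, db2])) (cx_WD R hx1 hx2 dc1 dc2)] at e
  rw [← e, neg_neg]
  rfl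

/-- moving the end point `q` into `D₁ = A ∪ B` -/
private theorem mv_WD (R : Rul ω V) {D₁ D₂ A B : Set S} {p q q' : S} (h1 : IsArc D₁ p q)
    (h2 : IsArc D₂ p q) (hA : IsArc A p q') (hB : IsArc B q' q) (hAB : A ∪ B = D₁)
    (hU : IsArc (D₂ ∪ B) p q') (hV1 : D₁ ⊆ V) (hV2 : D₂ ⊆ V) {x : S} (hx1 : x ∉ D₁)
    (hx2 : x ∉ D₂) : wd ω A (D₂ ∪ B) p q' x = wd ω D₁ D₂ p q x := by
  have hA1 : A ⊆ D₁ := hAB ▸ subset_union_left
  have hB1 : B ⊆ D₁ := hAB ▸ subset_union_right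
  obtain ⟨-, ca, ba⟩ := R.arc A p q' hA
  obtain ⟨-, cb, bb⟩ := R.arc B q' q hB
  obtain ⟨-, c2, b2⟩ := R.arc D₂ p q h2
  have e1 := p1_WD R A (D₂ ∪ B) p q' hA hU (hA1.trans hV1)
    (union_subset hV2 (hB1.trans hV1)) (dch A p q') ca (dch D₂ p q - dch B q' q)
    (Submodule.sub_mem _ (R.mono _ _ _ subset_union_left _ c2)
      (R.mono _ _ _ subset_union_right _ cb)) ba
    (by rw [map_sub, b2, bb]; abel) x (fun h => hx1 (hA1 h)) (by
      rintro (h | h)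
      · exact hx2 h
      · exact hx1 (hB1 h))
  have e2 := p1_WD R D₁ D₂ p q h1 h2 hV1 hV2 (dch A p q' + dch B q' q)
    (Submodule.add_mem _ (R.mono _ _ _ hA1 _ ca) (R.mono _ _ _ hB1 _ cb)) (dch D₂ p q) c2
    (by rw [map_add, ba, bb]; abel) b2 x hx1 hx2
  rw [← e1, ← e2]
  congr 1
  abel

end rules

section moves

variable {S : Type} [TopologicalSpace S]

/-- equal up to the sign outside `J` -/
private def Eqv (J : Set S) (f g : S → ℤ) : Prop := (∀ x, x ∉ J → g x = f x) ∨ ∀ x, x ∉ J → g x = -f x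

omit [TopologicalSpace S] in
private theorem Eqv.trans' {J : Set S} {f g h : S → ℤ} (a : Eqv J f g) (b : Eqv J g h) :
    Eqv J f h := by
  rcases a with a | a <;> rcases b with b | b
  · exact Or.inl fun x hx => (b x hx).trans (a x hx)
  · exact Or.inr fun x hx => by rw [b x hx, a x hx]
  · exact Or.inr fun x hx => by rw [b x hx, a x hx]
  · exact Or.inl fun x hx => by rw [b x hx, a x hx, neg_neg]

/-- the relation of pairs of points -/
private def Rel2 (ω : Ch S 1 → S → ℤ) (J : Set S) (p q p' q' : S) : Prop :=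
  ∀ D₁ D₂ D₁' D₂' : Set S, Spl J p q D₁ D₂ → Spl J p' q' D₁' D₂' →
    Eqv J (fun x => wd ω D₁ D₂ p q x) (fun x => wd ω D₁' D₂' p' q' x)

variable {ω : Ch S 1 → S → ℤ}

private theorem Rel2.trans' {J : Set S} {p q r s t u : S} (a : Rel2 ω J p q r s)
    (h : ∃ D₁ D₂ : Set S, Spl J r s D₁ D₂) (b : Rel2 ω J r s t u) : Rel2 ω J p q t u := by
  intro D₁ D₂ D₁' D₂' h1 h2
  obtain ⟨E₁, E₂, hE⟩ := h
  exact (a _ _ _ _ h1 hE).trans' (b _ _ _ _ hE h2)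

end moves

theorem hWD (hWIN : StWIN) (hAC1 : StAC1) (hARB : StARB) (hSCL : StSCL) (hMON : StMON)
    (hSDA : StSDA) : StWD := by
  intro S _ _ _ ω V hGR
  obtain ⟨w1, w2, w3, w4, w5⟩ := hWIN S ω V hGR
  have R : Rul ω V :=
    { mono := fun A B n h c hc => (hMON S).1 A B n h hc
      arc := fun D p q h => hAC1 S D p q h
      bv := hGR.bv
      ad := fun z z' x h h' c c' => (w2 z z' x h h' c c').1
      ng := fun z x h c => (w2 z z x h h c c).2.1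
      nl := w5
      bb := fun e => (hSDA S).1 0 e }
  obtain ⟨arb1, arb3, arb4, -, -, -⟩ := hARB
  refine ⟨p1_WD R, p2_WD R, ?_, ?_⟩
  · intro J p q p' q' D₁ D₂ D₁' D₂' hS hS' hJV
    have hJ : IsSCC J := ⟨p, q, D₁, D₂, hS⟩
    obtain ⟨scl1, scl2, -⟩ := hSCL S J hJ
    -- end points are in `J`, different
    have hmem : ∀ a b E₁ E₂, Spl J a b E₁ E₂ → a ∈ J ∧ b ∈ J ∧ a ≠ b := by
      intro a b E₁ E₂ h
      have h1 := arb1 S E₁ a b h.1
      refine ⟨?_, ?_, h1.2.2.2.2.1⟩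
      · rw [← h.2.2.2]; exact Or.inl h1.2.2.1
      · rw [← h.2.2.2]; exact Or.inl h1.2.2.2.1
    have hsub : ∀ a b E₁ E₂, Spl J a b E₁ E₂ → E₁ ⊆ J ∧ E₂ ⊆ J := by
      intro a b E₁ E₂ h
      rw [← h.2.2.2]
      exact ⟨subset_union_left, subset_union_right⟩
    -- exchange of the arcs
    have xa : ∀ a b E₁ E₂, Spl J a b E₁ E₂ →
        Eqv J (fun x => wd ω E₁ E₂ a b x) (fun x => wd ω E₂ E₁ a b x) := by
      intro a b E₁ E₂ h
      obtain ⟨s1, s2⟩ := hsub a b E₁ E₂ h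
      exact Or.inr fun x hx => xa_WD R h.1 h.2.1 (s1.trans hJV) (s2.trans hJV)
        (fun hh => hx (s1 hh)) (fun hh => hx (s2 hh))
    -- the same points
    have same : ∀ a b, Rel2 ω J a b a b := by
      intro a b E₁ E₂ E₁' E₂' h h'
      have c1 := arb1 S E₁' a b h'.1
      have c2 := arb1 S E₂' a b h'.2.1
      rcases scl2 a b E₁ E₂ E₁' E₂' h c1.2.1.isClosed c2.2.1.isClosed h'.2.2.2 h'.2.2.1
        c1.2.2.2.2.2.2.2.2.1.nonempty c2.2.2.2.2.2.2.2.2.1.nonempty with ⟨e1, e2⟩ | ⟨e1, e2⟩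
      · rw [e1, e2]
        exact Or.inl fun x _ => rfl
      · rw [e1, e2]
        exact xa a b E₁ E₂ h
    -- the points exchanged
    have swp : ∀ a b, Rel2 ω J a b b a := by
      intro a b E₁ E₂ E₁' E₂' h h'
      have c1 := (arb1 S E₁ a b h.1).1
      have c2 := (arb1 S E₂ a b h.2.1).1
      obtain ⟨s1, s2⟩ := hsub a b E₁ E₂ h
      have hsp : Spl J b a E₁ E₂ := ⟨c1, c2, by rw [h.2.2.1, pair_comm], h.2.2.2⟩
      have e1 : Eqv J (fun x => wd ω E₁ E₂ a b x) (fun x => wd ω E₁ E₂ b a x) :=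
        Or.inr fun x hx => xe_WD R h.1 h.2.1 c1 c2 (s1.trans hJV) (s2.trans hJV)
          (fun hh => hx (s1 hh)) (fun hh => hx (s2 hh))
      exact e1.trans' (same b a E₁ E₂ E₁' E₂' hsp h')
    -- moving the second point into the first arc
    have mv1 : ∀ a b c E₁ E₂, Spl J a b E₁ E₂ → c ∈ E₁ → c ≠ a → c ≠ b →
        ∃ A B, Spl J a c A B ∧ Eqv J (fun x => wd ω E₁ E₂ a b x) (fun x => wd ω A B a c x) := by
      intro a b c E₁ E₂ h hc hca hcb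
      obtain ⟨A, B, hA, hB, hAB, hAB'⟩ := arb3 S E₁ a b c h.1 hc hca hcb
      obtain ⟨s1, s2⟩ := hsub a b E₁ E₂ h
      have mA := arb1 S A a c hA
      have mB := arb1 S B c b hB
      have m2 := arb1 S E₂ a b h.2.1
      have haB : a ∉ B := by
        intro hh
        have : a ∈ A ∩ B := ⟨mA.2.2.1, hh⟩
        rw [hAB', mem_singleton_iff] at this
        exact hca this.symm
      have hbA : b ∉ A := by
        intro hh
        have : b ∈ A ∩ B := ⟨hh, mB.2.2.2.1⟩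
        rw [hAB', mem_singleton_iff] at this
        exact hcb this.symm
      have hA1 : A ⊆ E₁ := hAB ▸ subset_union_left
      have hB1 : B ⊆ E₁ := hAB ▸ subset_union_right
      have i1 : E₂ ∩ B = {b} := by
        ext y
        constructor
        · rintro ⟨hy2, hyB⟩
          have : y ∈ E₁ ∩ E₂ := ⟨hB1 hyB, hy2⟩
          rw [h.2.2.1] at this
          rcases this with rfl | hyb
          · exact absurd hyB haB
          · exact hyb
        · intro hy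
          rw [mem_singleton_iff] at hy
          rw [hy]
          exact ⟨m2.2.2.2.1, mB.2.2.2.1⟩
      have hU : IsArc (E₂ ∪ B) a c := arb4 S E₂ B a c b h.2.1 mB.1 i1
      have i2 : A ∩ (E₂ ∪ B) = {a, c} := by
        ext y
        constructor
        · rintro ⟨hyA, hy | hy⟩
          · have : y ∈ E₁ ∩ E₂ := ⟨hA1 hyA, hy⟩
            rw [h.2.2.1] at this
            rcases this with hya | hyb
            · exact Or.inl hya
            · rw [mem_singleton_iff] at hyb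
              rw [hyb] at hyA
              exact absurd hyA hbA
          · have : y ∈ A ∩ B := ⟨hyA, hy⟩
            rw [hAB'] at this
            exact Or.inr this
        · rintro (hy | hy)
          · rw [hy]
            exact ⟨mA.2.2.1, Or.inl m2.2.2.1⟩
          · rw [mem_singleton_iff] at hy
            rw [hy]
            exact ⟨mA.2.2.2.1, Or.inr mB.2.2.1⟩
      refine ⟨A, E₂ ∪ B, ⟨hA, hU, i2, ?_⟩, Or.inl fun x hx => ?_⟩
      · rw [← h.2.2.2, ← hAB, union_comm E₂ B, ← union_assoc]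
      · exact mv_WD R h.1 h.2.1 hA hB hAB hU (s1.trans hJV) (s2.trans hJV)
          (fun hh => hx (s1 hh)) (fun hh => hx (s2 hh))
    have mv : ∀ a b c, c ∈ J → c ≠ a → Rel2 ω J a b a c := by
      intro a b c hc hca E₁ E₂ E₁' E₂' h h'
      by_cases hcb : c = b
      · subst hcb
        exact same a c E₁ E₂ E₁' E₂' h h'
      · rw [← h.2.2.2] at hc
        rcases hc with hc | hc
        · obtain ⟨A, B, hAB, e⟩ := mv1 a b c E₁ E₂ h hc hca hcb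
          exact e.trans' (same a c A B E₁' E₂' hAB h')
        · have hx : Spl J a b E₂ E₁ := ⟨h.2.1, h.1, by rw [inter_comm, h.2.2.1],
            by rw [union_comm, h.2.2.2]⟩
          obtain ⟨A, B, hAB, e⟩ := mv1 a b c E₂ E₁ hx hc hca hcb
          exact ((xa a b E₁ E₂ h).trans' e).trans' (same a c A B E₁' E₂' hAB h')
    obtain ⟨mp, mq, mpq⟩ := hmem p q D₁ D₂ hS
    obtain ⟨mp', mq', mpq'⟩ := hmem p' q' D₁' D₂' hS'
    by_cases hqp : q' = p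
    · subst hqp
      have e1 := mv q' q p' mp' mpq'
      have e2 := e1.trans' (scl1 q' mq' p' mp' (Ne.symm mpq')) (swp q' p')
      exact e2 D₁ D₂ D₁' D₂' hS hS'
    · have e1 := mv p q q' mq' hqp
      have e2 := e1.trans' (scl1 p mp q' mq' (Ne.symm hqp)) (swp p q')
      have e3 := e2.trans' (scl1 q' mq' p mp hqp) (mv q' p p' mp' mpq')
      have e4 := e3.trans' (scl1 q' mq' p' mp' (Ne.symm mpq')) (swp q' p')
      exact e4 D₁ D₂ D₁' D₂' hS hS'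
  · intro J O₁ O _ hJV hJO hbd x hx
    obtain ⟨hxJ, p, q, D₁, D₂, hS, hw⟩ := hx
    by_contra hxO
    obtain ⟨-, dc1, db1⟩ := R.arc D₁ p q hS.1
    obtain ⟨-, dc2, db2⟩ := R.arc D₂ p q hS.2.1
    have s1 : D₁ ⊆ O₁ := by
      refine subset_trans ?_ hJO
      rw [← hS.2.2.2]
      exact subset_union_left
    have s2 : D₂ ⊆ O₁ := by
      refine subset_trans ?_ hJO
      rw [← hS.2.2.2]
      exact subset_union_right
    have v1 : D₁ ⊆ V := by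
      refine subset_trans ?_ hJV
      rw [← hS.2.2.2]
      exact subset_union_left
    have v2 : D₂ ⊆ V := by
      refine subset_trans ?_ hJV
      rw [← hS.2.2.2]
      exact subset_union_right
    have hbe := hbd (dch D₁ p q - dch D₂ p q)
      (Submodule.sub_mem _ (R.mono _ _ _ (subset_inter s1 v1) _ dc1) (R.mono _ _ _ (subset_inter s2 v2) _ dc2))
      (by rw [map_sub, db1, db2, sub_self]) x hxO
    exact hw hbe

end Pool.Agent.Helper58.SFP
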