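import Pool.Agent.Helper58.SF.StP

/-! # Project SF, module WIN -/

set_option autoImplicit false

namespace Pool.Agent.Helper58.SFP

open Set Topology Pool.Agent.Helper13.TR Pool.Agent.Helper58.SF

theorem hWIN (_hMON : StMON) (_hSDA : StSDA) : StWIN := by
  intro S _ _ _ ω V h
  have h0 : ∀ x : S, ω 0 x = 0 := by
    intro x
    have := h.add 0 (Submodule.zero_mem _) 0 (Submodule.zero_mem _) (map_zero _) (map_zero _) x
      (Submodule.zero_mem _) (Submodule.zero_mem _)
    rw [add_zero] at this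
    omega
  have hneg : ∀ (z : Ch S 1) (x : S), Bz V z → z ∈ cin {x}ᶜ 1 → ω (-z) x = - ω z x := by
    intro z x hz hx
    have := h.add z hz.1 (-z) (Submodule.neg_mem _ hz.1) hz.2 (by rw [map_neg, hz.2, neg_zero]) x hx
      (Submodule.neg_mem _ hx)
    rw [add_neg_cancel, h0] at this
    omega
  refine ⟨trivial, ?_, ?_, ?_, ?_⟩
  · intro z z' x hz hz' hx hx'
    refine ⟨h.add z hz.1 z' hz'.1 hz.2 hz'.2 x hx hx', hneg z x hz hx, ?_⟩
    show ω (z - z') x = ω z x - ω z' x
    have h1 := h.add z hz.1 (-z') (Submodule.neg_mem _ hz'.1) hz.2 (by rw [map_neg, hz'.2, neg_zero]) x hx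
      (Submodule.neg_mem _ hx')
    rw [← sub_eq_add_neg, hneg z' x hz' hx'] at h1
    rw [h1]; ring
  · intro z O hz hO hzO x y hxy
    exact h.loc z hz.1 hz.2 O hO hzO x y hxy
  · intro z hz
    exact h.cpt z hz.1 hz.2
  · intro e Q he hbd x hx
    exact h.bnd e Q he hbd x hx

end Pool.Agent.Helper58.SFP
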