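import Mathlib

/-!
# Project SF, part 6: clocks for local semiflows (statement; pure topology)
-/

set_option autoImplicit false

namespace Pool.Agent.Helper58.SF

open Set Topology

/-- CLK.  A local semiflow near a point which is not a rest point has a clock, after a change of the time.
PROOF.  There is `τ` with `0 < τ < ε`, `Φ τ x ≠ x` (`Φ s x ≠ x`; `s > 0` as `Φ 0 x = x`; if `s = ε` take `τ` close to `ε`, continuity).  A metric `d`; `f y = d y x`, `D = f (Φ τ x) > 0`.  For `y ∈ N`, `0 ≤ s ≤ ε - τ` let `H (y, s) = ∫ σ in s..(s + τ), f (Φ σ y)`.  There are `ε₃ > 0` with `2 ε₃ + τ ≤ ε` and an open `N₃ ∋ x`, `N₃ ⊆ N`, with `f (Φ (s + τ) y) - f (Φ s y) ≥ D / 2` for `y ∈ N₃`, `0 ≤ s ≤ ε₃` (continuity at `(x, 0)`, tube lemma).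
`H` is continuous on `N₃ × [0, ε₃]` (integral of a continuous function of the parameters), and `H (y, s') - H (y, s) = ∫ σ in s..s', (f (Φ (σ + τ) y) - f (Φ σ y)) ≥ (s' - s) D / 2` for `s ≤ s'` in `[0, ε₃]`: strictly increasing.  `ε₂ = ε₃ D / 4`.  For `y ∈ N₃`, `0 ≤ c ≤ ε₂` there is a unique `σ(y, c) ∈ [0, ε₃]` with `H (y, σ) = H (y, 0) + c` (intermediate value; `σ ≤ 2 c / D ≤ ε₃ / 2`), continuous in `(y, c)`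
(the graph is closed and `[0, ε₃]` is compact; or directly).  `rr y = - H (y, 0)`, `Ψ c y = Φ (σ(y, c)) y` (`Ψ c y = y` outside), `N₂ = N₃`.  `Ψ 0 y = Φ 0 y = y`.
Let `y ∈ N₂`, `0 ≤ c'`, `y' = Ψ c' y = Φ σ' y ∈ N₂`, `σ' = σ(y, c')`.  For `0 ≤ s ≤ ε₃`: `Φ u y' = Φ (u + σ') y` for `0 ≤ u`, `u + σ' ≤ ε` (semigroup property, `Φ σ' y ∈ N`), so `H (y', s) = H (y, s + σ')` if `s + τ + σ' ≤ ε`, true.  So `rr y' = - H (y, σ') = rr y - c'`.  With `c + c' ≤ ε₂`, `s = σ(y', c)`: `H (y, s + σ') = H (y', s) = H (y', 0) + c = H (y, 0) + c' + c`, and `s + σ' ≤ ε₃` (both are `≤ ε₃ / 2`), so `s + σ' = σ(y, c + c')` (uniqueness), and `Ψ c y' = Φ s (Φ σ' y) = Φ (s + σ') y = Ψ (c + c') y`. -/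
def StCLK : Prop := ∀ (X : Type) [TopologicalSpace X] [TopologicalSpace.MetrizableSpace X] [LocallyCompactSpace X]
  (x : X) (N : Set X) (ε : ℝ) (Φ : ℝ → X → X), IsOpen N → x ∈ N → 0 < ε →
    ContinuousOn (fun p : ℝ × X => Φ p.1 p.2) (Icc 0 ε ×ˢ N) → (∀ y ∈ N, Φ 0 y = y) →
    (∀ y ∈ N, ∀ s s' : ℝ, 0 ≤ s → 0 ≤ s' → s + s' ≤ ε → Φ s' y ∈ N → Φ (s + s') y = Φ s (Φ s' y)) →
    (∃ s : ℝ, 0 ≤ s ∧ s ≤ ε ∧ Φ s x ≠ x) →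
    ∃ (N₂ : Set X) (ε₂ : ℝ) (rr : X → ℝ) (Ψ : ℝ → X → X), IsOpen N₂ ∧ x ∈ N₂ ∧ 0 < ε₂ ∧ ContinuousOn rr N₂ ∧
      ContinuousOn (fun p : ℝ × X => Ψ p.1 p.2) (Icc 0 ε₂ ×ˢ N₂) ∧ (∀ y ∈ N₂, Ψ 0 y = y) ∧
      (∀ y ∈ N₂, ∀ s s' : ℝ, 0 ≤ s → 0 ≤ s' → s + s' ≤ ε₂ → Ψ s' y ∈ N₂ → Ψ (s + s') y = Ψ s (Ψ s' y)) ∧
      (∀ y ∈ N₂, ∀ s : ℝ, 0 ≤ s → s ≤ ε₂ → Ψ s y ∈ N₂ → rr (Ψ s y) = rr y - s)

end Pool.Agent.Helper58.SF
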