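import Pool.Agent.Helper58.SF.StP

/-!
# Project SF, part 3: monotone maps of discs are limits of homeomorphisms (statements)

`cell` of a surface `S` with `WN S ω V`: `Cel ω V K`, `cl ω K = K ∪ Ins ω K`.  `MCell E' J'`: cells of the plane.  `CSy`, `GT`, `Splt`, `MP`, `Val`, `LR`, `StBF`, `StLRC`, `StMD1`, `StMD2`, `StMD3`: see `Pool/Agent/Helper13/TW/Defs.lean`, `StE.lean` (all proved, assembled in `Pool/Agent/Helper13/TW/Asm.lean`).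
-/

set_option autoImplicit false

namespace Pool.Agent.Helper58.SF

open Set Topology Pool.Agent.Helper13.TR
open Pool.Agent.Helper13.TW (IsArc Spl IsSCC dch Chn Splt GT CSy MP Val LR MCell StARB StARX StSCL StUAR StINF StLIN StAC1 StSDM StLRC StBF StMD1 StMD2 StMD3)

/-- EXT.  Homeomorphisms of the boundary curves extend to the cells.  Uses `StBF`, `StMD2`, `StMD3`, `StARB`.
PROOF.  `MCell` is a cell system (MD2, MD3), `MCell (closedBall 0 1) (sphere 0 1)`.  BF: a homeomorphism `φ` of `E` onto the closed unit disc `B`, `J` onto the circle; `E' = w '' B`, `J' = w '' (circle)`, `w : ℂ ≃ₜ ℂ`.  `k = w⁻¹ g φ⁻¹` is a homeomorphism of the circle.  `K (ρ u) = ρ k(u)` (`0 ≤ ρ ≤ 1`, `|u| = 1`): homeomorphism of `B` (continuous at `0` because `|K z| = |z|`; injective; surjective).  `f = w K φ`. -/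
def StEXT : Prop := ∀ (X : Type) [MetricSpace X] (cell : Set X → Set X → Prop), CSy cell → ∀ (E J : Set X), cell E J →
  ∀ (E' J' : Set ℂ), MCell E' J' → ∀ g : X → ℂ, ContinuousOn g J → InjOn g J → g '' J = J' →
    ∃ f : X → ℂ, ContinuousOn f E ∧ InjOn f E ∧ f '' E = E' ∧ ∀ y ∈ J, f y = g y

/-- GLU.  Gluing.
PROOF.  `h y = f N y` for `y ∈ N.E`: well defined: for `y ∈ N.E ∩ N'.E`, `N ≠ N'`: `y ∈ N.J ∩ N'.J` (dis), `f N y = N.h y = N'.h y = f N' y` (agr).  Continuous: finitely many compact sets `N.E` (CSy.cpt).  Injective: `y ∈ N.E`, `y' ∈ N'.E`, `h y = h y'`: if `N = N'` clear; otherwise the value is in `N.E' ∩ N'.E' ⊆ N.J' ∩ N'.J'` (dis'), `N.J' = N.h '' N.J` (val) and `f N` is injective, so `y ∈ N.J`, in the same way `y' ∈ N'.J`, and `N.h y = N'.h y'`: `y = y'` (inj).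
Image: un'.  `y ∈ M.J ⊆ M.E`: `y ∈ N.E` for some `N` (un), `y ∈ N.J` (bdy), `h y = N.h y = M.h y` (agb). -/
def StGLU : Prop := ∀ (X : Type) [MetricSpace X] (cell : Set X → Set X → Prop), CSy cell → ∀ M : MP X ℂ, Val cell MCell M →
  ∀ L : Set (MP X ℂ), LR cell MCell M L → ∀ f : MP X ℂ → X → ℂ,
    (∀ N ∈ L, ContinuousOn (f N) N.E ∧ InjOn (f N) N.E ∧ f N '' N.E = N.E' ∧ ∀ y ∈ N.J, f N y = N.h y) →
    ∃ h : X → ℂ, ContinuousOn h M.E ∧ InjOn h M.E ∧ h '' M.E = M.E' ∧ (∀ y ∈ M.J, h y = M.h y) ∧ ∀ N ∈ L, ∀ y ∈ N.E, h y = f N y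

/-- PCN.  Preimages of connected sets under monotone maps.
PROOF.  `A = D ∩ f⁻¹ C' = A₁ ∪ A₂`, `A_i` disjoint, nonempty, relatively closed in `A`.  For `v ∈ C'` the fibre `D ∩ f⁻¹ {v}` is nonempty and connected, so contained in `A₁` or in `A₂`: `C' = f A₁ ∪ f A₂`, disjoint.  `f A_i` is closed in `C'`: `A_i = A ∩ F_i`, `F_i` closed in `X`; `f A_i = C' ∩ f (D ∩ F_i)` up to: `v ∈ C' ∩ f (D ∩ F_i)` has a preimage in `A ∩ F_i = A_i`; `f (D ∩ F_i)` is compact. -/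
def StPCN : Prop := ∀ (X : Type) [TopologicalSpace X] [T2Space X] (D : Set X) (f : X → ℂ), IsCompact D → ContinuousOn f D →
  (∀ v : ℂ, IsPreconnected (D ∩ f ⁻¹' {v})) → ∀ C' : Set ℂ, C' ⊆ f '' D → IsPreconnected C' → IsPreconnected (D ∩ f ⁻¹' C')

/-- TRM.  From a chain of paths to a chain of arcs.  Uses `StARX`, `StARB`.
PROOF.  `x i ≠ x (i+1)`: for `1 ≤ i ≤ n - 2` the point `x i = x (i+1)` would be in `G (i-1) ∩ G (i+1)`; `x 0 ∉ G 1 ∋ x 1`; `x n ∉ G (n-2) ∋ x (n-1)`.  ARX: arcs `α i ⊆ G i` from `x i` to `x (i+1)`.  Pair adjustment (as in part (iii) of `Pool/Agent/Helper2/TW/M_SIM.lean`): for arcs `A` from `x` to `y`, `B` from `y` to `z` with `x ∉ B`, `z ∉ A`: `v` = the first point of `A` in `B` (ARB (4)), `A' = [x,v] ⊆ A`, `B' = [v,z] ⊆ B`, `A' ∩ B = {v}`,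
`v ≠ x, z`.  Apply it to `(α 0, α 1)`, `(α 1, α 2)`, ... one after the other.  The hypotheses: the start point of `α i` (possibly new, then it is in `α (i-1) ⊆ G (i-1)`) is not in `α (i+1) ⊆ G (i+1)`; for `i = 0` `x 0 ∉ G 1`; the end point `x (i+2)` of `α (i+1)` is not in `α i`: it is in `G (i+2)` if `i + 2 < n`, and `x n ∉ G (n-2)`.  The union is an arc by ARB (3) (induction; `β j ∩ (β 0 ∪ ... ∪ β (j-1)) = {y j}`). -/
def StTRM : Prop := ∀ (S : Type) [TopologicalSpace S] [T2Space S] (n : ℕ) (x : ℕ → S) (G : ℕ → Set S), 3 ≤ n →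
  (∀ i < n, JoinedIn (G i) (x i) (x (i + 1))) → (∀ i j : ℕ, i + 2 ≤ j → j < n → Disjoint (G i) (G j)) → x 0 ∉ G 1 → x n ∉ G (n - 2) →
    ∃ (y : ℕ → S) (β : ℕ → Set S), y 0 = x 0 ∧ y n = x n ∧ (∀ i < n, IsArc (β i) (y i) (y (i + 1)) ∧ β i ⊆ G i) ∧
      (∀ i : ℕ, i + 1 < n → β i ∩ β (i + 1) = {y (i + 1)}) ∧ IsArc (⋃ i ∈ Finset.range n, β i) (x 0) (x n)

/-- KAP.  Homeomorphisms of chains of arcs.  Uses `StARB`.
PROOF.  ARB (5): `k_i : β i → β' i` homeomorphisms with `k_i (y i) = y' i`, `k_i (y (i+1)) = y' (i+1)`.  `k = k_i` on `β i`: well defined (only neighbours meet, in one point), continuous (finitely many compact sets).  Injective: `k_i a = k_j b ∈ β' i ∩ β' j`: `i = j` or neighbours and the value is `y' (i+1)`, so `a = y (i+1) = b`. -/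
def StKAP : Prop := ∀ (S : Type) [TopologicalSpace S] [T2Space S] (n : ℕ) (y : ℕ → S) (β : ℕ → Set S) (y' : ℕ → ℂ) (β' : ℕ → Set ℂ), 1 ≤ n →
  (∀ i < n, IsArc (β i) (y i) (y (i + 1)) ∧ IsArc (β' i) (y' i) (y' (i + 1))) →
  (∀ i : ℕ, i + 1 < n → β i ∩ β (i + 1) = {y (i + 1)} ∧ β' i ∩ β' (i + 1) = {y' (i + 1)}) →
  (∀ i j : ℕ, i + 2 ≤ j → j < n → Disjoint (β i) (β j) ∧ Disjoint (β' i) (β' j)) →
    ∃ k : S → ℂ, ContinuousOn k (⋃ i ∈ Finset.range n, β i) ∧ InjOn k (⋃ i ∈ Finset.range n, β i) ∧ (∀ i < n, k '' β i = β' i) ∧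
      (∀ i ≤ n, k (y i) = y' i)

/-- END.  Paths in the interior of a cell, close to the boundary.
PROOF.  `c` a path in `K ∩ W` from `y₁` to `p`; `θ c` is a path in the circle.  (a) By compactness there is `σ ∈ (0,1)` with `θ⁻¹ (ρ θ(c u)) ∈ W` for all `u ∈ [0,1]`, `ρ ∈ [1 - σ, 1]`; and `r₁ > 0` with `θ⁻¹ v ∈ W` for all `v` in the closed disc with `|v - θ y₁| < r₁`; take `σ < r₁`.  (b) `O` = points near `y₁` with `|θ z - θ y₁| < r₁` (for `z ∈ E`).  For `z ∈ O ∩ (E ∖ K)`: segment from `θ z` to `(1 - σ) θ y₁` (in the convex set `{|v| < 1, |v - θ y₁| < r₁}`), then `(1 - σ) θ (c u)`,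
`u` from `0` to `1`, then the radial segment from `(1 - σ) θ p` to `θ p`.  Apply `θ⁻¹`. -/
def StEND : Prop := ∀ (S : Type) [MetricSpace S] (E K : Set S) (θ : ↥E ≃ₜ ↥(Metric.closedBall (0 : ℂ) 1)),
  (∀ x : ↥E, (x : S) ∈ K ↔ ‖(θ x : ℂ)‖ = 1) → K ⊆ E → ∀ (W : Set S) (y₁ p : S), IsOpen W → JoinedIn (K ∩ W) y₁ p →
    ∃ O : Set S, IsOpen O ∧ y₁ ∈ O ∧ ∀ z ∈ O ∩ (E \ K), JoinedIn ((W ∩ (E \ K)) ∪ {p}) z p

/-- TGD.  Data of a cut of a cell of the plane.  Uses `StARB`, `StUAR`, `StMD2`.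
PROOF.  `γ` a parametrization of `P'` (homeomorphism of `[0,1]`), `γ 0 = p'`, `γ 1 = q'`.  Uniform continuity: `n ≥ 3` with `diam (γ [i/n, (i+1)/n]) < η₀ / 4`; `β' i = γ [i/n, (i+1)/n]`, `y' i = γ (i/n)`.  `E' ∖ J'` is open in the plane and path connected (image of the open unit disc under a homeomorphism of the plane), `P' ∖ {p', q'} ⊆ E' ∖ J'`.  `C₀` = `γ [1/n, (n-1)/n]` together with a path in `E' ∖ J'` from `m'` to `y' 1`: compact, connected.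
`2 κ` = the distance of `C₀` and `J'`, and `C' = {c | dist c C₀ < κ}` (thickening of a connected set: union of balls with centres in `C₀`): connected, `dist c u ≥ κ` for `u ∈ J'`, contained in `E' ∖ J'` (a ball with centre in `E' ∖ J'` which does not meet `J' ⊇ frontier E'` is in `E' ∖ J'`).  `δ ≤ κ`, `δ ≤ η₀ / 4`, `2 δ ≤` the distance of the disjoint compact sets `β' i`, `β' j`, `i + 2 ≤ j`.
`δ₂`: UAR for the simple closed curve `J'` and `δ / 4`: `δ₃ < δ/4` such that for `v ∈ J'`, `0 < dist v p' < δ₃`: a subarc of `J'` from `v` to `p'` of diameter `< δ / 4`, so in the ball of radius `δ/4` about `p'`; and `J' ∩ {dist to β' 0 ≤ 2 δ₂} ⊆ ball p' δ₃` for small `δ₂` (the compact sets `J' ∩ cthickening β' 0` decrease to `J' ∩ β' 0 = {p'}`).  Same for `q'`, `β' (n-1)`. -/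
def StTGD : Prop := ∀ (E' J' : Set ℂ) (p' q' : ℂ) (D₁' D₂' P' E₁' E₂' : Set ℂ), MCell E' J' → Splt E' J' p' q' D₁' D₂' P' E₁' E₂' →
  ∀ m' ∈ E' \ J', ∀ η₀ : ℝ, 0 < η₀ → ∃ (n : ℕ) (y' : ℕ → ℂ) (β' : ℕ → Set ℂ) (C' : Set ℂ) (κ δ δ₂ : ℝ), 3 ≤ n ∧ 0 < κ ∧ 0 < δ ∧ δ ≤ η₀ / 4 ∧ 0 < δ₂ ∧ δ₂ ≤ δ / 4 ∧
    y' 0 = p' ∧ y' n = q' ∧ (∀ i < n, IsArc (β' i) (y' i) (y' (i + 1)) ∧ Metric.diam (β' i) < η₀ / 4 ∧ IsPreconnected (β' i) ∧ β' i ⊆ P') ∧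
    (⋃ i ∈ Finset.range n, β' i) = P' ∧
    (∀ i : ℕ, i + 1 < n → β' i ∩ β' (i + 1) = {y' (i + 1)}) ∧
    (∀ i j : ℕ, i + 2 ≤ j → j < n → Disjoint (Metric.thickening δ (β' i)) (Metric.thickening δ (β' j))) ∧
    IsPreconnected C' ∧ C' ⊆ E' \ J' ∧ m' ∈ C' ∧ (∀ c ∈ C', ∀ u ∈ J', κ ≤ dist c u) ∧
    (∀ i : ℕ, 1 ≤ i → i + 1 ≤ n → y' i ∈ C') ∧ (∀ i : ℕ, 1 ≤ i → i + 2 ≤ n → Metric.thickening δ (β' i) ⊆ C') ∧
    (∀ v ∈ J', v ∈ Metric.thickening (2 * δ₂) (β' 0) → JoinedIn (J' ∩ Metric.ball p' (δ / 4)) v p') ∧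
    (∀ v ∈ J', v ∈ Metric.thickening (2 * δ₂) (β' (n - 1)) → JoinedIn (J' ∩ Metric.ball q' (δ / 4)) v q')

/-- A monotone map of the cell of `J` onto the closed unit disc. -/
def Mono {S : Type} [TopologicalSpace S] (D : Set S) (f : S → ℂ) : Prop :=
  IsCompact D ∧ ContinuousOn f D ∧ f '' D = Metric.closedBall 0 1 ∧
    ∀ C' : Set ℂ, C' ⊆ Metric.closedBall 0 1 → IsPreconnected C' → IsPreconnected (D ∩ f ⁻¹' C')

/-- XCA.  Paths close to the preimage of one piece of the target arc.  Uses `StEND`, `StCSS`, `StBF`, `StMD2`, `StMD3`, `StTWO`.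
PROOF.  `D = cl ω J`; CSS and BF (`MCell` is a cell system by MD2, MD3) give a homeomorphism of `D` onto the closed disc; so `D` is locally path connected, and every nonempty relatively open preconnected subset of `D` is path connected.  For `A' ⊆ closedBall 0 1` preconnected and `ρ > 0` the set `thickening ρ A' ∩ closedBall 0 1` is preconnected (the union of the convex sets `ball c ρ ∩ closedBall 0 1`, `c ∈ A'`), so (*) `D ∩ f⁻¹ (thickening ρ A')` is path connected (or empty).  A connected subset of `D ∖ K` which meets `Ins ω K` is in `Ins ω K`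
(TWO: `Ins ω K`, `Out ω K` are open).  (1) `A' ⊆ C'`-case: (*) with `ρ = δ`; `D ∩ f⁻¹ C'` is connected, disjoint from `K` (for `y ∈ K`: `dist (f y) (g y) < η ≤ κ`, `g y ∈ J'`), contains the nonempty set `D ∩ f⁻¹ {m'} ⊆ Ins ω K`; so it is contained in `Ins ω K`.  (2) End piece: `x₁ ∈ D ∩ f⁻¹ C' ⊆ Ins ω K`, `f x₁ ∈ A'`, `p' ∈ A'`, `g p = p'`, `dist (f p) p' < η ≤ δ₂`.  (*) with `ρ = δ₂`: a path `c` in `D ∩ f⁻¹ (thickening δ₂ A')` from `x₁` to `p`; `y₁ = c τ₁` its first point in `K`; before it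
the path is in `Ins ω K`.  `g y₁ ∈ J'`, within `δ₂ + η ≤ 2 δ₂` of `A'`: by hypothesis `g y₁` and `p'` are joined in `J' ∩ ball p' (δ/4)`; transport by the inverse of the homeomorphism `g : K → J'`: `y₁`, `p` are joined in `K ∩ {y | dist (g y) p' < δ/4}`, where `dist (f y) p' < δ/4 + η < δ`.  `W` open with `W ∩ D = D ∩ f⁻¹ (thickening δ A')`.  END for `E = cl ω K` (chart by CSS, BF): the neighbourhood `O` of `y₁`; `z = c τ ∈ O`, `τ < τ₁`: join `x₁` to `z` along `c`, then `z` to `p`. -/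
def StXCA : Prop := ∀ (S : Type) [MetricSpace S] [LocallyPathConnectedSpace S] [PathConnectedSpace S] (ω : Ch S 1 → S → ℤ) (V : Set S), WN S ω V →
  ∀ (J : Set S) (f : S → ℂ), Cel ω V J → Mono (cl ω J) f →
  ∀ (K : Set S) (g : S → ℂ) (J' C' : Set ℂ) (m' : ℂ) (κ δ δ₂ η : ℝ), Cel ω V K → cl ω K ⊆ cl ω J → ContinuousOn g K → InjOn g K → g '' K = J' →
    (∀ y ∈ K, dist (g y) (f y) < η) → η ≤ κ → η ≤ δ₂ → 0 < η → δ₂ ≤ δ / 4 → C' ⊆ Metric.closedBall 0 1 → IsPreconnected C' → m' ∈ C' →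
    (∀ c ∈ C', ∀ u ∈ J', κ ≤ dist c u) → cl ω J ∩ f ⁻¹' {m'} ⊆ Ins ω K →
    (cl ω J ∩ f ⁻¹' C' ⊆ Ins ω K) ∧
    (∀ A' : Set ℂ, A' ⊆ Metric.closedBall 0 1 → IsPreconnected A' → Metric.thickening δ A' ⊆ C' →
      ∀ x₁ x₂ : S, x₁ ∈ cl ω J → x₂ ∈ cl ω J → f x₁ ∈ A' → f x₂ ∈ A' → JoinedIn (Ins ω K ∩ f ⁻¹' Metric.thickening δ A') x₁ x₂) ∧
    (∀ (A' : Set ℂ) (p : S), A' ⊆ Metric.closedBall 0 1 → IsPreconnected A' → p ∈ K → g p ∈ A' →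
      (∀ v ∈ J', v ∈ Metric.thickening (2 * δ₂) A' → JoinedIn (J' ∩ Metric.ball (g p) (δ / 4)) v (g p)) →
      ∀ x₁ : S, x₁ ∈ cl ω J → f x₁ ∈ A' → f x₁ ∈ C' → JoinedIn (Ins ω K ∩ f ⁻¹' Metric.thickening δ A' ∪ {p}) x₁ p)

/-- XCB.  The crosscut lemma.  Uses `StXCA`, `StTGD`, `StTRM`, `StKAP`, `StARB`.
PROOF.  TGD: `n, y', β', C', κ, δ, δ₂`; `η = min κ δ₂`.  Given `K, g`: `p, q ∈ K` with `g p = p'`, `g q = q'`, `D_i = K ∩ g⁻¹ D_i'` arcs (image under the inverse of the homeomorphism `g : K → J'`, ARB (6)), `Spl K p q D₁ D₂`.  For `1 ≤ i ≤ n - 1` choose `x i ∈ D`, `f (x i) = y' i` (`y' i ∈ P' ⊆ E' ⊆ closedBall`); `x 0 = p`, `x n = q`.  `G i = Ins ω K ∩ f⁻¹ (thickening δ (β' i))` for `1 ≤ i ≤ n - 2`, and `G 0`, `G (n-1)` the same set together with `p`, resp. `q`.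
XCA (2) with `A' = β' i`, `1 ≤ i ≤ n - 2`; XCA (3) for `β' 0`, `p`, `x 1` and `β' (n-1)`, `q`, `x (n-1)`.  The `G i` are disjoint for non-neighbours (thickenings disjoint; `p, q ∉ Ins ω K`, `p ≠ q`).  TRM: `y, β`, `P = ⋃ β i`, arc from `p` to `q`, `P ∖ {p, q} ⊆ Ins ω K`, so `P ∩ K = {p, q}`: `Crs ω K p q P`.  KAP: `k`.  For `v ∈ β i`: `k v ∈ β' i`, `f v ∈ thickening δ (β' i)` (for `v = p`: `dist (f p) p' < η`), `diam (β' i) < η₀/4`: `dist (k v) (f v) < η₀`. -/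
def StXCB : Prop := ∀ (S : Type) [MetricSpace S] [LocallyPathConnectedSpace S] [PathConnectedSpace S] (ω : Ch S 1 → S → ℤ) (V : Set S), WN S ω V →
  ∀ (J : Set S) (f : S → ℂ), Cel ω V J → Mono (cl ω J) f →
  ∀ (E' J' : Set ℂ) (p' q' : ℂ) (D₁' D₂' P' E₁' E₂' : Set ℂ), MCell E' J' → E' ⊆ Metric.closedBall 0 1 → Splt E' J' p' q' D₁' D₂' P' E₁' E₂' →
  ∀ m' ∈ E' \ J', ∀ η₀ : ℝ, 0 < η₀ → ∃ η : ℝ, 0 < η ∧ ∀ (K : Set S) (g : S → ℂ), Cel ω V K → cl ω K ⊆ cl ω J → ContinuousOn g K → InjOn g K → g '' K = J' →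
    (∀ y ∈ K, dist (g y) (f y) < η) → cl ω J ∩ f ⁻¹' {m'} ⊆ Ins ω K →
    ∃ (p q : S) (D₁ D₂ P : Set S) (k : S → ℂ), Spl K p q D₁ D₂ ∧ Crs ω K p q P ∧ g p = p' ∧ g q = q' ∧ g '' D₁ = D₁' ∧ g '' D₂ = D₂' ∧
      ContinuousOn k P ∧ InjOn k P ∧ k '' P = P' ∧ k p = p' ∧ k q = q' ∧ ∀ y ∈ P, dist (k y) (f y) < η₀

/-- MRK.  Marks stay on their side.  Uses `StTHE`, `StTWO`, `StMD2`, `StARB`.
PROOF.  `J₁' = D₁' ∪ P'`, `MCell E₁' J₁'`.  `c'` a point of `D₁' ∖ {p', q'}`.  There is a compact connected set `C₀` containing `m'` and `c'`, contained in `(E₁' ∖ J₁') ∪ {c'}` (in the disc model of `E₁'`: the segment).  `C₀ ∩ (D₂' ∪ P') = ∅` (`E₁' ∩ J' = D₁'`, `D₁' ∩ D₂' = {p', q'} ∌ c'`).  `κ` = the distance of `C₀` and the compact set `D₂' ∪ P'`, `η = κ / 2`.  `C' = C₀ ∪ (ball c' η ∩ closedBall 0 1)`: connected, at distance `≥ η` from `D₂' ∪ P'`.  Given `K, g, P, k`: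 `A = D ∩ f⁻¹ C'` is connected (`Mono`), disjoint from `D₂ ∪ P`
(`dist (f y) (g y) < η`, `g y ∈ D₂'`, resp. `k y ∈ P'`).  `y = g⁻¹ c' ∈ D₁ ∖ {p, q}` is in `A` (`dist (f y) c' < η`), and `y ∉ cl ω (D₂ ∪ P)` (THE: `cl ω (D₂ ∪ P) ∩ K = D₂`).  TWO for `D₂ ∪ P`: `A` is disjoint from `Ins ω (D₂ ∪ P)`.  `D ∩ f⁻¹ {m'} ⊆ A ∩ Ins ω K`, disjoint from `P`, so in `Ins ω K ∖ P = Ins ω (D₁ ∪ P) ∪ Ins ω (D₂ ∪ P)` (THE), so in `Ins ω (D₁ ∪ P)`. -/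
def StMRK : Prop := ∀ (S : Type) [MetricSpace S] [LocallyPathConnectedSpace S] [PathConnectedSpace S] (ω : Ch S 1 → S → ℤ) (V : Set S), WN S ω V →
  ∀ (J : Set S) (f : S → ℂ), Cel ω V J → Mono (cl ω J) f →
  ∀ (E' J' : Set ℂ) (p' q' : ℂ) (D₁' D₂' P' E₁' E₂' : Set ℂ), MCell E' J' → MCell E₁' (D₁' ∪ P') → E' ⊆ Metric.closedBall 0 1 → Splt E' J' p' q' D₁' D₂' P' E₁' E₂' →
  ∀ m' ∈ E₁' \ (D₁' ∪ P'), ∃ η : ℝ, 0 < η ∧ ∀ (K : Set S) (g : S → ℂ) (p q : S) (D₁ D₂ P : Set S) (k : S → ℂ), Cel ω V K → cl ω K ⊆ cl ω J →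
    Spl K p q D₁ D₂ → Crs ω K p q P → g p = p' → g q = q' → g '' D₁ = D₁' → g '' D₂ = D₂' → InjOn g K → k '' P = P' →
    (∀ y ∈ K, dist (g y) (f y) < η) → (∀ y ∈ P, dist (k y) (f y) < η) → cl ω J ∩ f ⁻¹' {m'} ⊆ Ins ω K →
    cl ω J ∩ f ⁻¹' {m'} ⊆ Ins ω (D₁ ∪ P)

/-- JS2.  Joint cut of a pair, with given cuts.
PROOF.  As in `Pool/Agent/Helper25/TW/M_JSP.lean` (there `P'`, `k` are constructed first): the function `u = k` on `P`, `M.h` elsewhere agrees with `M.h` on `M.J` (at `p`, `q` by hypothesis, `P ∩ M.J = {p, q}`), is continuous on `D_i ∪ P`, injective on `M.J ∪ P`, `u '' (D_i ∪ P) = D_i' ∪ P'`; all conditions of `LR` from `E₁ ∩ E₂ = P`, `E₁' ∩ E₂' = P'`, `E_i ∩ J = D_i`, `E_i' ∩ J' = D_i'`. -/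
def StJS2 : Prop := ∀ (X X' : Type) [MetricSpace X] [MetricSpace X'] (cell : Set X → Set X → Prop) (cell' : Set X' → Set X' → Prop), CSy cell → CSy cell' →
  ∀ M : MP X X', Val cell cell' M → ∀ (p q : X) (D₁ D₂ P E₁ E₂ : Set X) (p' q' : X') (D₁' D₂' P' E₁' E₂' : Set X') (k : X → X'),
    Splt M.E M.J p q D₁ D₂ P E₁ E₂ → cell E₁ (D₁ ∪ P) → cell E₂ (D₂ ∪ P) → Splt M.E' M.J' p' q' D₁' D₂' P' E₁' E₂' → cell' E₁' (D₁' ∪ P') → cell' E₂' (D₂' ∪ P') →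
    M.h p = p' → M.h q = q' → M.h '' D₁ = D₁' → M.h '' D₂ = D₂' → ContinuousOn k P → InjOn k P → k '' P = P' → k p = p' → k q = q' →
    ∃ u : X → X', (∀ y ∈ P, u y = k y) ∧ (∀ y ∈ M.J, u y = M.h y) ∧
      LR cell cell' M {⟨E₁, D₁ ∪ P, E₁', D₁' ∪ P', u⟩, ⟨E₂, D₂ ∪ P, E₂', D₂' ∪ P', u⟩}

/-- IDN.  Following a subdivision of the target.  Uses `StXCB`, `StMRK`, `StJS2`, `StLRC`, `StTHE`, `StCSS`, `StMD2`, `StMD3`, `StARB`.
PROOF.  Induction on `GT MCell ε E' J'` (for all of the statement; the cells of the tree are `MCell` and contained in `E'`).  leaf: `M' = {m'}` for a point `m' ∈ E' ∖ J'` (image of `0`), `η = η₀`, `L = {⟨cl ω K, K, E', J', g⟩}` (LRC (2)); `Ins ω K = cl ω K ∖ K`.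
node with `p', q', D₁', D₂', P', E₁', E₂'`: `M₁', M₂'` from the induction hypotheses, `M' = M₁' ∪ M₂'`: finite, nonempty, in `E' ∖ J'` (`E_i' ∩ J' = D_i'`).  Given `η₀`: `η₁, η₂` from the induction hypotheses for `η₀`; `η₃` = the minimum of the constants of MRK for all `m' ∈ M₁'`, and (with the roles of 1 and 2 exchanged: `Splt` is symmetric) for all `m' ∈ M₂'`; `η₄` from XCB for some `m' ∈ M'` and `min η₁ η₂ η₃`; `η = min` of all.  Given `K, g`: XCB: `p, q, D₁, D₂, P, k`.  THE: `D_i ∪ P` are cells, `Splt (cl ω K) K p q D₁ D₂ P (cl ω (D₁ ∪ P)) (cl ω (D₂ ∪ P))`.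
JS2: `u`, `LR {M₁, M₂}`; `u` is `η_i`-close to `f` on `D_i ∪ P`; marks by MRK; `u` maps `D_i ∪ P` homeomorphically onto `D_i' ∪ P'` (from `LR.val`).  Induction hypotheses: `L₁, L₂`; LRC (1) with `L' N = L₁` if `N = M₁`, else `L₂` (if `M₁ = M₂` take `L₁`). -/
def StIDN : Prop := ∀ (S : Type) [MetricSpace S] [LocallyPathConnectedSpace S] [PathConnectedSpace S] (ω : Ch S 1 → S → ℤ) (V : Set S), WN S ω V →
  ∀ (J : Set S) (f : S → ℂ), Cel ω V J → Mono (cl ω J) f →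
  ∀ (ε : ℝ) (E' J' : Set ℂ), GT MCell ε E' J' → MCell E' J' → E' ⊆ Metric.closedBall 0 1 →
  ∃ M' : Set ℂ, M'.Finite ∧ M'.Nonempty ∧ M' ⊆ E' \ J' ∧ ∀ η₀ : ℝ, 0 < η₀ → ∃ η : ℝ, 0 < η ∧
    ∀ (K : Set S) (g : S → ℂ), Cel ω V K → cl ω K ⊆ cl ω J → ContinuousOn g K → InjOn g K → g '' K = J' →
    (∀ y ∈ K, dist (g y) (f y) < η) → (∀ m' ∈ M', cl ω J ∩ f ⁻¹' {m'} ⊆ Ins ω K) →
    ∃ L : Set (MP S ℂ), LR (fun E J => Cel ω V J ∧ E = cl ω J) MCell ⟨cl ω K, K, E', J', g⟩ L ∧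
      ∀ N ∈ L, Metric.diam N.E' < ε ∧ (∀ y ∈ N.J, dist (N.h y) (f y) < η₀) ∧ ∃ m' ∈ N.E', cl ω J ∩ f ⁻¹' {m'} ⊆ N.E \ N.J

/-- NHF.  Monotone maps of cells onto the disc are limits of homeomorphisms.  Uses `StIDN`, `StEXT`, `StGLU`, `StPCN`, `StCSS`, `StMD2`, `StMD3`, `StTWO`.
PROOF.  PCN: `Mono`.  Let `B = closedBall 0 1`, `e = ε / 4`.  MD3: `GT MCell e B (sphere 0 1)`.  IDN: `M'`, `η` for `η₀ = e`; use it for `K = J`, `g = f` (`dist = 0`); marks: `m'` with `|m'| < 1` is not a value of `f` on `J`, so `D ∩ f⁻¹ {m'} ⊆ Ins ω J`.  `L`.  EXT for every `N ∈ L`: `f_N`; GLU: `h`.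
Closeness: `y ∈ N.E`, `h y ∈ N.E'`.  Claim: `f y` is at distance `≤ e + e` from `N.E'`; then `dist (h y) (f y) < 3 e + ...`: precisely `dist (f y) (h y) ≤ 2 e + diam N.E' < 3 e < ε`.  Suppose `dist (f y) (N.E') > e` (otherwise fine).  `C` = the connected component of `f y` in `{v ∈ B | dist v (N.E') > e}`.  `A = D ∩ f⁻¹ C` is connected, contains `y`, disjoint from `N.J` (for `v ∈ N.J`: `dist (f v) (N.h v) < e`, `N.h v ∈ N.E'`).  `y ∈ N.E ∖ N.J = Ins ω N.J`, so `A ⊆ Ins ω N.J ⊆ N.E` (TWO).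
`f y ∈ N₂.E'` for some `N₂ ∈ L` (un'), `N₂ ≠ N`.  If `N₂.E'` does not meet `{v | dist v (N.E') ≤ e}` then `N₂.E' ⊆ C` (connected), so for its mark `m₂ ∈ N₂.E'`: `D ∩ f⁻¹ {m₂} ⊆ A ⊆ N.E`, but it is a nonempty subset of `N₂.E ∖ N₂.J`, and `N.E ∩ N₂.E ⊆ N₂.J` (dis): contradiction.  So `dist (f y) (N.E') ≤ e + diam N₂.E'`. -/
def StNHF : Prop := ∀ (S : Type) [MetricSpace S] [LocallyPathConnectedSpace S] [PathConnectedSpace S] (ω : Ch S 1 → S → ℤ) (V : Set S), WN S ω V →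
  ∀ (J : Set S) (f : S → ℂ), Cel ω V J → IsCompact (cl ω J) → ContinuousOn f (cl ω J) → f '' cl ω J = Metric.closedBall 0 1 →
    (∀ v : ℂ, IsPreconnected (cl ω J ∩ f ⁻¹' {v})) → InjOn f J → f '' J = Metric.sphere 0 1 → ∀ ε : ℝ, 0 < ε →
    ∃ h : S → ℂ, ContinuousOn h (cl ω J) ∧ InjOn h (cl ω J) ∧ h '' cl ω J = Metric.closedBall 0 1 ∧ (∀ y ∈ J, h y = f y) ∧ ∀ y ∈ cl ω J, dist (h y) (f y) < ε

end Pool.Agent.Helper58.SF
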