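import Mathlib

/-!
# Project SF, part 4: selections over an interval (statements; pure topology)
-/

set_option autoImplicit false

namespace Pool.Agent.Helper58.SF

open Set Topology

/-- A link from `p = (a, α)` to `q = (b, β)`, `a < b`, in the family of sets `E u ⊆ Y`, with tube `B`: an open set `G` of `ℝ × Y` containing `p, q`, all of
whose slices over `[a, b]` meet `E u`, and any two points of `E u` in the slice are joined in `E u ∩ B`. -/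
def Lk {Y : Type} [MetricSpace Y] (E : ℝ → Set Y) (B : Set Y) (p q : ℝ × Y) : Prop :=
  p.1 < q.1 ∧ p.2 ∈ E p.1 ∧ q.2 ∈ E q.1 ∧ IsOpen B ∧ ∃ G : Set (ℝ × Y), IsOpen G ∧ p ∈ G ∧ q ∈ G ∧
    (∀ u ∈ Icc p.1 q.1, ∃ θ ∈ E u, (u, θ) ∈ G) ∧
    ∀ u ∈ Icc p.1 q.1, ∀ θ₁ ∈ E u, ∀ θ₂ ∈ E u, (u, θ₁) ∈ G → (u, θ₂) ∈ G → JoinedIn (E u ∩ B) θ₁ θ₂

/-- A chain of links from `p` to `q` with tubes `F u` (constant along each link) which satisfy `Sm`. -/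
inductive Tb {Y : Type} [MetricSpace Y] (E : ℝ → Set Y) (Sm : Set Y → Prop) (F : ℝ → Set Y) : ℝ × Y → ℝ × Y → Prop
  | one (p q : ℝ × Y) (B : Set Y) : Lk E B p q → Sm B → (∀ u ∈ Ico p.1 q.1, F u = B) → Tb E Sm F p q
  | cat (p q s : ℝ × Y) : Tb E Sm F p q → Tb E Sm F q s → Tb E Sm F p s

/-- The family `E u`, `0 ≤ u ≤ 1`, is lower semicontinuous and equi-locally path connected. -/
structure Lsc {Y : Type} [MetricSpace Y] (E : ℝ → Set Y) : Prop where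
  lsc : ∀ u ∈ Icc (0 : ℝ) 1, ∀ θ ∈ E u, ∀ ε : ℝ, 0 < ε → ∃ δ : ℝ, 0 < δ ∧ ∀ u' ∈ Icc (0 : ℝ) 1, |u' - u| < δ → ∃ θ' ∈ E u', dist θ' θ < ε
  elc : ∀ u ∈ Icc (0 : ℝ) 1, ∀ θ ∈ E u, ∀ ε : ℝ, 0 < ε → ∃ δ : ℝ, 0 < δ ∧ ∀ u' ∈ Icc (0 : ℝ) 1, |u' - u| < δ →
    ∀ θ₁ ∈ E u', ∀ θ₂ ∈ E u', dist θ₁ θ < δ → dist θ₂ θ < δ → JoinedIn (E u' ∩ Metric.ball θ ε) θ₁ θ₂

/-- SEA.  Refinement of a link.
PROOF.  `p = (a, α)`, `q = (b, β)`, `G` as in `Lk`.  (LL) Local links: for `u ∈ [a,b]`, `ψ ∈ E u ∩ B` there are `ρ > 0`, `δ > 0`, such that `Sm (ball ψ ρ)` and for all `v < v'` in `[a,b] ∩ (u - δ, u + δ)`, `φ ∈ E v ∩ ball ψ δ`, `φ' ∈ E v' ∩ ball ψ δ`: `Lk E (ball ψ ρ) (v, φ) (v', φ')`.  [`ρ` from the hypothesis on `Sm`; elc for `ε = ρ`: `δ₀ ≤ ρ`; lsc for `ε = δ₀`: `δ₁`; `δ = min δ₀ δ₁`; `G' = (u - δ, u + δ) × ball ψ δ₀`.]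
Call `(v, ξ)`, `v ∈ (a, b]`, `ξ ∈ E v`, good if `∃ F, Tb E Sm F p (v, ξ)`.  Appending a link: if `(v, ξ)` is good (or equal to `p`) and `Lk E B' (v, ξ) (v', ξ')`, `Sm B'`, `v' ≤ b` then `(v', ξ')` is good (change `F` to `B'` on `[v, v')`; `Tb` depends only on the values of `F` on `[p.1, q.1)`).
(SL) If `(v, ξ)` is good then there is `δ' > 0` such that `(v - τ, ξ')` is good for all `0 < τ < δ'`, `ξ' ∈ E (v - τ) ∩ ball ξ δ'`: induction on `Tb`: the last link `Lk E B'' (v₀, φ₀) (v, ξ)` with open set `G''`: `(v - τ, ξ') ∈ G''`, so `Lk E B'' (v₀, φ₀) (v - τ, ξ')`.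
(P) Let `(v, ξ)` be good and `γ` a path in `E v ∩ B` from `ξ` to `ψ`.  Then `(v, ψ)` is good: `Z = {t | (v, γ t) is good}` is open and closed: let `t₀ ∈ [0,1]`, `δ` from (LL) at `(v, γ t₀)`.  If `γ t` is good for some `t` with `dist (γ t) (γ t₀) < δ` then for small `τ > 0` there is by lsc at `(v, γ t)` a point `ξ' ∈ E (v - τ)` close to `γ t`, in `ball (γ t₀) δ`, `(v - τ, ξ')` good by (SL), and by (LL) it is linked to `(v, φ')` for all `φ' ∈ E v ∩ ball (γ t₀) δ`: all these are good.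
(U) `Bs = {v ∈ (a,b] | some ξ ∈ E v with (v, ξ) ∈ G is good}`.  If `v ∈ Bs` then all `(v, ψ)`, `ψ ∈ E v`, `(v, ψ) ∈ G` are good, by (P) and the property of `G`.  For `u ∈ [a,b]` choose `ψ_u ∈ E u`, `(u, ψ_u) ∈ G` (`ψ_a = α`); it is in `B` (joined to itself in `E u ∩ B`); `δ_u` from (LL); by lsc and openness of `G`, for `v ∈ [a,b]` close to `u` there is `φ_v ∈ E v ∩ ball ψ_u δ_u`, `(v, φ_v) ∈ G`.  So for `v < v'` close to `u`: `v ∈ Bs` implies `v' ∈ Bs` (link from `(v, φ_v)` to `(v', φ_v')`),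
and `v' ∈ Bs` for all `v' > a` close to `a` (link from `(a, α)`).  By compactness of `[a,b]` (or a supremum argument) `Bs = (a, b]`; `(b, β) ∈ G` is good by (P). -/
def StSEA : Prop := ∀ (Y : Type) [MetricSpace Y] (E : ℝ → Set Y), Lsc E → ∀ (Sm : Set Y → Prop) (B : Set Y) (p q : ℝ × Y), 0 ≤ p.1 → q.1 ≤ 1 → Lk E B p q →
  (∀ u ∈ Icc p.1 q.1, ∀ θ ∈ E u ∩ B, ∃ ρ₀ : ℝ, 0 < ρ₀ ∧ ∀ ρ : ℝ, 0 < ρ → ρ ≤ ρ₀ → Sm (Metric.ball θ ρ)) → ∃ F : ℝ → Set Y, Tb E Sm F p q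

/-- SEB.  Selections.  Uses `StSEA`.
PROOF.  `θ₀ ∈ E 0`, `θ₁ ∈ E 1`, `p = (0, θ₀)`, `q = (1, θ₁)`: `Lk E univ p q` (`G = univ`).  `Sm n B := closure B ⊆ O n ∧ B ⊆ some ball of radius 2^(-n)` (true for small balls about points of `E u`).  SEA: `F_0` with `Tb E (Sm 0) F_0 p q`.  Given `Tb E (Sm n) F_n p q` there is `F_(n+1)` with `Tb E (Sm (n+1)) F_(n+1) p q` and `closure (F_(n+1) u) ⊆ F_n u` for `u ∈ [0,1)`: induction on `Tb`: `one`: SEA with `Sm' B' := Sm (n+1) B' ∧ closure B' ⊆ B`; `cat`: glue the two functions at `q.1`.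
Facts for `Tb E Sm F p q`, by induction: for `u ∈ [p.1, q.1)`: `Sm (F u)`, `F u ∩ E u ≠ ∅` (a point `θ` of the slice is joined to itself in `E u ∩ B`); `F p.1 ∋ p.2`, and `q.2 ∈ F u` for all `u < q.1` close to `q.1`; every `u₀` has a neighbourhood with `F u ∩ F u₀ ≠ ∅` for `u` in it (at a junction `q`: both tubes contain `q.2`).
For `u ∈ [0,1)` choose `θ_n ∈ F_n u ∩ E u`: Cauchy, `s u` = the limit, in `closure (F_n u)` for all `n`, so in `O n`; in `closure (E u)`, so `s u ∈ E u`.  Continuous at `u₀`: for `u` close to `u₀` `F_n u ∩ F_n u₀ ≠ ∅`, so `dist (s u) (s u₀) ≤ 4 · 2^(-n)`. -/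
def StSEB : Prop := ∀ (Y : Type) [MetricSpace Y] [CompleteSpace Y] (E : ℝ → Set Y) (O : ℕ → Set Y), Lsc E → (∀ u ∈ Icc (0 : ℝ) 1, IsPathConnected (E u)) →
  (∀ n, IsOpen (O n)) → (∀ n, ∀ u ∈ Icc (0 : ℝ) 1, E u ⊆ O n) → (∀ u ∈ Icc (0 : ℝ) 1, ∀ θ ∈ closure (E u), (∀ n, θ ∈ O n) → θ ∈ E u) →
  ∃ s : ℝ → Y, ContinuousOn s (Ico 0 1) ∧ ∀ u ∈ Ico (0 : ℝ) 1, s u ∈ E u

/-- ALX.  The Alexander trick.
PROOF.  `A (t, z) = t C (z / t)` for `|z| ≤ t`, `t > 0`, and `A (t, z) = z` for `|z| ≥ t` (they agree for `|z| = t`, `C` is the identity on the circle).  Continuous: for `t > 0` gluing of two closed sets; at `(0, 0)`: `|A (t, z)| ≤ max t |z|` (at `(0, z)` with `z ≠ 0` it is `z` nearby).  `A (t, ·)` is a bijection (it preserves `{|z| ≤ t}` and is bijective on it).  `dist (A (t, z)) z = t dist (C (z/t)) (z/t) ≤ t η ≤ η`. -/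
def StALX : Prop := ∀ C : ↥(Metric.closedBall (0 : ℂ) 1) ≃ₜ ↥(Metric.closedBall (0 : ℂ) 1), (∀ z : ↥(Metric.closedBall (0 : ℂ) 1), ‖(z : ℂ)‖ = 1 → C z = z) →
  ∃ A : C(unitInterval × ↥(Metric.closedBall (0 : ℂ) 1), ↥(Metric.closedBall (0 : ℂ) 1)), (∀ z, A (0, z) = z) ∧ (∀ z, A (1, z) = C z) ∧
    (∀ t, Function.Bijective fun z => A (t, z)) ∧ (∀ (t : unitInterval) (z : ↥(Metric.closedBall (0 : ℂ) 1)), ‖(z : ℂ)‖ = 1 → A (t, z) = z) ∧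
    ∀ η : ℝ, (∀ z, dist (C z) z ≤ η) → ∀ t z, dist (A (t, z)) z ≤ η

/-- SEC.  Continuous families of discs.  Uses `StSEB`, `StALX`.
PROOF.  `Bd = closedBall 0 1` (compact), `Y = C(Bd, K₀)` with the uniform metric, complete (`K₀` is compact).  `E u` = the `θ ∈ Y` which are injective with range `D u` and `θ z = j z` on the circle.  `O n = {θ | ∀ z z', dist z z' ≥ 1/(n+1) → θ z ≠ θ z'}` is open (compactness: `dist (θ z) (θ z')` has a positive minimum there).  Closure condition: a uniform limit `θ` of elements of `E u` has values in `D u` (closed), is onto `D u` (compactness), has the right boundary values, and is injective if it is in all `O n`.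
lsc: `θ' = h ∘ θ`.  Path connected and elc: `θ₁, θ₂ ∈ E u'`: `C = θ₁⁻¹ θ₂` is a homeomorphism of `Bd`, the identity on the circle; ALX: `t ↦ θ₁ ∘ A (t, ·)` is a path in `E u'` from `θ₁` to `θ₂` (continuous in `Y`: currying).  elc at `θ ∈ E u`, `ε`: `η > 0` with `dist (θ z) (θ z') < ε / 2` for `dist z z' ≤ η`; `δ ≤ ε / 2` with: `dist (θ z) (θ z') ≤ 2 δ` implies `dist z z' ≤ η` (compactness, `θ` injective).  If `θ₁, θ₂` are within `δ` of `θ`: `dist (θ (C z)) (θ z) ≤ dist (θ (C z)) (θ₁ (C z)) + dist (θ₂ z) (θ z) < 2 δ`,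
so `dist (C z) z ≤ η`, `dist (A (t,z)) z ≤ η`, and `dist (θ₁ (A (t,z))) (θ z) ≤ dist (θ₁ (A (t,z))) (θ (A (t,z))) + dist (θ (A (t,z))) (θ z) < δ + ε / 2 ≤ ε` (uniformly, sup `< ε` by compactness).  `Θ (u, z) = s u z`. -/
def StSEC : Prop := ∀ (P : Type) [MetricSpace P] (K₀ : Set P) (D : ℝ → Set P) (j : ℂ → P), IsCompact K₀ → (∀ u ∈ Icc (0 : ℝ) 1, D u ⊆ K₀) →
  (∀ u ∈ Icc (0 : ℝ) 1, ∃ θ : ℂ → P, ContinuousOn θ (Metric.closedBall 0 1) ∧ InjOn θ (Metric.closedBall 0 1) ∧ θ '' Metric.closedBall 0 1 = D u ∧ ∀ z ∈ Metric.sphere (0 : ℂ) 1, θ z = j z) →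
  (∀ u₀ ∈ Icc (0 : ℝ) 1, ∀ ε : ℝ, 0 < ε → ∃ δ : ℝ, 0 < δ ∧ ∀ u ∈ Icc (0 : ℝ) 1, |u - u₀| < δ → ∃ h : P → P, ContinuousOn h (D u₀) ∧ InjOn h (D u₀) ∧ h '' D u₀ = D u ∧
    (∀ z ∈ Metric.sphere (0 : ℂ) 1, h (j z) = j z) ∧ ∀ y ∈ D u₀, dist (h y) y < ε) →
  ∃ Θ : ℝ × ℂ → P, ContinuousOn Θ (Ico 0 1 ×ˢ Metric.closedBall 0 1) ∧ ∀ u ∈ Ico (0 : ℝ) 1, InjOn (fun z => Θ (u, z)) (Metric.closedBall 0 1) ∧
    (fun z => Θ (u, z)) '' Metric.closedBall 0 1 = D u ∧ ∀ z ∈ Metric.sphere (0 : ℂ) 1, Θ (u, z) = j z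

/-- CHT.  The chart.
PROOF.  `G` open, for `y ∈ G`: `uu y ∈ (0,1)`, `y ∈ D (uu y)`: `y = Θ (uu y, z)` for a unique `z = ζ y` in the closed disc; `|z| < 1` because `Θ (u, z) = j z` on the circle and `y ∉ j '' circle`.  `f y = (ζ y, uu y)`, `G → ℂ × ℝ`: injective.  Continuous: if `y_n → y`, a subsequence of `ζ y_n` converges to `z'` in the closed disc, `Θ (uu y, z') = lim Θ (uu y_n, ζ y_n) = y`, `z' = ζ y`.  Range: `{(z, u) | |z| < 1, 0 < u < 1, Θ (u, z) ∈ G}` (if `y = Θ (u, z) ∈ G` then `y ∈ D u`, so `uu y = u`, `ζ y = z`): open, as `Θ` is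
continuous on `(0,1) × ball`; the inverse is `Θ`, continuous.  So `f` is an open embedding; compose with `ℂ × ℝ ≃ₜ ℝ × ℝ × ℝ`. -/
def StCHT : Prop := ∀ (P : Type) [MetricSpace P] (G : Set P) (D : ℝ → Set P) (j : ℂ → P) (Θ : ℝ × ℂ → P) (uu : P → ℝ), IsOpen G → ContinuousOn uu G →
  ContinuousOn Θ (Ico 0 1 ×ˢ Metric.closedBall 0 1) →
  (∀ u ∈ Ico (0 : ℝ) 1, InjOn (fun z => Θ (u, z)) (Metric.closedBall 0 1) ∧ (fun z => Θ (u, z)) '' Metric.closedBall 0 1 = D u ∧ ∀ z ∈ Metric.sphere (0 : ℂ) 1, Θ (u, z) = j z) →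
  (∀ y ∈ G, uu y ∈ Ioo (0 : ℝ) 1 ∧ y ∈ D (uu y) ∧ y ∉ j '' Metric.sphere 0 1) → (∀ u ∈ Ioo (0 : ℝ) 1, ∀ y ∈ D u ∩ G, uu y = u) →
  ∃ f : ↥G → ℝ × ℝ × ℝ, IsOpenEmbedding f

end Pool.Agent.Helper58.SF
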