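import Pool.Agent.Helper58.SF.StB
import Pool.Agent.Helper58.SF.StN
import Pool.Agent.Helper58.SF.StS

/-!
# Project SF, part 5: the family of discs (definitions and statements)

`GB P r R dg`: good box.  Notation: `S_t = {r = t}`, `L x = Ln r R x`, `Wd z x` = `Wd (Up r R) (Dn r R) dg z x`.
-/

set_option autoImplicit false

namespace Pool.Agent.Helper58.SF

open Set Topology Pool.Agent.Helper13.TR
open Pool.Agent.Helper13.TW (IsArc Spl IsSCC dch Chn Splt GT CSy MP Val LR MCell StARB StARX StSCL StUAR StINF StLIN StAC1 StSDM StLRC StBF StMD1 StMD2 StMD3)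

/-- The surface `Σ_u`: the graph over the level `a` of the function `b - u χ (b - a')`. -/
def Sg {P : Type} (r : P → ℝ) (R : ℝ → P → P) (chi : P → ℝ) (a a' b u : ℝ) : Set P :=
  {y | r y = b - u * chi (R a y) * (b - a')}

/-- The disc `D_u` in the surface `Σ_u`, bounded by `Jp`. -/
def Dk {P : Type} [TopologicalSpace P] (r : P → ℝ) (R : ℝ → P → P) (dg : P → Ch P 3 → ℤ) (chi : P → ℝ) (a a' b : ℝ)
    (zJ : Ch P 1) (Jp : Set P) (u : ℝ) : Set P :=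
  {y | y ∈ Sg r R chi a a' b u ∧ (y ∈ Jp ∨ Wd (Up r R) (Dn r R) dg zJ y ≠ 0)}

/-- The data of the family of discs. -/
structure Dat (P : Type) [TopologicalSpace P] (r : P → ℝ) (R : ℝ → P → P) (dg : P → Ch P 3 → ℤ) (x₀ : P) (a a' b : ℝ)
    (V0 V' C2 Jp : Set P) (zJ : Ch P 1) (chi : P → ℝ) (O1 : Set P) : Prop where
  gb : GB P r R dg
  ha : 0 < a
  haa : a < a'
  hax : a' < r x₀
  hxb : r x₀ < b
  hb : b < 1
  oV0 : IsOpen V0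
  bV0 : ∀ z ∈ cin V0 1, bd 0 z = 0 → ∃ e : Ch P 2, bd 1 e = z
  subV : V' ⊆ V0
  zV' : ∀ z ∈ cin V' 1, bd 0 z = 0 → ∀ y, r y = a → y ∉ V0 → Wd (Up r R) (Dn r R) dg z y = 0
  cC2 : IsCompact C2
  sC2 : C2 ⊆ V'
  lC2 : ∀ y ∈ C2, r y = a
  Jb : ∀ y ∈ Jp, r y = b
  Ja : ∀ y ∈ Jp, R a y ∈ V' ∧ R a y ∉ C2
  spl : ∃ (p q : P) (D₁ D₂ : Set P) (d₁ d₂ : Ch P 1), Spl Jp p q D₁ D₂ ∧ d₁ ∈ cin D₁ 1 ∧ d₂ ∈ cin D₂ 1 ∧
    bd 0 d₁ = Finsupp.single (pt q) 1 - Finsupp.single (pt p) 1 ∧ bd 0 d₂ = Finsupp.single (pt q) 1 - Finsupp.single (pt p) 1 ∧ zJ = d₁ - d₂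
  win : ∀ y, r y = b → R a y ∈ C2 → Wd (Up r R) (Dn r R) dg zJ y ≠ 0
  chic : Continuous chi
  chi01 : ∀ y, 0 ≤ chi y ∧ chi y ≤ 1
  chi0 : ∀ y, r y = a → y ∉ C2 → chi y = 0
  oO1 : IsOpen O1
  xO1 : R a x₀ ∈ O1
  chi1 : ∀ y ∈ O1, r y = a → chi y = 1

/-- INS.  The interior of a curve in a surface, in terms of `P`.  Uses `StWD`, `StWIN`, `StAC1`, `StSCL`, `StARB`, `StPSH`, `StMON`.
PROOF.  `i : ↥S → P`; arcs in `S` correspond to arcs in `↥S` (embedding).  `i⁻¹ Jp` is a simple closed curve: split at `p, q` into `i⁻¹ D₁`, `i⁻¹ D₂`.  `d_i` is the image of a chain `d_i'` of `↥S` in `i⁻¹ D_i`, with boundary `[q] - [p]` (PSH (5), injectivity).  WD (1): `W (d₁' - d₂') x = wd (i⁻¹ D₁) (i⁻¹ D₂) p q x` for `x ∉ i⁻¹ Jp`, and by definition `W (d₁' - d₂') x = Wd (i (d₁' - d₂')) x = Wd (d₁ - d₂) x`.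
`x ∈ Ins` iff `x ∉ J` and some `wd` of a splitting is `≠ 0`, iff (WD (3)) the `wd` of this splitting is `≠ 0`. -/
def StINS : Prop := ∀ (P : Type) [TopologicalSpace P] [T2Space P] (r : P → ℝ) (R : ℝ → P → P) (dg : P → Ch P 3 → ℤ) (S V0 : Set P),
  PathConnectedSpace ↥S → WN ↥S (wS r R dg S) (Subtype.val ⁻¹' V0) → ∀ (Jp : Set P) (p q : P) (D₁ D₂ : Set P) (d₁ d₂ : Ch P 1), Spl Jp p q D₁ D₂ → Jp ⊆ S → Jp ⊆ V0 →
    d₁ ∈ cin D₁ 1 → d₂ ∈ cin D₂ 1 → bd 0 d₁ = Finsupp.single (pt q) 1 - Finsupp.single (pt p) 1 → bd 0 d₂ = Finsupp.single (pt q) 1 - Finsupp.single (pt p) 1 →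
    IsSCC (Subtype.val ⁻¹' Jp : Set ↥S) ∧
    ∀ x : ↥S, x ∈ Ins (wS r R dg S) (Subtype.val ⁻¹' Jp) ↔ (x : P) ∉ Jp ∧ Wd (Up r R) (Dn r R) dg (d₁ - d₂) x ≠ 0

/-- LFT.  Lifting a cycle to a higher level.  Uses `StOMB`, `StSMW`, `StHTF`, `StCNB`, `StLPL`, `StBEX`, `StSDM`, `StJOI`, `StPSH`, `StMON`, `StCON`, `StSDA`, `StFLW`.
PROOF.  `z` has a compact carrier `Q ⊆ S_a ∩ O ∖ {x}` (CON (2)).  For `y ∈ Q`: SMW (1) for `y` and `U = O ∩ {x}ᶜ`: `N_y ⊆ U` open such that closed chains `z' ∈ cin N_y 1` have `Wd z' x = 0` (`r x = a = r y`); `A_y` = the path component of `y` in `S_a ∩ N_y`, open in `S_a` (LPL).  A metric on `P`; Lebesgue number `λ` of the cover of `Q` by the `A_y` (in the space `↥S_a`).  SDM in `↥S_a` (for the chain of `↥S_a` given by PSH (5)): `z' ∈ cin Q 1`, `z - z' = bd f`, `f ∈ cin Q 2`, all simplices `σ` of `z'` have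 diameter `< λ`, so `range σ ⊆ A_σ`,
one of the `A_y`.  For `v ∈ S_a` choose `v̂ ∈ Up v`, `r v̂ = b` (BEX), so `R_a v̂ = v`.  `σ` from `p_σ` to `q_σ`; `Â_σ = {y | r y = b, R_a y ∈ A_σ}` is preconnected (CNB (1)), open in `S_b`, so path connected (LPL); `κ_σ ∈ cin Â_σ 1`, `bd κ_σ = [q̂_σ] - [p̂_σ]` (JOI (1)).  `zb = ∑ n_σ κ_σ` for `z' = ∑ n_σ σ`: `bd zb = 0` (apply the linear map `[v] ↦ [v̂]` to `bd z' = 0`).  `R_a κ_σ - σ` (push) is a closed chain in `A_σ ⊆ S_a ∩ N_y`, `Wd (R_a κ_σ - σ) x = 0`; it bounds in `P` (`N_y ⊆ O ⊆ V0`).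
So (OMB (2), all these chains bound) `Wd (R_a zb) x = Wd z' x = Wd z x` (`f ∈ cin Q 2 ⊆ cin (L x)ᶜ`, OMB (4)).  HTF (1): `zb` bounds as `R_a zb` does (`R_a zb ∈ cin (S_a ∩ O)` closed, `O ⊆ V0`).  HTF (2) for `A = {y | r y = b, R_a y ∈ O, R_a y ≠ x}`: for `y ∈ A`, `σ ≥ a`: `R_σ y ∉ L x` (otherwise `R_a y = R_a (R_σ y) = R_a x = x`, as the level of `R_σ y` is `≥ a = r x`): `Wd zb x = Wd (R_a zb) x`.
`Wd zb xb = Wd zb x`: OMB (3) along `σ ↦ R_σ xb`, `a ≤ σ ≤ b`: `R_σ xb ∈ Up x`, so `L (R_σ xb) ⊆ L x` (FLW (5)), and `zb ∈ cin (L x)ᶜ`. -/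
def StLFT : Prop := ∀ (P : Type) [TopologicalSpace P] (r : P → ℝ) (R : ℝ → P → P) (dg : P → Ch P 3 → ℤ), GB P r R dg →
  ∀ (a b : ℝ) (x xb : P) (O V0 : Set P) (z : Ch P 1), 0 < a → a < b → b < 1 → r x = a → r xb = b → R a xb = x → IsOpen O → O ⊆ V0 →
    (∀ z ∈ cin V0 1, bd 0 z = 0 → ∃ e : Ch P 2, bd 1 e = z) → z ∈ cin ({y : P | r y = a} ∩ O) 1 → bd 0 z = 0 → z ∈ cin {x}ᶜ 1 →
    ∃ zb ∈ cin {y : P | r y = b ∧ R a y ∈ O ∧ R a y ≠ x} 1, bd 0 zb = 0 ∧ (∃ e : Ch P 2, bd 1 e = zb) ∧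
      Wd (Up r R) (Dn r R) dg zb xb = Wd (Up r R) (Dn r R) dg z x

/-- CRV.  The data exist.  Uses `StLFT`, `StEXW`, `StSMW`, `StHTF`, `StCNB`, `StLPL`, `StBEX`, `StWNX`, `StINS`, `StSCD`, `StTWO`, `StWD`, `StAC1`, `StARB`, `StSCL`, `StPSH`, `StMON`, `StCON`, `StSDA`, `StFLW`.
PROOF.  `a < a' < r x₀ < b` given, `c₀ = R_a x₀`.  `V0` from `LH1` at `c₀` (`U = univ`); `V'` from SMW (1) at `c₀` for `V0`.  EXW for `c₀`, `O = V'`: `e₁ ∈ cin (S_a ∩ V') 2`, `z = bd e₁ ∈ cin {c₀}ᶜ`, `Wd z c₀ = 1`; `Qz` the compact carrier of `z`.  `S_a` is locally compact and locally path connected: `O2 ∋ c₀` open in `S_a`, path connected, with compact closure `C2 ⊆ V' ∖ Qz`; `C2` is preconnected.  `O = V' ∖ C2` open, `z ∈ cin (S_a ∩ O)`.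
`xb ∈ Up c₀`, `r xb = b` (BEX).  LFT: `zb`, `Wd zb xb = 1`.  `V̂ = R_a⁻¹ V0`, open in `P`.  WNX with `lam = b` (constant): `S = S_b`; cycles `w ∈ cin (S_b ∩ V̂) 1` bound in `P` (HTF (1): `R_a w ∈ cin V0` bounds): `WN ↥S_b (wS ..) (val⁻¹ V̂)`.  `zb` as a cycle of `↥S_b` (PSH (5)) with compact carrier `Q` (CON (2)) in `{R_a y ∈ O}`, `xb ∉ Q`; SCD (with a metric on `↥S_b`): `J' ⊆ Q`, `IsSCC J'`, `xb ∈ Ins J'`.  `Jp = val '' J'`.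
`J'` is `Ess` in `val⁻¹ V̂`.  `F = {y | r y = b, R_a y ∈ C2}` is preconnected (CNB (1)), contains `xb`, disjoint from `Jp`; TWO: `Ins J'`, `Out J'` are open, so `F ⊆ Ins J'`.  Splitting and chains: AC1 in `P` (`d_i = dch D_i p q`), `zJ = d₁ - d₂`; `win` by INS.  `chi`: `P` is normal (metrizable): a closed neighbourhood: `O1 ∋ c₀` open in `P` with `closure O1 ∩ S_a ⊆ O2`; Urysohn: `chi = 1` on `closure O1 ∩ S_a`... precisely: the closed sets `closure O1 ∩ S_a` and `S_a ∖ O2` are disjoint; `chi : P → [0,1]` is `1` on the first, `0` on the second. -/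
def StCRV : Prop := ∀ (P : Type) [MetricSpace P] (r : P → ℝ) (R : ℝ → P → P) (dg : P → Ch P 3 → ℤ), GB P r R dg →
  ∀ (x₀ : P) (a a' b : ℝ), 0 < a → a < a' → a' < r x₀ → r x₀ < b → b < 1 →
    ∃ (V0 V' C2 Jp : Set P) (zJ : Ch P 1) (chi : P → ℝ) (O1 : Set P), Dat P r R dg x₀ a a' b V0 V' C2 Jp zJ chi O1

/-- FAA.  The surfaces and their cells.  Uses `StWNX`, `StINS`, `StHTF`, `StOMB`, `StBEX`, `StMON`, `StFLW`, `StSCL`.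
PROOF.  `lam y = b - u chi y (b - a') ∈ [a', b]`, `S = Sg .. u = {y | r y = lam (R_a y)}`.  `V̂ = R_a⁻¹ V0` is open, cycles in `S ∩ V̂` bound in `P` (HTF (1) to the level `a`, `bV0`).  WNX.  `Jp ⊆ S`: for `y ∈ Jp` `R_a y ∉ C2`, `chi (R_a y) = 0`, `r y = b`.  INS: `Ins (val⁻¹ Jp)` = the points `x ∉ Jp` with `Wd zJ x ≠ 0`; so `val '' cl .. = Dk .. u`.  `Ess`: nonempty: take `x ∈ S` with `R_a x ∈ C2` (BEX: `C2` is nonempty? it contains `R_a x₀`, because `chi (R_a x₀) = 1 ≠ 0`); claim (A): for `x ∈ S` with `R_a x ∈ C2`: `x ∉ Jp`, `Wd zJ x ≠ 0`.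
[`y ∈ Up x`, `r y = b` (BEX), `R_a y = R_a x ∈ C2`, `Wd zJ y ≠ 0` (`win`); `Wd zJ x = Wd zJ y` by OMB (3) along `σ ↦ R_σ y`, `r x ≤ σ ≤ b`: `L (R_σ y) ⊆ L x` (FLW (5)), `zJ ∈ cin (L x)ᶜ`: for `v ∈ Jp ∩ L x` we would have `R_a v = R_a x ∈ C2`.]  `Ins ⊆ V̂` (B): let `x ∈ S ∖ Jp`, `R_a x ∉ V0`, `c = R_a x`.  For `v ∈ Jp`, `σ ≥ a`: `R_σ v ∉ L c` (otherwise `R_a v = c`, but `R_a v ∈ V' ⊆ V0`).  `Wd zJ x = Wd zJ c` (OMB (3), `L (R_σ x) ⊆ L c`) `= Wd (R_a zJ) c` (HTF (2)) `= 0` (`zV'`: `R_a zJ ∈ cin V'` closed).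
(`zJ` bounds in `P`: HTF (1) and `bV0`.) -/
def StFAA : Prop := ∀ (P : Type) [MetricSpace P] (r : P → ℝ) (R : ℝ → P → P) (dg : P → Ch P 3 → ℤ) (x₀ : P) (a a' b : ℝ) (V0 V' C2 Jp : Set P) (zJ : Ch P 1)
  (chi : P → ℝ) (O1 : Set P), Dat P r R dg x₀ a a' b V0 V' C2 Jp zJ chi O1 → ∀ u ∈ Icc (0 : ℝ) 1, ∀ S : Set P, S = Sg r R chi a a' b u →
    LocallyPathConnectedSpace ↥S ∧ PathConnectedSpace ↥S ∧ WN ↥S (wS r R dg S) (Subtype.val ⁻¹' (R a ⁻¹' V0)) ∧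
      Cel (wS r R dg S) (Subtype.val ⁻¹' (R a ⁻¹' V0)) (Subtype.val ⁻¹' Jp) ∧ Jp ⊆ S ∧
      Subtype.val '' cl (wS r R dg S) (Subtype.val ⁻¹' Jp) = Dk r R dg chi a a' b zJ Jp u

/-- FAB.  Simple properties of the discs.  Uses `StFAA`, `StTWO`, `StOMB`, `StHTF`, `StBEX`, `StMON`, `StFLW`.
PROOF.  (1) claim (A) of FAA.  (2) `y ∈ Dk u`, `R_a y ∉ C2`: `chi (R_a y) = 0`, so `r y = b` and `y ∈ Sg .. u'` for all `u'`; the second condition of `Dk` does not depend on `u`.  (3) FAA, TWO (`cl` of the cell is compact).  (4) `K₀ = Dk 0 ∪ {y | a ≤ r y ≤ b, R_a y ∈ C2}` is compact (Box.cpt, closed conditions): but take `K₀ ∩ {a' ≤ r y}`; levels of points of `Sg` are in `[a', b]`; (2).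
(5) `y`, `a' < r y < b`, `R_a y ∈ O1`: `chi (R_a y) = 1`, `u = (b - r y)/(b - a')`: `r y = b - u (b - a')`: `y ∈ Sg .. u`, and `R_a y ∈ C2` (`chi0`), so (1).  `y ∉ Jp` by `Ja`.  (6) `chi (R_a y) = 1`. -/
def StFAB : Prop := ∀ (P : Type) [MetricSpace P] (r : P → ℝ) (R : ℝ → P → P) (dg : P → Ch P 3 → ℤ) (x₀ : P) (a a' b : ℝ) (V0 V' C2 Jp : Set P) (zJ : Ch P 1)
  (chi : P → ℝ) (O1 : Set P), Dat P r R dg x₀ a a' b V0 V' C2 Jp zJ chi O1 →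
    (∀ u ∈ Icc (0 : ℝ) 1, ∀ y ∈ Sg r R chi a a' b u, R a y ∈ C2 → y ∈ Dk r R dg chi a a' b zJ Jp u) ∧
    (∀ u ∈ Icc (0 : ℝ) 1, ∀ y ∈ Dk r R dg chi a a' b zJ Jp u, R a y ∉ C2 → r y = b ∧ ∀ u' ∈ Icc (0 : ℝ) 1, y ∈ Dk r R dg chi a a' b zJ Jp u') ∧
    (∀ u ∈ Icc (0 : ℝ) 1, Jp ⊆ Dk r R dg chi a a' b zJ Jp u ∧ IsCompact (Dk r R dg chi a a' b zJ Jp u)) ∧
    (∃ K₀ : Set P, IsCompact K₀ ∧ (∀ y ∈ K₀, a' ≤ r y ∧ r y ≤ b) ∧ ∀ u ∈ Icc (0 : ℝ) 1, Dk r R dg chi a a' b zJ Jp u ⊆ K₀) ∧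
    (∀ y : P, a' < r y → r y < b → R a y ∈ O1 → y ∈ Dk r R dg chi a a' b zJ Jp ((b - r y) / (b - a')) ∧ y ∉ Jp) ∧
    (∀ u ∈ Icc (0 : ℝ) 1, ∀ y ∈ Dk r R dg chi a a' b zJ Jp u, R a y ∈ O1 → r y = b - u * (b - a'))

/-- FAC.  The monotone maps between the discs.  Uses `StFAB`, `StCNA`, `StBEX`, `StFLW`.
PROOF.  `0 ≤ u ≤ u' ≤ 1`, `q y = R (b - u' chi (R_a y) (b - a')) y`, continuous (the level is `≥ a' > 0`; FLW (1), `Rc`).  For `y ∈ Sg u`: `r (q y)` = the new level (it is `≤ r y`), `R_a (q y) = R_a y`: `q y ∈ Sg u'`.  If `R_a y ∈ C2`: `q y ∈ Dk u'` by FAB (1).  If `R_a y ∉ C2`: `r y = b = ` the new level, `q y = y ∈ Dk u'` by FAB (2).  Surjective: `y' ∈ Dk u'`: if `R_a y' ∉ C2`: `y' = q y'`, `y' ∈ Dk u`; if `R_a y' ∈ C2`: BEX: `y ∈ Up y'` of level `b - u chi (R_a y') (b - a') ≥ r y'`; `R_a y = R_a y'`, `y ∈ Sg u`, so `y ∈ Dk u`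 (FAB (1)), `q y = R (r y') y = y'`.
Fibres: over `v ∈ Dk u'` with `R_a v ∈ C2`: `{y ∈ Up v | r y = b - u chi (R_a v) (b - a')}`, preconnected by CNA; with `R_a v ∉ C2`: `{v}`; over other `v` empty.  Near: `(t, y) ↦ R t y` is uniformly continuous on `[a', b] × K₀` (FAB (4)), `R (r y) y = y`, and the two levels differ by at most `(u' - u)(b - a')`. -/
def StFAC : Prop := ∀ (P : Type) [MetricSpace P] (r : P → ℝ) (R : ℝ → P → P) (dg : P → Ch P 3 → ℤ) (x₀ : P) (a a' b : ℝ) (V0 V' C2 Jp : Set P) (zJ : Ch P 1)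
  (chi : P → ℝ) (O1 : Set P), Dat P r R dg x₀ a a' b V0 V' C2 Jp zJ chi O1 →
    (∀ u u' : ℝ, 0 ≤ u → u ≤ u' → u' ≤ 1 → ∀ q : P → P, (∀ y, q y = R (b - u' * chi (R a y) * (b - a')) y) →
      Continuous q ∧ q '' Dk r R dg chi a a' b zJ Jp u = Dk r R dg chi a a' b zJ Jp u' ∧
      (∀ v : P, IsPreconnected (Dk r R dg chi a a' b zJ Jp u ∩ q ⁻¹' {v})) ∧ ∀ y ∈ Jp, q y = y) ∧
    ∀ ε : ℝ, 0 < ε → ∃ δ : ℝ, 0 < δ ∧ ∀ u u' : ℝ, 0 ≤ u → u ≤ u' → u' ≤ 1 → u' - u < δ → ∀ y ∈ Dk r R dg chi a a' b zJ Jp u,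
      dist (R (b - u' * chi (R a y) * (b - a')) y) y < ε

/-- FAD.  Discs, and homeomorphisms between them close to the identity.  Uses `StFAA`, `StFAB`, `StFAC`, `StNHF`, `StEXT`, `StCSS`, `StBF`, `StMD2`, `StMD3`, `StTWO`.
PROOF.  For `u ∈ [0,1]`: the surface `S = Σ_u` (with the metric of `P`), `J_u = val⁻¹ Jp`, the cell system of `↥S` (CSS), `val '' cl J_u = Dk u` (FAA).  BF: a homeomorphism of `cl J_0` onto the closed disc, `J_0` onto the circle; `j` = its inverse on the circle, composed with `val`: `j : circle → Jp` homeomorphism.  For every `u`: EXT for `E = cl J_u`, `J_u`, `E' = closedBall 0 1`, `J' = sphere 0 1`, `g = j⁻¹`: `φ_u : cl J_u → closedBall` homeomorphism with `φ_u (j z) = z` on the circle (compact); `θ_u = val ∘ φ_u⁻¹`.  This is (1).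
(2) `u₀`, `ε`; `δ` from FAC (near) for `ε / 2`.  Let `u₀ ≤ u`, `u - u₀ < δ`: `q` as in FAC from `Dk u₀` to `Dk u`; `f = φ_u ∘ q` on `cl J_(u₀)`: continuous, onto the closed disc, fibres preconnected (transport by the embedding `val`), `f (j z) = z`, so injective on `J_(u₀)` with image the circle.  NHF in `Σ_(u₀)` with `ε'` such that `dist v w < ε'` implies `dist (θ_u v) (θ_u w) < ε / 2`: `h'`; `h = θ_u ∘ h'` on `Dk u₀`: homeomorphism onto `Dk u`, `h (j z) = θ_u z = j z`, `dist (h y) y ≤ dist (θ_u (h' y)) (θ_u (f y)) + dist (q y) y < ε`.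
Let `u < u₀`, `u₀ - u < δ`: in the same way a homeomorphism `h₁ : Dk u → Dk u₀` with `dist (h₁ y) y < ε`, the identity on `Jp`; `h = h₁⁻¹`. -/
def StFAD : Prop := ∀ (P : Type) [MetricSpace P] (r : P → ℝ) (R : ℝ → P → P) (dg : P → Ch P 3 → ℤ) (x₀ : P) (a a' b : ℝ) (V0 V' C2 Jp : Set P) (zJ : Ch P 1)
  (chi : P → ℝ) (O1 : Set P), Dat P r R dg x₀ a a' b V0 V' C2 Jp zJ chi O1 →
    ∃ j : ℂ → P, j '' Metric.sphere 0 1 = Jp ∧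
      (∀ u ∈ Icc (0 : ℝ) 1, ∃ θ : ℂ → P, ContinuousOn θ (Metric.closedBall 0 1) ∧ InjOn θ (Metric.closedBall 0 1) ∧
        θ '' Metric.closedBall 0 1 = Dk r R dg chi a a' b zJ Jp u ∧ ∀ z ∈ Metric.sphere (0 : ℂ) 1, θ z = j z) ∧
      ∀ u₀ ∈ Icc (0 : ℝ) 1, ∀ ε : ℝ, 0 < ε → ∃ δ : ℝ, 0 < δ ∧ ∀ u ∈ Icc (0 : ℝ) 1, |u - u₀| < δ →
        ∃ h : P → P, ContinuousOn h (Dk r R dg chi a a' b zJ Jp u₀) ∧ InjOn h (Dk r R dg chi a a' b zJ Jp u₀) ∧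
          h '' Dk r R dg chi a a' b zJ Jp u₀ = Dk r R dg chi a a' b zJ Jp u ∧ (∀ y ∈ Jp, h y = y) ∧ ∀ y ∈ Dk r R dg chi a a' b zJ Jp u₀, dist (h y) y < ε

/-- FNP.  Good boxes are 3-manifolds.  Uses `StCRV`, `StFAB`, `StFAD`, `StSEC`, `StCHT`, `StFLW`.
PROOF.  `0 < a < a' < r x₀ < b < 1`; CRV: `Dat`.  FAD, FAB (4): `K₀`; SEC with `D u = Dk .. u`: `Θ`.  CHT with `G = {y | a' < r y, r y < b, R_a y ∈ O1}` (open, contains `x₀`), `uu y = (b - r y)/(b - a')`; FAB (5), (6). -/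
def StFNP : Prop := ∀ (P : Type) [MetricSpace P] (r : P → ℝ) (R : ℝ → P → P) (dg : P → Ch P 3 → ℤ), GB P r R dg →
  ∀ x₀ : P, ∃ U : Set P, IsOpen U ∧ x₀ ∈ U ∧ ∃ f : ↥U → ℝ × ℝ × ℝ, IsOpenEmbedding f

/-- FIN.  The theorem.  Uses `StBX1`, `StSBX`, `StFNP`.
PROOF.  BX1 for `x`: `U₁ ∋ x`; SBX in `↥U₁`; FNP (with a metric compatible with the topology); composition of open embeddings of subspaces. -/
def StFIN : Prop := ∀ (X : Type) [TopologicalSpace X] [TopologicalSpace.MetrizableSpace X] [LocallyCompactSpace X] [LocallyPathConnectedSpace X], HM X → LH1 X →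
  ∀ (x : X) (N : Set X) (ε : ℝ) (rr : X → ℝ) (Φ : ℝ → X → X), IsOpen N → x ∈ N → 0 < ε → ContinuousOn rr N →
    ContinuousOn (fun p : ℝ × X => Φ p.1 p.2) (Icc 0 ε ×ˢ N) → (∀ y ∈ N, Φ 0 y = y) →
    (∀ y ∈ N, ∀ s s' : ℝ, 0 ≤ s → 0 ≤ s' → s + s' ≤ ε → Φ s' y ∈ N → Φ (s + s') y = Φ s (Φ s' y)) →
    (∀ y ∈ N, ∀ s : ℝ, 0 ≤ s → s ≤ ε → Φ s y ∈ N → rr (Φ s y) = rr y - s) →
    ∃ U : Set X, IsOpen U ∧ x ∈ U ∧ ∃ f : ↥U → ℝ × ℝ × ℝ, IsOpenEmbedding f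

end Pool.Agent.Helper58.SF
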