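import Pool.Agent.Helper13.TW.Asm
import Pool.Agent.Helper58.SF.StG
import Pool.Agent.Helper58.SF.StC
import Pool.Agent.Helper1.SF.M_EXW
import Pool.Agent.Helper10.SF.M_CRV
import Pool.Agent.Helper10.SF.M_OMA
import Pool.Agent.Helper10.SF.M_TRM
import Pool.Agent.Helper10.SF.M_TUB
import Pool.Agent.Helper13.SF.M_SBX
import Pool.Agent.Helper15.SF.M_WNX
import Pool.Agent.Helper16.SF.M_HTF
import Pool.Agent.Helper17.SF.M_FNP
import Pool.Agent.Helper2.SF.M_RCK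
import Pool.Agent.Helper22.SF.M_SEC
import Pool.Agent.Helper25.SF.M_CLK
import Pool.Agent.Helper26.SF.M_LCQ
import Pool.Agent.Helper29.SF.M_NIS
import Pool.Agent.Helper33.SF.M_TGD
import Pool.Agent.Helper36.SF.M_GLU
import Pool.Agent.Helper36.SF.M_LSP
import Pool.Agent.Helper36.SF.M_SEB
import Pool.Agent.Helper40.SF.M_CNB
import Pool.Agent.Helper42.SF.M_CNA
import Pool.Agent.Helper42.SF.M_FIN
import Pool.Agent.Helper47.SF.M_BEX
import Pool.Agent.Helper47.SF.M_SEA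
import Pool.Agent.Helper51.SF.M_CHT
import Pool.Agent.Helper58.SF.M_ACC
import Pool.Agent.Helper58.SF.M_ARN
import Pool.Agent.Helper58.SF.M_CHN
import Pool.Agent.Helper58.SF.M_CLS
import Pool.Agent.Helper58.SF.M_CMP
import Pool.Agent.Helper58.SF.M_CSS
import Pool.Agent.Helper58.SF.M_INS
import Pool.Agent.Helper58.SF.M_JIN
import Pool.Agent.Helper58.SF.M_PRE
import Pool.Agent.Helper58.SF.M_S3A
import Pool.Agent.Helper58.SF.M_S3B
import Pool.Agent.Helper58.SF.M_SCD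
import Pool.Agent.Helper58.SF.M_SIM
import Pool.Agent.Helper58.SF.M_SMC
import Pool.Agent.Helper58.SF.M_THE
import Pool.Agent.Helper58.SF.M_TWO
import Pool.Agent.Helper58.SF.M_ULC
import Pool.Agent.Helper58.SF.M_WD
import Pool.Agent.Helper58.SF.M_WIN
import Pool.Agent.Helper6.SF.M_PCN
import Pool.Agent.Helper60.SF.M_FAC
import Pool.Agent.Helper61.SF.M_CY3
import Pool.Agent.Helper62.SF.M_EXT
import Pool.Agent.Helper63.SF.M_WNL
import Pool.Agent.Helper66.SF.M_XCA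
import Pool.Agent.Helper69.SF.M_XCB
import Pool.Agent.Helper7.SF.M_FAB
import Pool.Agent.Helper7.SF.M_SMW
import Pool.Agent.Helper71.SF.M_FAA
import Pool.Agent.Helper71.SF.M_NHF
import Pool.Agent.Helper71.SF.M_OP3
import Pool.Agent.Helper72.SF.M_FAD
import Pool.Agent.Helper72.SF.M_IDN
import Pool.Agent.Helper77.SF.M_BX1
import Pool.Agent.Helper8.SF.M_LFT
import Pool.Agent.Helper81.SF.M_JS2
import Pool.Agent.Helper83.SF.M_UPC
import Pool.Agent.Helper84.SF.M_ALX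
import Pool.Agent.Helper84.SF.M_LPL
import Pool.Agent.Helper84.SF.M_MRK
import Pool.Agent.Helper86.SF.M_FLW
import Pool.Agent.Helper86.SF.M_KAP
import Pool.Agent.Helper86.SF.M_OMB
import Pool.Agent.Helper92.SF.M_DEG
import Pool.Agent.Helper92.SF.M_END
import Pool.Agent.Helper99.SF.M_ARQ

/-!
# Project SF: all modules together
-/

set_option autoImplicit false

namespace Pool.Agent.Helper58.SF

theorem aWIN : StWIN := _root_.Pool.Agent.Helper58.SFP.hWIN Pool.Agent.Helper13.TR.aMON Pool.Agent.Helper13.TR.aSDA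
theorem aARN : StARN := _root_.Pool.Agent.Helper58.SFP.hARN Pool.Agent.Helper13.TW.aARB Pool.Agent.Helper13.TW.aSCL Pool.Agent.Helper13.TW.aLIN
theorem aCHN : StCHN := _root_.Pool.Agent.Helper58.SFP.hCHN Pool.Agent.Helper13.TW.aSDM Pool.Agent.Helper13.TW.aARX aWIN Pool.Agent.Helper13.TW.aAC1 Pool.Agent.Helper13.TW.aARB Pool.Agent.Helper13.TR.aMON Pool.Agent.Helper13.TR.aSDA
theorem aFLW : StFLW := _root_.Pool.Agent.Helper86.SF.hFLW
theorem aTUB : StTUB := _root_.Pool.Agent.Helper10.SF.hTUB Pool.Agent.Helper13.TR.aPRI Pool.Agent.Helper13.TR.aMON aFLW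
theorem aOP3 : StOP3 := _root_.Pool.Agent.Helper71.SF.hOP3 Pool.Agent.Helper13.TR.aSM Pool.Agent.Helper13.TR.aSDA Pool.Agent.Helper13.TR.aPSH Pool.Agent.Helper13.TR.aMON Pool.Agent.Helper13.TR.aEXI Pool.Agent.Helper13.TR.aCON
theorem aDEG : StDEG := _root_.Pool.Agent.Helper92.SF.hDEG Pool.Agent.Helper13.TR.aMON Pool.Agent.Helper13.TR.aCON Pool.Agent.Helper13.TR.aSDA
theorem aBEX : StBEX := _root_.Pool.Agent.Helper47.SF.hBEX aTUB aFLW
theorem aLSP : StLSP := _root_.Pool.Agent.Helper36.SF.hLSP Pool.Agent.Helper13.TR.aSM Pool.Agent.Helper13.TR.aSDA Pool.Agent.Helper13.TR.aPRI Pool.Agent.Helper13.TR.aMON Pool.Agent.Helper13.TR.aCON aDEG aFLW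
theorem aLPL : StLPL := _root_.Pool.Agent.Helper84.SF.hLPL aLSP aBEX aFLW
theorem aUPC : StUPC := _root_.Pool.Agent.Helper83.SF.hUPC aLSP aBEX aFLW
theorem aNIS : StNIS := _root_.Pool.Agent.Helper29.SF.hNIS aBEX aFLW Pool.Agent.Helper13.TR.aJOI Pool.Agent.Helper13.TR.aSDA Pool.Agent.Helper13.TR.aMON
theorem aCY3 : StCY3 := _root_.Pool.Agent.Helper61.SF.hCY3 Pool.Agent.Helper13.TR.aRAY Pool.Agent.Helper13.TR.aMV Pool.Agent.Helper13.TR.aMON Pool.Agent.Helper13.TW.aLIN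
theorem aARQ : StARQ := _root_.Pool.Agent.Helper99.SF.hARQ aUPC aBEX aTUB Pool.Agent.Helper13.TR.aMV Pool.Agent.Helper13.TR.aJOI Pool.Agent.Helper13.TR.aMON Pool.Agent.Helper13.TR.aSDA aFLW
theorem aLCQ : StLCQ := _root_.Pool.Agent.Helper26.SF.hLCQ aUPC aBEX aTUB aCY3 Pool.Agent.Helper13.TR.aOPN Pool.Agent.Helper13.TR.aMV Pool.Agent.Helper13.TR.aJOI Pool.Agent.Helper13.TR.aMON Pool.Agent.Helper13.TR.aSDA Pool.Agent.Helper13.TR.aPSH aFLW aLPL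
theorem aOMA : StOMA := _root_.Pool.Agent.Helper10.SF.hOMA aTUB Pool.Agent.Helper13.TR.aRAY Pool.Agent.Helper13.TR.aMV Pool.Agent.Helper13.TR.aMON Pool.Agent.Helper13.TR.aCON Pool.Agent.Helper13.TR.aSDA aDEG aFLW
theorem aOMB : StOMB := _root_.Pool.Agent.Helper86.SF.hOMB aOMA Pool.Agent.Helper13.TR.aMON Pool.Agent.Helper13.TR.aCON aDEG aFLW
theorem aHTF : StHTF := _root_.Pool.Agent.Helper16.SF.hHTF aOMB Pool.Agent.Helper13.TR.aPRI Pool.Agent.Helper13.TR.aMON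
theorem aEXW : StEXW := _root_.Pool.Agent.Helper1.SF.hEXW aOMB aOMA Pool.Agent.Helper13.TR.aSM Pool.Agent.Helper13.TR.aMV Pool.Agent.Helper13.TR.aPRI Pool.Agent.Helper13.TR.aPSH Pool.Agent.Helper13.TR.aMON Pool.Agent.Helper13.TR.aSDA aDEG aFLW
theorem aSMW : StSMW := _root_.Pool.Agent.Helper7.SF.hSMW aOMB Pool.Agent.Helper13.TR.aMON Pool.Agent.Helper13.TR.aCON aFLW
theorem aCNA : StCNA := _root_.Pool.Agent.Helper42.SF.hCNA aTUB aBEX Pool.Agent.Helper13.TR.aMV Pool.Agent.Helper13.TR.aMON aDEG aFLW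
theorem aCNB : StCNB := _root_.Pool.Agent.Helper40.SF.hCNB aCNA aBEX aLPL aFLW
theorem aRCK : StRCK := _root_.Pool.Agent.Helper2.SF.hRCK aBEX aFLW
theorem aWNL : StWNL := _root_.Pool.Agent.Helper63.SF.hWNL aOMB aEXW aSMW aCNB aLPL aARQ aLCQ Pool.Agent.Helper13.TR.aRAY Pool.Agent.Helper13.TW.aLIN Pool.Agent.Helper13.TW.aARB Pool.Agent.Helper13.TR.aPSH Pool.Agent.Helper13.TR.aMON aFLW Pool.Agent.Helper13.TR.aSDA Pool.Agent.Helper13.TR.aCON
theorem aWNX : StWNX := _root_.Pool.Agent.Helper15.SF.hWNX aRCK aWNL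
theorem aBX1 : StBX1 := _root_.Pool.Agent.Helper77.SF.hBX1 aOP3 Pool.Agent.Helper13.TR.aOPN Pool.Agent.Helper13.TR.aPSH
theorem aSBX : StSBX := _root_.Pool.Agent.Helper13.SF.hSBX aOP3 Pool.Agent.Helper13.TR.aOPN Pool.Agent.Helper13.TR.aPSH aLPL aUPC aNIS aBEX aFLW
theorem aEXT : StEXT := _root_.Pool.Agent.Helper62.SF.hEXT Pool.Agent.Helper13.TW.aBF Pool.Agent.Helper13.TW.aMD2 Pool.Agent.Helper13.TW.aMD3
theorem aGLU : StGLU := _root_.Pool.Agent.Helper36.SF.hGLU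
theorem aPCN : StPCN := _root_.Pool.Agent.Helper6.SF.hPCN
theorem aTRM : StTRM := _root_.Pool.Agent.Helper10.SF.hTRM Pool.Agent.Helper13.TW.aARX Pool.Agent.Helper13.TW.aARB
theorem aKAP : StKAP := _root_.Pool.Agent.Helper86.SF.hKAP Pool.Agent.Helper13.TW.aARB
theorem aEND : StEND := _root_.Pool.Agent.Helper92.SF.hEND
theorem aTGD : StTGD := _root_.Pool.Agent.Helper33.SF.hTGD Pool.Agent.Helper13.TW.aARB Pool.Agent.Helper13.TW.aUAR Pool.Agent.Helper13.TW.aMD2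
theorem aJS2 : StJS2 := _root_.Pool.Agent.Helper81.SF.hJS2
theorem aSEA : StSEA := _root_.Pool.Agent.Helper47.SF.hSEA
theorem aSEB : StSEB := _root_.Pool.Agent.Helper36.SF.hSEB aSEA
theorem aALX : StALX := _root_.Pool.Agent.Helper84.SF.hALX
theorem aSEC : StSEC := _root_.Pool.Agent.Helper22.SF.hSEC aSEB aALX
theorem aCHT : StCHT := _root_.Pool.Agent.Helper51.SF.hCHT
theorem aLFT : StLFT := _root_.Pool.Agent.Helper8.SF.hLFT aOMB aSMW aHTF aCNB aLPL aBEX Pool.Agent.Helper13.TW.aSDM Pool.Agent.Helper13.TR.aJOI Pool.Agent.Helper13.TR.aPSH Pool.Agent.Helper13.TR.aMON Pool.Agent.Helper13.TR.aCON Pool.Agent.Helper13.TR.aSDA aFLW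
theorem aCLK : StCLK := _root_.Pool.Agent.Helper25.SF.hCLK
theorem aWD : StWD := _root_.Pool.Agent.Helper58.SFP.hWD aWIN Pool.Agent.Helper13.TW.aAC1 Pool.Agent.Helper13.TW.aARB Pool.Agent.Helper13.TW.aSCL Pool.Agent.Helper13.TR.aMON Pool.Agent.Helper13.TR.aSDA
theorem aTWO : StTWO := _root_.Pool.Agent.Helper58.SFP.hTWO aARN aWIN aWD Pool.Agent.Helper13.TW.aSCL Pool.Agent.Helper13.TW.aAC1 Pool.Agent.Helper13.TR.aMON
theorem aCLS : StCLS := _root_.Pool.Agent.Helper58.SFP.hCLS aTWO aARN Pool.Agent.Helper13.TW.aSCL Pool.Agent.Helper13.TW.aARB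
theorem aTHE : StTHE := _root_.Pool.Agent.Helper58.SFP.hTHE aTWO aCLS aWIN aWD Pool.Agent.Helper13.TW.aARB Pool.Agent.Helper13.TW.aSCL Pool.Agent.Helper13.TW.aAC1
theorem aULC : StULC := _root_.Pool.Agent.Helper58.SFP.hULC aTWO aCLS Pool.Agent.Helper13.TW.aSCL Pool.Agent.Helper13.TW.aLIN
theorem aACC : StACC := _root_.Pool.Agent.Helper58.SFP.hACC aULC Pool.Agent.Helper13.TW.aINF Pool.Agent.Helper13.TW.aARX aTWO aCLS
theorem aSMC : StSMC := _root_.Pool.Agent.Helper58.SFP.hSMC aTWO Pool.Agent.Helper13.TW.aUAR aWD Pool.Agent.Helper13.TW.aSCL Pool.Agent.Helper13.TW.aARB aTHE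
theorem aSIM : StSIM := _root_.Pool.Agent.Helper58.SFP.hSIM Pool.Agent.Helper13.TW.aARB aWIN Pool.Agent.Helper13.TW.aAC1 aWD Pool.Agent.Helper13.TR.aMON Pool.Agent.Helper13.TR.aSDA
theorem aSCD : StSCD := _root_.Pool.Agent.Helper58.SFP.hSCD aCHN aSIM aWIN Pool.Agent.Helper13.TR.aMON
theorem aSCE : StSCE := _root_.Pool.Agent.Helper58.SFP.hSCE aSCD aWD Pool.Agent.Helper13.TR.aCON Pool.Agent.Helper13.TR.aMON
theorem aCMP : StCMP := _root_.Pool.Agent.Helper58.SFP.hCMP Pool.Agent.Helper13.TW.aARB Pool.Agent.Helper13.TW.aSCL aTWO aCLS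
theorem aJIN : StJIN := _root_.Pool.Agent.Helper58.SFP.hJIN aCMP aTWO aCLS aTHE Pool.Agent.Helper13.TW.aLIN Pool.Agent.Helper13.TW.aSCL Pool.Agent.Helper13.TW.aARB
theorem aPRE : StPRE := _root_.Pool.Agent.Helper58.SFP.hPRE aARN Pool.Agent.Helper13.TW.aARB Pool.Agent.Helper13.TW.aSCL Pool.Agent.Helper13.TW.aARX aTWO aCLS
theorem aS3A : StS3A := _root_.Pool.Agent.Helper58.SFP.hS3A aPRE aCMP aJIN aSMC aTHE aTWO aCLS Pool.Agent.Helper13.TW.aSCL Pool.Agent.Helper13.TW.aARB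
theorem aS3B : StS3B := _root_.Pool.Agent.Helper58.SFP.hS3B aS3A aSCE aTHE aTWO aCLS
theorem aCSS : StCSS := _root_.Pool.Agent.Helper58.SFP.hCSS aTWO aTHE aACC aS3B Pool.Agent.Helper13.TW.aSCL Pool.Agent.Helper13.TW.aARB
theorem aXCA : StXCA := _root_.Pool.Agent.Helper66.SF.hXCA aEND aCSS Pool.Agent.Helper13.TW.aBF Pool.Agent.Helper13.TW.aMD2 Pool.Agent.Helper13.TW.aMD3 aTWO
theorem aXCB : StXCB := _root_.Pool.Agent.Helper69.SF.hXCB aXCA aTGD aTRM aKAP Pool.Agent.Helper13.TW.aARB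
theorem aMRK : StMRK := _root_.Pool.Agent.Helper84.SF.hMRK aTHE aTWO Pool.Agent.Helper13.TW.aMD2 Pool.Agent.Helper13.TW.aARB
theorem aIDN : StIDN := _root_.Pool.Agent.Helper72.SF.hIDN aXCB aMRK aJS2 Pool.Agent.Helper13.TW.aLRC aTHE aCSS Pool.Agent.Helper13.TW.aMD2 Pool.Agent.Helper13.TW.aMD3
theorem aNHF : StNHF := _root_.Pool.Agent.Helper71.SF.hNHF aIDN aEXT aGLU aPCN aCSS Pool.Agent.Helper13.TW.aMD2 Pool.Agent.Helper13.TW.aMD3 aTWO
theorem aINS : StINS := _root_.Pool.Agent.Helper58.SF.hINS aWD Pool.Agent.Helper13.TR.aPSH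
theorem aCRV : StCRV := _root_.Pool.Agent.Helper10.SF.hCRV aLFT aEXW aSMW aHTF aCNB aLPL aBEX aWNX aINS aSCD aTWO aWD Pool.Agent.Helper13.TW.aAC1 Pool.Agent.Helper13.TW.aARB Pool.Agent.Helper13.TW.aSCL Pool.Agent.Helper13.TR.aPSH Pool.Agent.Helper13.TR.aMON Pool.Agent.Helper13.TR.aCON Pool.Agent.Helper13.TR.aSDA aFLW
theorem aFAA : StFAA := _root_.Pool.Agent.Helper71.SF.hFAA aWNX aINS aHTF aOMB aBEX Pool.Agent.Helper13.TR.aMON aFLW Pool.Agent.Helper13.TR.aPSH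
theorem aFAB : StFAB := _root_.Pool.Agent.Helper7.SF.hFAB aFAA aTWO aOMB aHTF aBEX Pool.Agent.Helper13.TR.aPSH Pool.Agent.Helper13.TR.aMON aFLW
theorem aFAC : StFAC := _root_.Pool.Agent.Helper60.SF.hFAC aFAB aCNA aBEX aFLW
theorem aFAD : StFAD := _root_.Pool.Agent.Helper72.SF.hFAD aFAA aFAB aFAC aNHF aEXT aCSS Pool.Agent.Helper13.TW.aBF Pool.Agent.Helper13.TW.aMD2 Pool.Agent.Helper13.TW.aMD3 aTWO
theorem aFNP : StFNP := _root_.Pool.Agent.Helper17.SF.hFNP aCRV aFAB aFAD aSEC aCHT aFLW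
theorem aFIN : StFIN := _root_.Pool.Agent.Helper42.SF.hFIN aBX1 aSBX aFNP

end Pool.Agent.Helper58.SF
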