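import Pool.Agent.Helper13.TW.StF
import Pool.Agent.Helper13.TR.MainDefs

/-!
# Project SF (MP_a45945_gt, homology 3-manifolds with local semiflows): definitions

Part 1: boxes (local semiflows with a clock), oriented homology 3-manifolds, winding numbers about
trajectories.  Part 2: the winding number interface `WN` for surfaces; simple closed curves, cells.
The names of part 2 are those of `Pool/Agent/Helper13/TW/Defs.lean`, with `ω : Ch S 1 → S → ℤ` (the
winding number of a 1-cycle about a point) instead of `ω : S → Ch S 2 → ℤ`.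
-/

set_option autoImplicit false

namespace Pool.Agent.Helper58.SF

open Set Topology Pool.Agent.Helper13.TR
open Pool.Agent.Helper13.TW (IsArc Spl IsSCC dch Chn Splt GT CSy MP Val LR MCell)

/-! ## Part 2: the interface -/

section hom

variable {X : Type} [TopologicalSpace X]

/-- The winding number of the 1-cycle `z` about `x`. -/
def W (ω : Ch X 1 → X → ℤ) (z : Ch X 1) (x : X) : ℤ := ω z x

/-- The winding number about `x` of the closed curve: `D₁` from `p` to `q`, back along `D₂`. -/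
noncomputable def wd (ω : Ch X 1 → X → ℤ) (D₁ D₂ : Set X) (p q x : X) : ℤ :=
  W ω (dch D₁ p q - dch D₂ p q) x

/-- the interior of a simple closed curve -/
def Ins (ω : Ch X 1 → X → ℤ) (J : Set X) : Set X :=
  {x | x ∉ J ∧ ∃ p q D₁ D₂, Spl J p q D₁ D₂ ∧ wd ω D₁ D₂ p q x ≠ 0}

/-- the closed interior -/
def cl (ω : Ch X 1 → X → ℤ) (J : Set X) : Set X := J ∪ Ins ω J

/-- the exterior of a simple closed curve -/
def Out (ω : Ch X 1 → X → ℤ) (J : Set X) : Set X := (cl ω J)ᶜ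

/-- The winding number interface: `ω z x` is defined (meaningful) for 1-cycles `z` in the open set `V`
and points `x` of `S` not on `z`. -/
structure WN (S : Type) [TopologicalSpace S] (ω : Ch S 1 → S → ℤ) (V : Set S) : Prop where
  nc : ¬ CompactSpace S
  op : IsOpen V
  add : ∀ z ∈ cin V 1, ∀ z' ∈ cin V 1, bd 0 z = 0 → bd 0 z' = 0 → ∀ x : S, z ∈ cin {x}ᶜ 1 →
    z' ∈ cin {x}ᶜ 1 → ω (z + z') x = ω z x + ω z' x
  loc : ∀ z ∈ cin V 1, bd 0 z = 0 → ∀ O : Set S, IsOpen O → z ∈ cin Oᶜ 1 → ∀ x y : S,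
    JoinedIn O x y → ω z x = ω z y
  cpt : ∀ z ∈ cin V 1, bd 0 z = 0 → ∃ Q : Set S, IsCompact Q ∧ ∀ x ∉ Q, ω z x = 0
  bnd : ∀ (e : Ch S 2) (Q : Set S), e ∈ cin Q 2 → bd 1 e ∈ cin V 1 → ∀ x ∉ Q, ω (bd 1 e) x = 0
  sml : ∀ (x : S) (U : Set S), IsOpen U → x ∈ U → ∃ V' : Set S, IsOpen V' ∧ x ∈ V' ∧ V' ⊆ U ∧
    ∀ z ∈ cin (V' ∩ V) 1, bd 0 z = 0 → ∀ y ∉ U, ω z y = 0
  one : ∀ a ∈ V, ∀ O : Set S, IsOpen O → a ∈ O → ∃ z ∈ cin (O ∩ V) 1, bd 0 z = 0 ∧ z ∈ cin {a}ᶜ 1 ∧
    ω z a ≠ 0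
  arn : ∀ D : Set S, ((∃ p q, IsArc D p q) ∨ ∃ p, D = {p}) → IsPathConnected Dᶜ
  lco : ∀ V₁ : Set S, IsOpen V₁ → ∀ ψ : ℝ → ↥V₁, IsClosedEmbedding ψ →
    ∀ T : Set ↥V₁, (∀ a b : ↥V₁, JoinedIn (range ψ)ᶜ a b → (a ∈ T ↔ b ∈ T)) →
      (∃ a b : ↥V₁, a ∉ range ψ ∧ b ∉ range ψ ∧ a ∈ T ∧ b ∉ T ∧ Joined a b) →
      ∀ x y : ↥V₁, x ∉ range ψ → y ∉ range ψ → Joined x y → (x ∈ T ↔ y ∈ T) → JoinedIn (range ψ)ᶜ x y

/-- simple closed curve in `V` with points inside -/
def Ess (ω : Ch X 1 → X → ℤ) (V J : Set X) : Prop := IsSCC J ∧ J ⊆ V ∧ (Ins ω J).Nonempty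

/-- ... and the interior is contained in `V` -/
def Cel (ω : Ch X 1 → X → ℤ) (V J : Set X) : Prop := Ess ω V J ∧ Ins ω J ⊆ V

/-- `P` is a crosscut of `J` from `p` to `q` -/
def Crs (ω : Ch X 1 → X → ℤ) (J : Set X) (p q : X) (P : Set X) : Prop :=
  IsArc P p q ∧ P ∩ J = {p, q} ∧ P \ {p, q} ⊆ Ins ω J

/-- finite subdivisions of the cell bounded by `J`, by successive crosscuts, such that all cells of the
subdivision have the property `Φ` -/
inductive GS (ω : Ch X 1 → X → ℤ) (Φ : Set X → Prop) : Set X → Prop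
  | leaf (J : Set X) : Φ J → GS ω Φ J
  | node (J : Set X) (p q : X) (D₁ D₂ P : Set X) : Spl J p q D₁ D₂ → Crs ω J p q P →
      GS ω Φ (D₁ ∪ P) → GS ω Φ (D₂ ∪ P) → GS ω Φ J

end hom

section chains

variable {S : Type} [MetricSpace S]

/-- the winding number of the closed chain about `a` -/
noncomputable def wch (ω : Ch S 1 → S → ℤ) (n : ℕ) (x : ℕ → S) (α : ℕ → Set S) (a : S) : ℤ :=
  W ω (∑ i ∈ Finset.range n, dch (α i) (x i) (x (i + 1))) a

/-- 1-cycles in sets `C ⊆ Q` of diameter `< 4 ρ` have winding number zero about `a` -/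
def Tame (ω : Ch S 1 → S → ℤ) (Q : Set S) (a : S) (ρ : ℝ) : Prop :=
  ∀ C : Set S, C ⊆ Q → Metric.diam C < 4 * ρ → ∀ u ∈ cin C 1, bd 0 u = 0 → W ω u a = 0

end chains

/-! ## Part 1: boxes -/

/-- A local semiflow, parametrized by the level of a clock `r` with values in `(0, 1)`: `R t y` is the
point where the trajectory of `y` reaches the level `t` (going down), `R t y = y` if `r y ≤ t`. -/
structure Flow (P : Type) [TopologicalSpace P] (r : P → ℝ) (R : ℝ → P → P) : Prop where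
  rc : Continuous r
  pos : ∀ y, 0 < r y
  lt : ∀ y, r y < 1
  Rc : ContinuousOn (fun p : ℝ × P => R p.1 p.2) {p | 0 < p.1}
  rR : ∀ (t : ℝ) (y : P), 0 < t → r (R t y) = min t (r y)
  Rid : ∀ (t : ℝ) (y : P), r y ≤ t → R t y = y
  RR : ∀ (s t : ℝ) (y : P), 0 < s → s ≤ t → R s (R t y) = R s y

/-- A box: moreover the part of the space above a compact subset of a level, up to a level `< 1`, is
compact. -/
structure Box (P : Type) [TopologicalSpace P] (r : P → ℝ) (R : ℝ → P → P) : Prop extends Flow P r R where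
  cpt : ∀ (t t' : ℝ) (C : Set P), 0 < t → t ≤ t' → t' < 1 → IsCompact C → (∀ y ∈ C, r y = t) →
    IsCompact {y : P | t ≤ r y ∧ r y ≤ t' ∧ R t y ∈ C}

section sets

variable {P : Type}

/-- the points above the subset `A` of the level `t` -/
def UpS (r : P → ℝ) (R : ℝ → P → P) (t : ℝ) (A : Set P) : Set P := {y | t ≤ r y ∧ R t y ∈ A}

/-- the points above `x` -/
def Up (r : P → ℝ) (R : ℝ → P → P) (x : P) : Set P := {y | r x ≤ r y ∧ R (r x) y = x}

/-- the trajectory of `x` -/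
def Dn (r : P → ℝ) (R : ℝ → P → P) (x : P) : Set P := {y | r y ≤ r x ∧ R (r y) x = y}

/-- the line through `x` -/
def Ln (r : P → ℝ) (R : ℝ → P → P) (x : P) : Set P := Up r R x ∪ Dn r R x

end sets

/-- Oriented homology 3-manifold: `dg x : H_3(P, P ∖ {x}) → ℤ` isomorphisms, locally constant in `x`,
with fundamental classes of the compact sets. -/
structure WS3 (P : Type) [TopologicalSpace P] (dg : P → Ch P 3 → ℤ) : Prop where
  add : ∀ x : P, ∀ e ∈ Cyc {x} 3, ∀ e' ∈ Cyc {x} 3, dg x (e + e') = dg x e + dg x e'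
  nul : ∀ x : P, ∀ e ∈ Nul {x} 3, dg x e = 0
  ker : ∀ x : P, ∀ e ∈ Cyc {x} 3, dg x e = 0 → e ∈ Nul {x} 3
  loc : ∀ (e : Ch P 3) (O : Set P), IsOpen O → bd 2 e ∈ cin Oᶜ 2 → ∀ x y : P, JoinedIn O x y →
    dg x e = dg y e
  cls : ∀ F : Set P, IsCompact F → ∃ c ∈ Cyc F 3, ∀ z ∈ F, dg z c = 1

/-- The winding number of the 1-cycle `z` (a boundary in `P`) about the line `U x ∪ D x`. -/
noncomputable def Wd {P : Type} [TopologicalSpace P] (U D : P → Set P) (dg : P → Ch P 3 → ℤ)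
    (z : Ch P 1) (x : P) : ℤ := by
  classical
  exact if h : ∃ τ : Ch P 3, ∃ e : Ch P 2, bd 1 e = z ∧ MVR (U x) (D x) 2 τ e
    then dg x (Classical.choose h) else 0

/-- A semigood box. -/
structure SB (P : Type) [TopologicalSpace P] (r : P → ℝ) (R : ℝ → P → P) (dg : P → Ch P 3 → ℤ) : Prop where
  met : TopologicalSpace.MetrizableSpace P
  lco : LocallyCompactSpace P
  lpc : LocallyPathConnectedSpace P
  box : Box P r R
  hm : HM P
  ws : WS3 P dg
  lh : LH1 P

/-- A good box: moreover it is path connected and its levels are not compact. -/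
structure GB (P : Type) [TopologicalSpace P] (r : P → ℝ) (R : ℝ → P → P) (dg : P → Ch P 3 → ℤ) : Prop
    extends SB P r R dg where
  pc : PathConnectedSpace P
  nc : ∀ t : ℝ, 0 < t → t < 1 → ¬ IsCompact {y : P | r y = t}

/-- the winding numbers of the 1-cycles of the surface `S` (a subset of `P`) about its points -/
noncomputable def wS {P : Type} [TopologicalSpace P] (r : P → ℝ) (R : ℝ → P → P) (dg : P → Ch P 3 → ℤ) (S : Set P)
    (z : Ch ↥S 1) (x : ↥S) : ℤ :=
  Wd (Up r R) (Dn r R) dg (push ⟨Subtype.val, continuous_subtype_val⟩ 1 z) (x : P)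

end Pool.Agent.Helper58.SF
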