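import Pool.Agent.Helper58.SF.StP

/-! # Project SF, modules SCD, SCE -/

set_option autoImplicit false

namespace Pool.Agent.Helper58.SFP

open Set Topology Pool.Agent.Helper13.TR Pool.Agent.Helper58.SF
open Pool.Agent.Helper13.TW (IsArc Spl IsSCC dch Chn Splt GT CSy MP Val LR MCell StARB StARX StSCL StUAR StINF StLIN StAC1 StSDM)

theorem hSCD (hCHN : StCHN) (hSIM : StSIM) (hWIN : StWIN) (hMON : StMON) : StSCD := by
  intro S _ _ _ ω V hG Q a hQ hQV haQ z hz hbz hWz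
  obtain ⟨mon, mcap, muniv, mbd, -, -⟩ := hMON S
  obtain ⟨-, -, -, -, win5⟩ := hWIN S ω V hG
  have hac : IsOpen ({a}ᶜ : Set S) := isOpen_compl_singleton
  have hV : ∀ y : Q, ∃ V' : Set S, IsOpen V' ∧ (y : S) ∈ V' ∧ V' ⊆ {a}ᶜ ∧
      ∀ z ∈ cin (V' ∩ V) 1, bd 0 z = 0 → ∀ x ∉ ({a}ᶜ : Set S), ω z x = 0 :=
    fun y => hG.sml y {a}ᶜ hac (fun h => haQ (by
      rw [mem_singleton_iff] at h; rw [← h]; exact y.2))
  choose V' hV1 hV2 _ hV4 using hV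
  obtain ⟨δ, hδ, hleb⟩ := lebesgue_number_lemma_of_metric hQ hV1
    (fun y hy => mem_iUnion.2 ⟨⟨y, hy⟩, hV2 ⟨y, hy⟩⟩)
  have hT : Tame ω Q a (δ / 4) := by
    intro C hC hd u hu hu0
    rcases C.eq_empty_or_nonempty with rfl | ⟨x, hx⟩
    · have hu' : u = 0 := by
        have h := (Finsupp.mem_supported ℤ u).1 hu
        by_contra hne
        obtain ⟨σ, hσ⟩ := Finsupp.support_nonempty_iff.2 hne
        have h2 : range σ ⊆ (∅ : Set S) := h hσ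
        exact h2 ⟨stdSimplex.vertex 0, rfl⟩
      have := win5 0 ({a}ᶜ) (Submodule.zero_mem _) (by rw [map_zero]; exact Submodule.zero_mem _) a (by simp)
      rwa [map_zero, ← hu'] at this
    · obtain ⟨y, hy⟩ := hleb x (hC hx)
      have hCV : C ⊆ V' y := by
        intro c hc
        apply hy
        rw [Metric.mem_ball]
        have := Metric.dist_le_diam_of_mem (hQ.isBounded.subset hC) hc hx
        linarith
      exact hV4 y u (mon _ _ _ (subset_inter hCV (hC.trans hQV)) hu) hu0 a (by simp)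
  obtain ⟨n, x, α, hn1, hch, hw⟩ := hCHN S ω V hG Q a (δ / 4) hQ hQV haQ (by positivity) hT
    z hz hbz hWz
  exact hSIM S ω V hG Q a (δ / 4) hQ hQV haQ (by positivity) hT n x α hn1 hch hw

theorem hSCE (hSCD : StSCD) (hWD : StWD) (hCON : StCON) (hMON : StMON) : StSCE := by
  intro S _ _ _ ω V hG a haV O hO haO
  obtain ⟨mon, mcap, muniv, mbd, -, -⟩ := hMON S
  obtain ⟨-, -, -, wd4⟩ := hWD S ω V hG
  obtain ⟨O₁, hO₁, haO₁, hO₁O, hb⟩ := hG.sml a (O ∩ V) (hO.inter hG.op) ⟨haO, haV⟩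
  obtain ⟨z, hz, hz0, hza, hwz⟩ := hG.one a haV O₁ hO₁ haO₁
  obtain ⟨Q, hQ, hzQ, hQmin⟩ := hCON.2 S 1 z
  have hQO : Q ⊆ O₁ ∩ V := hQmin _ hz
  have haQ : a ∉ Q := fun h => hQmin _ hza h rfl
  have hQV : Q ⊆ V := fun x hx => (hQO hx).2
  obtain ⟨J, hJQ, hJ, haJ⟩ := hSCD S ω V hG Q a hQ hQV haQ z hzQ hz0 hwz
  have hJV : J ⊆ V := hJQ.trans hQV
  have hins : Ins ω J ⊆ O ∩ V := wd4 J O₁ (O ∩ V) hJ hJV (fun y hy => (hQO (hJQ hy)).1) hb
  refine ⟨J, ⟨⟨hJ, hJV, ⟨a, haJ⟩⟩, fun y hy => (hins hy).2⟩, haJ, ?_⟩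
  exact union_subset (fun y hy => (hO₁O (hQO (hJQ hy)).1).1) (fun y hy => (hins hy).1)

end Pool.Agent.Helper58.SFP
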