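import Pool.Agent.Helper58.SF.All

/-!
# Project SF: the final theorem
-/

set_option autoImplicit false

namespace Pool.Agent.Helper58.SF

open Set Topology Pool.Agent.Helper13.TR

theorem eucl_of {T : Type} [TopologicalSpace T] (f : T → ℝ × ℝ × ℝ) (hf : IsOpenEmbedding f) :
    ∃ g : T → EuclideanSpace ℝ (Fin 3), IsOpenEmbedding g := by
  let e : (ℝ × ℝ × ℝ) ≃ₜ EuclideanSpace ℝ (Fin 3) :=
    { toFun := fun p => (WithLp.toLp 2 ![p.1, p.2.1, p.2.2] : EuclideanSpace ℝ (Fin 3))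
      invFun := fun v => (v 0, v 1, v 2)
      left_inv := fun p => by simp
      right_inv := fun v => by
        ext i
        fin_cases i <;> simp
      continuous_toFun := by
        refine (PiLp.continuous_toLp 2 _).comp ?_
        refine continuous_pi fun i => ?_
        fin_cases i <;> simp <;> fun_prop
      continuous_invFun := by fun_prop }
  exact ⟨fun w => e (f w), e.isOpenEmbedding.comp hf⟩

/-- a point moved by a local semiflow has a Euclidean neighbourhood -/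
theorem main_local (X : Type) [TopologicalSpace X] [TopologicalSpace.MetrizableSpace X]
    [LocallyCompactSpace X] (hlc : LocContr X) (hm : IsHomology3Manifold X) (ho : LocallyOrientable X)
    (x : X) (N : Set X) (ε : ℝ) (Φ : ℝ → X → X) (hN : IsOpen N) (hx : x ∈ N) (hε : 0 < ε)
    (hc : ContinuousOn (fun p : ℝ × X => Φ p.1 p.2) (Icc 0 ε ×ˢ N)) (h0 : ∀ y ∈ N, Φ 0 y = y)
    (hs : ∀ y ∈ N, ∀ s s' : ℝ, 0 ≤ s → 0 ≤ s' → s + s' ≤ ε → Φ s' y ∈ N → Φ (s + s') y = Φ s (Φ s' y))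
    (hne : ∃ s : ℝ, 0 ≤ s ∧ s ≤ ε ∧ Φ s x ≠ x) :
    ∃ U : Set X, IsOpen U ∧ x ∈ U ∧ ∃ f : ↥U → EuclideanSpace ℝ (Fin 3), IsOpenEmbedding f := by
  have hM : HM X := hm_of hm ho
  obtain ⟨hL, hH⟩ := Pool.Agent.Helper13.TR.aLCP X hlc
  obtain ⟨N₂, ε₂, rr, Ψ, hN₂, hx₂, hε₂, hrr, hcΨ, h0Ψ, hsΨ, hrs⟩ :=
    aCLK X x N ε Φ hN hx hε hc h0 hs hne
  obtain ⟨U, hU, hxU, f, hf⟩ := aFIN X hM hH x N₂ ε₂ rr Ψ hN₂ hx₂ hε₂ hrr hcΨ h0Ψ hsΨ hrs
  exact ⟨U, hU, hxU, eucl_of f hf⟩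

theorem main (X : Type) [TopologicalSpace X] [TopologicalSpace.MetrizableSpace X]
    (h : ∀ x : X, ∃ U : Set X, IsOpen U ∧ x ∈ U ∧ ∃ f : ↥U → EuclideanSpace ℝ (Fin 3), IsOpenEmbedding f) :
    Resolvable X := by
  have h3 : IsTopManifold 3 X := h
  exact resolvable_of 3 h3

end Pool.Agent.Helper58.SF
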