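import Pool.Agent.Helper58.SF.Defs

/-!
# Project SF, part 1a: boxes (statements)

`SB P r R dg`: metrizable, locally compact, locally path connected homology 3-manifold `P` with orientation `dg`, and a box `r, R` (local semiflow `R`, clock `r` with values in `(0,1)`).
In the proofs `S_t = {r = t}`, `U x = Up r R x`, `D x = Dn r R x`, `L x = Ln r R x = U x ∪ D x`, `R_t = R t`.  Library statements: `Pool/Agent/Helper13/TR/St*.lean`, `Pool/Agent/Helper13/TW/St*.lean`.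
-/

set_option autoImplicit false

namespace Pool.Agent.Helper58.SF

open Set Topology Pool.Agent.Helper13.TR
open Pool.Agent.Helper13.TW (IsArc Spl IsSCC dch Chn Splt GT CSy MP Val LR MCell StARB StARX StSCL StUAR StINF StLIN StAC1 StSDM)

/-- FLW.  Elementary facts.
PROOF.  (1) `Rc` composed with `y ↦ (t, y)`.  (2) closed conditions.  (3) `U x = {r x ≤ r y} ∩ {R (r x) y = x}` (T2), `D x = {r y ≤ r x} ∩ {R (r y) x = y}` (`y ↦ R (r y) x` is continuous because `r y > 0`, by `Rc`).  `y ∈ U x ∩ D x`: `r y = r x`, `y = R (r y) x = R (r x) x = x`.  (4) path `u ↦ R ((1 - u) 1 + u s) y`: at `u = 0`: `R 1 y = y` by `Rid` (`r y < 1`), levels `≥ s` if `s ≤ 1`; if `s > 1`: `R s y = y`, constant path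
(`y = R s y`).  (5) `z ∈ U y`: `R_(r x) z = R_(r x) (R_(r y) z) = R_(r x) y = x`.  `z ∈ D y`: if `r z ≥ r x`: `R_(r x) z = R_(r x) (R_(r z) y) = R_(r x) y = x`, so `z ∈ U x`; if `r z < r x`: `R_(r z) x = R_(r z) (R_(r x) y) = R_(r z) y = z`, so `z ∈ D x`.  (6) if `r x ≤ r y` the right side says `x = R_(r x) x = R_(r x) y`; if `r y ≤ r x` it says `R_(r y) x = y`.
(7) `{(x, y) | y ∈ U x}` is closed in `P × P` (`(x, y) ↦ R (r x) y` is continuous, `r x > 0`), and the projection along the compact set `K` is closed; same for `D`.  (8) `r (R_s x) = s`, `R_s (R_s x) = R_s x`. -/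
def StFLW : Prop := ∀ (P : Type) [TopologicalSpace P] [T2Space P] (r : P → ℝ) (R : ℝ → P → P), Flow P r R →
  (∀ t : ℝ, 0 < t → Continuous (R t)) ∧
  (∀ (t : ℝ) (A : Set P), 0 < t → IsClosed A → IsClosed (UpS r R t A)) ∧
  (∀ x : P, IsClosed (Up r R x) ∧ IsClosed (Dn r R x) ∧ IsClosed (Ln r R x) ∧ Up r R x ∩ Dn r R x = {x} ∧ Up r R x = UpS r R (r x) {x} ∧ x ∈ Up r R x ∧ x ∈ Dn r R x) ∧
  (∀ (s : ℝ) (y : P), 0 < s → JoinedIn {z | ∃ σ : ℝ, s ≤ σ ∧ z = R σ y} y (R s y)) ∧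
  (∀ x y : P, y ∈ Up r R x → Ln r R y ⊆ Ln r R x) ∧
  (∀ x y : P, y ∈ Ln r R x ↔ R (min (r x) (r y)) x = R (min (r x) (r y)) y) ∧
  (∀ (x : P) (K : Set P), IsCompact K →
    (Disjoint (Up r R x) K → ∃ O : Set P, IsOpen O ∧ x ∈ O ∧ ∀ x' ∈ O, Disjoint (Up r R x') K) ∧
    (Disjoint (Dn r R x) K → ∃ O : Set P, IsOpen O ∧ x ∈ O ∧ ∀ x' ∈ O, Disjoint (Dn r R x') K)) ∧
  (∀ (s : ℝ) (x : P), 0 < s → s ≤ r x → R s x ∈ Dn r R x ∧ x ∈ Up r R (R s x) ∧ r (R s x) = s)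

/-- TUB.  The sets above a set are homologically invisible.  Uses `StPRI`, `StMON`, `StFLW`.
PROOF.  `A' = UpS r R t A`.  `f = id`, `g = R (t/2)`, `H (u, y) = R ((1 - u) 1 + u (t/2)) y` (`R 1 y = y` as `r y < 1`).  `A'ᶜ` is preserved: let `y ∉ A'`, `τ = (1 - u) + u t/2 > 0`.  If `r y < t` then `r (R_τ y) < t`.  If `r y ≥ t`, `R_t y ∉ A`: for `τ ≥ t` `R_t (R_τ y) = R_t y ∉ A`; for `τ < t` `r (R_τ y) ≤ τ < t`.
PRI: for `c ∈ Cyc A' k`: `c = g c - bd (P c) - P (bd c)` (without the last term if `k = 0`); `g c ∈ cin A'ᶜ` as `r (R (t/2) y) ≤ t/2 < t`; `P (bd c) ∈ cin A'ᶜ` (carrier statement of PRI for `S = A'ᶜ`, and monotonicity).  So `c ∈ Nul A' k`. -/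
def StTUB : Prop := ∀ (P : Type) [TopologicalSpace P] [T2Space P] (r : P → ℝ) (R : ℝ → P → P), Flow P r R →
  ∀ (t : ℝ) (A : Set P) (k : ℕ), 0 < t → PP (UpS r R t A) k

/-- OP3.  Orientations: existence (local), restriction to open subsets.  Uses `StSM`, `StSDA`, `StPSH`, `StMON`, `StEXI`, `StCON`.
PROOF.  As `StWSX`, `StOPN2` (`Pool/Agent/Helper13/TW/StB.lean`, proofs `Pool/Agent/Helper34/TW/M_WSX.lean`, `Pool/Agent/Helper10/TW/M_OPN2.lean`), one degree higher; the new field is `cls`.  (1) `N`, `c` from `HM.ori`; for `U ⊆ N`, `i : U → X`: `dg y e` = the integer `m` with `i e - m c ∈ Nul {y} 3` (exists for `e ∈ Cyc {y} 3`, unique by `Gen`; `0` otherwise).  cls: `F ⊆ U` compact, `i F` compact so closed.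
SM for `c`, `O₁ = U`, `O₂ = (i F)ᶜ` (`bd c ∈ cin Nᶜ ⊆ cin O₂`): `c = c₁ + c₂ + bd e`, `c₁ = i c'`; `bd c₁ = bd c - bd c₂ ∈ cin (i F)ᶜ`, so `c' ∈ Cyc F 3` (PSH (6)); for `z ∈ F`: `i c' - c = - c₂ - bd e ∈ Nul {z}`, so `dg z c' = 1`.
(2) `i` maps `Cyc {y}`, `Nul {y}` of `U` to those of `P`; ker: EXI; loc: as in OPN2; cls: take `c ∈ Cyc (i F) 3` of `P` and cut it by SM as in (1). -/
def StOP3 : Prop :=
  (∀ (X : Type) [TopologicalSpace X] [T3Space X], HM X → ∀ x : X, ∃ N : Set X, IsOpen N ∧ x ∈ N ∧ ∀ U : Set X, IsOpen U → U ⊆ N →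
    ∃ dg : ↥U → Ch ↥U 3 → ℤ, WS3 ↥U dg) ∧
  (∀ (P : Type) [TopologicalSpace P] [T2Space P] (dg : P → Ch P 3 → ℤ) (U : Set P), WS3 P dg → IsOpen U →
    WS3 ↥U fun x e => dg x (push ⟨Subtype.val, continuous_subtype_val⟩ 3 e))

/-- DEG.  Degrees.  Uses `StMON`, `StCON`, `StSDA`.
PROOF.  (1) `dg x 0 = 0` (nul), additivity of `dg x` on the subgroup `Cyc {x} 3`.  (2) `cin {x}ᶜ 3 ⊆ Nul {x} 3` and `⊆ Cyc {x} 3` (MON (4)).  (3) `bd 2 e ∈ cin Fᶜ 2` has a compact carrier `Q ⊆ Fᶜ` (CON (2)); `O = Qᶜ` is open (T2), `F ⊆ O`; `loc`.  (4) `e ∈ Cyc F 3 ⊆ Nul F 3 ⊆ Nul {x} 3`, `nul`.  (5) as (3) with `F = {x}`, `O` = a path connected neighbourhood of `x` in `Qᶜ`. -/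
def StDEG : Prop := ∀ (P : Type) [TopologicalSpace P] [T2Space P] (dg : P → Ch P 3 → ℤ), WS3 P dg →
  (∀ x : P, dg x 0 = 0 ∧ (∀ e ∈ Cyc {x} 3, ∀ e' ∈ Cyc {x} 3, dg x (e - e') = dg x e - dg x e') ∧ ∀ (m : ℤ), ∀ e ∈ Cyc {x} 3, dg x (m • e) = m * dg x e) ∧
  (∀ x : P, ∀ e ∈ cin {x}ᶜ 3, e ∈ Cyc {x} 3 ∧ e ∈ Nul {x} 3 ∧ dg x e = 0) ∧
  (∀ (F : Set P), ∀ e ∈ Cyc F 3, ∀ x y : P, JoinedIn F x y → dg x e = dg y e) ∧
  (∀ (F : Set P), PP F 3 → ∀ e ∈ Cyc F 3, ∀ x ∈ F, dg x e = 0) ∧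
  (LocallyPathConnectedSpace P → ∀ x : P, ∀ e ∈ Cyc {x} 3, ∃ O : Set P, IsOpen O ∧ x ∈ O ∧ ∀ y ∈ O, dg y e = dg x e)

/-- BEX.  Trajectories can be continued backwards.  Uses `StTUB`, `StFLW`.
PROOF.  (1) Suppose no `y ∈ U x` has `r y = t'`.  Then `U x ⊆ {r < t'}` (if `r y > t'`, `R_t' y ∈ U x` has level `t'`).  So `U x = {y | r x ≤ r y ≤ t', R_(r x) y ∈ {x}}` is compact (`Box.cpt`).  WS3.cls: `c ∈ Cyc (U x) 3` with `dg x c = 1`; TUB: `c ∈ Nul (U x) 3 ⊆ Nul {x} 3` (`U x = UpS r R (r x) {x}`), `dg x c = 0`: contradiction.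
(2) Otherwise there are `y_n ∈ U x ∖ O` with `r x ≤ r y_n < r x + 1/n`; they are in the compact set `{y | r x ≤ r y ≤ t₁, R_(r x) y ∈ {x}}` (`r x < t₁ < 1`); a cluster point `y ∉ O` has `r y = r x`, so `y = R_(r x) y = x ∈ O`: contradiction.  (Or: the compact sets `{y | r x ≤ r y ≤ t', R_(r x) y = x} ∖ O` decrease to the empty set.) -/
def StBEX : Prop := ∀ (P : Type) [TopologicalSpace P] (r : P → ℝ) (R : ℝ → P → P) (dg : P → Ch P 3 → ℤ), SB P r R dg →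
  (∀ (x : P) (t' : ℝ), r x ≤ t' → t' < 1 → ∃ y ∈ Up r R x, r y = t') ∧
  (∀ (x : P) (O : Set P), IsOpen O → x ∈ O → ∃ η : ℝ, 0 < η ∧ ∀ y ∈ Up r R x, r y < r x + η → y ∈ O)

/-- LSP.  Local connectedness above a level.  Uses `StSM`, `StSDA`, `StPRI`, `StMON`, `StCON`, `StDEG`, `StFLW`.
PROOF.  `t = r x`.  For `s > 0` small (`s < t/4`) let `F_u y = R (max (r y - u s) (r y / 2)) y`, `0 ≤ u ≤ 1`: continuous in `(u, y)`, `F_0 = id`.  Choose open sets with compact closures `x ∈ N2`, `closure N2 ⊆ N1`, `closure N1 ⊆ N'`.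
(A) For small `s`: `F_u y ∈ closure N2` for some `u ∈ [0,1]` implies `y ∈ N1`.  [Let `t0 < r` on `closure N2`, `0 < t0`, `r ≤ t1 < t1' < 1` on `closure N2`.  `K = {y | t0 ≤ r y ≤ t1', R_t0 y ∈ R_t0 (closure N2)}` is compact (Box.cpt).  If `F_u y ∈ closure N2` and `s ≤ t1' - t1` (and `s` small such that `r y - u s ≥ r y / 2` for `r y ≥ t0`) then `r y ≤ t1'`, `R_t0 y = R_t0 (F_u y)`, so `y ∈ K`.  If (A) fails for all `s_n → 0`: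
`y_n ∈ K ∖ N1`, a cluster point `y ∈ K ∖ N1`, and `F_(u_n) y_n → y`, so `y ∈ closure N2 ⊆ N1`: contradiction.]  Fix `s`, with moreover `(t + s)/2 < t - s/2`.  `N''` = the path component of `x` in the open set `N2 ∩ {r > t - s/4}`, open.
Let `a, b ∈ N''`, `r a, r b > t`, `T` = the path component of `a` in `G = N' ∩ {r > t}`, `T' = G ∖ T`: both open.  Suppose `b ∉ T`, so `b ∈ T'`.  `δ > 0` with `δ ≤ s/4`, `t + δ ≤ r a, r b`.  `K1 = closure N1`, `c ∈ Cyc K1 3` with `dg = 1` on `K1` (cls).  `O = {r < t + δ} ∪ K1ᶜ`, open, `a, b ∉ O`.  `(T ∪ O) ∪ (T' ∪ O) = univ`.  SM: `c = c1 + c2 + bd e`, `c1 ∈ cin (T ∪ O)`, `c2 ∈ cin (T' ∪ O)`.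
`bd c1 = bd c - bd c2 ∈ cin (T ∪ O) ⊓ cin (T' ∪ O) = cin O` (as `bd c ∈ cin K1ᶜ`).  PRI for `F` (from `id` to `F_1`): `c1' = c1 + P (bd c1)`, `bd c1' = F_1 (bd c1)` (push).  Its carrier: for `y ∈ O`: if `r y < t + δ`: `r (F_1 y) = max (r y - s) (r y / 2) < t - s/4`; if `y ∉ K1`: `F_1 y ∉ N2` by (A).  So `bd c1' ∈ cin (N'')ᶜ`, and `dg a c1' = dg b c1'` (DEG (3): `N''` is path connected).
`P (bd c1) ∈ cin {F_u y | y ∈ O}`, not containing `a` (if `r y < t + δ` then `r (F_u y) < t + δ ≤ r a`; if `y ∉ K1`: (A), `a ∈ N2`), nor `b`: `dg a c1' = dg a c1`, `dg b c1' = dg b c1` (DEG (2), add).  `b ∉ T ∪ O`: `dg b c1 = 0`.  `a ∉ T' ∪ O`: `dg a c2 = 0`, `dg a c1 = dg a c = 1` (`bd e ∈ Nul`; all are in `Cyc {a} 3`).  Contradiction. -/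
def StLSP : Prop := ∀ (P : Type) [TopologicalSpace P] (r : P → ℝ) (R : ℝ → P → P) (dg : P → Ch P 3 → ℤ), SB P r R dg →
  ∀ (x : P) (N' : Set P), IsOpen N' → x ∈ N' → ∃ N'' : Set P, IsOpen N'' ∧ x ∈ N'' ∧ N'' ⊆ N' ∧
    ∀ a ∈ N'', ∀ b ∈ N'', r x < r a → r x < r b → JoinedIn (N' ∩ {y | r x < r y}) a b

/-- LPL.  Levels are locally path connected.  Uses `StLSP`, `StBEX`, `StFLW`.
PROOF.  `x ∈ S_t`, `O ∋ x` open in `P`.  `N' = {r < t} ∪ R_t⁻¹ O`, open, `x ∈ N'` (`R_t x = x`).  LSP: `N''`.  Claim: any `p, q ∈ N'' ∩ S_t` are joined in `O ∩ S_t`: BEX: `a ∈ U p ∩ N''`, `b ∈ U q ∩ N''` with levels slightly above `t`; a path from `a` to `b` in `N' ∩ {r > t}`; apply `R_t`: path from `p = R_t a` to `q` in `S_t`, and for `y ∈ N'`, `r y > t`: `R_t y ∈ O`.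
`N'' ∩ S_t ⊆ O` (`y ∈ N'`, `r y = t`: `y = R_t y ∈ O`).  So every neighbourhood of `x` in `S_t` contains a neighbourhood any two points of which are joined in it: path components of open subsets of `S_t` are open; `LocallyPathConnectedSpace`. -/
def StLPL : Prop := ∀ (P : Type) [TopologicalSpace P] (r : P → ℝ) (R : ℝ → P → P) (dg : P → Ch P 3 → ℤ), SB P r R dg →
  ∀ t : ℝ, 0 < t → t < 1 → LocallyPathConnectedSpace ↥{y : P | r y = t}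

/-- UPC.  The part above a path connected open set of a level.  Uses `StLSP`, `StBEX`, `StFLW`.
PROOF.  `V₁ = O ∩ S_t`, `U = {y | t < r y, R_t y ∈ V₁} = {r > t} ∩ R_t⁻¹ O`, open; nonempty by BEX.  For `p ∈ V₁` let `N' = {r < t} ∪ R_t⁻¹ O` and `N''_p` from LSP: any two points of `N''_p ∩ {r > t}` are joined in `N' ∩ {r > t} = U`.  (a) `a ∈ U`, `p = R_t a`: `a` is joined in `U` with `R_τ a` for all `τ ∈ (t, r a]` (FLW (4)), and `R_τ a → p` (`τ ↦ R τ a` is continuous), so `a` is joined in `U` to a point of `N''_p`.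
(b) `C(p)` = the set of points of `U` joined in `U` to the points of `N''_p ∩ {r > t}` (nonempty by BEX, all in one path component of `U`).  For `p' ∈ V₁ ∩ N''_p`: BEX: a point of `U p'` slightly above `t` is in `N''_p ∩ N''_p'`, so `C(p) = C(p')`.  So `p ↦ C(p)` is locally constant on the connected set `V₁`, constant.  With (a): any two points of `U` are joined in `U`. -/
def StUPC : Prop := ∀ (P : Type) [TopologicalSpace P] (r : P → ℝ) (R : ℝ → P → P) (dg : P → Ch P 3 → ℤ), SB P r R dg →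
  ∀ t : ℝ, 0 < t → t < 1 → ∀ V₁ : Set P, (∃ O : Set P, IsOpen O ∧ V₁ = O ∩ {y | r y = t}) → IsPathConnected V₁ →
    IsOpen {y : P | t < r y ∧ R t y ∈ V₁} ∧ IsPathConnected {y : P | t < r y ∧ R t y ∈ V₁}

/-- NIS.  Levels have no isolated points.  Uses `StBEX`, `StFLW`, `StJOI`, `StSDA`, `StMON`.
PROOF.  `t = r x`.  Suppose `O ∩ S_t = {x}`, `O` open.  `A = {y | t < r y, R_t y = x} = {r > t} ∩ R_t⁻¹ O` is open (for `r y > t` `R_t y ∈ S_t`).  `B = (U x)ᶜ` is open.  `A ∩ B = ∅`, `A ∪ B = {x}ᶜ` (if `t ≤ r y`, `R_t y = x` and not `t < r y` then `y = R_t y = x`).  `a ∈ A` by BEX; `b = R_(t/2) x ∈ B`; `a` and `b` are joined (`b = R_(t/2) a`).  Path chain `e` from `a` to `b` (JOI (1), `S = univ`), `e ∈ Cyc {x} 1`, `HM.low x 1`: `e = ρ + bd β`, `ρ ∈ cin {x}ᶜ 1`,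
`bd ρ = [b] - [a]`; `ev A (bd ρ) = 0` by JOI (2) (a path in `{x}ᶜ` does not leave `A`: connectedness), but `ev A ([b] - [a]) = -1`. -/
def StNIS : Prop := ∀ (P : Type) [TopologicalSpace P] (r : P → ℝ) (R : ℝ → P → P) (dg : P → Ch P 3 → ℤ), SB P r R dg →
  ∀ (x : P) (O : Set P), IsOpen O → O ∩ {y | r y = r x} ≠ {x}

/-- CY3.  `H_2` relative to the complement of a line is cyclic.  Uses `StRAY`, `StMV`, `StMON`, `StLIN`.
PROOF.  As `StCYC2` (`Pool/Agent/Helper29/TW/M_CYC2.lean`) one degree higher: `l = range ψ`, `h` with `h (ψ t) = t` (LIN (3)); `l⁺ = l ∩ {h ≥ 0}`, `l⁻ = l ∩ {h ≤ 0}`, `l⁺ ∩ l⁻ = {p₀}`, `p₀ = ψ 0`.  `PP l^± 2` by RAY (`± h`).  `g ∈ Cyc N 3 ⊆ Cyc {p₀} 3` with `Gen p₀ g` (`HM.ori`).  MV (2), `k = 2`: `g - g' ∈ Nul {p₀} 3`, `MVR l⁺ l⁻ 2 g' ε`, `ε ∈ Cyc l 2`.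
For `e ∈ Cyc l 2`: `e ∈ Nul l^±`, MV (3): `κ ∈ Cyc {p₀} 3`, `MVR l⁺ l⁻ 2 κ e`; `κ - m g ∈ Nul {p₀} 3`, so `κ - m g' ∈ Nul`, MV (4), (1): `e - m ε ∈ Nul l 2`. -/
def StCY3 : Prop := ∀ (Q : Type) [TopologicalSpace Q] [TopologicalSpace.MetrizableSpace Q], HM Q → ∀ ψ : ℝ → Q, IsClosedEmbedding ψ →
  ∃ ε ∈ Cyc (range ψ) 2, ∀ e ∈ Cyc (range ψ) 2, ∃ m : ℤ, e - m • ε ∈ Nul (range ψ) 2

/-- ARQ.  Closed sets with `H_2 = 0` in a level do not separate the level.  Uses `StUPC`, `StBEX`, `StTUB`, `StMV`, `StJOI`, `StMON`, `StSDA`, `StFLW`.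
PROOF.  `U = {r > t}`, path connected by UPC (`V₁ = S_t`, `O = univ`).  `a ∈ U p`, `b ∈ U q` with levels `> t` (BEX), so `a, b ∈ U`, `R_t a = p ∉ D`, `R_t b = q ∉ D`.  `e ∈ cin U 1` a path chain from `a` to `b` (JOI (1)).  `A₁ = {r ≤ t}`, `A₂ = UpS r R t D`: closed, `A₁ ∩ A₂ = D`.  `e ∈ cin A₁ᶜ ⊆ Nul A₁ 1`; `e ∈ Cyc A₂ 1 ⊆ Nul A₂ 1` (TUB).  `PP D 2`, MV (5) with `k = 1`: `e ∈ Nul (A₁ ∪ A₂) 1`, `e = ρ + bd β`,
`ρ ∈ cin (A₁ ∪ A₂)ᶜ 1 = cin {y | t < r y, R_t y ∉ D} 1`, `bd ρ = [b] - [a]`.  `T` = the points joined to `a` in `{y | t < r y, R_t y ∉ D}`; JOI (2): `b ∈ T`.  Apply `R_t` to the path. -/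
def StARQ : Prop := ∀ (P : Type) [TopologicalSpace P] (r : P → ℝ) (R : ℝ → P → P) (dg : P → Ch P 3 → ℤ), SB P r R dg →
  ∀ t : ℝ, 0 < t → t < 1 → IsPathConnected {y : P | r y = t} → ∀ D : Set P, IsClosed D → (∀ y ∈ D, r y = t) → PP D 2 →
    ∀ p q : P, r p = t → r q = t → p ∉ D → q ∉ D → JoinedIn ({y : P | r y = t} \ D) p q

/-- LCQ.  The two sides of a line in an open subset of a level.  Uses `StUPC`, `StBEX`, `StTUB`, `StCY3`, `StOPN`, `StMV`, `StJOI`, `StMON`, `StSDA`, `StPSH`, `StFLW`, `StLPL`.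
PROOF.  `V₁ = O ∩ S_t` (as a subset of `P`).  `Q = {r < t} ∪ R_t⁻¹ O`, open in `P`: `y ∈ Q` iff `r y < t` or `R_t y ∈ V₁`; `R_s Q ⊆ Q` for `s > 0` (for `s ≥ t`: `R_t (R_s y) = R_t y`; for `s < t` the level is `< t`).  So `r, R` restrict to a `Flow` on `↥Q`; `HM ↥Q` (OPN).  `l` = the image of `range ψ` in `↥Q`: `V₁` is closed in `Q` (`V₁ = Q ∩ S_t`), so `ψ` gives a closed embedding `ℝ → ↥Q` with range `l`; CY3 for it: `ε`.
In `↥Q`: `A₁ = {r ≤ t}`, `A₂ = UpS r R t l`: closed, `A₁ ∩ A₂ = l`.  For `x, y ∈ V₁ ∖ l` joined in `V₁`: `V₂` = the path component of `x` in `V₁` (open in `S_t` by LPL), UPC: `{y | t < r y, R_t y ∈ V₂}` is path connected; `a ∈ U x`, `b ∈ U y` in it (BEX), path chain `κ` from `a` to `b` in it (JOI (1)), as a chain of `↥Q`; `κ ∈ cin A₁ᶜ ⊆ Nul A₁ 1`, `κ ∈ Cyc A₂ 1 ⊆ Nul A₂ 1` (TUB in `↥Q`), MV (3): `τ ∈ Cyc l 2`, `MVR A₁ A₂ 1 τ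 κ`, `τ - m ε ∈ Nul l 2`.
Let `κ₀, τ₀, m₀` be the data for the given pair `a₀ ∈ T`, `b₀ ∉ T`, and `κ, τ, m` those for `x, y`.  MV (4): `MVR A₁ A₂ 1 (m₀ τ - m τ₀) (m₀ κ - m κ₀)` (use it twice, starting from `MVR 0 0`), `m₀ τ - m τ₀ = m₀ (τ - m ε) - m (τ₀ - m₀ ε) ∈ Nul l 2`; MV (1): `m₀ κ - m κ₀ ∈ Nul (A₁ ∪ A₂) 1`, `= ρ + bd β`, `ρ ∈ cin {y ∈ Q | t < r y, R_t y ∉ l}`.
`T' = {y ∈ Q | R_t y ∈ T}` is saturated for paths in `{t < r y, R_t y ∉ l}` (apply `R_t`: path in `V₁ ∖ l`): `ev T' (bd ρ) = 0` (JOI (2)), so `m₀ ([y ∈ T] - [x ∈ T]) - m (0 - 1) = 0`, `m = 0` as `x ∈ T ↔ y ∈ T`.  So `τ ∈ Nul l 2`, `κ ∈ Nul (A₁ ∪ A₂) 1` (MV (1)), `κ = ρ' + bd β'`, and as in ARQ `a, b` are joined in `{y ∈ Q | t < r y, R_t y ∉ l}`; apply `R_t`. -/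
def StLCQ : Prop := ∀ (P : Type) [TopologicalSpace P] (r : P → ℝ) (R : ℝ → P → P) (dg : P → Ch P 3 → ℤ), SB P r R dg →
  ∀ t : ℝ, 0 < t → t < 1 → ∀ V₁ : Set ↥{y : P | r y = t}, IsOpen V₁ → ∀ ψ : ℝ → ↥V₁, IsClosedEmbedding ψ →
    ∀ T : Set ↥V₁, (∀ a b : ↥V₁, JoinedIn (range ψ)ᶜ a b → (a ∈ T ↔ b ∈ T)) →
      (∃ a b : ↥V₁, a ∉ range ψ ∧ b ∉ range ψ ∧ a ∈ T ∧ b ∉ T ∧ Joined a b) →
      ∀ x y : ↥V₁, x ∉ range ψ → y ∉ range ψ → Joined x y → (x ∈ T ↔ y ∈ T) → JoinedIn (range ψ)ᶜ x y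

end Pool.Agent.Helper58.SF
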