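import Pool.Agent.Helper58.SF.Defs

/-!
# Project SF, part 2: the port of the cell theory of `Helper13.TW` to the interface `WN` (statements)
-/

set_option autoImplicit false

namespace Pool.Agent.Helper58.SF

open Set Topology Pool.Agent.Helper13.TR
open Pool.Agent.Helper13.TW (IsArc Spl IsSCC dch Chn Splt GT CSy MP Val LR MCell)

/-- a 1-cycle in `V` -/
def Bz {X : Type} [TopologicalSpace X] (V : Set X) (z : Ch X 1) : Prop := z ∈ cin V 1 ∧ bd 0 z = 0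

theorem WN.bv {S : Type} [TopologicalSpace S] {ω : Ch S 1 → S → ℤ} {V : Set S} (_h : WN S ω V) :
    ∀ z ∈ cin V 1, bd 0 z = 0 → Bz V z := fun _ hz hb => ⟨hz, hb⟩

/-- WIN.  Winding numbers.  Uses `StMON`, `StSDA`.
PROOF.  Direct from the fields `add`, `loc`, `cpt`, `bnd` of `WN`; `ω 0 x = 0` (add with `z = z' = 0`), so `ω (-z) x = - ω z x`. -/
def StWIN : Prop := ∀ (S : Type) [TopologicalSpace S] [T2Space S] [PathConnectedSpace S] (ω : Ch S 1 → S → ℤ) (V : Set S), WN S ω V →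
  True ∧
  (∀ (z z' : Ch S 1) (x : S), Bz V z → Bz V z' → z ∈ cin {x}ᶜ 1 → z' ∈ cin {x}ᶜ 1 →
    W ω (z + z') x = W ω z x + W ω z' x ∧ W ω (-z) x = -W ω z x ∧ W ω (z - z') x = W ω z x - W ω z' x) ∧
  (∀ (z : Ch S 1) (O : Set S), Bz V z → IsOpen O → z ∈ cin Oᶜ 1 → ∀ x y : S, JoinedIn O x y → W ω z x = W ω z y) ∧
  (∀ z : Ch S 1, Bz V z → ∃ Q : Set S, IsCompact Q ∧ ∀ x ∉ Q, W ω z x = 0) ∧
  (∀ (e : Ch S 2) (Q : Set S), e ∈ cin Q 2 → bd 1 e ∈ cin V 1 → ∀ x ∉ Q, W ω (bd 1 e) x = 0)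

/-- WD.  Winding numbers of simple closed curves.  Uses `StWIN`, `StAC1`, `StARB`, `StSCL`, `StMON`, `StSDA`.
PROOF.  Port of `Pool/Agent/Helper86/TW/M_WD.lean`. -/
def StWD : Prop := ∀ (S : Type) [TopologicalSpace S] [T2Space S] [PathConnectedSpace S] (ω : Ch S 1 → S → ℤ) (V : Set S), WN S ω V →
  (∀ (D₁ D₂ : Set S) (p q : S), IsArc D₁ p q → IsArc D₂ p q → D₁ ⊆ V → D₂ ⊆ V → ∀ d₁ ∈ cin D₁ 1, ∀ d₂ ∈ cin D₂ 1,
    bd 0 d₁ = Finsupp.single (pt q) 1 - Finsupp.single (pt p) 1 → bd 0 d₂ = Finsupp.single (pt q) 1 - Finsupp.single (pt p) 1 →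
    ∀ x, x ∉ D₁ → x ∉ D₂ → W ω (d₁ - d₂) x = wd ω D₁ D₂ p q x) ∧
  (∀ (D₁ D₂ D₃ : Set S) (p q : S), IsArc D₁ p q → IsArc D₂ p q → IsArc D₃ p q → D₁ ⊆ V → D₂ ⊆ V → D₃ ⊆ V → ∀ x, x ∉ D₁ → x ∉ D₂ → x ∉ D₃ →
    wd ω D₁ D₂ p q x + wd ω D₂ D₃ p q x = wd ω D₁ D₃ p q x) ∧
  (∀ (J : Set S) (p q p' q' : S) (D₁ D₂ D₁' D₂' : Set S), Spl J p q D₁ D₂ → Spl J p' q' D₁' D₂' → J ⊆ V →
    (∀ x, x ∉ J → wd ω D₁' D₂' p' q' x = wd ω D₁ D₂ p q x) ∨ ∀ x, x ∉ J → wd ω D₁' D₂' p' q' x = -wd ω D₁ D₂ p q x) ∧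
  ∀ J O₁ O : Set S, IsSCC J → J ⊆ V → J ⊆ O₁ → (∀ z ∈ cin (O₁ ∩ V) 1, bd 0 z = 0 → ∀ y ∉ O, ω z y = 0) → Ins ω J ⊆ O

/-- ARN.  Points and arcs do not separate; a simple closed curve has at most two sides.  Uses `StARB`, `StSCL`, `StLIN`.
PROOF.  Port of `Pool/Agent/Helper45/TW/M_ARN.lean`; (1) is the field `arn`, (2) uses the field `lco`. -/
def StARN : Prop := ∀ (S : Type) [TopologicalSpace S] [TopologicalSpace.MetrizableSpace S] [LocallyPathConnectedSpace S] [PathConnectedSpace S] (ω : Ch S 1 → S → ℤ) (V : Set S), WN S ω V →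
  (∀ D : Set S, ((∃ p q, IsArc D p q) ∨ ∃ p, D = {p}) → IsPathConnected Dᶜ) ∧
  ∀ J : Set S, IsSCC J → ∀ a b c : S, a ∉ J → b ∉ J → c ∉ J → JoinedIn Jᶜ a b ∨ JoinedIn Jᶜ b c ∨ JoinedIn Jᶜ a c

/-- TWO.  The two sides of a curve.  Uses `StARN`, `StWIN`, `StWD`, `StSCL`, `StAC1`, `StMON`.
PROOF.  Port of `Pool.Agent.Helper29.TW.M_TWO` (same proof, statement docstring in `Pool/Agent/Helper13/TW`), with the interface `WN` instead of `GR`. -/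
def StTWO : Prop := ∀ (S : Type) [MetricSpace S] [LocallyPathConnectedSpace S] [PathConnectedSpace S] (ω : Ch S 1 → S → ℤ) (V : Set S), WN S ω V → ∀ J : Set S, Ess ω V J →
  (IsOpen (Ins ω J) ∧ IsPathConnected (Ins ω J)) ∧ (IsOpen (Out ω J) ∧ IsPathConnected (Out ω J)) ∧ IsCompact (cl ω J) ∧
  (∀ a b : S, JoinedIn Jᶜ a b → (a ∈ Ins ω J ↔ b ∈ Ins ω J)) ∧
  (∀ (p q : S) (D₁ D₂ : Set S), Spl J p q D₁ D₂ → ∃ m : ℤ, m ≠ 0 ∧ (∀ x ∈ Ins ω J, wd ω D₁ D₂ p q x = m) ∧ ∀ x ∈ Out ω J, wd ω D₁ D₂ p q x = 0)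

/-- CLS.  Every point of a curve is in the closure of both sides.  Uses `StTWO`, `StARN`, `StSCL`, `StARB`.
PROOF.  Port of `Pool.Agent.Helper25.TW.M_CLS` (same proof, statement docstring in `Pool/Agent/Helper13/TW`), with the interface `WN` instead of `GR`. -/
def StCLS : Prop := ∀ (S : Type) [MetricSpace S] [LocallyPathConnectedSpace S] [PathConnectedSpace S] (ω : Ch S 1 → S → ℤ) (V : Set S), WN S ω V → ∀ J : Set S, Ess ω V J →
  J ⊆ closure (Ins ω J) ∧ J ⊆ closure (Out ω J) ∧ closure (Ins ω J) = cl ω J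

/-- THE.  The theta curve lemma.  Uses `StTWO`, `StCLS`, `StWIN`, `StWD`, `StARB`, `StSCL`, `StAC1`.
PROOF.  Port of `Pool.Agent.Helper72.TW.M_THE` (same proof, statement docstring in `Pool/Agent/Helper13/TW`), with the interface `WN` instead of `GR`. -/
def StTHE : Prop := ∀ (S : Type) [MetricSpace S] [LocallyPathConnectedSpace S] [PathConnectedSpace S] (ω : Ch S 1 → S → ℤ) (V : Set S), WN S ω V → ∀ J : Set S, Cel ω V J →
  ∀ (p q : S) (D₁ D₂ P : Set S), Spl J p q D₁ D₂ → Crs ω J p q P →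
    Cel ω V (D₁ ∪ P) ∧ Cel ω V (D₂ ∪ P) ∧ Ins ω (D₁ ∪ P) ∩ Ins ω (D₂ ∪ P) = ∅ ∧ Ins ω (D₁ ∪ P) ∪ Ins ω (D₂ ∪ P) = Ins ω J \ P ∧
    cl ω (D₁ ∪ P) ∪ cl ω (D₂ ∪ P) = cl ω J ∧ cl ω (D₁ ∪ P) ∩ cl ω (D₂ ∪ P) = P ∧ cl ω (D₁ ∪ P) ∩ J = D₁ ∧ cl ω (D₂ ∪ P) ∩ J = D₂

/-- ULC.  The interior is uniformly locally connected.  Uses `StTWO`, `StCLS`, `StSCL`, `StLIN`.
PROOF.  Port of `Pool.Agent.Helper55.TW.M_ULC` (same proof, statement docstring in `Pool/Agent/Helper13/TW`), with the interface `WN` instead of `GR`. -/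
def StULC : Prop := ∀ (S : Type) [MetricSpace S] [LocallyPathConnectedSpace S] [PathConnectedSpace S] (ω : Ch S 1 → S → ℤ) (V : Set S), WN S ω V → ∀ J : Set S, Ess ω V J →
  ∀ p ∈ J, ∀ O : Set S, IsOpen O → p ∈ O → ∃ O' : Set S, IsOpen O' ∧ p ∈ O' ∧ O' ⊆ O ∧ ∀ x ∈ O' ∩ Ins ω J, ∀ y ∈ O' ∩ Ins ω J, JoinedIn (O ∩ Ins ω J) x y

/-- ACC.  Crosscuts exist.  Uses `StULC`, `StINF`, `StARX`, `StTWO`, `StCLS`.
PROOF.  Port of `Pool.Agent.Helper10.TW.M_ACC` (same proof, statement docstring in `Pool/Agent/Helper13/TW`), with the interface `WN` instead of `GR`. -/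
def StACC : Prop := ∀ (S : Type) [MetricSpace S] [LocallyPathConnectedSpace S] [PathConnectedSpace S] (ω : Ch S 1 → S → ℤ) (V : Set S), WN S ω V → ∀ J : Set S, Ess ω V J →
  ∀ p ∈ J, ∀ q ∈ J, p ≠ q → ∃ P : Set S, Crs ω J p q P

/-- SMC.  Small crosscuts cut off small pieces.  Uses `StTWO`, `StUAR`, `StWD`, `StSCL`, `StARB`, `StTHE`.
PROOF.  Port of `Pool.Agent.Helper78.TW.M_SMC` (same proof, statement docstring in `Pool/Agent/Helper13/TW`), with the interface `WN` instead of `GR`. -/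
def StSMC : Prop := ∀ (S : Type) [MetricSpace S] [LocallyPathConnectedSpace S] [PathConnectedSpace S] (ω : Ch S 1 → S → ℤ) (V : Set S), WN S ω V → ∀ J : Set S, Cel ω V J →
  ∀ η : ℝ, 0 < η → ∃ δ : ℝ, 0 < δ ∧ ∀ (p q : S) (D₁ D₂ P : Set S), Spl J p q D₁ D₂ → Crs ω J p q P → Metric.diam P < δ →
    Metric.diam (cl ω (D₁ ∪ P)) < η ∨ Metric.diam (cl ω (D₂ ∪ P)) < η

/-- CHN.  From 1-cycles to closed chains of small arcs.  Uses `StSDM`, `StARX`, `StWIN`, `StAC1`, `StARB`, `StMON`, `StSDA`.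
PROOF.  Port of `Pool.Agent.Helper37.TW.M_CHN` (same proof, statement docstring in `Pool/Agent/Helper13/TW`), with the interface `WN` instead of `GR`. -/
def StCHN : Prop := ∀ (S : Type) [MetricSpace S] [LocallyPathConnectedSpace S] [PathConnectedSpace S] (ω : Ch S 1 → S → ℤ) (V : Set S), WN S ω V → ∀ (Q : Set S) (a : S) (ρ : ℝ),
  IsCompact Q → Q ⊆ V → a ∉ Q → 0 < ρ → Tame ω Q a ρ → ∀ z ∈ cin Q 1, bd 0 z = 0 → W ω z a ≠ 0 →
    ∃ (n : ℕ) (x : ℕ → S) (α : ℕ → Set S), 1 ≤ n ∧ Chn Q ρ n x α ∧ wch ω n x α a ≠ 0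

/-- SIM.  From a closed chain of small arcs to a simple closed curve.  Uses `StARB`, `StWIN`, `StAC1`, `StWD`, `StMON`, `StSDA`.
PROOF.  Port of `Pool.Agent.Helper2.TW.M_SIM` (same proof, statement docstring in `Pool/Agent/Helper13/TW`), with the interface `WN` instead of `GR`. -/
def StSIM : Prop := ∀ (S : Type) [MetricSpace S] [LocallyPathConnectedSpace S] [PathConnectedSpace S] (ω : Ch S 1 → S → ℤ) (V : Set S), WN S ω V → ∀ (Q : Set S) (a : S) (ρ : ℝ),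
  IsCompact Q → Q ⊆ V → a ∉ Q → 0 < ρ → Tame ω Q a ρ → ∀ (n : ℕ) (x : ℕ → S) (α : ℕ → Set S), 1 ≤ n → Chn Q ρ n x α → wch ω n x α a ≠ 0 →
    ∃ J ⊆ Q, IsSCC J ∧ a ∈ Ins ω J

/-- SCD.  Simple closed curves from cycles.  Uses `StCHN`, `StSIM`, `StWIN`, `StMON`.
PROOF.  As in `Pool/Agent/Helper57/TW/M_SCE.lean`: `sml` at every `y ∈ Q` for the open set `{a}ᶜ`: `V_y`; Lebesgue number `4 ρ` of this cover of `Q`: a set `C ⊆ Q` of diameter `< 4 ρ` is empty or contained in some `V_y`, so `Tame`.  CHN, SIM. -/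
def StSCD : Prop := ∀ (S : Type) [MetricSpace S] [LocallyPathConnectedSpace S] [PathConnectedSpace S] (ω : Ch S 1 → S → ℤ) (V : Set S), WN S ω V →
  ∀ (Q : Set S) (a : S), IsCompact Q → Q ⊆ V → a ∉ Q → ∀ z ∈ cin Q 1, bd 0 z = 0 → W ω z a ≠ 0 → ∃ J ⊆ Q, IsSCC J ∧ a ∈ Ins ω J

/-- SCE.  Small cells exist.  Uses `StSCD`, `StWIN`, `StWD`, `StCON`, `StMON`.
PROOF.  Port of `Pool.Agent.Helper57.TW.M_SCE` (same proof, statement docstring in `Pool/Agent/Helper13/TW`), with the interface `WN` instead of `GR`. -/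
def StSCE : Prop := ∀ (S : Type) [MetricSpace S] [LocallyPathConnectedSpace S] [PathConnectedSpace S] (ω : Ch S 1 → S → ℤ) (V : Set S), WN S ω V →
  ∀ a ∈ V, ∀ O : Set S, IsOpen O → a ∈ O → ∃ J : Set S, Cel ω V J ∧ a ∈ Ins ω J ∧ cl ω J ⊆ O

/-- CMP.  The components of `K ∩ Ins J` are crosscuts.  Uses `StARB`, `StSCL`, `StTWO`, `StCLS`.
PROOF.  Port of `Pool.Agent.Helper75.TW.M_CMP` (same proof, statement docstring in `Pool/Agent/Helper13/TW`), with the interface `WN` instead of `GR`. -/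
def StCMP : Prop := ∀ (S : Type) [MetricSpace S] [LocallyPathConnectedSpace S] [PathConnectedSpace S] (ω : Ch S 1 → S → ℤ) (V : Set S), WN S ω V → ∀ J : Set S, Ess ω V J →
  ∀ K : Set S, IsSCC K → (∃ r₁ r₂ : S, r₁ ≠ r₂ ∧ r₁ ∈ K \ Ins ω J ∧ r₂ ∈ K \ Ins ω J) →
    (∀ z ∈ K ∩ Ins ω J, ∃ (p q : S) (P : Set S), Crs ω J p q P ∧ z ∈ P ∧ P ⊆ K ∧ IsClosed (K \ (P \ {p, q})) ∧ connectedComponentIn (K ∩ Ins ω J) z = P \ {p, q}) ∧
    (∀ α : Set S, IsCompact α → α ⊆ Ins ω J → {C : Set S | ∃ z ∈ K ∩ α, C = connectedComponentIn (K ∩ Ins ω J) z}.Finite) ∧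
    ∀ δ : ℝ, 0 < δ → {C : Set S | (∃ z ∈ K ∩ Ins ω J, C = connectedComponentIn (K ∩ Ins ω J) z) ∧ δ ≤ Metric.diam C}.Finite

/-- JIN.  Points which are not separated by one component.  Uses `StCMP`, `StTWO`, `StCLS`, `StTHE`, `StLIN`, `StSCL`, `StARB`.
PROOF.  Port of `Pool.Agent.Helper76.TW.M_JIN` (same proof, statement docstring in `Pool/Agent/Helper13/TW`), with the interface `WN` instead of `GR`. -/
def StJIN : Prop := ∀ (S : Type) [MetricSpace S] [LocallyPathConnectedSpace S] [PathConnectedSpace S] (ω : Ch S 1 → S → ℤ) (V : Set S), WN S ω V → ∀ J : Set S, Cel ω V J →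
  ∀ K : Set S, IsSCC K → (∃ r₁ r₂ : S, r₁ ≠ r₂ ∧ r₁ ∈ K \ Ins ω J ∧ r₂ ∈ K \ Ins ω J) → ∀ x ∈ Ins ω J \ K, ∀ y ∈ Ins ω J \ K,
    (∀ (p q : S) (D₁ D₂ P : Set S), Spl J p q D₁ D₂ → Crs ω J p q P → P ⊆ K → (x ∈ Ins ω (D₁ ∪ P) ↔ y ∈ Ins ω (D₁ ∪ P))) →
    JoinedIn (Ins ω J \ K) x y

/-- PRE.  A crosscut through two points of `K`.  Uses `StARN`, `StARB`, `StSCL`, `StARX`, `StTWO`, `StCLS`.
PROOF.  Port of `Pool.Agent.Helper32.TW.M_PRE` (same proof, statement docstring in `Pool/Agent/Helper13/TW`), with the interface `WN` instead of `GR`. -/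
def StPRE : Prop := ∀ (S : Type) [MetricSpace S] [LocallyPathConnectedSpace S] [PathConnectedSpace S] (ω : Ch S 1 → S → ℤ) (V : Set S), WN S ω V → ∀ J : Set S, Ess ω V J →
  ∀ K : Set S, IsSCC K → (∀ r₁ ∈ K \ Ins ω J, ∀ r₂ ∈ K \ Ins ω J, r₁ = r₂) →
    ∃ (p q : S) (P : Set S), Crs ω J p q P ∧ ∃ r₁ ∈ P ∩ K, ∃ r₂ ∈ P ∩ K, r₁ ≠ r₂

/-- S3A.  Subdivision along one curve.  Uses `StPRE`, `StCMP`, `StJIN`, `StSMC`, `StTHE`, `StTWO`, `StCLS`, `StSCL`, `StARB`.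
PROOF.  Port of `Pool.Agent.Helper15.TW.M_S3A` (same proof, statement docstring in `Pool/Agent/Helper13/TW`), with the interface `WN` instead of `GR`. -/
def StS3A : Prop := ∀ (S : Type) [MetricSpace S] [LocallyPathConnectedSpace S] [PathConnectedSpace S] (ω : Ch S 1 → S → ℤ) (V : Set S), WN S ω V → ∀ J K : Set S, Cel ω V J → Cel ω V K →
  ∀ (η : ℝ) (F G : Set S), 0 < η → (∀ x ∈ F, x ∈ Ins ω K ∧ ∀ k ∈ K, η ≤ dist x k) → (∀ y ∈ G, y ∉ cl ω K ∧ ∀ k ∈ K, η ≤ dist y k) →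
    GS ω (fun J' => ¬((cl ω J' ∩ F).Nonempty ∧ (cl ω J' ∩ G).Nonempty)) J

/-- S3B.  Subdivision into small cells.  Uses `StS3A`, `StSCE`, `StTHE`, `StTWO`, `StCLS`.
PROOF.  Port of `Pool.Agent.Helper97.TW.M_S3B` (same proof, statement docstring in `Pool/Agent/Helper13/TW`), with the interface `WN` instead of `GR`. -/
def StS3B : Prop := ∀ (S : Type) [MetricSpace S] [LocallyPathConnectedSpace S] [PathConnectedSpace S] (ω : Ch S 1 → S → ℤ) (V : Set S), WN S ω V → ∀ J : Set S, Cel ω V J →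
  ∀ ε : ℝ, 0 < ε → GS ω (fun J' => Metric.diam (cl ω J') < ε) J

/-- CSS.  The cells of a 2-manifold are a cell system.  Uses `StTWO`, `StTHE`, `StACC`, `StS3B`, `StSCL`, `StARB`.
PROOF.  Port of `Pool.Agent.Helper72.TW.M_CSS` (same proof, statement docstring in `Pool/Agent/Helper13/TW`), with the interface `WN` instead of `GR`. -/
def StCSS : Prop := ∀ (S : Type) [MetricSpace S] [LocallyPathConnectedSpace S] [PathConnectedSpace S] (ω : Ch S 1 → S → ℤ) (V : Set S), WN S ω V →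
  CSy fun E J => Cel ω V J ∧ E = cl ω J


end Pool.Agent.Helper58.SF
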