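import Pool.Agent.Helper58.SF.StA
import Pool.Agent.Helper58.SF.StP

/-!
# Project SF, part 1b: winding numbers about trajectories, levels, good boxes (statements)

Notation as in `StA.lean`: `S_t = {r = t}`, `U x = Up r R x`, `D x = Dn r R x`, `L x = Ln r R x`.
-/

set_option autoImplicit false

namespace Pool.Agent.Helper58.SF

open Set Topology Pool.Agent.Helper13.TR
open Pool.Agent.Helper13.TW (IsArc Spl IsSCC dch Chn Splt GT CSy MP Val LR MCell StARB StARX StSCL StUAR StINF StLIN StAC1 StSDM)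

/-- OMA.  The linking degree of a 2-chain with a line.  Uses `StTUB`, `StRAY`, `StMV`, `StMON`, `StCON`, `StSDA`, `StDEG`, `StFLW`.
PROOF.  (1) `U x = UpS r R (r x) {x}`: TUB.  `PP (D x) 2`: RAY for `D = D x`, `h = 1/r` (injective on `D x`: `y = R (r y) x`; `D x ∩ h⁻¹ [a,b]` is empty or contained in the image of the compact interval `{s | 0 < s ≤ r x, 1/s ≤ b}` under the continuous map `s ↦ R s x`, closed; `h ≥ 1 / r x` on `D x`).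
(2) `e ∈ Cyc (L x) 2`: `e ∈ Nul (U x) 2` and `e ∈ Nul (D x) 2` (MON (5), (1)), MV (3) with `U x ∩ D x = {x}`.  (3) `τ = b₁ - b₂`, `bd τ = (e - bd b₂) - (e - bd b₁) ∈ cin (U x ∩ D x)ᶜ`.
(4) MV (4) with `m = 1`: `MVR (U x) (D x) 2 (τ - τ') 0`: `b₁ - b₂ = τ - τ'`, `bd b₁ ∈ cin (U x)ᶜ`, `bd b₂ ∈ cin (D x)ᶜ`.  `dg x b₁ = 0` (DEG (4), `PP (U x) 3`).  `dg x b₂ = 0`: let `b₂ ∈ cin K 3`, `K` compact, `r ≥ κ > 0` on `K`; `s < κ`, `s ≤ r x`; `x` and `z = R_s x` are joined in `D x` (`σ ↦ R_σ x`, `s ≤ σ ≤ r x`), so `dg x b₂ = dg z b₂` (DEG (3)), and `z ∉ K`: `dg z b₂ = 0` (DEG (2)).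
So `dg x (τ - τ') = 0`; `τ, τ' ∈ Cyc {x} 3`. -/
def StOMA : Prop := ∀ (P : Type) [TopologicalSpace P] (r : P → ℝ) (R : ℝ → P → P) (dg : P → Ch P 3 → ℤ), SB P r R dg → ∀ x : P,
  (PP (Up r R x) 2 ∧ PP (Up r R x) 3 ∧ PP (Dn r R x) 2) ∧
  (∀ e ∈ Cyc (Ln r R x) 2, ∃ τ ∈ Cyc {x} 3, MVR (Up r R x) (Dn r R x) 2 τ e) ∧
  (∀ τ e, MVR (Up r R x) (Dn r R x) 2 τ e → τ ∈ Cyc {x} 3) ∧
  (∀ τ τ' e, MVR (Up r R x) (Dn r R x) 2 τ e → MVR (Up r R x) (Dn r R x) 2 τ' e → dg x τ = dg x τ')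

/-- OMB.  Winding numbers of 1-cycles about lines.  Uses `StOMA`, `StMV`, `StMON`, `StCON`, `StSDA`, `StDEG`, `StFLW`.
PROOF.  For `e ∈ Cyc (L x) 2` let `om x e = dg x τ` for any `τ` with `MVR (U x) (D x) 2 τ e` (OMA (2), (4)).  (a) `om x` is additive on `Cyc (L x) 2` (`MVR` is additive).  (b) `om x e = 0` if `e ∈ Nul (L x) 2`: `e = ρ + bd β`, `b₁ = b₂ = β`, `τ = 0`.
(c) Locally constant: `e` with `bd e ∈ cin K 1`, `K` compact, `L x ∩ K = ∅`: let `b₁, b₂` be as in `MVR (U x) (D x) 2 τ e`; `e - bd b₁ ∈ cin K₁ 2`, `e - bd b₂ ∈ cin K₂ 2`, `K₁`, `K₂` compact, disjoint from `U x`, `D x` (CON (2)).  FLW (7): for `x'` near `x`: `U x' ∩ K₁ = ∅`, `D x' ∩ K₂ = ∅`, so `MVR (U x') (D x') 2 τ e`; and `dg x' τ = dg x τ` for `x'` near `x` (DEG (5)).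
So `om x' e = om x e` near `x`.  (d) If `bd e = 0`: `om x e` is defined for all `x ∈ P` and locally constant, `P` is connected: constant.  `e ∈ cin K 2`, `K` compact, `0 < t < 1` with `t < r` on `K`; `R_t K` is a compact subset of `S_t`, `S_t` is not compact: there is `x ∈ S_t ∖ R_t K`; `L x ∩ K = ∅` (a point `y ∈ K` has `r y > t`; `y ∈ U x` would give `x = R_t y`; `y ∉ D x`), so `e ∈ cin (L x)ᶜ 2 ⊆ Nul (L x) 2`, `om x e = 0` by (b).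
So `om x e = 0` for all closed `e` and all `x`.  (1) the chosen pair in the definition of `Wd` is some `τ₀`, `e₀` with `bd e₀ = bd e`, `MVR τ₀ e₀`; `e₀ - e` is closed, so `dg x τ₀ = om x e₀ = om x e = dg x τ` (a), (d).  (2) from (1), (a), OMA (2).  (3) (c) and (1): `u ↦ Wd z (γ u)` is locally constant on `[0,1]` (with one `e`, `bd e = z`; `z` has a compact carrier, contained in every `cin`-set of `z`, CON (2)).
(4) (b) and (1): `τ = 0`.  (5) `e - e' ∈ Nul (L x) 2`: (1), (a), (b). -/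
def StOMB : Prop := ∀ (P : Type) [TopologicalSpace P] (r : P → ℝ) (R : ℝ → P → P) (dg : P → Ch P 3 → ℤ), GB P r R dg →
  (∀ (e : Ch P 2) (x : P), bd 1 e ∈ cin (Ln r R x)ᶜ 1 → ∀ τ, MVR (Up r R x) (Dn r R x) 2 τ e → Wd (Up r R) (Dn r R) dg (bd 1 e) x = dg x τ) ∧
  (∀ (e e' : Ch P 2) (x : P), bd 1 e ∈ cin (Ln r R x)ᶜ 1 → bd 1 e' ∈ cin (Ln r R x)ᶜ 1 →
    Wd (Up r R) (Dn r R) dg (bd 1 e + bd 1 e') x = Wd (Up r R) (Dn r R) dg (bd 1 e) x + Wd (Up r R) (Dn r R) dg (bd 1 e') x ∧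
    Wd (Up r R) (Dn r R) dg (bd 1 e - bd 1 e') x = Wd (Up r R) (Dn r R) dg (bd 1 e) x - Wd (Up r R) (Dn r R) dg (bd 1 e') x) ∧
  (∀ (e : Ch P 2) (A : Set P), (∀ y ∈ A, bd 1 e ∈ cin (Ln r R y)ᶜ 1) → ∀ x y : P, JoinedIn A x y →
    Wd (Up r R) (Dn r R) dg (bd 1 e) x = Wd (Up r R) (Dn r R) dg (bd 1 e) y) ∧
  (∀ (e : Ch P 2) (x : P), e ∈ cin (Ln r R x)ᶜ 2 → Wd (Up r R) (Dn r R) dg (bd 1 e) x = 0) ∧
  (∀ (e e' : Ch P 2) (x : P), bd 1 e ∈ cin (Ln r R x)ᶜ 1 → bd 1 e' ∈ cin (Ln r R x)ᶜ 1 → e - e' ∈ Nul (Ln r R x) 2 →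
    Wd (Up r R) (Dn r R) dg (bd 1 e) x = Wd (Up r R) (Dn r R) dg (bd 1 e') x)

/-- HTF.  Moving a cycle along the flow.  Uses `StOMB`, `StPRI`, `StPSH`, `StMON`, `StFLW`, `StSDA`.
PROOF.  (1) PRI for `id` and `R s`, `H (u, y) = R ((1 - u) 1 + u s) y` (if `s ≥ 1` both sides agree, `R s = id`): for the cycle `z`: `R_s z - z = bd (P z)`, `P z ∈ cin {y' | ∃ y ∈ A, ∃ σ ≥ s, y' = R σ y} 2`.  So `R_s z` is a boundary if `z` is.  (2) `P z ∈ cin (L x)ᶜ 2`: OMB (4), (2); the case `σ = 1` gives `A ∩ L x = ∅`. -/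
def StHTF : Prop := ∀ (P : Type) [TopologicalSpace P] (r : P → ℝ) (R : ℝ → P → P) (dg : P → Ch P 3 → ℤ), GB P r R dg →
  ∀ (s : ℝ) (hR : Continuous (R s)) (A : Set P) (z : Ch P 1), 0 < s → z ∈ cin A 1 → bd 0 z = 0 →
    (∃ h ∈ cin {y' : P | ∃ y ∈ A, ∃ σ : ℝ, s ≤ σ ∧ y' = R σ y} 2, bd 1 h = push ⟨R s, hR⟩ 1 z - z) ∧
    ∀ x : P, (∃ e : Ch P 2, bd 1 e = z) → (∀ y ∈ A, ∀ σ : ℝ, s ≤ σ → R σ y ∉ Ln r R x) →
      Wd (Up r R) (Dn r R) dg (push ⟨R s, hR⟩ 1 z) x = Wd (Up r R) (Dn r R) dg z x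

/-- EXW.  Small cycles in a level with winding number one.  Uses `StOMB`, `StOMA`, `StSM`, `StMV`, `StPRI`, `StPSH`, `StMON`, `StCON`, `StSDA`, `StDEG`, `StFLW`.
PROOF.  `t = r a`, `S = S_t`.  WS3.cls: `τ ∈ Cyc {a} 3`, `dg a τ = 1`.  MV (2), `k = 2`, `U a ∩ D a = {a}`: `τ - τ' ∈ Nul {a} 3`, `σ ∈ Cyc (L a) 2`, `MVR (U a) (D a) 2 τ' σ`; `dg a τ' = 1`.  `σ ∈ Nul (D a) 2` (`PP (D a) 2`): `σ = ρ + bd β`, `ρ ∈ cin (D a)ᶜ 2`; `ρ - σ ∈ Nul (L a) 2`, so (OMB (1), (5)) `Wd (bd ρ) a = 1`.  `(D a)ᶜ ⊆ {r > t} ∪ (L a)ᶜ` (if `r y ≤ t`, `y ∈ U a` then `y = a ∈ D a`).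
SM for `ρ`, `O₁ = {r > t}`, `O₂ = (L a)ᶜ` (`bd ρ ∈ cin O₂`): `ρ = σ₁ + σ₂ + bd f`; `Wd (bd σ₁) a = 1` (OMB (5)); `bd σ₁ = bd ρ - bd σ₂ ∈ cin ({r > t} ∩ (L a)ᶜ)`.  `e' = R_t σ₁` (push) `∈ cin S 2`.  PRI for `id`, `R t` (`H (u, y) = R ((1-u) + u t) y`): `e' - σ₁ = bd (P σ₁) + P (bd σ₁)`, `P (bd σ₁) ∈ cin {R_σ y | y ∉ L a, r y > t, σ ≥ t} ⊆ cin (L a)ᶜ` (if `R_σ y ∈ L a`,
it is in `U a` as its level is `≥ t`, `R_t y = R_t (R_σ y) = a`, `y ∈ U a`).  So `e' - σ₁ ∈ Nul (L a) 2`, `bd e' = R_t (bd σ₁) ∈ cin (S ∖ {a})`, `Wd (bd e') a = 1` (OMB (5)).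
`e'` is the image of a chain `e''` of the space `↥S` (PSH (5)), `bd e'' ∈ cin {a}ᶜ`.  SM in `↥S` with `O₁ = S ∩ O`, `O₂ = {a}ᶜ`: `e'' = e₁ + e₂ + bd f`.  In `P`: `e₂ ∈ cin (S ∖ {a}) ⊆ cin (L a)ᶜ`, so `Wd (bd e₁) a = 1` (OMB (5)).  `bd e₁ = bd e'' - bd e₂ ∈ cin {a}ᶜ`. -/
def StEXW : Prop := ∀ (P : Type) [TopologicalSpace P] (r : P → ℝ) (R : ℝ → P → P) (dg : P → Ch P 3 → ℤ), GB P r R dg →
  ∀ (a : P) (O : Set P), IsOpen O → a ∈ O → ∃ e₁ ∈ cin ({y : P | r y = r a} ∩ O) 2, bd 1 e₁ ∈ cin {a}ᶜ 1 ∧ Wd (Up r R) (Dn r R) dg (bd 1 e₁) a = 1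

/-- SMW.  Small cycles; compact supports.  Uses `StOMB`, `StMON`, `StCON`, `StFLW`.
PROOF.  (1) Claim: there is an open `N ∋ x` with compact closure such that `y ∈ S_t`, `L y ∩ N ≠ ∅` imply `y ∈ U'` (`U' = U` the given set; `t = r x`).  [Fix `0 < s0 < t`, `t < t1 < 1` and a compact neighbourhood `N0` of `x` with `s0 < r < t1` on it.  `K = {y | s0 ≤ r y ≤ t1, R_s0 y ∈ R_s0 N0}` compact (Box.cpt).  If the claim fails there are `v_n → x`, `y_n ∈ S_t ∖ U'`, `v_n ∈ L (y_n)`; then `R_s0 y_n = R_s0 v_n`, `y_n ∈ K`; cluster point `y ∈ S_t ∖ U'`;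
`R_(min t (r v_n)) y_n = R_(min t (r v_n)) v_n` (FLW (6)); in the limit `y = R_t y = R_t x = x ∈ U'`: contradiction.  (Metrizable; or use filters.)]  `LH1` for `x` and `N`: `V' ⊆ N`: `z ∈ cin V' 1` closed is `bd e`, `e ∈ cin N 2`; for `y ∈ S_t ∖ U'`: `L y ∩ N = ∅`, `Wd z y = 0` (OMB (4)); take `V' ∩ U'`.
(2) `z = bd e`, `e ∈ cin K 2`, `K` compact; `0 < s0 < r` on `K`, `s0 < t`.  `Q = {y | r y = t, R_s0 y ∈ R_s0 K}` is compact (closed subset of the set of Box.cpt for `s0, t`, `R_s0 K`).  For `y ∈ S_t ∖ Q`: `L y ∩ K = ∅` (if `v ∈ L y ∩ K` then `R_s0 y = R_s0 v`), OMB (4). -/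
def StSMW : Prop := ∀ (P : Type) [TopologicalSpace P] (r : P → ℝ) (R : ℝ → P → P) (dg : P → Ch P 3 → ℤ), GB P r R dg →
  (∀ (x : P) (U : Set P), IsOpen U → x ∈ U → ∃ V' : Set P, IsOpen V' ∧ x ∈ V' ∧ V' ⊆ U ∧ ∀ z ∈ cin V' 1, bd 0 z = 0 →
    ∀ y : P, r y = r x → y ∉ U → Wd (Up r R) (Dn r R) dg z y = 0) ∧
  (∀ (t : ℝ) (e : Ch P 2), 0 < t → t < 1 → ∃ Q : Set P, IsCompact Q ∧ (∀ y ∈ Q, r y = t) ∧ ∀ y : P, r y = t → y ∉ Q →
    Wd (Up r R) (Dn r R) dg (bd 1 e) y = 0)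

/-- CNA.  The sets of the points of a level above a point are connected.  Uses `StTUB`, `StBEX`, `StMV`, `StMON`, `StDEG`, `StFLW`.
PROOF.  `F = {y ∈ U x | r y = t'}` is compact (Box.cpt).  If it is not preconnected: `F = F₁ ∪ F₂`, disjoint, nonempty, closed (compact).  `T = {y ∈ U x | r y ≤ t'}`, `B₁ = T ∪ UpS r R t' F₁`, `B₂ = UpS r R t' F₂`: closed, `B₁ ∪ B₂ = U x`, `B₁ ∩ B₂ = F₂` (`UpS F₁ ∩ UpS F₂ = ∅`).  `c ∈ Cyc F₂ 3`, `dg z c = 1` for `z ∈ F₂` (cls).  MV (2), `k = 2`: `c - c' ∈ Nul F₂ 3`, `σ ∈ Cyc (U x) 2`, `MVR B₁ B₂ 2 c' σ`: `b₁ - b₂ = c'`.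
TUB: `σ = ρ + bd β`, `ρ ∈ cin (U x)ᶜ`.  So `b₁ - β ∈ Cyc B₁ 3`, `b₂ - β ∈ Cyc B₂ 3`.  Let `z ∈ F₂`.  `dg z (b₂ - β) = 0` (TUB for `B₂`, DEG (4)).  `z₁ ∈ F₁`: `b₁ - β ∈ Cyc (UpS r R t' F₁) 3`, `dg z₁ (b₁ - β) = 0` (TUB, DEG (4)).  `z` and `z₁` are joined in `T ⊆ B₁` (both with `x` by `σ ↦ R_σ z`, `r x ≤ σ ≤ t'`), so `dg z (b₁ - β) = 0` (DEG (3)).  So `dg z c' = 0`, but `dg z c' = dg z c = 1`. -/
def StCNA : Prop := ∀ (P : Type) [TopologicalSpace P] (r : P → ℝ) (R : ℝ → P → P) (dg : P → Ch P 3 → ℤ), SB P r R dg →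
  ∀ (x : P) (t' : ℝ), r x ≤ t' → t' < 1 → IsPreconnected {y : P | r y = t' ∧ y ∈ Up r R x}

/-- CNB.  Preimages of connected sets; levels are connected.  Uses `StCNA`, `StBEX`, `StLPL`, `StFLW`.
PROOF.  (1) `f = R_s : S_t' → S_s` is continuous, surjective (BEX), closed (proper: preimages of compact sets are compact by Box.cpt; or directly: if `C ⊆ S_t'` is closed and `R_s y_n → x`, `y_n ∈ C`, then the `y_n` are in a compact set) with connected fibres (CNA): let `B = f⁻¹ A = B₁ ∪ B₂` with `B_i` disjoint, nonempty, relatively closed in `B`; every fibre over a point of `A` is connected and nonempty, so contained in `B₁` or in `B₂`; so `A = f B₁ ∪ f B₂`,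
disjoint, and `f B_i` is closed in `A` (`f` restricted to `f⁻¹ A → A` is a closed map).  Contradiction to the connectedness of `A`.
(2) Let `p, q ∈ S_t`.  `P` is path connected: a path from `p` to `q`, compact, so `r > s` on it for some `0 < s < t`; `R_s` of the path joins `R_s p`, `R_s q` in `S_s`: the image `A` is connected, `{y | r y = t, R_s y ∈ A}` is connected (1) and contains `p, q`.  So `S_t` is preconnected, nonempty, and locally path connected (LPL): path connected.  (nonempty: `P` is nonempty; apply BEX or `R_t`.) -/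
def StCNB : Prop :=
  (∀ (P : Type) [TopologicalSpace P] (r : P → ℝ) (R : ℝ → P → P) (dg : P → Ch P 3 → ℤ), SB P r R dg →
    ∀ (s t' : ℝ) (A : Set P), 0 < s → s ≤ t' → t' < 1 → (∀ y ∈ A, r y = s) → IsPreconnected A → IsPreconnected {y : P | r y = t' ∧ R s y ∈ A}) ∧
  (∀ (P : Type) [TopologicalSpace P] (r : P → ℝ) (R : ℝ → P → P) (dg : P → Ch P 3 → ℤ), GB P r R dg →
    ∀ t : ℝ, 0 < t → t < 1 → IsPathConnected {y : P | r y = t})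

/-- RCK.  Change of the clock.  Uses `StBEX`, `StFLW`.
PROOF.  `G(λ, c, s) = min s a + (min (max s a) λ - a) (c - a) / (λ - a) + (max s λ - λ) (1 - c) / (1 - λ)` for `a < λ < 1`, `a < c < 1`: for fixed `λ, c` it is the increasing piecewise linear map of `ℝ` with `G = s` for `s ≤ a`, `G λ = c`, `G 1 = 1`; its inverse is `G(c, λ, ·)`; continuous in all variables.  `lm y = lam (R a y)`.  `r' y = G(lm y, c, r y)`, `R' t y = R (G(c, lm y, t)) y` (for `t > 0` the parameter is `> 0`; for `t ≥ r' y` it is `≥ r y`).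
`lm (R s y) = lm y` for `s ≥ a`; for `s < a` the level of `R s y` is `< a` and there `r'` is `r` and `R' = R` whatever `lm`.  From this all the axioms of `Flow`, `r' (R' t y) = min t (r' y)`, etc.  `U`, `D`: `y ∈ U x`: if `r x ≥ a`: `R_a y = R_a x`, same `lm`, `G` is increasing: `r' x ≤ r' y`, and `R' (r' x) y = R (r x) y`; if `r x < a`: `r' x = r x`, `R' (r' x) = R (r x)`, `r' y ≥ r' x`.  Conversely in the same way (`R' (r' x) y = x` implies: ...), same for `D`.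
`r' y = c ↔ r y = lm y` (`c > a`).  Box.cpt for `r'`: `C` compact in `{r' = t}`, `t ≤ t' < 1`: let `0 < s0 < r` on `C`, `s0 ≤ a`; the set `M = {y | t ≤ r' y ≤ t', R' t y ∈ C}` is closed; for `y ∈ M`: `R_s0 y = R_s0 (R' t y) ∈ R_s0 C` compact in `S_s0`.  `r y = G(c, lm y, r' y) ≤ G(c, lm y, t')`, if `r y > a` then `lm y = lam (R_a y)` and `R_a y` is in the compact set `{v | s0 ≤ r v ≤ a, R_s0 v ∈ R_s0 C}`, so `r y ≤ t₁ < 1` with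
`t₁` = the maximum of `a` and of `G(c, lam v, t')` over this set.  So `M` is a closed subset of the compact set `{y | s0 ≤ r y ≤ t₁, R_s0 y ∈ R_s0 C}`.  nc: for `t ≤ a` the level of `r'` is a level of `r`; for `t > a` its image under `R_a` is `S_a` (BEX), not compact.  The other fields of `GB` do not change. -/
def StRCK : Prop := ∀ (P : Type) [TopologicalSpace P] (r : P → ℝ) (R : ℝ → P → P) (dg : P → Ch P 3 → ℤ), GB P r R dg →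
  ∀ (a c : ℝ) (lam : P → ℝ), 0 < a → a < c → c < 1 → Continuous lam → (∀ y, a < lam y ∧ lam y < 1) →
    ∃ (r' : P → ℝ) (R' : ℝ → P → P), GB P r' R' dg ∧ Up r' R' = Up r R ∧ Dn r' R' = Dn r R ∧ ∀ y : P, r' y = c ↔ r y = lam (R a y)

/-- WNL.  Levels satisfy the winding number interface.  Uses `StOMB`, `StEXW`, `StSMW`, `StCNB`, `StLPL`, `StARQ`, `StLCQ`, `StRAY`, `StLIN`, `StARB`, `StPSH`, `StMON`, `StFLW`, `StSDA`, `StCON`.
PROOF.  `S = S_t`, `i : ↥S → P`; `i x ∈ L y`, `x, y ∈ S` only for `x = y`, so `i z ∈ cin (L x)ᶜ` if `z ∈ cin {x}ᶜ`.  Locally path connected: LPL; path connected: CNB (2).  Cycles `z` of `↥S` in `V = i⁻¹ V0` have `i z = bd e` by hypothesis.  nc: GB.nc.  add: OMB (2).  loc: OMB (3) with `A = i O` (a path in `O`; `i z ∈ cin (L y)ᶜ` for `y ∈ O`).  cpt: SMW (2).  bnd: OMB (4): `i e ∈ cin (i Q) 2 ⊆ cin (L x)ᶜ` for `x ∉ Q`.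
sml: SMW (1) for an open set `U'` of `P` with `i⁻¹ U' = U`.  one: EXW for an open set `O'` of `P` with `i⁻¹ O' = O`, and `O' ∩ V0`: `e₁` comes from `↥S` (PSH (5)), `z = bd e₁`.  arn: `D` arc or point of `↥S`, `i D` is an arc or a point of `P`; `PP (i D) 2`: `HM.low` for a point; for an arc RAY with `h` from LIN (4) in `P` (`i D` is the arc `i ∘ γ`; everything is compact); ARQ; `Dᶜ` is nonempty because `S` is not compact.  lco: LCQ. -/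
def StWNL : Prop := ∀ (P : Type) [TopologicalSpace P] (r : P → ℝ) (R : ℝ → P → P) (dg : P → Ch P 3 → ℤ), GB P r R dg →
  ∀ t : ℝ, 0 < t → t < 1 → LocallyPathConnectedSpace ↥{y : P | r y = t} ∧ PathConnectedSpace ↥{y : P | r y = t} ∧
    ∀ V0 : Set P, IsOpen V0 → (∀ z ∈ cin ({y : P | r y = t} ∩ V0) 1, bd 0 z = 0 → ∃ e : Ch P 2, bd 1 e = z) →
      WN ↥{y : P | r y = t} (wS r R dg {y : P | r y = t}) (Subtype.val ⁻¹' V0)

/-- WNX.  Surfaces which are graphs over a level satisfy the winding number interface.  Uses `StRCK`, `StWNL`.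
PROOF.  RCK with `c = (1 + a)/2`: `{r' = c} = S`, `wS r' R' dg S = wS r R dg S` because `Up r' R' = Up r R`, `Dn r' R' = Dn r R`.  WNL for `r'`, `R'`, `c`. -/
def StWNX : Prop := ∀ (P : Type) [TopologicalSpace P] (r : P → ℝ) (R : ℝ → P → P) (dg : P → Ch P 3 → ℤ), GB P r R dg →
  ∀ (a : ℝ) (lam : P → ℝ) (S : Set P), 0 < a → a < 1 → Continuous lam → (∀ y, a < lam y ∧ lam y < 1) → S = {y : P | r y = lam (R a y)} →
    LocallyPathConnectedSpace ↥S ∧ PathConnectedSpace ↥S ∧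
    ∀ V0 : Set P, IsOpen V0 → (∀ z ∈ cin (S ∩ V0) 1, bd 0 z = 0 → ∃ e : Ch P 2, bd 1 e = z) → WN ↥S (wS r R dg S) (Subtype.val ⁻¹' V0)

/-- BX1.  Boxes from local semiflows.  Uses `StOP3`, `StOPN`, `StPSH`.
PROOF.  `X` with a metric `d`; `N₃ ∋ x` from OP3 (1).  `ρ > 0` with compact closed ball `B = closedBall x ρ ⊆ N ∩ N₃`.  Uniform continuity of `Φ` on `[0,ε] × B`: `δ₀ ∈ (0, ε]` with `d (Φ s y) y < ρ / 8` for `0 ≤ s ≤ δ₀`, `y ∈ B`.  `r₀ = rr x`, `α = r₀ - δ₀/3`, `β = r₀ + δ₀/3`.  For `y ∈ B`, `α ≤ rr y ≤ β` let `foot y = Φ (rr y - α) y` (`0 ≤ rr y - α ≤ δ₀`).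
`U = {y | d y x < ρ / 2, α < rr y < β, d (foot y) x < ρ / 4}`, open, contains `x`.  For `y ∈ U`, `0 ≤ s ≤ rr y - α'`, `α' > α`: `Φ s y ∈ B ⊆ N`, `rr (Φ s y) = rr y - s`, `foot (Φ s y) = foot y` (semigroup property), `d (Φ s y) x ≤ d (Φ s y) y + d y (foot y) + d (foot y) x < ρ / 2`: `Φ s y ∈ U`.  `r' y = (rr y - α) / (β - α)`, `R' t y = Φ (max 0 (rr y - α - t (β - α))) y` for `t > 0` (`R' t y = y` for `t ≤ 0`): a `Flow` on `↥U`.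
Box.cpt: `C ⊆ {r' = t}` compact in `↥U`, `M = {y ∈ U | t ≤ r' y ≤ t', R' t y ∈ C}`.  Let `y_n ∈ M`; a subsequence converges to `y ∈ B`, `d y x ≤ ρ/2`; `t ≤ r' y ≤ t' < 1` (formula), `Φ (..) y = lim R' t y_n ∈ C ⊆ U`; so `foot y = foot (Φ (..) y)` is at distance `< ρ/4` from `x` and `d y x < ρ/8 + ρ/4 < ρ/2`: `y ∈ U`, `y ∈ M`.  (The image of `M` in the compact metric space `B` is closed, so compact; `U → X` is an embedding.)
`HM ↥U` (OPN), `WS3 ↥U dg` (OP3 (1), `U ⊆ B ⊆ N₃`), `LH1 ↥U` (from `LH1 X`, PSH), metrizable, locally compact, locally path connected (open subspace). -/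
def StBX1 : Prop := ∀ (X : Type) [TopologicalSpace X] [TopologicalSpace.MetrizableSpace X] [LocallyCompactSpace X] [LocallyPathConnectedSpace X], HM X → LH1 X →
  ∀ (x : X) (N : Set X) (ε : ℝ) (rr : X → ℝ) (Φ : ℝ → X → X), IsOpen N → x ∈ N → 0 < ε → ContinuousOn rr N →
    ContinuousOn (fun p : ℝ × X => Φ p.1 p.2) (Icc 0 ε ×ˢ N) → (∀ y ∈ N, Φ 0 y = y) →
    (∀ y ∈ N, ∀ s s' : ℝ, 0 ≤ s → 0 ≤ s' → s + s' ≤ ε → Φ s' y ∈ N → Φ (s + s') y = Φ s (Φ s' y)) →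
    (∀ y ∈ N, ∀ s : ℝ, 0 ≤ s → s ≤ ε → Φ s y ∈ N → rr (Φ s y) = rr y - s) →
    ∃ (U : Set X) (r : ↥U → ℝ) (R : ℝ → ↥U → ↥U) (dg : ↥U → Ch ↥U 3 → ℤ), IsOpen U ∧ x ∈ U ∧ SB ↥U r R dg

/-- SBX.  Good boxes.  Uses `StOP3`, `StOPN`, `StPSH`, `StLPL`, `StUPC`, `StNIS`, `StBEX`, `StFLW`.
PROOF.  `0 < a < r x`, `c₁ = R_a x`, `S = S_a`, locally path connected (LPL).  `C₀` = the path component of `c₁` in `S`, open in `S`; by NIS there is `y₀ ∈ C₀`, `y₀ ≠ c₁` (`C₀` is open in `S` and not `{c₁}`).  `O` = the path component of `c₁` in `C₀ ∖ {y₀}`: open in `S`, path connected, not compact (otherwise it is open and closed in `S`, contains the connected set `C₀`, but `y₀ ∉ O`).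
`U = {y | a < r y, R_a y ∈ O}`, open and path connected by UPC, `x ∈ U`.  `r' y = (r y - a)/(1 - a)`, `R' t y = R (a + t (1 - a)) y` (in `U` for `t > 0`).  `Flow` clear.  Box.cpt: `C ⊆ {r' = t}` compact in `↥U`, `τ = a + t (1 - a)`: `{y ∈ U | τ ≤ r y ≤ τ', R_τ y ∈ C}` = `{y ∈ P | τ ≤ r y ≤ τ', R_τ y ∈ C}` (`R_a y = R_a (R_τ y) ∈ O`), compact.  `HM` (OPN), `WS3` (OP3 (2)), `LH1` (PSH, from `LH1 P`).
nc: a level `{y ∈ U | r y = τ}` is mapped by `R_a` onto `O` (BEX), `O` is not compact. -/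
def StSBX : Prop := ∀ (P : Type) [TopologicalSpace P] (r : P → ℝ) (R : ℝ → P → P) (dg : P → Ch P 3 → ℤ), SB P r R dg →
  ∀ x : P, ∃ (U : Set P) (r' : ↥U → ℝ) (R' : ℝ → ↥U → ↥U) (dg' : ↥U → Ch ↥U 3 → ℤ), IsOpen U ∧ x ∈ U ∧ GB ↥U r' R' dg'

end Pool.Agent.Helper58.SF
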